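import Pool.Agent.Lib.MP_e426f4_ag.TW.Defs

/-!
# Random diagonal conic bundles: definitions for the analytic part

`x = 1 + Q0 t`; the value of a form at the `t`-th point of the line is
`yz t (a, b) = al t + be * (a * (1 + Q0 * t) + Q0 * b)`, `1 ≤ a, b ≤ Y`, `N ≤ t < 2 N`.
-/

set_option autoImplicit false

namespace RcHP

open Finset TwHP

/-- `∏_{p ≤ w} p / (p - 1)` -/
noncomputable def Bw (w : ℕ) : ℝ := ∏ p ∈ (Icc 1 w).filter Nat.Prime, (p : ℝ) / ((p : ℝ) - 1)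

/-- `∏_{p ∣ D, p > w} p / (p - 1)` -/
noncomputable def hh (w D : ℕ) : ℝ := ∏ p ∈ D.primeFactors.filter (w < ·), (p : ℝ) / ((p : ℝ) - 1)

/-- `|t - t'|` -/
def df (t t' : ℕ) : ℕ := ((t : ℤ) - (t' : ℤ)).natAbs

/-- the box `[1, Y]²` -/
def bx (Y : ℕ) : Finset (ℕ × ℕ) := Icc 1 Y ×ˢ Icc 1 Y

/-- the value (an integer) -/
def yz (Q0 be : ℕ) (al : ℕ → ℤ) (t : ℕ) (o : ℕ × ℕ) : ℤ :=
  al t + be * (o.1 * (1 + Q0 * t) + Q0 * o.2)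

/-- the value as a natural number -/
def yv (Q0 be : ℕ) (al : ℕ → ℤ) (t : ℕ) (o : ℕ × ℕ) : ℕ := (yz Q0 be al t o).toNat

/-- Validity of the constants `w`, `Q0`. -/
structure Cst (w Q0 : ℕ) : Prop where
  w2 : 2 ≤ w
  pos : 0 < Q0
  small : ∀ p : ℕ, p.Prime → p ≤ w → p ∣ Q0
  smooth : ∀ p : ℕ, p.Prime → p ∣ Q0 → p ≤ w

/-- Validity of the constants `be`, `et` of a form. -/
structure Fmc (w be et : ℕ) : Prop where
  pos : 0 < be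
  smooth : ∀ p : ℕ, p.Prime → p ∣ be → p ≤ w
  cop : et.Coprime (W8 w)

/-- The hypotheses on the function `al` of a form. -/
structure Lin (w Q0 be et E : ℕ) (c0 H : ℝ) (Y N : ℕ) (al : ℕ → ℤ) : Prop where
  lo : ∀ t ∈ Ico N (2 * N), ∀ o ∈ bx Y, c0 * H ≤ (yz Q0 be al t o : ℝ)
  hi : ∀ t ∈ Ico N (2 * N), ∀ o ∈ bx Y, (yz Q0 be al t o : ℝ) ≤ H * Real.log H ^ E
  res : ∀ t ∈ Ico N (2 * N), ∀ o ∈ bx Y, yz Q0 be al t o ≡ (et : ℤ) [ZMOD (W8 w : ℤ)]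
  cong : ∀ t t' p : ℕ, p.Prime → w < p → (p : ℤ) ∣ (t : ℤ) - (t' : ℤ) → (p : ℤ) ∣ al t - al t'

/-- The triples of parameters for which the `t`-th fibre of a conic has prime coefficients `y 0, y 1, y 2` and
satisfies the two symbol conditions. -/
def Ec (Q0 : ℕ) (be : Fin 3 → ℕ) (al : Fin 3 → ℕ → ℤ) (e1 e2 : ℤ) (Y t : ℕ) :
    Finset (Fin 3 → ℕ × ℕ) :=
  (Fintype.piFinset fun _ : Fin 3 => bx Y).filter fun o =>
    (∀ k, (yv Q0 (be k) (al k) t (o k)).Prime) ∧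
    e1 * (jacobiSym (yv Q0 (be 1) (al 1) t (o 1)) (yv Q0 (be 0) (al 0) t (o 0)) *
      jacobiSym (yv Q0 (be 2) (al 2) t (o 2)) (yv Q0 (be 0) (al 0) t (o 0))) = 1 ∧
    e2 * (jacobiSym (yv Q0 (be 0) (al 0) t (o 0)) (yv Q0 (be 1) (al 1) t (o 1)) *
      jacobiSym (yv Q0 (be 2) (al 2) t (o 2)) (yv Q0 (be 1) (al 1) t (o 1))) = 1

end RcHP
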