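import Pool.Agent.Lib.MP_e426f4_ag.RC.AnDefs
import Pool.Agent.Lib.MP_e426f4_ag.TWL.SWJ

/-!
# RC-ApC: primes in short arithmetic progressions with small modulus

Proof. `X = ⌈H (log H)^E⌉₊ + 1`, `L = log H`.  If `M = 0` trivial (the right side is nonnegative for `H` large).  Otherwise the values
`u + R s`, `s0 ≤ s < s0 + M`, are the integers `v ≡ u` mod `R` in `(a, b]`, `b = u + R (s0 + M - 1)`, `a = b - R M ≥ c0 H - R ≥ c0 H / 2`
(natural numbers).  So the number of primes among them is `π(b; R, u) - π(a; R, u)`, with `u` replaced by `u % R` (as natural number,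
coprime to `R`).  By `Pool.MP_dd84fd_nt.E2.pi_sw` (exponents `A + E + 2` and `E' + 1`, `X`), the count is
`(Li b - Li a) / φ(R) + O(2 X / (log X)^(A+E+2))`, and the error is `≤ H / L^A` for `H` large.  `Li b - Li a = ∑_{a < m ≤ b} 1 / log m`
lies between `R M / log b` and `R M / log a` (`log (a+1)` if you like), where `log b ≤ L + E log L ≤ (1 + ε/2) L`... and
`log a ≥ log (c0 H / 2) ≥ L / (1 + ε/2)`... for `H` large (choose the constants so that both ratios are within `ε`).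
-/

set_option autoImplicit false

namespace RcHP

open Finset TwHP

private lemma ApC_ev (E E' : ℕ) (c0 ε : ℝ) (hc0 : 0 < c0) (hε : 0 < ε) (X0 : ℝ) :
    ∃ H0 : ℝ, ∀ H : ℝ, H0 ≤ H → 2 ≤ Real.log H ∧ X0 ≤ H ∧ Real.log H ^ E' ≤ c0 / 2 * H ∧
      4 ≤ c0 * H ∧ 0 < H ∧ (E : ℝ) * Real.log (Real.log H) ≤ ε * Real.log H ∧
      Real.log H ≤ (1 + ε) * (Real.log H + Real.log (c0 / 2)) := by
  have h1 : ∀ᶠ H : ℝ in Filter.atTop, 2 ≤ Real.log H :=
    Real.tendsto_log_atTop.eventually_ge_atTop 2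
  have h2 : ∀ᶠ H : ℝ in Filter.atTop, X0 ≤ H := Filter.eventually_ge_atTop X0
  have h3 : ∀ᶠ H : ℝ in Filter.atTop, Real.log H ^ E' ≤ c0 / 2 * H := by
    have h := (Real.isLittleO_pow_log_id_atTop (n := E')).bound (show 0 < c0 / 2 by positivity)
    filter_upwards [h, Filter.eventually_gt_atTop 0] with H hH hpos
    have h' := (le_abs_self _).trans hH
    rwa [id, Real.norm_eq_abs, abs_of_pos hpos] at h'
  have h4 : ∀ᶠ H : ℝ in Filter.atTop, 4 / c0 ≤ H := Filter.eventually_ge_atTop _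
  have h5 : ∀ᶠ H : ℝ in Filter.atTop, (0 : ℝ) < H := Filter.eventually_gt_atTop 0
  have h6 : ∀ᶠ H : ℝ in Filter.atTop, (E : ℝ) * Real.log (Real.log H) ≤ ε * Real.log H := by
    have h := (Real.isLittleO_log_id_atTop.comp_tendsto Real.tendsto_log_atTop).bound
      (show 0 < ε / (E + 1) by positivity)
    filter_upwards [h, h1] with H hH hL
    have h' : Real.log (Real.log H) ≤ ε / (E + 1) * Real.log H := by
      have h7 := (le_abs_self _).trans hH
      simp only [Function.comp_apply, id, Real.norm_eq_abs] at h7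
      rwa [abs_of_pos (by linarith : (0 : ℝ) < Real.log H)] at h7
    have hE : (0 : ℝ) ≤ E := Nat.cast_nonneg E
    calc (E : ℝ) * Real.log (Real.log H) ≤ E * (ε / (E + 1) * Real.log H) :=
          mul_le_mul_of_nonneg_left h' hE
      _ = (E / (E + 1)) * (ε * Real.log H) := by ring
      _ ≤ 1 * (ε * Real.log H) := by
          apply mul_le_mul_of_nonneg_right _ (by nlinarith)
          rw [div_le_one (by positivity)]
          linarith
      _ = ε * Real.log H := one_mul _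
  have h7 : ∀ᶠ H : ℝ in Filter.atTop, -((1 + ε) * Real.log (c0 / 2)) / ε ≤ Real.log H :=
    Real.tendsto_log_atTop.eventually_ge_atTop _
  have h := h1.and (h2.and (h3.and (h4.and (h5.and (h6.and h7)))))
  obtain ⟨H0, hH0⟩ := Filter.eventually_atTop.1 h
  refine ⟨H0, fun H hH => ?_⟩
  obtain ⟨a1, a2, a3, a4, a5, a6, a7⟩ := hH0 H hH
  refine ⟨a1, a2, a3, ?_, a5, a6, ?_⟩
  · rw [div_le_iff₀ hc0] at a4
    linarith
  · rw [div_le_iff₀ hε] at a7
    nlinarith

private lemma ApC_count (R : ℕ) (hR : 1 ≤ R) (u s0 : ℤ) (M a b c : ℕ)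
    (ha : (a : ℤ) = u + R * s0 - R) (hb : (b : ℤ) = u + R * (s0 + M - 1))
    (hc : (c : ℤ) ≡ u [ZMOD R]) :
    ((Ico s0 (s0 + M)).filter fun s : ℤ => (u + R * s).toNat.Prime).card =
      ((Ioc a b).filter fun n => n.Prime ∧ n ≡ c [MOD R]).card := by
  have hR0 : (0 : ℤ) < R := by exact_mod_cast hR
  have key : ∀ s : ℤ, s0 ≤ s → (a : ℤ) + R ≤ u + R * s := by
    intro s hs
    have : (R : ℤ) * s0 ≤ R * s := mul_le_mul_of_nonneg_left hs hR0.le
    linarith
  have hdiv : ∀ n : ℕ, n ≡ c [MOD R] → ∃ s : ℤ, (n : ℤ) = u + R * s := by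
    intro n hn
    have h1 : (n : ℤ) ≡ c [ZMOD R] := (Int.natCast_modEq_iff).2 hn
    have h2 : u ≡ (n : ℤ) [ZMOD R] := (h1.trans hc).symm
    obtain ⟨s, hs⟩ := h2.dvd
    exact ⟨s, by linarith⟩
  refine Finset.card_bij' (fun s _ => (u + R * s).toNat) (fun n _ => ((n : ℤ) - u) / R)
    ?_ ?_ ?_ ?_
  · intro s hs
    rw [mem_filter, mem_Ico] at hs
    obtain ⟨⟨h1, h2⟩, h3⟩ := hs
    have h4 := key s h1
    have h5 : (((u + R * s).toNat : ℕ) : ℤ) = u + R * s := Int.toNat_of_nonneg (by omega)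
    rw [mem_filter, mem_Ioc]
    refine ⟨⟨?_, ?_⟩, h3, ?_⟩
    · have : (a : ℤ) < ((u + R * s).toNat : ℕ) := by rw [h5]; linarith
      exact_mod_cast this
    · have : (((u + R * s).toNat : ℕ) : ℤ) ≤ b := by
        rw [h5, hb]
        have : (R : ℤ) * s ≤ R * (s0 + M - 1) := mul_le_mul_of_nonneg_left (by omega) hR0.le
        linarith
      exact_mod_cast this
    · rw [← Int.natCast_modEq_iff, h5]
      refine Int.ModEq.trans ?_ hc.symm
      exact (Int.modEq_iff_dvd.2 ⟨-s, by ring⟩)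
  · intro n hn
    rw [mem_filter, mem_Ioc] at hn
    obtain ⟨⟨h1, h2⟩, h3, h4⟩ := hn
    obtain ⟨s, hs⟩ := hdiv n h4
    have h5 : ((n : ℤ) - u) / R = s := by
      rw [hs, add_sub_cancel_left, Int.mul_ediv_cancel_left _ hR0.ne']
    show ((n : ℤ) - u) / R ∈ _
    rw [h5, mem_filter, mem_Ico]
    refine ⟨⟨?_, ?_⟩, ?_⟩
    · by_contra hlt
      have h6 : (R : ℤ) * s ≤ R * (s0 - 1) := mul_le_mul_of_nonneg_left (by omega) hR0.le
      have h7 : (a : ℤ) < n := by exact_mod_cast h1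
      rw [hs, ha] at h7
      linarith
    · by_contra hlt
      have h6 : (R : ℤ) * (s0 + M) ≤ R * s := mul_le_mul_of_nonneg_left (by omega) hR0.le
      have h7 : (n : ℤ) ≤ b := by exact_mod_cast h2
      rw [hs, hb] at h7
      have : (R : ℤ) * (s0 + M - 1) = R * (s0 + M) - R := by ring
      linarith
    · rw [← hs, Int.toNat_natCast]
      exact h3
  · intro s hs
    rw [mem_filter, mem_Ico] at hs
    obtain ⟨⟨h1, h2⟩, h3⟩ := hs
    have h4 := key s h1
    have h5 : (((u + R * s).toNat : ℕ) : ℤ) = u + R * s := Int.toNat_of_nonneg (by omega)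
    show ((((u + R * s).toNat : ℕ) : ℤ) - u) / R = s
    rw [h5, add_sub_cancel_left, Int.mul_ediv_cancel_left _ hR0.ne']
  · intro n hn
    rw [mem_filter, mem_Ioc] at hn
    obtain ⟨⟨h1, h2⟩, h3, h4⟩ := hn
    obtain ⟨s, hs⟩ := hdiv n h4
    have h5 : ((n : ℤ) - u) / R = s := by
      rw [hs, add_sub_cancel_left, Int.mul_ediv_cancel_left _ hR0.ne']
    show (u + R * (((n : ℤ) - u) / R)).toNat = n
    rw [h5, ← hs, Int.toNat_natCast]

private lemma ApC_split (R c a b : ℕ) (hab : a ≤ b) :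
    (((Ioc a b).filter fun n => n.Prime ∧ n ≡ c [MOD R]).card : ℝ) =
      (((Icc 1 b).filter (fun n => n.Prime ∧ n ≡ c [MOD R])).card : ℝ) -
        (((Icc 1 a).filter (fun n => n.Prime ∧ n ≡ c [MOD R])).card : ℝ) := by
  rw [eq_sub_iff_add_eq, ← Nat.cast_add, Nat.cast_inj, ← Finset.card_union_of_disjoint]
  · congr 1
    ext p
    simp only [mem_union, mem_filter, mem_Ioc, mem_Icc]
    constructor
    · rintro (⟨⟨h1, h2⟩, h3⟩ | ⟨⟨h1, h2⟩, h3⟩)
      · exact ⟨⟨by omega, h2⟩, h3⟩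
      · exact ⟨⟨h1, by omega⟩, h3⟩
    · rintro ⟨⟨h1, h2⟩, h3⟩
      rcases Nat.lt_or_ge a p with h | h
      · exact Or.inl ⟨⟨h, h2⟩, h3⟩
      · exact Or.inr ⟨⟨h1, h⟩, h3⟩
  · rw [Finset.disjoint_left]
    intro p hp hp'
    simp only [mem_filter, mem_Ioc, mem_Icc] at hp hp'
    omega

private lemma ApC_Li (a b : ℕ) (ha : 1 ≤ a) (hab : a ≤ b) :
    Pool.MP_dd84fd_nt.E2.Li b - Pool.MP_dd84fd_nt.E2.Li a =
      ∑ m ∈ Ioc a b, 1 / Real.log (m : ℝ) := by
  unfold Pool.MP_dd84fd_nt.E2.Li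
  rw [sub_eq_iff_eq_add, ← Finset.sum_union]
  · congr 1
    ext m
    simp only [mem_union, mem_Ioc, mem_Icc]
    omega
  · rw [Finset.disjoint_left]
    intro m hm hm'
    simp only [mem_Ioc, mem_Icc] at hm hm'
    omega

theorem apc (E E' A : ℕ) (c0 ε : ℝ) (hc0 : 0 < c0) (hε : 0 < ε) : ∃ H0 : ℝ, ∀ H : ℝ, H0 ≤ H →
    ∀ R : ℕ, 1 ≤ R → (R : ℝ) ≤ Real.log H ^ E' → ∀ (u s0 : ℤ) (M : ℕ),
    (∀ s : ℤ, s0 ≤ s → s < s0 + M → c0 * H ≤ ((u + R * s : ℤ) : ℝ) ∧
      ((u + R * s : ℤ) : ℝ) ≤ H * Real.log H ^ E) → IsCoprime u (R : ℤ) →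
    |((((Ico s0 (s0 + M)).filter fun s : ℤ => (u + R * s).toNat.Prime).card : ℕ) : ℝ) -
        M * ((R : ℝ) / Nat.totient R) / Real.log H| ≤
      ε * (M * ((R : ℝ) / Nat.totient R) / Real.log H) + H / Real.log H ^ A := by
  obtain ⟨X0, hX0⟩ := Pool.MP_dd84fd_nt.E2.pi_sw (A + E + 2) E'
  obtain ⟨H0, hH0⟩ := ApC_ev E E' c0 ε hc0 hε (X0 : ℝ)
  refine ⟨H0, fun H hH R hR hRL u s0 M hval hcop => ?_⟩
  obtain ⟨e1, e2, e3, e4, e5, e6, e7⟩ := hH0 H hH
  set L := Real.log H with hL
  have hL0 : 0 < L := by linarith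
  rcases Nat.eq_zero_or_pos M with hM | hM
  · subst hM
    have : ((Ico s0 (s0 + ((0 : ℕ) : ℤ))).filter fun s : ℤ => (u + R * s).toNat.Prime) = ∅ := by
      rw [Nat.cast_zero, add_zero, Ico_self, filter_empty]
    rw [this, card_empty]
    simp only [Nat.cast_zero, zero_mul, zero_div, sub_zero, abs_zero, mul_zero, zero_add]
    positivity
  · have hR0 : (0 : ℝ) < R := by exact_mod_cast hR
    have hRz : (0 : ℤ) < R := by exact_mod_cast hR
    -- the ends
    have hlo := (hval s0 le_rfl (by omega)).1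
    have hhi := (hval (s0 + M - 1) (by omega) (by omega)).2
    have hRc : (R : ℝ) ≤ c0 / 2 * H := hRL.trans e3
    have haR : c0 / 2 * H ≤ ((u + R * s0 - R : ℤ) : ℝ) := by
      push_cast at hlo ⊢
      linarith
    have ha0 : 0 ≤ u + R * s0 - R := by
      have : (0 : ℝ) ≤ ((u + R * s0 - R : ℤ) : ℝ) := le_trans (by positivity) haR
      exact_mod_cast this
    obtain ⟨a, ha⟩ := Int.eq_ofNat_of_zero_le ha0
    have hb0 : 0 ≤ u + R * (s0 + M - 1) := by
      have : (R : ℤ) * s0 ≤ R * (s0 + M - 1) := mul_le_mul_of_nonneg_left (by omega) hRz.le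
      linarith
    obtain ⟨b, hb⟩ := Int.eq_ofNat_of_zero_le hb0
    have haH : c0 / 2 * H ≤ (a : ℝ) := by
      have : ((u + R * s0 - R : ℤ) : ℝ) = (a : ℝ) := by rw [ha]; simp
      rwa [this] at haR
    have hbH : (b : ℝ) ≤ H * L ^ E := by
      have : ((u + R * (s0 + M - 1) : ℤ) : ℝ) = (b : ℝ) := by rw [hb]; simp
      rwa [this] at hhi
    have hbaz : (b : ℤ) = a + R * M := by
      rw [← hb, ← ha]
      ring
    have hba : b = a + R * M := by exact_mod_cast hbaz
    have hab : a ≤ b := by rw [hba]; exact Nat.le_add_right _ _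
    have ha2 : 2 ≤ a := by
      have : (2 : ℝ) ≤ (a : ℝ) := by linarith
      exact_mod_cast this
    -- the residue
    have hcz : 0 ≤ u % R := Int.emod_nonneg _ hRz.ne'
    obtain ⟨c, hc⟩ := Int.eq_ofNat_of_zero_le hcz
    have hcm : (c : ℤ) ≡ u [ZMOD R] := by
      rw [← hc]
      exact Int.mod_modEq u R
    have hcc : Nat.Coprime c R := by
      rw [← Nat.isCoprime_iff_coprime, ← hc]
      have h1 : IsCoprime (u % R + R * (u / R)) (R : ℤ) := by
        rw [Int.emod_add_mul_ediv]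
        exact hcop
      exact h1.of_add_mul_left_left
    -- the count
    set X := ⌈H * L ^ E⌉₊ with hX
    have hLE : 1 ≤ L ^ E := one_le_pow₀ (by linarith)
    have hHX : H ≤ (X : ℝ) := by
      refine le_trans ?_ (Nat.le_ceil _)
      nlinarith
    have hX2 : (X : ℝ) ≤ 2 * (H * L ^ E) := by
      have h1 : (X : ℝ) < H * L ^ E + 1 := Nat.ceil_lt_add_one (by positivity)
      have h2 : 1 ≤ H := by
        by_contra hlt
        have : Real.log H ≤ 0 := Real.log_nonpos e5.le (not_le.mp hlt).le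
        linarith
      have h3 : 1 ≤ H * L ^ E := by nlinarith
      linarith
    have hLX : L ≤ Real.log X := Real.log_le_log e5 hHX
    have hXX0 : X0 ≤ X := by exact_mod_cast e2.trans hHX
    have hRX : (R : ℝ) ≤ Real.log X ^ E' := hRL.trans (pow_le_pow_left₀ hL0.le hLX E')
    have hbX : b ≤ X := by
      have : (b : ℝ) ≤ (X : ℝ) := hbH.trans (Nat.le_ceil _)
      exact_mod_cast this
    have p1 := hX0 X hXX0 R c hR hRX hcc b hbX
    have p2 := hX0 X hXX0 R c hR hRX hcc a (hab.trans hbX)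
    have hcnt := ApC_count R hR u s0 M a b c (by rw [← ha]) (by rw [← hb]) hcm
    rw [hcnt, ApC_split R c a b hab]
    have herr : 2 * ((X : ℝ) / Real.log X ^ (A + E + 2)) ≤ H / L ^ A := by
      have h1 : (X : ℝ) / Real.log X ^ (A + E + 2) ≤ 2 * (H * L ^ E) / L ^ (A + E + 2) :=
        div_le_div₀ (by positivity) hX2 (by positivity) (pow_le_pow_left₀ hL0.le hLX _)
      have h2 : 2 * (H * L ^ E) / L ^ (A + E + 2) = 2 * (H / L ^ A) / L ^ 2 := by
        field_simp
        ring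
      have h3 : 2 * (2 * (H / L ^ A) / L ^ 2) ≤ H / L ^ A := by
        have h4 : (4 : ℝ) ≤ L ^ 2 := by nlinarith
        have h5 : 0 ≤ H / L ^ A := by positivity
        rw [← mul_div_assoc, div_le_iff₀ (by positivity)]
        nlinarith
      linarith
    -- the logarithmic integral
    have hφ : (0 : ℝ) < Nat.totient R := by exact_mod_cast Nat.totient_pos.2 hR
    have hLi := ApC_Li a b (by omega) hab
    have hterm : ∀ m ∈ Ioc a b, |1 / Real.log (m : ℝ) - 1 / L| ≤ ε / L := by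
      intro m hm
      rw [mem_Ioc] at hm
      have hm1 : c0 / 2 * H ≤ (m : ℝ) := haH.trans (by exact_mod_cast hm.1.le)
      have hm2 : (m : ℝ) ≤ H * L ^ E := le_trans (by exact_mod_cast hm.2) hbH
      have hm0 : (0 : ℝ) < m := lt_of_lt_of_le (by positivity) hm1
      have hl1 : L + Real.log (c0 / 2) ≤ Real.log m := by
        have := Real.log_le_log (by positivity) hm1
        rw [Real.log_mul (by positivity) e5.ne'] at this
        linarith
      have hl2 : Real.log m ≤ (1 + ε) * L := by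
        have := Real.log_le_log hm0 hm2
        rw [Real.log_mul e5.ne' (by positivity), Real.log_pow] at this
        linarith
      have hl3 : L ≤ (1 + ε) * Real.log m :=
        e7.trans (mul_le_mul_of_nonneg_left hl1 (by linarith))
      have hlm : 0 < Real.log m := by
        by_contra hlt
        nlinarith
      rw [abs_le]
      constructor
      · have hm3 : Real.log m ≤ L + ε * Real.log m := by
          rcases le_total L (Real.log m) with hc1 | hc1
          · have := mul_le_mul_of_nonneg_left hc1 hε.le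
            linarith
          · have := mul_nonneg hε.le hlm.le
            linarith
        rw [neg_le_sub_iff_le_add, div_add_div _ _ hlm.ne' hL0.ne',
          div_le_div_iff₀ hL0 (by positivity)]
        have := mul_le_mul_of_nonneg_right hm3 hL0.le
        linarith
      · rw [sub_le_iff_le_add, ← add_div, div_le_div_iff₀ hlm hL0]
        nlinarith
    have hsum : |(Pool.MP_dd84fd_nt.E2.Li b - Pool.MP_dd84fd_nt.E2.Li a) - R * M / L| ≤
        ε * (R * M / L) := by
      have h1 : (R * M / L : ℝ) = ∑ m ∈ Ioc a b, 1 / L := by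
        rw [sum_const, Nat.card_Ioc, hba, Nat.add_sub_cancel_left, nsmul_eq_mul]
        push_cast
        ring
      rw [hLi, h1, ← sum_sub_distrib]
      refine (abs_sum_le_sum_abs _ _).trans ((sum_le_sum hterm).trans ?_)
      rw [mul_sum]
      refine le_of_eq (sum_congr rfl fun m _ => ?_)
      ring
    have hfin : |(Pool.MP_dd84fd_nt.E2.Li b - Pool.MP_dd84fd_nt.E2.Li a) / (Nat.totient R : ℝ) -
        M * ((R : ℝ) / Nat.totient R) / L| ≤ ε * (M * ((R : ℝ) / Nat.totient R) / L) := by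
      have h1 : (Pool.MP_dd84fd_nt.E2.Li b - Pool.MP_dd84fd_nt.E2.Li a) / (Nat.totient R : ℝ) -
          M * ((R : ℝ) / Nat.totient R) / L =
          ((Pool.MP_dd84fd_nt.E2.Li b - Pool.MP_dd84fd_nt.E2.Li a) - R * M / L) /
            (Nat.totient R : ℝ) := by
        ring
      rw [h1, abs_div, abs_of_pos hφ, div_le_iff₀ hφ]
      refine hsum.trans (le_of_eq ?_)
      field_simp
    rw [abs_le] at p1 p2 hfin ⊢
    have h9 : (Pool.MP_dd84fd_nt.E2.Li b - Pool.MP_dd84fd_nt.E2.Li a) / (Nat.totient R : ℝ) =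
      Pool.MP_dd84fd_nt.E2.Li b / (Nat.totient R : ℝ) -
        Pool.MP_dd84fd_nt.E2.Li a / (Nat.totient R : ℝ) := sub_div _ _ _
    rw [h9] at hfin
    constructor
    · linarith [p1.1, p1.2, p2.1, p2.2, hfin.1, hfin.2]
    · linarith [p1.1, p1.2, p2.1, p2.2, hfin.1, hfin.2]

end RcHP
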