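import Pool.Agent.Lib.MP_e426f4_ag.P.Alg
import Pool.Agent.Lib.MP_e426f4_ag.RC.AnDefs

/-!
# Random diagonal conic bundles over products of projective spaces: definitions

`r` conics; the `j`-th form of the `i`-th conic has index `ix i j`; all forms are multihomogeneous in the
blocks of variables `z ⟨l, a⟩`, `0 ≤ a ≤ n l` (notation of `M/Defs.lean`, `P/Defs.lean`).
-/

set_option autoImplicit false

namespace RcHP

open Finset Filter Topology GenHP CIPHP TwHP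

/-- index of the `j`-th form of the `i`-th conic -/
def ix {r : ℕ} (i : Fin r) (j : Fin 3) : Fin (r * 3) := finProdFinEquiv (i, j)

section multi
variable {ι : Type} [Fintype ι] [DecidableEq ι] {n : ι → ℕ} {r : ℕ} {d : Fin (r * 3) → ι → ℕ}

/-- the system with coefficients in `K` -/
def cst (K : Type) [Field K] (A : PSys n d ℤ) : PSys n d K := fun j t => (A j t : K)

/-- The fibre over `s` is smooth and has a point over `K`. -/
def Fib {K : Type} [Field K] (A : PSys n d K) (s : MVar n → K) : Prop :=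
  (∀ j, MF (A j) s ≠ 0) ∧
    ∀ i : Fin r, Iso (MF (A (ix i 0)) s) (MF (A (ix i 1)) s) (MF (A (ix i 2)) s)

/-- The conic bundle has a point over `K` in a smooth fibre. -/
def Sol (A : PSys n d ℤ) (K : Type) [Field K] : Prop := ∃ s : MVar n → K, Fib (cst K A) s

/-- The conic bundle is everywhere locally soluble. -/
def ELS (A : PSys n d ℤ) : Prop := Sol A ℝ ∧ ∀ (p : ℕ) [Fact p.Prime], Sol A ℚ_[p]

/-- equal parities of the degrees of the three forms of each conic -/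
def EqPar (d : Fin (r * 3) → ι → ℕ) : Prop :=
  ∀ (i : Fin r) (j j' : Fin 3) (l : ι), d (ix i j) l % 2 = d (ix i j') l % 2

/-- A good `p`-adic point of level `k`. -/
def GoodP (p : ℕ) [Fact p.Prime] (k : ℕ) (A : PSys n d ℤ) : Prop :=
  ∃ U : MVar n → ℤ, (∀ j, ¬ (p : ℤ) ^ k ∣ MF (A j) U) ∧
    ∀ i : Fin r, Iso ((MF (A (ix i 0)) U : ℤ) : ℚ_[p]) ((MF (A (ix i 1)) U : ℤ) : ℚ_[p])
      ((MF (A (ix i 2)) U : ℤ) : ℚ_[p])

/-- A good real point of level `c`. -/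
def GoodR (c : ℝ) (A : PSys n d ℝ) : Prop :=
  ∃ u : MVar n → ℝ, (∀ v, |u v| ≤ 2) ∧ (∀ j, c ≤ |MF (A j) u|) ∧
    ∀ i : Fin r, Iso (MF (A (ix i 0)) u) (MF (A (ix i 1)) u) (MF (A (ix i 2)) u)

/-- The class theorem: in every class of systems with good local points at the real place and at all
primes `≤ w`, all but a proportion `C / w` have a rational point. -/
def RCLS (n : ι → ℕ) {r : ℕ} (d : Fin (r * 3) → ι → ℕ) : Prop :=
  ∃ C : ℝ, 0 < C ∧ ∀ w : ℕ, 2 ≤ w → ∀ bet : ℝ, 0 < bet → bet ≤ 1 →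
    ∃ rho0 : ℝ, 0 < rho0 ∧ rho0 ≤ 1 ∧ ∀ rho : ℝ, 0 < rho → rho ≤ rho0 → ∀ k : ℕ, 1 ≤ k →
      ∀ A0 : PSys n d ℤ, (∀ (p : ℕ) [Fact p.Prime], p ≤ w → GoodP p k A0) →
      ∀ AC Ainf : PSys n d ℝ, (∀ j t, |Ainf j t| ≤ 1) → (∀ j t, |AC j t - Ainf j t| ≤ rho) →
      GoodR bet Ainf →
      ∀ᶠ H : ℝ in atTop,
        (Set.ncard {A : PSys n d ℤ | (∀ j t, |(A j t : ℝ) - H * AC j t| ≤ rho * H) ∧
          (∀ j t, ((primorial w : ℤ) ^ (k + 3)) ∣ A j t - A0 j t) ∧ ¬ Sol A ℚ} : ℝ) ≤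
          C / w * (2 * rho * H / (primorial w : ℝ) ^ (k + 3)) ^ NP n d

/-- the `t`-th point of the line: block `i0` runs over `(1 + Q0 t) U + Q0 V`, the other blocks are `U` -/
def sl (i0 : ι) (U V : MVar n → ℤ) (Q0 : ℕ) (x : ℤ) : MVar n → ℤ :=
  fun v => if v.1 = i0 then x * U v + Q0 * V v else U v

/-- the class of systems with centre `H * AC`, radius `rho * H` and residue class `A0` modulo `Q0` -/
def Cl (AC : PSys n d ℝ) (A0 : PSys n d ℤ) (Q0 : ℕ) (rho H : ℝ) : Set (PSys n d ℤ) :=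
  {A | (∀ j t, |(A j t : ℝ) - H * AC j t| ≤ rho * H) ∧ ∀ j t, (Q0 : ℤ) ∣ A j t - A0 j t}

/-- the variation `A + Q0 * sg * (a M1 + b M2)` of a system -/
def vr (A M1 M2 : PSys n d ℤ) (Q0 : ℕ) (sg : Fin (r * 3) → ℤ) (o : Fin (r * 3) → ℕ × ℕ) :
    PSys n d ℤ :=
  fun j t => A j t + Q0 * (sg j * ((o j).1 * M1 j t + (o j).2 * M2 j t))

end multi

end RcHP
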