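import Pool.Agent.Lib.MP_e426f4_ag.RC.AtThm
import Pool.Agent.Lib.MP_e426f4_ag.RC.Defs

/-!
# RC-AtFlat: the analytic theorem with the index set `Fin (r * 3)`

Proof. `ix i k = finProdFinEquiv (i, k)`: the map `o ↦ (fun i k => o (ix i k))` is a bijection between the functions `Fin (r * 3) → ℕ × ℕ`
with values in `bx Y` and the nested `piFinset` (inverse: `fun j => o' (finProdFinEquiv.symm j).1 (finProdFinEquiv.symm j).2`); it maps the
exceptional set onto the exceptional set of `at_thm` (`Finset.card_bij'` or `Finset.card_nbij'`).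
-/

set_option autoImplicit false

namespace RcHP

open Finset TwHP

open Classical in
theorem at_flat (r : ℕ) (hr : 1 ≤ r) : ∃ C : ℝ, 0 < C ∧ ∀ w Q0 : ℕ, Cst w Q0 →
    ∀ be et : Fin (r * 3) → ℕ, (∀ j, Fmc w (be j) (et j)) →
    ∀ (E : ℕ) (c0 c1 : ℝ), 0 < c0 → 0 < c1 → ∃ H0 : ℝ, ∀ H : ℝ, H0 ≤ H → ∀ Y : ℕ, c1 * H ≤ Y →
    (Y : ℝ) ≤ H → ∀ N : ℕ, N = ⌊Real.log H ^ (3 * r + 2)⌋₊ → ∀ al : Fin (r * 3) → ℕ → ℤ,
    (∀ j, Lin w Q0 (be j) (et j) E c0 H Y N (al j)) →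
    ∀ e1 e2 : Fin r → ℤ, (∀ i, e1 i = 1 ∨ e1 i = -1) → (∀ i, e2 i = 1 ∨ e2 i = -1) →
    ((((Fintype.piFinset fun _ : Fin (r * 3) => bx Y).filter fun o : Fin (r * 3) → ℕ × ℕ =>
        ∀ t ∈ Ico N (2 * N),
          ∃ i, (fun k => o (ix i k)) ∉
            Ec Q0 (fun k => be (ix i k)) (fun k => al (ix i k)) (e1 i) (e2 i) Y t).card : ℕ) : ℝ) ≤
      C / w * ((Y : ℝ) ^ 2) ^ (3 * r) := by
  obtain ⟨C, hC, h⟩ := at_thm r hr
  refine ⟨C, hC, ?_⟩
  intro w Q0 hcst be et hF E c0 c1 hc0 hc1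
  obtain ⟨H0, hH0⟩ := h w Q0 hcst (fun i k => be (ix i k)) (fun i k => et (ix i k))
    (fun i k => hF (ix i k)) E c0 c1 hc0 hc1
  refine ⟨H0, ?_⟩
  intro H hH Y hY hY' N hN al hal e1 e2 he1 he2
  have h1 := hH0 H hH Y hY hY' N hN (fun i k => al (ix i k)) (fun i k => hal (ix i k)) e1 e2
    he1 he2
  refine le_trans ?_ h1
  rw [Nat.cast_le]
  refine Finset.card_le_card_of_injOn (fun o i k => o (ix i k)) ?_ ?_
  · intro o ho
    simp only [Finset.mem_coe, Finset.mem_filter, Fintype.mem_piFinset] at ho ⊢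
    exact ⟨fun i k => ho.1 (ix i k), ho.2⟩
  · intro o _ o' _ hoo
    funext j
    have h2 := congrFun (congrFun hoo (finProdFinEquiv.symm j).1) (finProdFinEquiv.symm j).2
    simp only [ix, Prod.mk.eta, Equiv.apply_symm_apply] at h2
    exact h2

end RcHP
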