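import Pool.Agent.Lib.MP_e426f4_ag.RC.AnDefs

/-!
# RC-Fibre: the solutions of `a x + Q0 b = v` in the box, `x = 1 + Q0 t`

Proof. `x = 1 + Q0 t` and `Q0` are coprime, so the integral solutions of `a x + Q0 b = v` are `(a1 + Q0 s, b1 - x s)`, `s ∈ ℤ`, for one
solution, e.g. `a1 = v`, `b1 = -t v`.  The conditions `1 ≤ a1 + Q0 s ≤ Y`, `1 ≤ b1 - x s ≤ Y` define an interval of integers `s`
(convex: `Set.OrdConnected`; finite), i.e. `s ∈ [s0, s0 + M)`; put `a0 = a1 + Q0 s0`, `b0 = b1 - x s0`.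
-/

set_option autoImplicit false

namespace RcHP

open Finset TwHP

theorem fibre (Q0 t Y : ℕ) (hQ : 0 < Q0) (v : ℕ) : ∃ (a0 b0 : ℤ) (M : ℕ),
    (∀ s : ℕ, s < M → 1 ≤ a0 + Q0 * s ∧ a0 + Q0 * s ≤ Y ∧ 1 ≤ b0 - (1 + Q0 * t) * s ∧
      b0 - (1 + Q0 * t) * s ≤ Y) ∧
    ((bx Y).filter fun o => o.1 * (1 + Q0 * t) + Q0 * o.2 = v) =
      (range M).image (fun s : ℕ => ((a0 + Q0 * s).toNat, (b0 - (1 + Q0 * t) * s).toNat)) ∧
    Set.InjOn (fun s : ℕ => ((a0 + Q0 * s).toNat, (b0 - (1 + Q0 * t) * s).toNat)) (range M) := by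
  have hQ' : (0 : ℤ) < Q0 := by exact_mod_cast hQ
  have hX : (0 : ℤ) < 1 + Q0 * t := by positivity
  set L1 : ℤ := -(((v : ℤ) - 1) / Q0) with hL1
  set L2 : ℤ := -(((Y : ℤ) + t * v) / (1 + Q0 * t)) with hL2
  set U1 : ℤ := ((Y : ℤ) - v) / Q0 with hU1
  set U2 : ℤ := (-(t * v : ℤ) - 1) / (1 + Q0 * t) with hU2
  set s0 : ℤ := max L1 L2 with hs0
  have key : ∀ s : ℤ, (1 ≤ (v : ℤ) + Q0 * s ∧ (v : ℤ) + Q0 * s ≤ Y ∧
      1 ≤ -(t * v : ℤ) - (1 + Q0 * t) * s ∧ -(t * v : ℤ) - (1 + Q0 * t) * s ≤ Y) ↔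
      (s0 ≤ s ∧ s ≤ min U1 U2) := by
    intro s
    have e1 : L1 ≤ s ↔ 1 ≤ (v : ℤ) + Q0 * s := by
      rw [hL1, neg_le, Int.le_ediv_iff_mul_le hQ']
      constructor <;> intro h <;> nlinarith
    have e2 : L2 ≤ s ↔ -(t * v : ℤ) - (1 + Q0 * t) * s ≤ Y := by
      rw [hL2, neg_le, Int.le_ediv_iff_mul_le hX]
      constructor <;> intro h <;> nlinarith
    have e3 : s ≤ U1 ↔ (v : ℤ) + Q0 * s ≤ Y := by
      rw [hU1, Int.le_ediv_iff_mul_le hQ']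
      constructor <;> intro h <;> nlinarith
    have e4 : s ≤ U2 ↔ 1 ≤ -(t * v : ℤ) - (1 + Q0 * t) * s := by
      rw [hU2, Int.le_ediv_iff_mul_le hX]
      constructor <;> intro h <;> nlinarith
    rw [hs0, max_le_iff, le_min_iff, e1, e2, e3, e4]
    tauto
  refine ⟨v + Q0 * s0, -(t * v : ℤ) - (1 + Q0 * t) * s0, (min U1 U2 + 1 - s0).toNat, ?_, ?_, ?_⟩
  · intro s hs
    have h1 : s0 ≤ s0 + s ∧ s0 + s ≤ min U1 U2 := by
      refine ⟨by omega, by omega⟩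
    obtain ⟨h2, h3, h4, h5⟩ := (key (s0 + s)).2 h1
    refine ⟨by nlinarith, by nlinarith, by nlinarith, by nlinarith⟩
  · ext o
    rw [mem_filter, mem_image]
    constructor
    · rintro ⟨ho, hv⟩
      have hbx : 1 ≤ o.1 ∧ o.1 ≤ Y ∧ 1 ≤ o.2 ∧ o.2 ≤ Y := by
        rw [bx, mem_product, mem_Icc, mem_Icc] at ho
        exact ⟨ho.1.1, ho.1.2, ho.2.1, ho.2.2⟩
      have hvz : (o.1 : ℤ) * (1 + Q0 * t) + Q0 * o.2 = v := by exact_mod_cast hv
      set σ : ℤ := -((t : ℤ) * o.1 + o.2) with hσ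
      have h1 : (v : ℤ) + Q0 * σ = o.1 := by
        rw [hσ, ← hvz]; ring
      have h2 : -(t * v : ℤ) - (1 + Q0 * t) * σ = o.2 := by
        rw [hσ, ← hvz]; ring
      have h3 : s0 ≤ σ ∧ σ ≤ min U1 U2 := by
        rw [← key σ, h1, h2]
        refine ⟨by exact_mod_cast hbx.1, by exact_mod_cast hbx.2.1, by exact_mod_cast hbx.2.2.1,
          by exact_mod_cast hbx.2.2.2⟩
      refine ⟨(σ - s0).toNat, ?_, ?_⟩
      · rw [mem_range]
        omega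
      · have h4 : (((σ - s0).toNat : ℕ) : ℤ) = σ - s0 := Int.toNat_of_nonneg (by omega)
        rw [h4]
        have h5 : (v : ℤ) + Q0 * s0 + Q0 * (σ - s0) = o.1 := by rw [← h1]; ring
        have h6 : -(t * v : ℤ) - (1 + Q0 * t) * s0 - (1 + Q0 * t) * (σ - s0) = o.2 := by
          rw [← h2]; ring
        rw [h5, h6, Int.toNat_natCast, Int.toNat_natCast]
    · rintro ⟨s, hs, rfl⟩
      rw [mem_range] at hs
      have h1 : s0 ≤ s0 + s ∧ s0 + s ≤ min U1 U2 := by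
        refine ⟨by omega, by omega⟩
      obtain ⟨h2, h3, h4, h5⟩ := (key (s0 + s)).2 h1
      have h6 : (v : ℤ) + Q0 * s0 + Q0 * s = v + Q0 * (s0 + s) := by ring
      have h7 : -(t * v : ℤ) - (1 + Q0 * t) * s0 - (1 + Q0 * t) * s =
          -(t * v : ℤ) - (1 + Q0 * t) * (s0 + s) := by ring
      rw [h6, h7]
      refine ⟨?_, ?_⟩
      · rw [bx, mem_product, mem_Icc, mem_Icc]
        simp only
        refine ⟨⟨by omega, by omega⟩, ⟨by omega, by omega⟩⟩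
      · have h8 : (((v + Q0 * (s0 + s) : ℤ).toNat : ℕ) : ℤ) = v + Q0 * (s0 + s) :=
          Int.toNat_of_nonneg (by omega)
        have h9 : (((-(t * v : ℤ) - (1 + Q0 * t) * (s0 + s)).toNat : ℕ) : ℤ) =
            -(t * v : ℤ) - (1 + Q0 * t) * (s0 + s) := Int.toNat_of_nonneg (by omega)
        have h10 : ((((v + Q0 * (s0 + s) : ℤ).toNat * (1 + Q0 * t) +
            Q0 * (-(t * v : ℤ) - (1 + Q0 * t) * (s0 + s)).toNat : ℕ)) : ℤ) = v := by
          rw [Nat.cast_add, Nat.cast_mul, Nat.cast_mul, h8, h9]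
          push_cast
          ring
        exact_mod_cast h10
  · intro s hs s' hs' hss
    rw [coe_range, Set.mem_Iio] at hs hs'
    have h1 : s0 ≤ s0 + s ∧ s0 + s ≤ min U1 U2 := by
      refine ⟨by omega, by omega⟩
    have h1' : s0 ≤ s0 + s' ∧ s0 + s' ≤ min U1 U2 := by
      refine ⟨by omega, by omega⟩
    obtain ⟨h2, h3, h4, h5⟩ := (key (s0 + s)).2 h1
    obtain ⟨h2', h3', h4', h5'⟩ := (key (s0 + s')).2 h1'
    have h6 : (v : ℤ) + Q0 * s0 + Q0 * s = v + Q0 * (s0 + s) := by ring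
    have h6' : (v : ℤ) + Q0 * s0 + Q0 * s' = v + Q0 * (s0 + s') := by ring
    have h7 := congrArg Prod.fst hss
    simp only at h7
    rw [h6, h6'] at h7
    have h8 : (v : ℤ) + Q0 * (s0 + s) = v + Q0 * (s0 + s') := by
      have h9 := Int.toNat_of_nonneg (show (0 : ℤ) ≤ v + Q0 * (s0 + s) by omega)
      have h9' := Int.toNat_of_nonneg (show (0 : ℤ) ≤ v + Q0 * (s0 + s') by omega)
      rw [← h9, ← h9', h7]
    have h10 : (Q0 : ℤ) * s = Q0 * s' := by linarith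
    have h11 := mul_left_cancel₀ (ne_of_gt hQ') h10
    exact_mod_cast h11

end RcHP
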