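import Pool.Agent.Lib.MP_e426f4_ag.RC.OneF
import Pool.Agent.Lib.MP_e426f4_ag.RC.Fibre

/-!
# RC-TwoF: prime values of one form at two points

Proof. `x = 1 + Q0 t`, `x' = 1 + Q0 t'`.  Group the `o = (a, b) ∈ bx Y` by `v = a x + Q0 b ≤ 2 Y x` (then `yz t o = al t + be v`).  For
each `v` with `al t + be v` prime use `fibre`: on the fibre `yz t' (a0 + Q0 s, b0 - x s) = const + be Q0^2 (t' - t) s`, `0 ≤ s < M`, an
arithmetic progression with difference `± R`, `R = be Q0^2 |t - t'|` (replace `s` by `M - 1 - s` if `t' < t`), all of whose terms satisfy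
`lo`, `hi`.  Its terms are coprime to `R`: for a prime `p ∣ R`: either `p ≤ w` (`res`, as in OneF), or `p > w`, `p ∣ t - t'` (`p ∤ be`,
`p ∤ Q0`), and then `yz t' o ≡ yz t o` mod `p` by `cong` (`1 + Q0 t ≡ 1 + Q0 t'`), and `yz t o` is a prime `≥ c0 H > |t - t'| ≥ p`, so
`p ∤ yz t' o`.  `apc` (modulus `R ≤ (log H)^(E0 + 1)`, `A = E0 + 5`, `ε/4`), `tot_two`: the number of `s` with `yz t'` prime is
`≤ (1 + ε/4) M Bw hh / L + H / L^(E0+5)`.  Sum over the `v` with `al t + be v` prime: `∑ M = #{o : yz t o prime} ≤ (1 + ε/4) Y^2 Bw / L`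
(`one_form`), number of `v` at most `2 Y (1 + 2 Q0 N) + 1 ≤ Y L^(E0+1)`.
-/

set_option autoImplicit false

namespace RcHP

open Finset TwHP

private lemma TwoF_dvd_W8 {w p : ℕ} (hp : p.Prime) (hpw : p ≤ w) : p ∣ W8 w := by
  rcases Nat.lt_or_ge p 3 with h | h
  · have h2 : p = 2 := by
      have := hp.two_le
      omega
    subst h2
    exact Dvd.dvd.mul_right (by norm_num) _
  · exact Dvd.dvd.mul_left (Finset.dvd_prod_of_mem _
      (Finset.mem_filter.2 ⟨Finset.mem_Icc.2 ⟨h, hpw⟩, hp⟩)) _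

private lemma TwoF_ap {E E' A : ℕ} {c0 ε H : ℝ}
    (hap : ∀ R : ℕ, 1 ≤ R → (R : ℝ) ≤ Real.log H ^ E' → ∀ (u s0 : ℤ) (M : ℕ),
      (∀ s : ℤ, s0 ≤ s → s < s0 + M → c0 * H ≤ ((u + R * s : ℤ) : ℝ) ∧
        ((u + R * s : ℤ) : ℝ) ≤ H * Real.log H ^ E) → IsCoprime u (R : ℤ) →
      |((((Ico s0 (s0 + M)).filter fun s : ℤ => (u + R * s).toNat.Prime).card : ℕ) : ℝ) -
          M * ((R : ℝ) / Nat.totient R) / Real.log H| ≤
        ε * (M * ((R : ℝ) / Nat.totient R) / Real.log H) + H / Real.log H ^ A)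
    (R : ℕ) (hR : 1 ≤ R) (hRL : (R : ℝ) ≤ Real.log H ^ E') (M : ℕ) (U dlt : ℤ)
    (hd : dlt = R ∨ dlt = -R)
    (hval : ∀ s : ℕ, s < M → c0 * H ≤ ((U + dlt * s : ℤ) : ℝ) ∧
      ((U + dlt * s : ℤ) : ℝ) ≤ H * Real.log H ^ E) (hcop : IsCoprime U (R : ℤ)) :
    ((((range M).filter fun s : ℕ => (U + dlt * s).toNat.Prime).card : ℕ) : ℝ) ≤
      (1 + ε) * (M * ((R : ℝ) / Nat.totient R) / Real.log H) + H / Real.log H ^ A := by
  rcases hd with hd | hd
  · have h1 := hap R hR hRL U 0 M (fun s hs1 hs2 => by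
      obtain ⟨k, rfl⟩ := Int.eq_ofNat_of_zero_le hs1
      have h2 := hval k (by omega)
      rw [hd] at h2
      exact h2) hcop
    have h3 : ((range M).filter fun s : ℕ => (U + dlt * s).toNat.Prime).card ≤
        ((Ico (0 : ℤ) (0 + M)).filter fun s : ℤ => (U + R * s).toNat.Prime).card := by
      refine Finset.card_le_card_of_injOn (fun s : ℕ => (s : ℤ)) ?_ ?_
      · intro s hs
        rw [mem_coe, mem_filter, mem_range] at hs
        rw [mem_coe, mem_filter, mem_Ico]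
        refine ⟨by constructor <;> [positivity; (simp only; omega)], ?_⟩
        rw [← hd]
        exact hs.2
      · intro s _ s' _ h
        simp only at h
        exact_mod_cast h
    have h4 := (abs_le.1 h1).2
    have h5 : ((((range M).filter fun s : ℕ => (U + dlt * s).toNat.Prime).card : ℕ) : ℝ) ≤
      ((((Ico (0 : ℤ) (0 + M)).filter fun s : ℤ => (U + R * s).toNat.Prime).card : ℕ) : ℝ) := by
      exact_mod_cast h3
    linarith
  · have hcop' : IsCoprime (U - R * ((M : ℤ) - 1)) (R : ℤ) := by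
      have h2 : U - R * ((M : ℤ) - 1) = U + R * (-((M : ℤ) - 1)) := by ring
      rw [h2]
      exact IsCoprime.add_mul_left_left hcop _
    have h1 := hap R hR hRL (U - R * ((M : ℤ) - 1)) 0 M (fun s hs1 hs2 => by
      obtain ⟨k, rfl⟩ := Int.eq_ofNat_of_zero_le hs1
      have h2 := hval (M - 1 - k) (by omega)
      have h3 : U + dlt * ((M - 1 - k : ℕ) : ℤ) = U - R * ((M : ℤ) - 1) + R * (k : ℤ) := by
        have h4 : ((M - 1 - k : ℕ) : ℤ) = (M : ℤ) - 1 - k := by omega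
        rw [h4, hd]
        ring
      rw [h3] at h2
      exact h2) hcop'
    have h3 : ((range M).filter fun s : ℕ => (U + dlt * s).toNat.Prime).card ≤
        ((Ico (0 : ℤ) (0 + M)).filter fun s : ℤ =>
          (U - R * ((M : ℤ) - 1) + R * s).toNat.Prime).card := by
      refine Finset.card_le_card_of_injOn (fun s : ℕ => (M : ℤ) - 1 - (s : ℤ)) ?_ ?_
      · intro s hs
        rw [mem_coe, mem_filter, mem_range] at hs
        rw [mem_coe, mem_filter, mem_Ico]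
        refine ⟨by constructor <;> (simp only; omega), ?_⟩
        have h4 : U - R * ((M : ℤ) - 1) + R * ((M : ℤ) - 1 - (s : ℤ)) = U + dlt * s := by
          rw [hd]
          ring
        rw [h4]
        exact hs.2
      · intro s _ s' _ h
        simp only at h
        omega
    have h4 := (abs_le.1 h1).2
    have h5 : ((((range M).filter fun s : ℕ => (U + dlt * s).toNat.Prime).card : ℕ) : ℝ) ≤
      ((((Ico (0 : ℤ) (0 + M)).filter fun s : ℤ =>
        (U - R * ((M : ℤ) - 1) + R * s).toNat.Prime).card : ℕ) : ℝ) := by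
      exact_mod_cast h3
    linarith

private lemma TwoF_ev (be Q0 E0 : ℕ) (c0 c1 ε : ℝ) (hc0 : 0 < c0) (hc1 : 0 < c1) (hε : 0 < ε) :
    ∃ H0 : ℝ, ∀ H : ℝ, H0 ≤ H → 1 ≤ Real.log H ∧ ((be * Q0 ^ 2 : ℕ) : ℝ) ≤ Real.log H ∧
      2 + 3 * (Q0 : ℝ) ≤ Real.log H ∧ Real.log H ^ E0 < c0 * H ∧
      1 ≤ ε * (c1 * Real.log H ^ 2) ∧ 0 < H := by
  have h1 : ∀ᶠ H : ℝ in Filter.atTop, 1 ≤ Real.log H :=
    Real.tendsto_log_atTop.eventually_ge_atTop 1
  have h2 : ∀ᶠ H : ℝ in Filter.atTop, ((be * Q0 ^ 2 : ℕ) : ℝ) ≤ Real.log H :=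
    Real.tendsto_log_atTop.eventually_ge_atTop _
  have h3 : ∀ᶠ H : ℝ in Filter.atTop, 2 + 3 * (Q0 : ℝ) ≤ Real.log H :=
    Real.tendsto_log_atTop.eventually_ge_atTop _
  have h5 : ∀ᶠ H : ℝ in Filter.atTop, (0 : ℝ) < H := Filter.eventually_gt_atTop 0
  have h4 : ∀ᶠ H : ℝ in Filter.atTop, Real.log H ^ E0 < c0 * H := by
    have h := (Real.isLittleO_pow_log_id_atTop (n := E0)).bound (show 0 < c0 / 2 by positivity)
    filter_upwards [h, h5] with H hH hpos
    have h' := (le_abs_self _).trans hH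
    rw [id, Real.norm_eq_abs, abs_of_pos hpos] at h'
    nlinarith
  have h6 : ∀ᶠ H : ℝ in Filter.atTop, 1 / (ε * c1) ≤ Real.log H :=
    Real.tendsto_log_atTop.eventually_ge_atTop _
  have h := h1.and (h2.and (h3.and (h4.and (h5.and h6))))
  obtain ⟨H0, hH0⟩ := Filter.eventually_atTop.1 h
  refine ⟨H0, fun H hH => ?_⟩
  obtain ⟨a1, a2, a3, a4, a5, a6⟩ := hH0 H hH
  refine ⟨a1, a2, a3, a4, ?_, a5⟩
  rw [div_le_iff₀ (mul_pos hε hc1)] at a6
  calc (1 : ℝ) ≤ Real.log H * (ε * c1) := a6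
    _ ≤ (Real.log H * Real.log H) * (ε * c1) := by
        apply mul_le_mul_of_nonneg_right _ (mul_pos hε hc1).le
        nlinarith
    _ = ε * (c1 * Real.log H ^ 2) := by ring

/-- the coprimality of the values -/
private lemma TwoF_cop {w Q0 be et E : ℕ} (hc : Cst w Q0) (hf : Fmc w be et) {c0 H : ℝ}
    {Y N : ℕ} {al : ℕ → ℤ} (hlin : Lin w Q0 be et E c0 H Y N al) {t t' : ℕ}
    (ht : t ∈ Ico N (2 * N)) (ht' : t' ∈ Ico N (2 * N)) (htt : t ≠ t') (hN : (N : ℝ) < c0 * H)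
    {o : ℕ × ℕ} (ho : o ∈ bx Y) (hpr : (yv Q0 be al t o).Prime) :
    IsCoprime (yz Q0 be al t' o) ((be * Q0 ^ 2 * df t t' : ℕ) : ℤ) := by
  rw [Int.isCoprime_iff_gcd_eq_one]
  by_contra hne
  obtain ⟨p, hp, hpd⟩ := Nat.exists_prime_and_dvd hne
  have h1 : (p : ℤ) ∣ yz Q0 be al t' o :=
    (Int.natCast_dvd_natCast.2 hpd).trans (Int.gcd_dvd_left _ _)
  have h2 : (p : ℤ) ∣ ((be * Q0 ^ 2 * df t t' : ℕ) : ℤ) :=
    (Int.natCast_dvd_natCast.2 hpd).trans (Int.gcd_dvd_right _ _)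
  have h2' : p ∣ be * Q0 ^ 2 * df t t' := Int.natCast_dvd_natCast.1 h2
  have hsm : ¬ p ≤ w := by
    intro hpw
    have h3 := TwoF_dvd_W8 hp hpw
    have h4 := hlin.res t' ht' o ho
    have h5 : (p : ℤ) ∣ (et : ℤ) - yz Q0 be al t' o :=
      (Int.natCast_dvd_natCast.2 h3).trans h4.dvd
    have h6 : (p : ℤ) ∣ (et : ℤ) := by
      have := dvd_add h5 h1
      rwa [sub_add_cancel] at this
    have h7 : p ∣ et := Int.natCast_dvd_natCast.1 h6
    have h8 := Nat.dvd_gcd h7 h3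
    rw [Nat.Coprime.gcd_eq_one hf.cop] at h8
    exact hp.one_lt.ne' (Nat.dvd_one.1 h8)
  rcases (Nat.Prime.dvd_mul hp).1 h2' with h3 | h3
  · rcases (Nat.Prime.dvd_mul hp).1 h3 with h4 | h4
    · exact hsm (hf.smooth p hp h4)
    · exact hsm (hc.smooth p hp (hp.dvd_of_dvd_pow h4))
  · have h4 : (p : ℤ) ∣ (t : ℤ) - (t' : ℤ) := by
      unfold df at h3
      exact Int.natCast_dvd.2 h3
    have h5 := hlin.cong t t' p hp (not_le.1 hsm) h4
    have h6 : (p : ℤ) ∣ yz Q0 be al t o := by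
      have h7 : yz Q0 be al t o = yz Q0 be al t' o + ((al t - al t') +
          be * (o.1 * Q0) * ((t : ℤ) - (t' : ℤ))) := by
        unfold yz
        ring
      rw [h7]
      exact dvd_add h1 (dvd_add h5 (Dvd.dvd.mul_left h4 _))
    have h7 : 0 ≤ yz Q0 be al t o := by
      by_contra hneg
      have h8 : yv Q0 be al t o = 0 := by
        unfold yv
        exact Int.toNat_of_nonpos (by omega)
      rw [h8] at hpr
      exact Nat.not_prime_zero hpr
    have h8 : ((yv Q0 be al t o : ℕ) : ℤ) = yz Q0 be al t o := Int.toNat_of_nonneg h7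
    rw [← h8] at h6
    have h9 : p ∣ yv Q0 be al t o := Int.natCast_dvd_natCast.1 h6
    have h10 : p = yv Q0 be al t o := (Nat.prime_dvd_prime_iff_eq hp hpr).1 h9
    have h11 : p ≤ df t t' := by
      refine Nat.le_of_dvd ?_ h3
      unfold df
      rw [Int.natAbs_pos]
      omega
    have h12 : df t t' ≤ N := by
      rw [mem_Ico] at ht ht'
      unfold df
      omega
    have h13 := hlin.lo t ht o ho
    rw [← h8, ← h10] at h13
    have h14 : ((p : ℕ) : ℝ) ≤ N := by exact_mod_cast h11.trans h12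
    push_cast at h13
    linarith

theorem two_form (w Q0 be et E E0 : ℕ) (hc : Cst w Q0) (hf : Fmc w be et) (c0 c1 ε : ℝ) (hc0 : 0 < c0)
    (hc1 : 0 < c1) (hε : 0 < ε) : ∃ H0 : ℝ, ∀ H : ℝ, H0 ≤ H → ∀ Y N : ℕ, c1 * H ≤ Y → (Y : ℝ) ≤ H →
    (N : ℝ) ≤ Real.log H ^ E0 → ∀ al : ℕ → ℤ, Lin w Q0 be et E c0 H Y N al →
    ∀ t ∈ Ico N (2 * N), ∀ t' ∈ Ico N (2 * N), t ≠ t' →
    ((((bx Y).filter fun o => (yv Q0 be al t o).Prime ∧ (yv Q0 be al t' o).Prime).card : ℕ) : ℝ) ≤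
      (1 + ε) * ((Y : ℝ) ^ 2 * (Bw w / Real.log H) ^ 2 * hh w (df t t')) := by
  obtain ⟨ε1, hε1, hε1', hε1''⟩ : ∃ ε1 : ℝ, 0 < ε1 ∧ ε1 ≤ 1 ∧ 4 * ε1 ≤ ε := by
    refine ⟨min ε 1 / 4, ?_, ?_, ?_⟩
    · have := lt_min hε one_pos
      positivity
    · have := min_le_right ε 1
      linarith
    · have := min_le_left ε 1
      linarith
  obtain ⟨H1, hH1⟩ := one_form w Q0 be et E hc hf c0 c1 ε1 hc0 hc1 hε1
  obtain ⟨H2, hH2⟩ := apc E (E0 + 1) (E0 + 5) c0 ε1 hc0 hε1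
  obtain ⟨H3, hH3⟩ := TwoF_ev be Q0 E0 c0 c1 ε1 hc0 hc1 hε1
  refine ⟨max H1 (max H2 H3), fun H hH Y N hY1 hY2 hN al hlin t ht t' ht' htt => ?_⟩
  rw [max_le_iff, max_le_iff] at hH
  have hone := hH1 H hH.1 Y N hY1 hY2 al hlin t ht
  have hap := hH2 H hH.2.1
  obtain ⟨e1, e2, e3, e4, e5, e6⟩ := hH3 H hH.2.2
  obtain ⟨L, hL⟩ : ∃ L, L = Real.log H := ⟨_, rfl⟩
  rw [← hL] at hone hN e1 e2 e3 e4 e5 ⊢
  have hL0 : 0 < L := by linarith
  have hNc : (N : ℝ) < c0 * H := lt_of_le_of_lt hN e4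
  obtain ⟨D, hD⟩ : ∃ D, D = df t t' := ⟨_, rfl⟩
  have hDpos : 0 < D := by
    rw [hD]
    unfold df
    rw [Int.natAbs_pos]
    omega
  have hDN : D ≤ N := by
    rw [mem_Ico] at ht ht'
    rw [hD]
    unfold df
    omega
  obtain ⟨R, hR⟩ : ∃ R, R = be * Q0 ^ 2 * D := ⟨_, rfl⟩
  have hR1 : 1 ≤ R := by
    rw [hR]
    exact Nat.mul_pos (Nat.mul_pos hf.pos (pow_pos hc.pos 2)) hDpos
  have hRL : (R : ℝ) ≤ Real.log H ^ (E0 + 1) := by
    have h0 : L ^ (E0 + 1) = L * L ^ E0 := by ring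
    rw [hR, ← hL, h0, Nat.cast_mul]
    have h1 : (D : ℝ) ≤ L ^ E0 := by
      have : (D : ℝ) ≤ N := by exact_mod_cast hDN
      linarith
    exact mul_le_mul e2 h1 (Nat.cast_nonneg _) hL0.le
  have htot : (R : ℝ) / Nat.totient R = Bw w * hh w D := by
    rw [hR]
    exact tot_two w Q0 be et D hc hf hDpos
  have hBw := Bw_ge_one w
  have hhh := hh_ge_one w D
  have hBh : 1 ≤ Bw w * hh w D := by nlinarith
  -- the fibres
  obtain ⟨fv, hfv⟩ : ∃ fv : ℕ × ℕ → ℕ, fv = fun o => o.1 * (1 + Q0 * t) + Q0 * o.2 := ⟨_, rfl⟩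
  obtain ⟨P, hP⟩ : ∃ P : Finset (ℕ × ℕ), P = (bx Y).filter fun o => (yv Q0 be al t o).Prime :=
    ⟨_, rfl⟩
  obtain ⟨S, hS⟩ : ∃ S : Finset (ℕ × ℕ), S = (bx Y).filter fun o =>
    (yv Q0 be al t o).Prime ∧ (yv Q0 be al t' o).Prime := ⟨_, rfl⟩
  rw [← hP] at hone
  rw [← hS, ← hD]
  have hSP : S ⊆ P := by
    intro o ho
    rw [hS, mem_filter] at ho
    rw [hP, mem_filter]
    exact ⟨ho.1, ho.2.1⟩
  have hyz : ∀ o, yz Q0 be al t o = al t + be * (fv o : ℤ) := by
    intro o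
    rw [hfv]
    unfold yz
    push_cast
    ring
  have hfib : ∀ v ∈ P.image fv, (((S.filter fun o => fv o = v).card : ℕ) : ℝ) ≤
      (1 + ε1) * ((((P.filter fun o => fv o = v).card : ℕ) : ℝ) * (Bw w * hh w D) / L) +
        H / L ^ (E0 + 5) := by
    intro v hv
    rw [mem_image] at hv
    obtain ⟨o1, ho1, hv1⟩ := hv
    rw [hP, mem_filter] at ho1
    have hprv : ∀ o, fv o = v → (yv Q0 be al t o).Prime := by
      intro o ho
      have h1 : yv Q0 be al t o = yv Q0 be al t o1 := by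
        unfold yv
        rw [hyz, hyz, ho, hv1]
      rw [h1]
      exact ho1.2
    obtain ⟨a0, b0, M, hf1, hf2, hf3⟩ := fibre Q0 t Y hc.pos v
    have hPf : (P.filter fun o => fv o = v) =
        (bx Y).filter fun o => o.1 * (1 + Q0 * t) + Q0 * o.2 = v := by
      ext o
      rw [hP, mem_filter, mem_filter, mem_filter]
      constructor
      · rintro ⟨⟨h1, -⟩, h2⟩
        rw [hfv] at h2
        exact ⟨h1, h2⟩
      · rintro ⟨h1, h2⟩
        have h3 : fv o = v := by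
          rw [hfv]
          exact h2
        exact ⟨⟨h1, hprv o h3⟩, h3⟩
    have hPc : (P.filter fun o => fv o = v).card = M := by
      rw [hPf, hf2, card_image_of_injOn hf3, card_range]
    obtain ⟨U, hU⟩ : ∃ U : ℤ, U = al t' + be * (a0 * (1 + Q0 * t') + Q0 * b0) := ⟨_, rfl⟩
    obtain ⟨dlt, hdlt⟩ : ∃ dlt : ℤ, dlt = be * Q0 ^ 2 * ((t' : ℤ) - t) := ⟨_, rfl⟩
    have hbx : ∀ s : ℕ, s < M →
        ((a0 + Q0 * s).toNat, (b0 - (1 + Q0 * t) * s).toNat) ∈ bx Y := by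
      intro s hs
      obtain ⟨h1, h2, h3, h4⟩ := hf1 s hs
      rw [bx, mem_product, mem_Icc, mem_Icc]
      refine ⟨⟨?_, ?_⟩, ⟨?_, ?_⟩⟩ <;> simp only <;> omega
    have hyz' : ∀ s : ℕ, s < M →
        yz Q0 be al t' ((a0 + Q0 * s).toNat, (b0 - (1 + Q0 * t) * s).toNat) = U + dlt * s := by
      intro s hs
      obtain ⟨h1, h2, h3, h4⟩ := hf1 s hs
      unfold yz
      simp only
      rw [Int.toNat_of_nonneg (by omega), Int.toNat_of_nonneg (by omega), hU, hdlt]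
      ring
    have hSc : (S.filter fun o => fv o = v).card =
        ((range M).filter fun s : ℕ => (U + dlt * s).toNat.Prime).card := by
      have h1 : (S.filter fun o => fv o = v) =
          ((range M).filter fun s : ℕ => (U + dlt * s).toNat.Prime).image
            (fun s : ℕ => ((a0 + Q0 * s).toNat, (b0 - (1 + Q0 * t) * s).toNat)) := by
        ext o
        constructor
        · intro ho
          rw [mem_filter] at ho
          have h2 : o ∈ P.filter fun o => fv o = v := mem_filter.2 ⟨hSP ho.1, ho.2⟩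
          rw [hPf, hf2, mem_image] at h2
          obtain ⟨s, hs, rfl⟩ := h2
          rw [mem_image]
          refine ⟨s, ?_, rfl⟩
          rw [mem_filter]
          refine ⟨hs, ?_⟩
          have h3 := ho.1
          rw [hS, mem_filter] at h3
          have h4 := h3.2.2
          unfold yv at h4
          rw [hyz' s (mem_range.1 hs)] at h4
          exact h4
        · intro ho
          rw [mem_image] at ho
          obtain ⟨s, hs, rfl⟩ := ho
          rw [mem_filter] at hs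
          have h2 : ((a0 + Q0 * s).toNat, (b0 - (1 + Q0 * t) * s).toNat) ∈
              P.filter fun o => fv o = v := by
            rw [hPf, hf2, mem_image]
            exact ⟨s, hs.1, rfl⟩
          rw [mem_filter] at h2
          rw [mem_filter]
          refine ⟨?_, h2.2⟩
          rw [hS, mem_filter]
          have h3 := h2.1
          rw [hP, mem_filter] at h3
          refine ⟨h3.1, h3.2, ?_⟩
          unfold yv
          rw [hyz' s (mem_range.1 hs.1)]
          exact hs.2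
      rw [h1, card_image_of_injOn]
      intro s hs s' hs' h
      rw [mem_coe, mem_filter] at hs hs'
      exact hf3 (mem_coe.2 hs.1) (mem_coe.2 hs'.1) h
    rw [hSc, hPc]
    rcases Nat.eq_zero_or_pos M with hM | hM
    · subst hM
      rw [range_zero, filter_empty, card_empty]
      have h1 : (0 : ℝ) ≤ H / L ^ (E0 + 5) := by positivity
      simp only [Nat.cast_zero, zero_mul, zero_div, mul_zero, zero_add]
      exact h1
    · have hd : dlt = R ∨ dlt = -R := by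
        have h1 : (D : ℤ) = |(t : ℤ) - t'| := by
          rw [hD]
          unfold df
          exact Int.natCast_natAbs _
        rcases le_total (t : ℤ) t' with h2 | h2
        · left
          rw [hdlt, hR]
          push_cast
          rw [h1, abs_of_nonpos (by omega)]
          ring
        · right
          rw [hdlt, hR]
          push_cast
          rw [h1, abs_of_nonneg (by omega)]
          ring
      have hcop : IsCoprime U (R : ℤ) := by
        have h1 := TwoF_cop hc hf hlin ht ht' htt hNc (hbx 0 hM)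
          (hprv _ (by
            have h2 : ((a0 + Q0 * (0 : ℕ)).toNat, (b0 - (1 + Q0 * t) * (0 : ℕ)).toNat) ∈
                P.filter fun o => fv o = v := by
              rw [hPf, hf2, mem_image]
              exact ⟨0, mem_range.2 hM, rfl⟩
            exact (mem_filter.1 h2).2))
        rw [hyz' 0 hM, ← hD, ← hR] at h1
        have h3 : U + dlt * ((0 : ℕ) : ℤ) = U := by
          rw [Nat.cast_zero, mul_zero, add_zero]
        rwa [h3] at h1
      have h4 := TwoF_ap hap R hR1 hRL M U dlt hd (fun s hs => by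
        rw [← hyz' s hs]
        exact ⟨hlin.lo t' ht' _ (hbx s hs), hlin.hi t' ht' _ (hbx s hs)⟩) hcop
      rw [htot, ← hL] at h4
      exact h4
  have hSsum : S.card = ∑ v ∈ P.image fv, (S.filter fun o => fv o = v).card :=
    Finset.card_eq_sum_card_fiberwise fun o ho => mem_coe.2 (mem_image_of_mem fv (hSP ho))
  have hPsum : P.card = ∑ v ∈ P.image fv, (P.filter fun o => fv o = v).card :=
    Finset.card_eq_sum_card_fiberwise fun o ho => mem_coe.2 (mem_image_of_mem fv ho)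
  have hV : (((P.image fv).card : ℕ) : ℝ) ≤ Y * L ^ (E0 + 1) := by
    have h1 : P.image fv ⊆ Icc 1 (Y * (1 + Q0 + 2 * Q0 * N)) := by
      intro v hv
      rw [mem_image] at hv
      obtain ⟨o, ho, rfl⟩ := hv
      rw [hP, mem_filter, bx, mem_product, mem_Icc, mem_Icc] at ho
      obtain ⟨⟨⟨h2, h3⟩, h4, h5⟩, -⟩ := ho
      rw [mem_Ico] at ht
      rw [hfv, mem_Icc]
      constructor
      · simp only
        have : 1 * 1 ≤ o.1 * (1 + Q0 * t) := Nat.mul_le_mul h2 (by omega)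
        omega
      · simp only
        have h6 : o.1 * (1 + Q0 * t) ≤ Y * (1 + Q0 * (2 * N)) :=
          Nat.mul_le_mul h3 (Nat.add_le_add_left (Nat.mul_le_mul_left _ ht.2.le) _)
        have h7 : Q0 * o.2 ≤ Q0 * Y := Nat.mul_le_mul_left _ h5
        calc o.1 * (1 + Q0 * t) + Q0 * o.2 ≤ Y * (1 + Q0 * (2 * N)) + Q0 * Y :=
              Nat.add_le_add h6 h7
          _ = Y * (1 + Q0 + 2 * Q0 * N) := by ring
    have h2 := card_le_card h1
    rw [Nat.card_Icc, Nat.add_sub_cancel] at h2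
    have h3 : (((P.image fv).card : ℕ) : ℝ) ≤ Y * (1 + Q0 + 2 * Q0 * N) := by exact_mod_cast h2
    refine h3.trans (mul_le_mul_of_nonneg_left ?_ (Nat.cast_nonneg _))
    have h4 : (1 : ℝ) ≤ L ^ E0 := one_le_pow₀ e1
    have hQ : (0 : ℝ) ≤ Q0 := Nat.cast_nonneg _
    calc (1 : ℝ) + Q0 + 2 * Q0 * N ≤ 1 * L ^ E0 + Q0 * L ^ E0 + 2 * Q0 * L ^ E0 := by
          have h5 : 2 * (Q0 : ℝ) * N ≤ 2 * Q0 * L ^ E0 :=
            mul_le_mul_of_nonneg_left hN (by positivity)
          have h6 : (Q0 : ℝ) ≤ Q0 * L ^ E0 := le_mul_of_one_le_right hQ h4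
          linarith
      _ = (1 + 3 * Q0) * L ^ E0 := by ring
      _ ≤ L * L ^ E0 := by
          apply mul_le_mul_of_nonneg_right _ (by positivity)
          linarith
      _ = L ^ (E0 + 1) := by ring
  have hPle : ((P.card : ℕ) : ℝ) ≤ (1 + ε1) * ((Y : ℝ) ^ 2 * (Bw w / L)) := by
    have := (abs_le.1 hone).2
    linarith
  have hfin : ((S.card : ℕ) : ℝ) ≤ (1 + ε1) * (((P.card : ℕ) : ℝ) * (Bw w * hh w D) / L) +
      (((P.image fv).card : ℕ) : ℝ) * (H / L ^ (E0 + 5)) := by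
    rw [hSsum, Nat.cast_sum]
    refine (Finset.sum_le_sum hfib).trans (le_of_eq ?_)
    rw [Finset.sum_add_distrib, Finset.sum_const, nsmul_eq_mul, ← Finset.mul_sum,
      ← Finset.sum_div, ← Finset.sum_mul, ← Nat.cast_sum, ← hPsum]
  have hYpos : (0 : ℝ) ≤ Y := Nat.cast_nonneg _
  have herr : (((P.image fv).card : ℕ) : ℝ) * (H / L ^ (E0 + 5)) ≤
      ε1 * ((Y : ℝ) ^ 2 * (Bw w / L) ^ 2 * hh w D) := by
    have h1 : (((P.image fv).card : ℕ) : ℝ) * (H / L ^ (E0 + 5)) ≤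
        Y * L ^ (E0 + 1) * (H / L ^ (E0 + 5)) :=
      mul_le_mul_of_nonneg_right hV (by positivity)
    have h2 : (Y : ℝ) * L ^ (E0 + 1) * (H / L ^ (E0 + 5)) = Y * H / L ^ 4 := by
      have h3 : L ^ (E0 + 5) = L ^ (E0 + 1) * L ^ 4 := by ring
      rw [h3]
      field_simp
    have h3 : (Y : ℝ) * H / L ^ 4 ≤ ε1 * ((Y : ℝ) ^ 2 / L ^ 2) := by
      rw [div_le_iff₀ (by positivity)]
      have h4 : ε1 * ((Y : ℝ) ^ 2 / L ^ 2) * L ^ 4 = ε1 * (Y : ℝ) ^ 2 * L ^ 2 := by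
        field_simp
      rw [h4]
      have h5 : (Y : ℝ) * H ≤ Y * (H * (ε1 * (c1 * L ^ 2))) :=
        mul_le_mul_of_nonneg_left (le_mul_of_one_le_right e6.le e5) hYpos
      have h6 : (Y : ℝ) * (H * (ε1 * (c1 * L ^ 2))) = ε1 * Y * L ^ 2 * (c1 * H) := by ring
      have h7 : ε1 * Y * L ^ 2 * (c1 * H) ≤ ε1 * Y * L ^ 2 * Y :=
        mul_le_mul_of_nonneg_left hY1 (by positivity)
      calc (Y : ℝ) * H ≤ ε1 * Y * L ^ 2 * Y := by linarith
        _ = ε1 * (Y : ℝ) ^ 2 * L ^ 2 := by ring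
    have h4 : ε1 * ((Y : ℝ) ^ 2 / L ^ 2) ≤ ε1 * ((Y : ℝ) ^ 2 * (Bw w / L) ^ 2 * hh w D) := by
      apply mul_le_mul_of_nonneg_left _ hε1.le
      have h5 : (Y : ℝ) ^ 2 * (Bw w / L) ^ 2 * hh w D =
          (Y : ℝ) ^ 2 / L ^ 2 * (Bw w ^ 2 * hh w D) := by
        rw [div_pow]
        ring
      rw [h5]
      apply le_mul_of_one_le_right (by positivity)
      nlinarith
    calc (((P.image fv).card : ℕ) : ℝ) * (H / L ^ (E0 + 5)) ≤ Y * H / L ^ 4 := by
          rw [← h2]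
          exact h1
      _ ≤ _ := h3.trans h4
  have hmain : (1 + ε1) * (((P.card : ℕ) : ℝ) * (Bw w * hh w D) / L) ≤
      (1 + ε1) ^ 2 * ((Y : ℝ) ^ 2 * (Bw w / L) ^ 2 * hh w D) := by
    have h1 : ((P.card : ℕ) : ℝ) * (Bw w * hh w D) / L ≤
        (1 + ε1) * ((Y : ℝ) ^ 2 * (Bw w / L)) * (Bw w * hh w D) / L := by
      apply div_le_div_of_nonneg_right _ hL0.le
      exact mul_le_mul_of_nonneg_right hPle (by linarith)
    have h2 := mul_le_mul_of_nonneg_left h1 (by linarith : (0 : ℝ) ≤ 1 + ε1)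
    refine h2.trans (le_of_eq ?_)
    field_simp
  have hX : 0 ≤ (Y : ℝ) ^ 2 * (Bw w / L) ^ 2 * hh w D := by
    have : 0 ≤ hh w D := by linarith
    positivity
  calc ((S.card : ℕ) : ℝ) ≤ (1 + ε1) ^ 2 * ((Y : ℝ) ^ 2 * (Bw w / L) ^ 2 * hh w D) +
        ε1 * ((Y : ℝ) ^ 2 * (Bw w / L) ^ 2 * hh w D) := by linarith
    _ = ((1 + ε1) ^ 2 + ε1) * ((Y : ℝ) ^ 2 * (Bw w / L) ^ 2 * hh w D) := by ring
    _ ≤ (1 + ε) * ((Y : ℝ) ^ 2 * (Bw w / L) ^ 2 * hh w D) := by
        apply mul_le_mul_of_nonneg_right _ hX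
        nlinarith

end RcHP
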