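import Pool.Agent.Lib.MP_e426f4_ag.RC.Jtwo
import Pool.Agent.Lib.MP_e426f4_ag.RC.TwoF

/-!
# RC-EPair: upper bound for `Ec t ∩ Ec t'`

Proof. `1_{Ec t ∩ Ec t'} ≤ (S(t)/4) (S(t')/4)` on `PR(t) ∩ PR(t')`, `S = ∑ chi` (`chi_sum_nonneg`, `chi_sum_eq`).  Expand: 16 terms
`chi(b1,b2)(t) chi(c1,c2)(t')`.  All false: the number `|PR(t) ∩ PR(t')| = ∏_k #{o ∈ bx Y : y k (t), y k (t') prime}
≤ ((1 + ε') Y^2 (Bw/L)^2 hh)^3` (`two_form`).  The others: `j_two` for `(t, t')` if `(b1, b2) ≠ (0, 0)`, for `(t', t)` otherwise, with `A = 6`: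
`≤ ε' (Y^2)^3 / L^6`.  `Bw ≥ 1`, `hh ≥ 1`.
-/

set_option autoImplicit false

namespace RcHP

open Finset TwHP

private theorem EPair_one_le {T : Finset ℕ} (h : ∀ p ∈ T, p.Prime) :
    (1 : ℝ) ≤ ∏ p ∈ T, (p : ℝ) / ((p : ℝ) - 1) := by
  refine Finset.prod_induction _ (fun x => 1 ≤ x)
    (fun a b ha hb => one_le_mul_of_one_le_of_one_le ha hb) le_rfl (fun p hp => ?_)
  have h2 : (2 : ℝ) ≤ p := by exact_mod_cast (h p hp).two_le
  rw [le_div_iff₀ (by linarith)]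
  linarith

private theorem EPair_inter (Q0 : ℕ) (be : Fin 3 → ℕ) (al : Fin 3 → ℕ → ℤ) (Y t t' : ℕ) :
    prs Q0 be al Y t ∩ prs Q0 be al Y t' = Fintype.piFinset (fun k => (bx Y).filter fun o =>
      (yv Q0 (be k) (al k) t o).Prime ∧ (yv Q0 (be k) (al k) t' o).Prime) := by
  ext o
  simp only [prs, yy, mem_inter, mem_filter, Fintype.mem_piFinset]
  constructor
  · rintro ⟨⟨h1, h2⟩, _, h3⟩ k
    exact ⟨h1 k, h2 k, h3 k⟩
  · intro h
    exact ⟨⟨fun k => (h k).1, fun k => (h k).2.1⟩, fun k => (h k).1, fun k => (h k).2.2⟩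

/-- the sum of the characters -/
private noncomputable def EPair_S (e1 e2 : ℤ) (y : Fin 3 → ℕ) : ℝ :=
  ∑ b : Bool × Bool, chi e1 e2 b.1 b.2 y

private theorem EPair_S_eq (e1 e2 : ℤ) (y : Fin 3 → ℕ) : EPair_S e1 e2 y =
    chi e1 e2 false false y + chi e1 e2 true false y + chi e1 e2 false true y +
      chi e1 e2 true true y := by
  unfold EPair_S
  rw [Fintype.sum_prod_type, Fintype.sum_bool, Fintype.sum_bool, Fintype.sum_bool]
  ring

private theorem EPair_chi_ff (e1 e2 : ℤ) (y : Fin 3 → ℕ) : chi e1 e2 false false y = 1 := by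
  simp [chi]

theorem e_pair (w Q0 E E0 : ℕ) (be et : Fin 3 → ℕ) (hc : Cst w Q0) (hf : ∀ k, Fmc w (be k) (et k))
    (c0 c1 ε : ℝ) (hc0 : 0 < c0) (hc1 : 0 < c1) (hε : 0 < ε) :
    ∃ H0 : ℝ, ∀ H : ℝ, H0 ≤ H → ∀ Y N : ℕ, c1 * H ≤ Y → (Y : ℝ) ≤ H → (N : ℝ) ≤ Real.log H ^ E0 →
    ∀ al : Fin 3 → ℕ → ℤ, (∀ k, Lin w Q0 (be k) (et k) E c0 H Y N (al k)) →
    ∀ e1 e2 : ℤ, (e1 = 1 ∨ e1 = -1) → (e2 = 1 ∨ e2 = -1) → ∀ t ∈ Ico N (2 * N), ∀ t' ∈ Ico N (2 * N),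
    t ≠ t' → ((Ec Q0 be al e1 e2 Y t ∩ Ec Q0 be al e1 e2 Y t').card : ℝ) ≤
      (1 / 16 + ε) * (((Y : ℝ) ^ 2 * (Bw w / Real.log H) ^ 2 * hh w (df t t')) ^ 3) := by
  classical
  set e' : ℝ := min 1 ε with he'
  have he'0 : 0 < e' := lt_min one_pos hε
  have he'1 : e' ≤ 1 := min_le_left _ _
  have he'2 : e' ≤ ε := min_le_right _ _
  obtain ⟨H1, hH1⟩ := j_two w Q0 E 6 be et hc hf c0 c1 (ε / 2) hc0 hc1 (by positivity)
  have htwo : ∀ k : Fin 3, ∃ H0 : ℝ, ∀ H : ℝ, H0 ≤ H → ∀ Y N : ℕ, c1 * H ≤ Y → (Y : ℝ) ≤ H →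
    (N : ℝ) ≤ Real.log H ^ E0 → ∀ al : ℕ → ℤ, Lin w Q0 (be k) (et k) E c0 H Y N al →
    ∀ t ∈ Ico N (2 * N), ∀ t' ∈ Ico N (2 * N), t ≠ t' →
    ((((bx Y).filter fun o => (yv Q0 (be k) al t o).Prime ∧
      (yv Q0 (be k) al t' o).Prime).card : ℕ) : ℝ) ≤
      (1 + e') * ((Y : ℝ) ^ 2 * (Bw w / Real.log H) ^ 2 * hh w (df t t')) :=
    fun k => two_form w Q0 (be k) (et k) E E0 hc (hf k) c0 c1 e' hc0 hc1 he'0
  choose H2 hH2 using htwo
  refine ⟨max (max H1 3) (∑ k, |H2 k|), fun H hH Y N hY1 hY2 hN al hal e1 e2 he1 he2 t ht t' ht'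
    hne => ?_⟩
  have hHH1 : H1 ≤ H := le_trans (le_trans (le_max_left _ _) (le_max_left _ _)) hH
  have hH3 : (3 : ℝ) ≤ H := le_trans (le_trans (le_max_right _ _) (le_max_left _ _)) hH
  have hHH2 : ∀ k, H2 k ≤ H := by
    intro k
    refine le_trans (le_abs_self _) (le_trans ?_ (le_trans (le_max_right _ _) hH))
    exact single_le_sum (f := fun k => |H2 k|) (fun _ _ => abs_nonneg _) (mem_univ k)
  have hL : 0 < Real.log H := Real.log_pos (by linarith)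
  set L := Real.log H with hLdef
  set Z : ℝ := (Y : ℝ) ^ 2 * (Bw w / L) ^ 2 * hh w (df t t') with hZ
  have hBw : 1 ≤ Bw w := EPair_one_le (fun p hp => (mem_filter.1 hp).2)
  have hhh : 1 ≤ hh w (df t t') :=
    EPair_one_le (fun p hp => Nat.prime_of_mem_primeFactors (mem_filter.1 hp).1)
  have hZ1 : (Y : ℝ) ^ 2 / L ^ 2 ≤ Z := by
    rw [hZ]
    have h1 : (Y : ℝ) ^ 2 / L ^ 2 = (Y : ℝ) ^ 2 * (1 / L) ^ 2 * 1 := by
      rw [div_pow, one_pow]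
      ring
    rw [h1]
    have h2 : 1 / L ≤ Bw w / L := by gcongr
    gcongr
  have hZ0 : 0 ≤ Z := le_trans (by positivity) hZ1
  have hZ3 : ((Y : ℝ) ^ 2) ^ 3 / L ^ 6 ≤ Z ^ 3 := by
    have h1 : ((Y : ℝ) ^ 2) ^ 3 / L ^ 6 = ((Y : ℝ) ^ 2 / L ^ 2) ^ 3 := by
      rw [div_pow, ← pow_mul L 2 3]
    rw [h1]
    exact pow_le_pow_left₀ (by positivity) hZ1 3
  set P := prs Q0 be al Y t ∩ prs Q0 be al Y t' with hP
  -- the main term
  have hPcard : ((P.card : ℕ) : ℝ) ≤ ((1 + e') * Z) ^ 3 := by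
    rw [hP, EPair_inter, Fintype.card_piFinset, Nat.cast_prod]
    calc ∏ k : Fin 3, ((((bx Y).filter fun o => (yv Q0 (be k) (al k) t o).Prime ∧
          (yv Q0 (be k) (al k) t' o).Prime).card : ℕ) : ℝ) ≤ ∏ _k : Fin 3, ((1 + e') * Z) := by
          refine prod_le_prod (fun _ _ => by positivity) (fun k _ => ?_)
          exact hH2 k H (hHH2 k) Y N hY1 hY2 hN (al k) (hal k) t ht t' ht' hne
      _ = ((1 + e') * Z) ^ 3 := by
          rw [prod_const, card_univ, Fintype.card_fin]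
  -- the sums of characters
  have hT : ∀ b c : Bool × Bool, (b, c) ≠ ((false, false), (false, false)) →
      ∑ o ∈ P, chi e1 e2 b.1 b.2 (yy Q0 be al t o) * chi e1 e2 c.1 c.2 (yy Q0 be al t' o) ≤
        ε / 2 * Z ^ 3 := by
    intro b c hbc
    have hfin : ε / 2 * ((Y : ℝ) ^ 2) ^ 3 / L ^ 6 ≤ ε / 2 * Z ^ 3 := by
      rw [mul_div_assoc]
      gcongr
    by_cases hb : (b.1 || b.2) = true
    · refine le_trans (le_abs_self _) (le_trans ?_ hfin)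
      exact hH1 H hHH1 Y N hY1 hY2 al hal e1 e2 he1 he2 t ht t' ht' hne b.1 b.2 c.1 c.2 hb
    · have hc' : (c.1 || c.2) = true := by
        by_contra hcon
        apply hbc
        rcases b with ⟨b1, b2⟩
        rcases c with ⟨c1, c2⟩
        simp only [Bool.or_eq_true, not_or, Bool.not_eq_true] at hb hcon
        rw [hb.1, hb.2, hcon.1, hcon.2]
      refine le_trans (le_abs_self _) (le_trans ?_ hfin)
      have h1 := hH1 H hHH1 Y N hY1 hY2 al hal e1 e2 he1 he2 t' ht' t ht hne.symm c.1 c.2 b.1 b.2 hc'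
      rw [inter_comm] at h1
      refine le_trans (le_of_eq ?_) h1
      congr 1
      exact sum_congr rfl (fun o _ => mul_comm _ _)
  have hT0 : ∑ o ∈ P, chi e1 e2 false false (yy Q0 be al t o) *
      chi e1 e2 false false (yy Q0 be al t' o) = P.card := by
    rw [sum_congr rfl (g := fun _ => (1 : ℝ)) (fun o _ => by
      rw [EPair_chi_ff, EPair_chi_ff, mul_one])]
    simp
  -- the upper bound by the sums
  have hS0 : ∀ y, 0 ≤ EPair_S e1 e2 y := fun y => by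
    rw [EPair_S_eq]
    exact chi_sum_nonneg e1 e2 he1 he2 y
  have hcardS : ((Ec Q0 be al e1 e2 Y t ∩ Ec Q0 be al e1 e2 Y t').card : ℝ) * 16 ≤
      ∑ o ∈ P, EPair_S e1 e2 (yy Q0 be al t o) * EPair_S e1 e2 (yy Q0 be al t' o) := by
    have hsub : Ec Q0 be al e1 e2 Y t ∩ Ec Q0 be al e1 e2 Y t' ⊆ P := by
      intro o ho
      rw [mem_inter, mem_Ec, mem_Ec] at ho
      rw [hP, mem_inter]
      exact ⟨ho.1.1, ho.2.1⟩
    refine le_trans (le_of_eq ?_) (sum_le_sum_of_subset_of_nonneg hsub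
      (fun o _ _ => mul_nonneg (hS0 _) (hS0 _)))
    rw [← nsmul_eq_mul, ← sum_const]
    refine sum_congr rfl (fun o ho => ?_)
    rw [mem_inter, mem_Ec, mem_Ec] at ho
    rw [EPair_S_eq, EPair_S_eq, chi_sum_eq e1 e2 _ ho.1.2.1 ho.1.2.2,
      chi_sum_eq e1 e2 _ ho.2.2.1 ho.2.2.2]
    norm_num
  have hexp : ∑ o ∈ P, EPair_S e1 e2 (yy Q0 be al t o) * EPair_S e1 e2 (yy Q0 be al t' o) =
      ∑ p : (Bool × Bool) × (Bool × Bool), ∑ o ∈ P, chi e1 e2 p.1.1 p.1.2 (yy Q0 be al t o) *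
        chi e1 e2 p.2.1 p.2.2 (yy Q0 be al t' o) := by
    rw [sum_comm]
    refine sum_congr rfl (fun o _ => ?_)
    unfold EPair_S
    rw [sum_mul_sum]
    exact (Fintype.sum_prod_type (fun p : (Bool × Bool) × (Bool × Bool) =>
      chi e1 e2 p.1.1 p.1.2 (yy Q0 be al t o) * chi e1 e2 p.2.1 p.2.2 (yy Q0 be al t' o))).symm
  have hbound : ∑ p : (Bool × Bool) × (Bool × Bool), ∑ o ∈ P,
      chi e1 e2 p.1.1 p.1.2 (yy Q0 be al t o) * chi e1 e2 p.2.1 p.2.2 (yy Q0 be al t' o) ≤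
      ((1 + e') * Z) ^ 3 + 15 * (ε / 2 * Z ^ 3) := by
    rw [← add_sum_erase univ _ (mem_univ ((false, false), (false, false)))]
    refine add_le_add ?_ ?_
    · show ∑ o ∈ P, chi e1 e2 false false (yy Q0 be al t o) *
        chi e1 e2 false false (yy Q0 be al t' o) ≤ _
      rw [hT0]
      exact hPcard
    · refine le_trans (sum_le_card_nsmul _ _ (ε / 2 * Z ^ 3) (fun p hp => ?_)) ?_
      · exact hT p.1 p.2 (mem_erase.1 hp).1
      · rw [card_erase_of_mem (mem_univ _), card_univ, nsmul_eq_mul]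
        have h1 : Fintype.card ((Bool × Bool) × (Bool × Bool)) = 16 := by decide
        rw [h1]
        norm_num
  have hfin : ((1 + e') * Z) ^ 3 + 15 * (ε / 2 * Z ^ 3) ≤ (1 / 16 + ε) * Z ^ 3 * 16 := by
    have h1 : (1 + e') ^ 3 ≤ 1 + 7 * e' := by nlinarith [mul_pos he'0 he'0, sq_nonneg (1 - e')]
    have h2 : (1 + e') ^ 3 + 15 * (ε / 2) ≤ (1 / 16 + ε) * 16 := by linarith
    have h3 : 0 ≤ Z ^ 3 := by positivity
    calc ((1 + e') * Z) ^ 3 + 15 * (ε / 2 * Z ^ 3) = ((1 + e') ^ 3 + 15 * (ε / 2)) * Z ^ 3 := by ring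
      _ ≤ ((1 / 16 + ε) * 16) * Z ^ 3 := mul_le_mul_of_nonneg_right h2 h3
      _ = (1 / 16 + ε) * Z ^ 3 * 16 := by ring
  have h16 := le_trans (le_trans hcardS (le_of_eq hexp)) (le_trans hbound hfin)
  linarith

end RcHP
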