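import Pool.Agent.Lib.MP_e426f4_ag.RC.AnDefs
import Pool.Agent.Lib.MP_e426f4_ag.TWL.Sums

/-!
# RC-Hsum: the mean value of `hh^m`

Proof. `hh w D ^ m = ∏_{p ∣ D, p > w} (1 + g p)`, `g p = (p/(p-1))^m - 1 ≤ C_m / p` (for `p ≥ 2`: `(1 + 1/(p-1))^m - 1 ≤ m 2^m/(p-1)..`)
`= ∑_{e ∣ D, e squarefree, prime factors > w} g(e)`, `g(e) = ∏_{p ∣ e} g p`.  Exchange the sums: for fixed `e` and `t` the number of
`t' ∈ [N, 2N)`, `t' ≠ t`, `e ∣ t - t'` is `≤ N / e` (a window of `N` consecutive integers contains at most `⌈N/e⌉` integers of a class modulo `e`,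
one of them is `t`; `⌈N/e⌉ - 1 ≤ N/e`).  So the sum is `≤ N^2 ∑_e g(e)/e ≤ N^2 exp(∑_{p > w} C_m / p^2) ≤ N^2 exp(C_m / w) ≤ N^2 (1 + C/w)`
(`sum_sqfree_le_exp`, `sum_inv_sq_le`).
-/

set_option autoImplicit false

namespace RcHP

open Finset TwHP

private theorem pw (m : ℕ) (x : ℝ) (h0 : 0 ≤ x) (h1 : x ≤ 1) :
    (1 + x) ^ m ≤ 1 + (2 ^ m - 1) * x := by
  induction m with
  | zero => simp
  | succ k ih =>
      have h2 : (1 : ℝ) ≤ 2 ^ k := one_le_pow₀ (by norm_num)
      calc (1 + x) ^ (k + 1) = (1 + x) ^ k * (1 + x) := pow_succ _ _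
        _ ≤ (1 + (2 ^ k - 1) * x) * (1 + x) := mul_le_mul_of_nonneg_right ih (by linarith)
        _ = 1 + 2 ^ k * x + (2 ^ k - 1) * (x * x) := by ring
        _ ≤ 1 + 2 ^ k * x + (2 ^ k - 1) * (x * 1) := by
            have : x * x ≤ x * 1 := mul_le_mul_of_nonneg_left h1 h0
            have h3 : (0 : ℝ) ≤ 2 ^ k - 1 := by linarith
            have := mul_le_mul_of_nonneg_left this h3
            linarith
        _ = _ := by rw [pow_succ]; ring

/-- the constant -/
private noncomputable def cm (m : ℕ) : ℝ := 2 * (2 ^ m - 1)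

private theorem cm_nonneg (m : ℕ) : 0 ≤ cm m := by
  unfold cm
  have h2 : (1 : ℝ) ≤ 2 ^ m := one_le_pow₀ (by norm_num)
  linarith

private theorem hh_pow_le (w D m : ℕ) :
    hh w D ^ m ≤ ∏ p ∈ D.primeFactors.filter (w < ·), (1 + cm m / (p : ℝ)) := by
  unfold hh
  rw [← prod_pow]
  have hp2 : ∀ p ∈ D.primeFactors.filter (w < ·), (2 : ℝ) ≤ p := by
    intro p hp
    exact_mod_cast (Nat.prime_of_mem_primeFactors (mem_filter.mp hp).1).two_le
  refine prod_le_prod (fun p hp => ?_) fun p hp => ?_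
  · have := hp2 p hp
    have h1 : 0 ≤ (p : ℝ) - 1 := by linarith
    positivity
  · have h2 := hp2 p hp
    have h1 : (0 : ℝ) < (p : ℝ) - 1 := by linarith
    have h3 : (p : ℝ) / ((p : ℝ) - 1) ≤ 1 + 2 / p := by
      rw [div_le_iff₀ h1]
      have : (1 + 2 / (p : ℝ)) * ((p : ℝ) - 1) = p + 1 - 2 / p := by
        field_simp
        ring
      rw [this]
      have : 2 / (p : ℝ) ≤ 1 := by
        rw [div_le_iff₀ (by linarith)]
        linarith
      linarith
    have h4 : 2 / (p : ℝ) ≤ 1 := by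
      rw [div_le_iff₀ (by linarith)]
      linarith
    calc ((p : ℝ) / ((p : ℝ) - 1)) ^ m ≤ (1 + 2 / p) ^ m :=
          pow_le_pow_left₀ (by positivity) h3 m
      _ ≤ 1 + (2 ^ m - 1) * (2 / p) := pw m _ (by positivity) h4
      _ = 1 + cm m / (p : ℝ) := by unfold cm; ring

/-- the number of `t' ≠ t` in the window with `e ∣ t - t'` -/
private theorem count_le (N t e : ℕ) (ht : t ∈ Ico N (2 * N)) (he : 0 < e) :
    (((((Ico N (2 * N)).filter (fun t' => t ≠ t')).filter fun t' => e ∣ df t t').card : ℕ) : ℝ) ≤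
      (N : ℝ) / e := by
  have h1 : ((((Ico N (2 * N)).filter (fun t' => t ≠ t')).filter fun t' => e ∣ df t t').card) + 1 ≤
      (((Ico (N : ℤ) (2 * N)).filter fun x : ℤ => x ≡ (t : ℤ) [ZMOD (e : ℤ)]).card) := by
    have h2 : ((((Ico N (2 * N)).filter (fun t' => t ≠ t')).filter fun t' => e ∣ df t t').card) + 1 =
        (insert t (((Ico N (2 * N)).filter (fun t' => t ≠ t')).filter fun t' => e ∣ df t t')).card := by
      rw [card_insert_of_notMem]
      simp
    rw [h2]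
    refine card_le_card_of_injOn (fun n : ℕ => (n : ℤ)) ?_ ?_
    · intro n hn
      rw [mem_coe, mem_insert, mem_filter, mem_filter, mem_Ico] at hn
      show (n : ℤ) ∈ (((Ico (N : ℤ) (2 * N)).filter fun x : ℤ => x ≡ (t : ℤ) [ZMOD (e : ℤ)] :
        Finset ℤ) : Set ℤ)
      rw [mem_coe, mem_filter, mem_Ico]
      rw [mem_Ico] at ht
      rcases hn with rfl | hn
      · refine ⟨by omega, Int.ModEq.refl _⟩
      · refine ⟨by omega, ?_⟩
        have h3 : (e : ℤ) ∣ (t : ℤ) - (n : ℤ) := by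
          rw [Int.natCast_dvd]
          exact hn.2
        exact (Int.modEq_iff_dvd.mpr h3)
    · intro a _ b _ hab
      have hab' : (a : ℤ) = (b : ℤ) := hab
      exact_mod_cast hab'
  have h3 := Int.Ico_filter_modEq_card (N : ℤ) (2 * N) (r := (e : ℤ)) (by exact_mod_cast he) (t : ℤ)
  have he' : (0 : ℚ) < e := by exact_mod_cast he
  have h4 : (((Ico (N : ℤ) (2 * N)).filter fun x : ℤ => x ≡ (t : ℤ) [ZMOD (e : ℤ)]).card : ℚ) ≤
      (N : ℚ) / e + 1 := by
    have h5 : ((((Ico (N : ℤ) (2 * N)).filter fun x : ℤ => x ≡ (t : ℤ) [ZMOD (e : ℤ)]).card : ℤ) : ℚ) ≤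
        (N : ℚ) / e + 1 := by
      rw [h3]
      push_cast
      refine max_le ?_ (by positivity)
      have h6 := Int.ceil_lt_add_one ((2 * (N : ℚ) - t) / e)
      have h7 := Int.le_ceil (((N : ℚ) - t) / e)
      have h8 : (2 * (N : ℚ) - t) / e = (N : ℚ) / e + ((N : ℚ) - t) / e := by ring
      linarith
    exact_mod_cast h5
  have h9 : ((((((Ico N (2 * N)).filter (fun t' => t ≠ t')).filter fun t' => e ∣ df t t').card : ℕ)) : ℚ)
      ≤ (N : ℚ) / e := by
    have : (((((((Ico N (2 * N)).filter (fun t' => t ≠ t')).filter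
        fun t' => e ∣ df t t').card) + 1 : ℕ)) : ℚ) ≤ (N : ℚ) / e + 1 :=
      le_trans (by exact_mod_cast h1) h4
    push_cast at this
    linarith
  have h10 : (((((((Ico N (2 * N)).filter (fun t' => t ≠ t')).filter
      fun t' => e ∣ df t t').card : ℕ)) : ℚ) : ℝ) ≤ (((N : ℚ) / e : ℚ) : ℝ) := by
    exact_mod_cast h9
  push_cast at h10
  exact h10

theorem hsum (m : ℕ) : ∃ C : ℝ, 0 < C ∧ ∀ w : ℕ, 2 ≤ w → ∀ N : ℕ,
    ∑ t ∈ Ico N (2 * N), ∑ t' ∈ (Ico N (2 * N)).filter (fun t' => t ≠ t'), hh w (df t t') ^ m ≤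
      (N : ℝ) ^ 2 * (1 + C / w) := by
  classical
  have hcm := cm_nonneg m
  refine ⟨cm m * Real.exp (cm m) + 1, by positivity, fun w hw N => ?_⟩
  set S : Finset ℕ := (Ioc w N).filter Nat.Prime with hS
  -- pointwise
  have hpt : ∀ t ∈ Ico N (2 * N), ∀ t' ∈ (Ico N (2 * N)).filter (fun t' => t ≠ t'),
      hh w (df t t') ^ m ≤
        ∑ T ∈ S.powerset, if (∏ p ∈ T, p) ∣ df t t' then ∏ p ∈ T, cm m / (p : ℝ) else 0 := by
    intro t ht t' ht'
    rw [mem_filter, mem_Ico] at ht'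
    rw [mem_Ico] at ht
    have hDpos : 0 < df t t' := by unfold df; omega
    have hDlt : df t t' < N := by unfold df; omega
    refine (hh_pow_le w _ m).trans ?_
    rw [prod_one_add, ← sum_filter]
    refine sum_le_sum_of_subset_of_nonneg ?_ fun T _ _ => prod_nonneg fun p _ => by positivity
    intro T hT
    rw [mem_powerset] at hT
    rw [mem_filter, mem_powerset]
    refine ⟨fun p hp => ?_, ?_⟩
    · have h1 := mem_filter.mp (hT hp)
      rw [hS, mem_filter, mem_Ioc]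
      refine ⟨⟨h1.2, ?_⟩, Nat.prime_of_mem_primeFactors h1.1⟩
      exact (Nat.le_of_dvd hDpos (Nat.dvd_of_mem_primeFactors h1.1)).trans hDlt.le
    · refine (prod_dvd_prod_of_subset T (df t t').primeFactors (fun p => p) ?_).trans
        (Nat.prod_primeFactors_dvd _)
      exact hT.trans (filter_subset _ _)
  have hexch : ∑ t ∈ Ico N (2 * N), ∑ t' ∈ (Ico N (2 * N)).filter (fun t' => t ≠ t'),
      ∑ T ∈ S.powerset, (if (∏ p ∈ T, p) ∣ df t t' then ∏ p ∈ T, cm m / (p : ℝ) else 0) =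
      ∑ T ∈ S.powerset, ∑ t ∈ Ico N (2 * N), ∑ t' ∈ (Ico N (2 * N)).filter (fun t' => t ≠ t'),
        (if (∏ p ∈ T, p) ∣ df t t' then ∏ p ∈ T, cm m / (p : ℝ) else 0) := by
    rw [← sum_comm]
    refine sum_congr rfl fun t _ => ?_
    rw [sum_comm]
  have hT : ∀ T ∈ S.powerset,
      ∑ t ∈ Ico N (2 * N), ∑ t' ∈ (Ico N (2 * N)).filter (fun t' => t ≠ t'),
        (if (∏ p ∈ T, p) ∣ df t t' then ∏ p ∈ T, cm m / (p : ℝ) else 0) ≤
      (N : ℝ) ^ 2 * ∏ p ∈ T, cm m * (1 / (p : ℝ) ^ 2) := by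
    intro T hT
    rw [mem_powerset] at hT
    have hpos : ∀ p ∈ T, 0 < p := fun p hp => (mem_filter.mp (hT hp)).2.pos
    have he : 0 < ∏ p ∈ T, p := prod_pos hpos
    have h1 : ∀ t ∈ Ico N (2 * N), ∑ t' ∈ (Ico N (2 * N)).filter (fun t' => t ≠ t'),
        (if (∏ p ∈ T, p) ∣ df t t' then ∏ p ∈ T, cm m / (p : ℝ) else 0) ≤
        (N : ℝ) / ((∏ p ∈ T, p : ℕ) : ℝ) * ∏ p ∈ T, cm m / (p : ℝ) := by
      intro t ht
      rw [← sum_filter, sum_const, nsmul_eq_mul]
      exact mul_le_mul_of_nonneg_right (count_le N t _ ht he)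
        (prod_nonneg fun p _ => by positivity)
    refine (sum_le_sum h1).trans (le_of_eq ?_)
    rw [sum_const, Nat.card_Ico, nsmul_eq_mul]
    have h2 : 2 * N - N = N := by omega
    rw [h2]
    have h3 : ∏ p ∈ T, cm m * (1 / (p : ℝ) ^ 2) =
        (∏ p ∈ T, cm m / (p : ℝ)) * (1 / ((∏ p ∈ T, p : ℕ) : ℝ)) := by
      push_cast
      rw [one_div, ← prod_inv_distrib, ← prod_mul_distrib]
      refine prod_congr rfl fun p _ => ?_
      ring
    rw [h3]
    ring
  calc _ ≤ ∑ t ∈ Ico N (2 * N), ∑ t' ∈ (Ico N (2 * N)).filter (fun t' => t ≠ t'),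
      ∑ T ∈ S.powerset, (if (∏ p ∈ T, p) ∣ df t t' then ∏ p ∈ T, cm m / (p : ℝ) else 0) :=
        sum_le_sum fun t ht => sum_le_sum fun t' ht' => hpt t ht t' ht'
    _ = _ := hexch
    _ ≤ ∑ T ∈ S.powerset, (N : ℝ) ^ 2 * ∏ p ∈ T, cm m * (1 / (p : ℝ) ^ 2) := sum_le_sum hT
    _ = (N : ℝ) ^ 2 * ∏ p ∈ S, (1 + cm m * (1 / (p : ℝ) ^ 2)) := by
        rw [← mul_sum, prod_one_add]
    _ ≤ (N : ℝ) ^ 2 * Real.exp (cm m / w) := by
        refine mul_le_mul_of_nonneg_left ?_ (by positivity)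
        refine (Pool.Agent.Lib.MP_e426f4_ag.TWL.prod_one_add_le_exp S _
          fun q _ => by positivity).trans ?_
        refine Real.exp_le_exp.mpr ?_
        rw [← mul_sum]
        calc cm m * ∑ q ∈ S, 1 / (q : ℝ) ^ 2 ≤ cm m * (1 / w) := by
              refine mul_le_mul_of_nonneg_left ?_ hcm
              refine Pool.Agent.Lib.MP_e426f4_ag.TWL.sum_inv_sq_le S w (by omega) fun q hq => ?_
              exact (mem_Ioc.mp (mem_filter.mp hq).1).1
          _ = cm m / w := by ring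
    _ ≤ (N : ℝ) ^ 2 * (1 + (cm m * Real.exp (cm m) + 1) / w) := by
        refine mul_le_mul_of_nonneg_left ?_ (by positivity)
        have hw0 : (1 : ℝ) ≤ w := by exact_mod_cast (by omega : 1 ≤ w)
        have hx0 : 0 ≤ cm m / w := by positivity
        have hx1 : cm m / w ≤ cm m := div_le_self hcm hw0
        -- `exp x ≤ 1 + x exp x`
        have h1 : Real.exp (cm m / w) ≤ 1 + cm m / w * Real.exp (cm m / w) := by
          have h2 := Real.add_one_le_exp (-(cm m / w))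
          have h3 := mul_le_mul_of_nonneg_right h2 (Real.exp_pos (cm m / w)).le
          rw [← Real.exp_add] at h3
          simp only [neg_add_cancel, Real.exp_zero] at h3
          linarith
        have h4 : cm m / w * Real.exp (cm m / w) ≤ cm m / w * Real.exp (cm m) :=
          mul_le_mul_of_nonneg_left (Real.exp_le_exp.mpr hx1) hx0
        have h5 : (0 : ℝ) ≤ 1 / w := by positivity
        calc Real.exp (cm m / w) ≤ 1 + cm m / w * Real.exp (cm m) := by linarith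
          _ ≤ 1 + cm m / w * Real.exp (cm m) + 1 / w := by linarith
          _ = _ := by ring

end RcHP
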