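import Mathlib

/-!
# RC-SecMom: the second moment method (Cauchy-Schwarz)

Proof. `Z ω = #{t : ω ∈ G t}`, `∑_ω Z = ∑_t |G t| ≥ M`, `∑_ω Z^2 = ∑_{t,t'} |G t ∩ G t'|`; `M^2 ≤ (∑ Z)^2 ≤ #{Z > 0} ∑ Z^2
≤ #{Z > 0} (1 + δ) M^2 / |Ω|` (`sq_sum_le_card_mul_sum_sq` / `Finset.sum_mul_sq_le_sq_mul_sq`), so `#{Z > 0} ≥ |Ω| / (1 + δ) ≥ (1 - δ) |Ω|`.
-/

set_option autoImplicit false

namespace RcHP

open Finset

theorem sec_mom {α : Type*} [DecidableEq α] (O : Finset α) (T : Finset ℕ) (G : ℕ → Finset α)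
    (hG : ∀ t ∈ T, G t ⊆ O) (M δ : ℝ) (hM : 0 < M) (hδ : 0 ≤ δ) (h1 : M ≤ ∑ t ∈ T, ((G t).card : ℝ))
    (h2 : (∑ t ∈ T, ∑ t' ∈ T, ((G t ∩ G t').card : ℝ)) * O.card ≤ (1 + δ) * M ^ 2) :
    ((O.filter fun o => ∀ t ∈ T, o ∉ G t).card : ℝ) ≤ δ * O.card := by
  set Z : α → ℝ := fun o => ∑ t ∈ T, (if o ∈ G t then (1 : ℝ) else 0) with hZ
  set S := O.filter fun o => ∃ t ∈ T, o ∈ G t with hS
  have hcard : ∀ A : Finset α, A ⊆ O → ∑ o ∈ O, (if o ∈ A then (1 : ℝ) else 0) = (A.card : ℝ) := by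
    intro A hA
    rw [Finset.sum_ite_mem, Finset.inter_eq_right.mpr hA, Finset.sum_const, nsmul_eq_mul, mul_one]
  have hsum1 : ∑ o ∈ O, Z o = ∑ t ∈ T, ((G t).card : ℝ) := by
    rw [hZ, Finset.sum_comm]
    exact Finset.sum_congr rfl fun t ht => hcard _ (hG t ht)
  have hsum2 : ∑ o ∈ O, Z o ^ 2 = ∑ t ∈ T, ∑ t' ∈ T, ((G t ∩ G t').card : ℝ) := by
    have h3 : ∀ o ∈ O, Z o ^ 2 = ∑ t ∈ T, ∑ t' ∈ T, (if o ∈ G t ∩ G t' then (1 : ℝ) else 0) := by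
      intro o _
      rw [sq, hZ, Finset.sum_mul_sum]
      refine Finset.sum_congr rfl fun t _ => Finset.sum_congr rfl fun t' _ => ?_
      by_cases h4 : o ∈ G t <;> by_cases h5 : o ∈ G t' <;> simp [h4, h5]
    rw [Finset.sum_congr rfl h3, Finset.sum_comm]
    refine Finset.sum_congr rfl fun t ht => ?_
    rw [Finset.sum_comm]
    exact Finset.sum_congr rfl fun t' _ =>
      hcard _ (Finset.inter_subset_left.trans (hG t ht))
  have hZ0 : ∀ o ∈ O, o ∉ S → Z o = 0 := by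
    intro o ho hoS
    rw [hZ]
    refine Finset.sum_eq_zero fun t ht => ?_
    rw [if_neg]
    intro h4
    exact hoS (Finset.mem_filter.mpr ⟨ho, t, ht, h4⟩)
  have hSO : S ⊆ O := Finset.filter_subset _ _
  have hs1 : ∑ o ∈ S, Z o = ∑ o ∈ O, Z o := Finset.sum_subset hSO hZ0
  have hs2 : ∑ o ∈ S, Z o ^ 2 = ∑ o ∈ O, Z o ^ 2 :=
    Finset.sum_subset hSO fun o ho hoS => by rw [hZ0 o ho hoS]; norm_num
  have hcs : (∑ o ∈ S, Z o) ^ 2 ≤ (S.card : ℝ) * ∑ o ∈ S, Z o ^ 2 := sq_sum_le_card_mul_sum_sq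
  rw [hs1, hs2, hsum1, hsum2] at hcs
  set Q := ∑ t ∈ T, ∑ t' ∈ T, ((G t ∩ G t').card : ℝ) with hQ
  have hM2 : M ^ 2 ≤ (S.card : ℝ) * Q :=
    (pow_le_pow_left₀ hM.le h1 2).trans hcs
  have hmain : (O.card : ℝ) ≤ (1 + δ) * S.card := by
    have h3 : M ^ 2 * (O.card : ℝ) ≤ M ^ 2 * ((1 + δ) * S.card) :=
      calc M ^ 2 * (O.card : ℝ) ≤ ((S.card : ℝ) * Q) * O.card :=
            mul_le_mul_of_nonneg_right hM2 (Nat.cast_nonneg _)
        _ = (S.card : ℝ) * (Q * O.card) := by ring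
        _ ≤ (S.card : ℝ) * ((1 + δ) * M ^ 2) := mul_le_mul_of_nonneg_left h2 (Nat.cast_nonneg _)
        _ = M ^ 2 * ((1 + δ) * S.card) := by ring
    exact le_of_mul_le_mul_left h3 (by positivity)
  have hbad : (O.filter fun o => ∀ t ∈ T, o ∉ G t).card + S.card = O.card := by
    have h3 : (O.filter fun o => ∀ t ∈ T, o ∉ G t) = O.filter fun o => ¬ ∃ t ∈ T, o ∈ G t := by
      refine Finset.filter_congr fun o _ => ?_
      push Not
      rfl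
    rw [h3, add_comm, hS]
    exact Finset.card_filter_add_card_filter_not _
  have hbad' : ((O.filter fun o => ∀ t ∈ T, o ∉ G t).card : ℝ) + S.card = O.card := by
    exact_mod_cast hbad
  have hSO' : (S.card : ℝ) ≤ O.card := by exact_mod_cast Finset.card_le_card hSO
  have := mul_le_mul_of_nonneg_left hSO' hδ
  linarith

end RcHP
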