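import Pool.Agent.Lib.MP_e426f4_ag.RC.ELow
import Pool.Agent.Lib.MP_e426f4_ag.RC.EPair
import Pool.Agent.Lib.MP_e426f4_ag.RC.Hsum
import Pool.Agent.Lib.MP_e426f4_ag.RC.SecMom

/-!
# RC-AtThm: the analytic theorem

Proof. `L = log H`, `B = Bw w ≥ 1`, `O = piFinset_i piFinset_k bx Y`, `|O| = (Y^2)^(3r)`, `G t = piFinset_i (Ec .. t)`, `T = Ico N (2N)`.
`|G t| = ∏_i |Ec_i t| ≥ ((1/4 - ε) (Y^2 B/L)^3)^r` (`e_low` for each `i`), so `M := N ((1/4 - ε) (Y^2 B/L)^3)^r ≤ ∑_t |G t|`.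
`|G t ∩ G t'| = ∏_i |Ec_i t ∩ Ec_i t'| ≤ ((1/16 + ε) (Y^2 (B/L)^2 hh)^3)^r` for `t ≠ t'` (`e_pair`, `E0 = 3 r + 2`), so by `hsum (3 r)`
`∑_{t ≠ t'} ≤ (1/16 + ε)^r (Y^2)^(3r) (B/L)^(6r) N^2 (1 + C/w)`; diagonal: `N (8 (Y^2 B/L)^3)^r`.  Multiply by `|O|` and divide by
`M^2 = N^2 (1/4 - ε)^(2r) (Y^2)^(6r) (B/L)^(6r)`: the quotient is
`≤ ((1/16 + ε)/(1/4 - ε)^2)^r (1 + C/w) + 8^r (L/B)^(3r) / (N (1/4 - ε)^(2r))`; with `ε = ε(r, w)` so small that the first factor is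
`≤ 1 + 1/w`, and `H` large (`N ≥ L^(3r+2) / 2`, so the last term is `≤ 1/w`): `≤ 1 + (2 C + 3)/w`.  `sec_mom` with `δ = (2C + 3)/w`
(`(1 + 1/w)(1 + C/w) + 1/w ≤ 1 + (2 C + 2)/w`).
-/

set_option autoImplicit false

namespace RcHP

open Finset TwHP

private theorem AtThm_eps (r : ℕ) (κ : ℝ) (hκ : 0 < κ) :
    ∃ ε : ℝ, 0 < ε ∧ ε ≤ 1 / 8 ∧ (1 / 16 + ε) ^ r ≤ (1 + κ) * (1 / 4 - ε) ^ (2 * r) := by
  have hcont : ContinuousAt (fun ε : ℝ => (1 + κ) * (1 / 4 - ε) ^ (2 * r) - (1 / 16 + ε) ^ r) 0 := by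
    fun_prop
  have h0 : 0 < (1 + κ) * (1 / 4 - (0 : ℝ)) ^ (2 * r) - (1 / 16 + (0 : ℝ)) ^ r := by
    have e : (1 / 4 - (0 : ℝ)) ^ (2 * r) = (1 / 16) ^ r := by
      rw [pow_mul]
      norm_num
    rw [e, add_zero]
    have : (0 : ℝ) < (1 / 16) ^ r := by positivity
    nlinarith
  have h1 := hcont.eventually (lt_mem_nhds h0)
  obtain ⟨δ, hδ, h2⟩ := Metric.eventually_nhds_iff.1 h1
  refine ⟨min (δ / 2) (1 / 8), by positivity, min_le_right _ _, ?_⟩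
  have h3 : dist (min (δ / 2) (1 / 8)) 0 < δ := by
    rw [Real.dist_eq, sub_zero, abs_of_pos (by positivity)]
    have := min_le_left (δ / 2) (1 / 8 : ℝ)
    linarith
  have h4 := h2 h3
  linarith

private theorem AtThm_Bw (w : ℕ) : 1 ≤ Bw w := by
  unfold Bw
  have h : ∏ _p ∈ (Icc 1 w).filter Nat.Prime, (1 : ℝ) ≤
      ∏ p ∈ (Icc 1 w).filter Nat.Prime, (p : ℝ) / ((p : ℝ) - 1) := by
    refine Finset.prod_le_prod (fun _ _ => zero_le_one) fun p hp => ?_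
    have hp2 : 2 ≤ p := (mem_filter.1 hp).2.two_le
    have hp3 : (2 : ℝ) ≤ p := by exact_mod_cast hp2
    rw [le_div_iff₀ (by linarith)]
    linarith
  simpa using h

private theorem AtThm_card_bx (Y : ℕ) : ((bx Y).card : ℝ) = (Y : ℝ) ^ 2 := by
  unfold bx
  rw [card_product, Nat.card_Icc, Nat.add_sub_cancel]
  push_cast
  ring

private theorem AtThm_card_O (r Y : ℕ) :
    (((Fintype.piFinset fun _ : Fin r => Fintype.piFinset fun _ : Fin 3 => bx Y).card : ℕ) : ℝ) =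
      ((Y : ℝ) ^ 2) ^ (3 * r) := by
  rw [Fintype.card_piFinset]
  simp only [Fintype.card_piFinset, prod_const, card_univ, Fintype.card_fin]
  push_cast
  rw [AtThm_card_bx, ← pow_mul]

/-- the final inequality between the parameters -/
private theorem AtThm_final (r : ℕ) (w N : ℝ) (hw : 1 ≤ w) (hN : 0 < N) (C ε L B Y2 : ℝ) (hC : 0 < C)
    (hε1 : ε ≤ 1 / 8) (hε2 : (1 / 16 + ε) ^ r ≤ (1 + 1 / w) * (1 / 4 - ε) ^ (2 * r)) (hL : 1 ≤ L)
    (hB : 1 ≤ B) (hY : 0 < Y2) (hNL : L ^ (3 * r + 2) ≤ 2 * N)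
    (hLw : 2 * w * 8 ^ (3 * r) ≤ L ^ 2) (S : ℝ)
    (hS : S ≤ N * (8 * (Y2 * (B / L)) ^ 3) ^ r +
      (1 / 16 + ε) ^ r * (Y2 * (B / L) ^ 2) ^ (3 * r) * (N ^ 2 * (1 + C / w))) :
    S * Y2 ^ (3 * r) ≤ (1 + (2 * C + 3) / w) * (N * ((1 / 4 - ε) * (Y2 * (B / L)) ^ 3) ^ r) ^ 2 := by
  have hw0 : 0 < w := by linarith
  have hL0 : 0 < L := by linarith
  have hB0 : 0 < B := by linarith
  set a := Y2 * (B / L) with ha
  have ha0 : 0 < a := by positivity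
  set q := (1 / 4 - ε) ^ (2 * r) with hq
  have hq0 : (1 / 8 : ℝ) ^ (2 * r) ≤ q := pow_le_pow_left₀ (by norm_num) (by linarith) _
  have hqp : 0 < q := lt_of_lt_of_le (by positivity) hq0
  have hYp : 0 < Y2 ^ (3 * r) := by positivity
  -- the right hand side
  have eR : (N * ((1 / 4 - ε) * a ^ 3) ^ r) ^ 2 = N ^ 2 * q * a ^ (6 * r) := by
    rw [hq, mul_pow, mul_pow, mul_pow, ← pow_mul, ← pow_mul, ← pow_mul]
    rw [show 3 * (r * 2) = 6 * r by ring, show r * 2 = 2 * r by ring]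
    ring
  -- the diagonal
  have e1 : N * (8 * a ^ 3) ^ r * Y2 ^ (3 * r) = N * 8 ^ r * (L / B) ^ (3 * r) * a ^ (6 * r) := by
    have h1 : Y2 = a * (L / B) := by
      rw [ha]; field_simp
    have h2 : Y2 ^ (3 * r) = a ^ (3 * r) * (L / B) ^ (3 * r) := by rw [← mul_pow, ← h1]
    rw [h2, mul_pow, ← pow_mul, show 6 * r = 3 * r + 3 * r by ring, pow_add]
    ring
  have e2 : (Y2 * (B / L) ^ 2) ^ (3 * r) * Y2 ^ (3 * r) = a ^ (6 * r) := by
    have h1 : a ^ (6 * r) = (a ^ 2) ^ (3 * r) := by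
      rw [← pow_mul]
      congr 1
      ring
    rw [h1, ← mul_pow]
    congr 1
    rw [ha]
    ring
  have h3 : (L / B) ^ (3 * r) ≤ L ^ (3 * r) :=
    pow_le_pow_left₀ (by positivity) (div_le_self hL0.le hB) _
  -- the diagonal is small
  have h4 : 8 ^ r * (L / B) ^ (3 * r) ≤ N * (q / w) := by
    have h5 : (8 : ℝ) ^ r * L ^ (3 * r) * (w * 8 ^ (2 * r)) ≤ N := by
      have h6 : (8 : ℝ) ^ (3 * r) = 8 ^ r * 8 ^ (2 * r) := by
        rw [← pow_add]; congr 1; ring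
      have h7 : L ^ (3 * r) * (2 * w * 8 ^ (3 * r)) ≤ L ^ (3 * r) * L ^ 2 :=
        mul_le_mul_of_nonneg_left hLw (by positivity)
      rw [← pow_add] at h7
      rw [h6] at h7
      nlinarith
    have h8 : (1 / 8 : ℝ) ^ (2 * r) * 8 ^ (2 * r) = 1 := by
      rw [← mul_pow]; norm_num
    have h9 : (0 : ℝ) < 8 ^ (2 * r) := by positivity
    have h10 : 1 ≤ q * 8 ^ (2 * r) := by
      rw [← h8]
      exact mul_le_mul_of_nonneg_right hq0 h9.le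
    have h11 : (8 : ℝ) ^ r * L ^ (3 * r) ≤ N * (q / w) := by
      rw [← mul_div_assoc, le_div_iff₀ hw0]
      have h12 : 0 ≤ (8 : ℝ) ^ r * L ^ (3 * r) * w := by positivity
      calc (8 : ℝ) ^ r * L ^ (3 * r) * w
          ≤ (8 : ℝ) ^ r * L ^ (3 * r) * w * (q * 8 ^ (2 * r)) := le_mul_of_one_le_right h12 h10
        _ = (8 : ℝ) ^ r * L ^ (3 * r) * (w * 8 ^ (2 * r)) * q := by ring
        _ ≤ N * q := mul_le_mul_of_nonneg_right h5 hqp.le
    exact (mul_le_mul_of_nonneg_left h3 (by positivity)).trans h11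
  have hA : 0 < a ^ (6 * r) := by positivity
  have hCw : 0 < C / w := by positivity
  have hm : S * Y2 ^ (3 * r) ≤
      N * 8 ^ r * (L / B) ^ (3 * r) * a ^ (6 * r) +
        (1 / 16 + ε) ^ r * a ^ (6 * r) * (N ^ 2 * (1 + C / w)) := by
    refine (mul_le_mul_of_nonneg_right hS hYp.le).trans (le_of_eq ?_)
    rw [add_mul, e1]
    congr 1
    rw [← e2]
    ring
  refine hm.trans ?_
  rw [eR]
  have k1 : N * 8 ^ r * (L / B) ^ (3 * r) * a ^ (6 * r) ≤ N ^ 2 * (q / w) * a ^ (6 * r) := by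
    refine mul_le_mul_of_nonneg_right ?_ hA.le
    calc N * 8 ^ r * (L / B) ^ (3 * r) = N * (8 ^ r * (L / B) ^ (3 * r)) := by ring
      _ ≤ N * (N * (q / w)) := mul_le_mul_of_nonneg_left h4 hN.le
      _ = _ := by ring
  have k2 : (1 / 16 + ε) ^ r * a ^ (6 * r) * (N ^ 2 * (1 + C / w)) ≤
      ((1 + 1 / w) * q) * a ^ (6 * r) * (N ^ 2 * (1 + C / w)) := by
    have : 0 ≤ N ^ 2 * (1 + C / w) := by positivity
    exact mul_le_mul_of_nonneg_right (mul_le_mul_of_nonneg_right hε2 hA.le) this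
  refine (add_le_add k1 k2).trans ?_
  have k3 : 1 / w + (1 + 1 / w) * (1 + C / w) ≤ 1 + (2 * C + 3) / w := by
    have h1 : 1 / w ≤ 1 := by rw [div_le_one hw0]; exact hw
    have h2 : (1 / w) * (C / w) ≤ C / w := mul_le_of_le_one_left hCw.le h1
    have h3 : (2 * C + 3) / w = C / w + C / w + 3 * (1 / w) := by ring
    have h4 : 0 < 1 / w := by positivity
    rw [h3]
    nlinarith
  have k4 : 0 ≤ N ^ 2 * q * a ^ (6 * r) := by positivity
  calc N ^ 2 * (q / w) * a ^ (6 * r) + (1 + 1 / w) * q * a ^ (6 * r) * (N ^ 2 * (1 + C / w))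
      = (1 / w + (1 + 1 / w) * (1 + C / w)) * (N ^ 2 * q * a ^ (6 * r)) := by ring
    _ ≤ (1 + (2 * C + 3) / w) * (N ^ 2 * q * a ^ (6 * r)) := mul_le_mul_of_nonneg_right k3 k4

open Classical in
theorem at_thm (r : ℕ) (hr : 1 ≤ r) : ∃ C : ℝ, 0 < C ∧ ∀ w Q0 : ℕ, Cst w Q0 →
    ∀ be et : Fin r → Fin 3 → ℕ, (∀ i k, Fmc w (be i k) (et i k)) →
    ∀ (E : ℕ) (c0 c1 : ℝ), 0 < c0 → 0 < c1 → ∃ H0 : ℝ, ∀ H : ℝ, H0 ≤ H → ∀ Y : ℕ, c1 * H ≤ Y →
    (Y : ℝ) ≤ H → ∀ N : ℕ, N = ⌊Real.log H ^ (3 * r + 2)⌋₊ → ∀ al : Fin r → Fin 3 → ℕ → ℤ,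
    (∀ i k, Lin w Q0 (be i k) (et i k) E c0 H Y N (al i k)) →
    ∀ e1 e2 : Fin r → ℤ, (∀ i, e1 i = 1 ∨ e1 i = -1) → (∀ i, e2 i = 1 ∨ e2 i = -1) →
    ((((Fintype.piFinset fun _ : Fin r => Fintype.piFinset fun _ : Fin 3 => bx Y).filter
      fun o : Fin r → Fin 3 → ℕ × ℕ =>
        ∀ t ∈ Ico N (2 * N),
          ∃ i, o i ∉ Ec Q0 (be i) (al i) (e1 i) (e2 i) Y t).card : ℕ) : ℝ) ≤
      C / w * ((Y : ℝ) ^ 2) ^ (3 * r) := by
  obtain ⟨C1, hC1, hsm⟩ := hsum (3 * r)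
  refine ⟨2 * C1 + 3, by positivity, ?_⟩
  intro w Q0 hc be et hf E c0 c1 hc0 hc1
  have hw2 : (2 : ℝ) ≤ w := by exact_mod_cast hc.w2
  have hw0 : (0 : ℝ) < w := by linarith
  obtain ⟨ε, hε0, hε1, hε2⟩ := AtThm_eps r (1 / w) (by positivity)
  have hlow := fun i => e_low w Q0 E (be i) (et i) hc (hf i) c0 c1 ε hc0 hc1 hε0
  have hpair := fun i => e_pair w Q0 E (3 * r + 2) (be i) (et i) hc (hf i) c0 c1 ε hc0 hc1 hε0
  choose HL hHL using hlow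
  choose HP hHP using hpair
  refine ⟨(∑ i, |HL i|) + (∑ i, |HP i|) + 3 + Real.exp (2 * w * 8 ^ (3 * r)), ?_⟩
  intro H hH Y hY1 hY2 N hN al hal e1 e2 he1 he2
  have hs1 : 0 ≤ ∑ i, |HL i| := Finset.sum_nonneg fun i _ => abs_nonneg _
  have hs2 : 0 ≤ ∑ i, |HP i| := Finset.sum_nonneg fun i _ => abs_nonneg _
  have hex := Real.exp_pos (2 * w * 8 ^ (3 * r))
  have hHi : ∀ i, HL i ≤ H := by
    intro i
    have h1 := Finset.single_le_sum (f := fun i => |HL i|) (fun i _ => abs_nonneg _) (mem_univ i)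
    have h2 := le_abs_self (HL i)
    linarith
  have hHj : ∀ i, HP i ≤ H := by
    intro i
    have h1 := Finset.single_le_sum (f := fun i => |HP i|) (fun i _ => abs_nonneg _) (mem_univ i)
    have h2 := le_abs_self (HP i)
    linarith
  have hH3 : 3 ≤ H := by linarith
  have hH0 : 0 < H := by linarith
  set L := Real.log H with hLd
  have hLbig : 2 * w * 8 ^ (3 * r) ≤ L := by
    rw [hLd, Real.le_log_iff_exp_le hH0]
    linarith
  have h8 : (1 : ℝ) ≤ 8 ^ (3 * r) := one_le_pow₀ (by norm_num)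
  have hL1 : 1 ≤ L := by nlinarith
  have hLw : 2 * w * 8 ^ (3 * r) ≤ L ^ 2 := by nlinarith
  have hLp : (1 : ℝ) ≤ L ^ (3 * r + 2) := one_le_pow₀ hL1
  have hNle : (N : ℝ) ≤ L ^ (3 * r + 2) := by
    rw [hN]
    exact Nat.floor_le (by linarith)
  have hNge : L ^ (3 * r + 2) < N + 1 := by
    rw [hN]
    exact Nat.lt_floor_add_one _
  have hN1 : 1 ≤ N := by
    rw [hN]
    exact Nat.le_floor (by exact_mod_cast hLp)
  have hN1' : (1 : ℝ) ≤ N := by exact_mod_cast hN1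
  have hN0 : (0 : ℝ) < N := by linarith
  have hNL : L ^ (3 * r + 2) ≤ 2 * N := by linarith
  have hB := AtThm_Bw w
  have hYp : (0 : ℝ) < Y := lt_of_lt_of_le (by positivity) hY1
  have hL0 : 0 < L := by linarith
  set a := (Y : ℝ) ^ 2 * (Bw w / L) with had
  have ha0 : 0 < a := by
    have : 0 < Bw w := by linarith
    positivity
  -- the sets
  set O := Fintype.piFinset fun _ : Fin r => Fintype.piFinset fun _ : Fin 3 => bx Y with hO
  set G : ℕ → Finset (Fin r → Fin 3 → ℕ × ℕ) := fun t =>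
    Fintype.piFinset fun i => Ec Q0 (be i) (al i) (e1 i) (e2 i) Y t with hG
  have hGO : ∀ t ∈ Ico N (2 * N), G t ⊆ O := by
    intro t _
    refine Fintype.piFinset_subset _ _ fun i => ?_
    exact filter_subset _ _
  have hEl : ∀ i, ∀ t ∈ Ico N (2 * N),
      (1 / 4 - ε) * a ^ 3 ≤ ((Ec Q0 (be i) (al i) (e1 i) (e2 i) Y t).card : ℝ) ∧
      ((Ec Q0 (be i) (al i) (e1 i) (e2 i) Y t).card : ℝ) ≤ 8 * a ^ 3 := fun i =>
    hHL i H (hHi i) Y N hY1 hY2 (al i) (hal i) (e1 i) (e2 i) (he1 i) (he2 i)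
  have hEp : ∀ i, ∀ t ∈ Ico N (2 * N), ∀ t' ∈ Ico N (2 * N), t ≠ t' →
      ((Ec Q0 (be i) (al i) (e1 i) (e2 i) Y t ∩ Ec Q0 (be i) (al i) (e1 i) (e2 i) Y t').card : ℝ) ≤
        (1 / 16 + ε) * (((Y : ℝ) ^ 2 * (Bw w / L) ^ 2 * hh w (df t t')) ^ 3) := fun i =>
    hHP i H (hHj i) Y N hY1 hY2 hNle (al i) (hal i) (e1 i) (e2 i) (he1 i) (he2 i)
  have hε4 : 0 < 1 / 4 - ε := by linarith
  have hGlow : ∀ t ∈ Ico N (2 * N), ((1 / 4 - ε) * a ^ 3) ^ r ≤ ((G t).card : ℝ) := by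
    intro t ht
    rw [hG]
    simp only [Fintype.card_piFinset]
    push_cast
    calc ((1 / 4 - ε) * a ^ 3) ^ r = ∏ _i : Fin r, ((1 / 4 - ε) * a ^ 3) := by simp
      _ ≤ _ := Finset.prod_le_prod (fun i _ => by positivity) fun i _ => (hEl i t ht).1
  have hGup : ∀ t ∈ Ico N (2 * N), ((G t).card : ℝ) ≤ (8 * a ^ 3) ^ r := by
    intro t ht
    rw [hG]
    simp only [Fintype.card_piFinset]
    push_cast
    calc _ ≤ ∏ _i : Fin r, (8 * a ^ 3) :=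
          Finset.prod_le_prod (fun i _ => by positivity) fun i _ => (hEl i t ht).2
      _ = _ := by simp
  have hGpair : ∀ t ∈ Ico N (2 * N), ∀ t' ∈ Ico N (2 * N), t ≠ t' →
      ((G t ∩ G t').card : ℝ) ≤ (1 / 16 + ε) ^ r * ((Y : ℝ) ^ 2 * (Bw w / L) ^ 2) ^ (3 * r) *
        hh w (df t t') ^ (3 * r) := by
    intro t ht t' ht' hne
    have hsub : G t ∩ G t' ⊆ Fintype.piFinset fun i =>
        Ec Q0 (be i) (al i) (e1 i) (e2 i) Y t ∩ Ec Q0 (be i) (al i) (e1 i) (e2 i) Y t' := by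
      intro o ho
      rw [mem_inter, hG, Fintype.mem_piFinset, Fintype.mem_piFinset] at ho
      rw [Fintype.mem_piFinset]
      exact fun i => mem_inter.2 ⟨ho.1 i, ho.2 i⟩
    have h1 : ((G t ∩ G t').card : ℝ) ≤ ((Fintype.piFinset fun i =>
        Ec Q0 (be i) (al i) (e1 i) (e2 i) Y t ∩ Ec Q0 (be i) (al i) (e1 i) (e2 i) Y t').card : ℝ) := by
      exact_mod_cast card_le_card hsub
    refine h1.trans ?_
    rw [Fintype.card_piFinset]
    push_cast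
    calc _ ≤ ∏ _i : Fin r, ((1 / 16 + ε) * (((Y : ℝ) ^ 2 * (Bw w / L) ^ 2 * hh w (df t t')) ^ 3)) :=
          Finset.prod_le_prod (fun i _ => by positivity) fun i _ => hEp i t ht t' ht' hne
      _ = _ := by
          rw [prod_const, card_univ, Fintype.card_fin, mul_pow, ← pow_mul, mul_pow _ (hh w _)]
          ring
  have hcardT : (Ico N (2 * N)).card = N := by
    rw [Nat.card_Ico]
    omega
  have hM : 0 < (N : ℝ) * ((1 / 4 - ε) * a ^ 3) ^ r := by positivity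
  have h1 : (N : ℝ) * ((1 / 4 - ε) * a ^ 3) ^ r ≤ ∑ t ∈ Ico N (2 * N), ((G t).card : ℝ) := by
    calc (N : ℝ) * ((1 / 4 - ε) * a ^ 3) ^ r = ∑ _t ∈ Ico N (2 * N), ((1 / 4 - ε) * a ^ 3) ^ r := by
          rw [sum_const, hcardT, nsmul_eq_mul]
      _ ≤ _ := Finset.sum_le_sum hGlow
  have hS : ∑ t ∈ Ico N (2 * N), ∑ t' ∈ Ico N (2 * N), ((G t ∩ G t').card : ℝ) ≤
      N * (8 * a ^ 3) ^ r + (1 / 16 + ε) ^ r * ((Y : ℝ) ^ 2 * (Bw w / L) ^ 2) ^ (3 * r) *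
        ((N : ℝ) ^ 2 * (1 + C1 / w)) := by
    have hsplit : ∀ t ∈ Ico N (2 * N), ∑ t' ∈ Ico N (2 * N), ((G t ∩ G t').card : ℝ) ≤
        (8 * a ^ 3) ^ r + (1 / 16 + ε) ^ r * ((Y : ℝ) ^ 2 * (Bw w / L) ^ 2) ^ (3 * r) *
          ∑ t' ∈ (Ico N (2 * N)).filter (fun t' => t ≠ t'), hh w (df t t') ^ (3 * r) := by
      intro t ht
      rw [← Finset.sum_filter_add_sum_filter_not (Ico N (2 * N)) (fun t' => t ≠ t'), add_comm]
      refine add_le_add ?_ ?_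
      · have e : (Ico N (2 * N)).filter (fun t' => ¬ t ≠ t') = {t} := by
          ext x
          simp only [mem_filter, not_not, mem_singleton]
          constructor
          · exact fun h => h.2.symm
          · rintro rfl
            exact ⟨ht, rfl⟩
        rw [e, sum_singleton, inter_self]
        exact hGup t ht
      · rw [Finset.mul_sum]
        refine Finset.sum_le_sum fun t' ht' => ?_
        rw [mem_filter] at ht'
        exact hGpair t ht t' ht'.1 ht'.2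
    refine (Finset.sum_le_sum hsplit).trans ?_
    rw [sum_add_distrib, sum_const, hcardT, nsmul_eq_mul, ← Finset.mul_sum]
    refine add_le_add le_rfl (mul_le_mul_of_nonneg_left (hsm w hc.w2 N) (by positivity))
  have h2 := AtThm_final r w N (by linarith) hN0 C1 ε L (Bw w) ((Y : ℝ) ^ 2) hC1 hε1 hε2 hL1 hB
    (by positivity) hNL hLw _ hS
  have hOc : ((O.card : ℕ) : ℝ) = ((Y : ℝ) ^ 2) ^ (3 * r) := AtThm_card_O r Y
  rw [← hOc] at h2 ⊢
  refine le_trans ?_ (sec_mom O (Ico N (2 * N)) G hGO _ ((2 * C1 + 3) / w) hM (by positivity) h1 h2)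
  refine Nat.cast_le.2 (card_le_card ?_)
  intro o ho
  replace ho : o ∈ O ∧ ∀ t ∈ Ico N (2 * N), ∃ i, o i ∉ Ec Q0 (be i) (al i) (e1 i) (e2 i) Y t := by
    simpa only [Finset.mem_filter] using ho
  refine Finset.mem_filter.2 ⟨ho.1, fun t ht hoG => ?_⟩
  obtain ⟨i, hi⟩ := ho.2 t ht
  rw [hG, Fintype.mem_piFinset] at hoG
  exact hi (hoG i)

end RcHP
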