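import Pool.Agent.Lib.MP_e426f4_ag.RC.Defs
import Pool.Agent.Lib.MP_e426f4_ag.M.ClassCard

/-!
# RC-Avg: averaging over the base system

Proof. Let `Bad = {A ∈ Cl (rho) : ¬ Sol A ℚ}` (finite) and `O` the box of the `o`, `|O| = (Y^2)^(r*3)`.  The map `(A, o) ↦ (A - Q0 sg (a M1 + b M2), o)` is
injective from `Bad × O` to the pairs `(A', o)` with `A' ∈ Cl (2 rho)` (triangle inequality, congruence) and `vr A' .. o = A ∈ Bad`, so `¬ Sol (vr A' .. o) ℚ`.
Count the pairs: `|Bad| |O| ≤ ∑_{A' ∈ Cl (2 rho)} #{o ∈ O : ¬ Sol (vr A' .. o) ℚ} ≤ |Cl (2 rho)| K`.  Finiteness of the classes: `class_finite` (`M/ClassCard.lean`) or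
`finite_of_abs_le` (`G/Basic.lean`), cf. `P/Global.lean` (`pz_S_finite`).
-/

set_option autoImplicit false

namespace RcHP

open Finset Filter Topology GenHP CIPHP TwHP

theorem Cl_finite {ι : Type} [Fintype ι] [DecidableEq ι] {n : ι → ℕ} {r : ℕ}
    {d : Fin (r * 3) → ι → ℕ} (AC : PSys n d ℝ) (A0 : PSys n d ℤ) (Q0 : ℕ) (rho H : ℝ) :
    (Cl AC A0 Q0 rho H).Finite := by
  have h := fun j : Fin (r * 3) => class_finite (AC j) rho H (fun _ => True)
  exact (Set.Finite.pi' h).subset fun A hA j => ⟨hA.1 j, trivial⟩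

open Classical in
theorem avg {ι : Type} [Fintype ι] [DecidableEq ι] {n : ι → ℕ} {r : ℕ}
    {d : Fin (r * 3) → ι → ℕ} (AC : PSys n d ℝ) (A0 : PSys n d ℤ) (Q0 : ℕ) (rho H : ℝ)
    (M1 M2 : PSys n d ℤ) (sg : Fin (r * 3) → ℤ) (Y : ℕ)
    (hM : ∀ o : Fin (r * 3) → ℕ × ℕ, (∀ j, o j ∈ bx Y) → ∀ j t,
      |((Q0 * (sg j * ((o j).1 * M1 j t + (o j).2 * M2 j t)) : ℤ) : ℝ)| ≤ rho * H)
    (K : ℝ) (hK : ∀ A ∈ Cl AC A0 Q0 (2 * rho) H,
      ((((Fintype.piFinset fun _ : Fin (r * 3) => bx Y).filter fun o =>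
        ¬ Sol (vr A M1 M2 Q0 sg o) ℚ).card : ℕ) : ℝ) ≤ K) :
    ((Set.ncard {A | A ∈ Cl AC A0 Q0 rho H ∧ ¬ Sol A ℚ} : ℕ) : ℝ) * ((Y : ℝ) ^ 2) ^ (r * 3) ≤
      ((Cl AC A0 Q0 (2 * rho) H).ncard : ℝ) * K := by
  have hT := Cl_finite AC A0 Q0 (2 * rho) H
  have hB : {A | A ∈ Cl AC A0 Q0 rho H ∧ ¬ Sol A ℚ}.Finite :=
    (Cl_finite AC A0 Q0 rho H).subset fun A hA => hA.1
  set O : Finset (Fin (r * 3) → ℕ × ℕ) := Fintype.piFinset fun _ : Fin (r * 3) => bx Y with hO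
  have hOcard : (O.card : ℝ) = ((Y : ℝ) ^ 2) ^ (r * 3) := by
    rw [hO, Fintype.card_piFinset]
    simp [bx, sq]
  have hinj : (hB.toFinset ×ˢ O).card ≤
      ((hT.toFinset ×ˢ O).filter fun q => ¬ Sol (vr q.1 M1 M2 Q0 sg q.2) ℚ).card := by
    refine Finset.card_le_card_of_injOn
      (fun q => ((fun j t => q.1 j t - Q0 * (sg j * ((q.2 j).1 * M1 j t + (q.2 j).2 * M2 j t)) :
        PSys n d ℤ), q.2)) ?_ ?_
    · rintro ⟨A, o⟩ hq
      simp only [coe_product, Set.mem_prod, mem_coe, Set.Finite.mem_toFinset,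
        Set.mem_setOf_eq] at hq
      obtain ⟨⟨hA, hns⟩, ho⟩ := hq
      have ho' : ∀ j, o j ∈ bx Y := fun j => by
        rw [hO, Fintype.mem_piFinset] at ho
        exact ho j
      simp only [coe_filter, mem_product, Set.Finite.mem_toFinset, Set.mem_setOf_eq]
      refine ⟨⟨⟨fun j t => ?_, fun j t => ?_⟩, ho⟩, ?_⟩
      · have h1 := hA.1 j t
        have h2 := hM o ho' j t
        have h3 : (((A j t - Q0 * (sg j * ((o j).1 * M1 j t + (o j).2 * M2 j t)) : ℤ) : ℝ)) -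
            H * AC j t = ((A j t : ℝ) - H * AC j t) -
            ((Q0 * (sg j * ((o j).1 * M1 j t + (o j).2 * M2 j t)) : ℤ) : ℝ) := by
          push_cast
          ring
        rw [h3]
        calc _ ≤ |(A j t : ℝ) - H * AC j t| +
              |((Q0 * (sg j * ((o j).1 * M1 j t + (o j).2 * M2 j t)) : ℤ) : ℝ)| := abs_sub _ _
          _ ≤ rho * H + rho * H := add_le_add h1 h2
          _ = 2 * rho * H := by ring
      · have h1 := hA.2 j t
        have h3 : A j t - Q0 * (sg j * ((o j).1 * M1 j t + (o j).2 * M2 j t)) - A0 j t =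
            (A j t - A0 j t) - Q0 * (sg j * ((o j).1 * M1 j t + (o j).2 * M2 j t)) := by ring
        rw [h3]
        exact dvd_sub h1 (dvd_mul_right _ _)
      · have h3 : vr (fun j t => A j t - Q0 * (sg j * ((o j).1 * M1 j t + (o j).2 * M2 j t)) :
            PSys n d ℤ) M1 M2 Q0 sg o = A := by
          funext j t
          simp only [vr]
          ring
        rw [h3]
        exact hns
    · rintro ⟨A, o⟩ _ ⟨A', o'⟩ _ h
      simp only [Prod.mk.injEq] at h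
      obtain ⟨h1, rfl⟩ := h
      have : A = A' := by
        funext j t
        have := congrFun (congrFun h1 j) t
        linarith
      rw [this]
  have hsum : (((hT.toFinset ×ˢ O).filter fun q => ¬ Sol (vr q.1 M1 M2 Q0 sg q.2) ℚ).card : ℝ) =
      ∑ A ∈ hT.toFinset, ((O.filter fun o => ¬ Sol (vr A M1 M2 Q0 sg o) ℚ).card : ℝ) := by
    rw [Finset.card_filter, Finset.sum_product]
    push_cast
    refine Finset.sum_congr rfl fun A _ => ?_
    rw [Finset.card_filter]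
    push_cast
    rfl
  calc ((Set.ncard {A | A ∈ Cl AC A0 Q0 rho H ∧ ¬ Sol A ℚ} : ℕ) : ℝ) * ((Y : ℝ) ^ 2) ^ (r * 3)
      = ((hB.toFinset ×ˢ O).card : ℝ) := by
        rw [Finset.card_product, Set.ncard_eq_toFinset_card _ hB]
        push_cast
        rw [hOcard]
    _ ≤ (((hT.toFinset ×ˢ O).filter fun q => ¬ Sol (vr q.1 M1 M2 Q0 sg q.2) ℚ).card : ℝ) := by
        exact_mod_cast hinj
    _ = ∑ A ∈ hT.toFinset, ((O.filter fun o => ¬ Sol (vr A M1 M2 Q0 sg o) ℚ).card : ℝ) := hsum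
    _ ≤ ∑ A ∈ hT.toFinset, K := Finset.sum_le_sum fun A hA => hK A (by
        simpa using hA)
    _ = ((Cl AC A0 Q0 (2 * rho) H).ncard : ℝ) * K := by
        rw [Finset.sum_const, nsmul_eq_mul, Set.ncard_eq_toFinset_card _ hT]

end RcHP
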