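import Pool.Agent.Lib.MP_e426f4_ag.RC.AnDefs
import Pool.Agent.Lib.MP_e426f4_ag.TWL.LargeValues

/-!
# RC-Bil: a bilinear bound for Jacobi symbols

Proof. It suffices to treat coefficients `a p = 1` on a subset: for fixed `b`, the sum is linear in each `a p ∈ [-1, 1]`, so its absolute
value is at most `|∑_{p ∈ P+}| + |∑_{p ∈ P-}|`, `P+ = {p : ∑_q b q J(q|p) ≥ 0}`; the same for `b`: so
`|sum| ≤ 4 max |∑_{p ∈ P'} ∑_{q ∈ Q'} J(q | p)|` over subsets `P' ⊆ P`, `Q' ⊆ Q`.  [Or avoid the reduction: `|sum| ≤ ∑_q |∑_p a p J(q|p)|`,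
and split only `a`.]  For a subset `P'` let `V = X^(7/8)`, `M = {q ∈ Q' : V ≤ |∑_{p ∈ P'} J(q|p)|}` (as integers).  `large_values` with
`k = 3`, `P = Q = X`: `(V^3 |M|)^2 ≤ 6 X^3 (|M| (X^3 + 1) + 4 X^2 |M|^2)`, so `X^(21/4) |M|^2 ≤ 12 X^6 |M| + 24 X^5 |M|^2`, and for
`X ≥ X0` (`24 X^5 ≤ X^(21/4) / 2`) `|M| ≤ 24 X^(3/4)`.  So `|∑∑| ≤ X * V + 24 X^(3/4) * X ≤ 25 X^(15/8)` for each pair `P'`, `Q'`.
(`oj m l = J(m | l)` for `l` odd; `q q'` is no square for primes `q ≠ q'`.)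
-/

set_option autoImplicit false

namespace RcHP

open Finset TwHP

private theorem bil_nsq {q q' : ℕ} (hq : q.Prime) (hq' : q'.Prime) (hne : q ≠ q') :
    ¬ IsSquare ((q : ℤ) * (q' : ℤ)) := by
  rintro ⟨r, hr⟩
  have h1 : q * q' = r.natAbs * r.natAbs := by
    have h2 := congrArg Int.natAbs hr
    rwa [Int.natAbs_mul, Int.natAbs_mul, Int.natAbs_natCast, Int.natAbs_natCast] at h2
  have hcop : Nat.Coprime q q' := (Nat.coprime_primes hq hq').2 hne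
  have hsf : Squarefree (q * q') := by
    rw [Nat.squarefree_mul hcop]
    exact ⟨hq.prime.squarefree, hq'.prime.squarefree⟩
  have h3 := hsf r.natAbs ⟨1, by rw [mul_one]; exact h1⟩
  rw [Nat.isUnit_iff] at h3
  rw [h3] at h1
  have h4 := hq.two_le
  have h5 := hq'.two_le
  nlinarith

private theorem bil_oj {q p : ℕ} (hp : p.Prime) (hp2 : p ≠ 2) :
    Pool.Agent.Lib.MP_e426f4_ag.TWL.oj (q : ℤ) p = jacobiSym (q : ℤ) p := by
  unfold Pool.Agent.Lib.MP_e426f4_ag.TWL.oj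
  rw [if_pos (hp.odd_of_ne_two hp2)]

private theorem bil_card {X : ℕ} {Q : Finset ℕ} (hQ : ∀ q ∈ Q, q.Prime ∧ q ≠ 2 ∧ q ≤ X) :
    Q.card ≤ X := by
  have h : Q ⊆ Icc 1 X := fun q hq => Finset.mem_Icc.2 ⟨(hQ q hq).1.one_lt.le, (hQ q hq).2.2⟩
  calc Q.card ≤ (Icc 1 X).card := Finset.card_le_card h
    _ = X := by simp

private theorem bil_jac_abs (m : ℤ) (p : ℕ) : |(jacobiSym m p : ℝ)| ≤ 1 := by
  rcases jacobiSym.trichotomy m p with h | h | h <;> rw [h] <;> norm_num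

private theorem bil_set {X : ℕ} {t : ℝ} (ht8 : t ^ 8 = X) (ht1 : 1 ≤ t) (ht2 : 48 ≤ t ^ 2)
    (S Q : Finset ℕ) (hS : ∀ p ∈ S, p.Prime ∧ p ≠ 2 ∧ p ≤ X)
    (hQ : ∀ q ∈ Q, q.Prime ∧ q ≠ 2 ∧ q ≤ X) :
    ∑ q ∈ Q, |∑ p ∈ S, (jacobiSym (q : ℤ) p : ℝ)| ≤ 25 * t ^ 15 := by
  classical
  have ht0 : 0 < t := by linarith
  set V : ℝ := t ^ 7 with hV
  have hV0 : 0 ≤ V := by positivity
  set Q1 : Finset ℕ := Q.filter fun q => V ≤ |∑ p ∈ S, (jacobiSym (q : ℤ) p : ℝ)| with hQ1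
  have hScard : (S.card : ℝ) ≤ t ^ 8 := by
    rw [ht8]
    exact_mod_cast bil_card hS
  have hQcard : (Q.card : ℝ) ≤ t ^ 8 := by
    rw [ht8]
    exact_mod_cast bil_card hQ
  set M : Finset ℤ := Q1.image fun q : ℕ => (q : ℤ) with hM
  have hMcard : M.card = Q1.card :=
    Finset.card_image_of_injective _ Nat.cast_injective
  have hlv := Pool.Agent.Lib.MP_e426f4_ag.TWL.large_values S X (fun p hp => ⟨(hS p hp).1, (hS p hp).2.2⟩)
    3 M (X : ℝ) ?_ ?_ V hV0 ?_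
  rotate_left
  · intro m hm
    obtain ⟨q, hq, rfl⟩ := Finset.mem_image.1 hm
    have hq' := hQ q (Finset.mem_filter.1 hq).1
    refine ⟨?_, ?_⟩
    · exact_mod_cast hq'.1.ne_zero
    · have : |(((q : ℕ) : ℤ) : ℝ)| = (q : ℝ) := by
        rw [Int.cast_natCast, abs_of_nonneg (Nat.cast_nonneg q)]
      rw [this]
      exact_mod_cast hq'.2.2
  · intro m hm m' hm' hne
    obtain ⟨q, hq, rfl⟩ := Finset.mem_image.1 hm
    obtain ⟨q', hq', rfl⟩ := Finset.mem_image.1 hm'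
    refine bil_nsq (hQ q (Finset.mem_filter.1 hq).1).1 (hQ q' (Finset.mem_filter.1 hq').1).1 ?_
    rintro rfl
    exact hne rfl
  · intro m hm
    obtain ⟨q, hq, rfl⟩ := Finset.mem_image.1 hm
    have h1 := (Finset.mem_filter.1 hq).2
    refine h1.trans (le_of_eq ?_)
    congr 1
    refine Finset.sum_congr rfl fun p hp => ?_
    rw [bil_oj (hS p hp).1 (hS p hp).2.1]
  rw [hMcard] at hlv
  set m : ℝ := (Q1.card : ℝ) with hm
  have hm0 : 0 ≤ m := Nat.cast_nonneg _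
  have hfac : ((Nat.factorial 3 : ℕ) : ℝ) = 6 := by norm_num [Nat.factorial]
  rw [hfac] at hlv
  have hX3 : ((X ^ 3 + 1 : ℕ) : ℝ) ≤ 2 * t ^ 24 := by
    push_cast
    rw [← ht8]
    have h1 : (1 : ℝ) ≤ t ^ 24 := one_le_pow₀ ht1
    have h2 : (t ^ 8) ^ 3 = t ^ 24 := by ring
    rw [h2]
    linarith
  have hS3 : (S.card : ℝ) ^ 3 ≤ t ^ 24 := by
    calc (S.card : ℝ) ^ 3 ≤ (t ^ 8) ^ 3 := by gcongr
      _ = t ^ 24 := by ring
  have hkey : (t ^ 42) * m ^ 2 ≤ 12 * t ^ 48 * m + 24 * t ^ 40 * m ^ 2 := by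
    calc (t ^ 42) * m ^ 2 = (V ^ 3 * m) ^ 2 := by rw [hV]; ring
      _ ≤ 6 * (S.card : ℝ) ^ 3 * (m * ((X ^ 3 + 1 : ℕ) : ℝ) + 4 * (X : ℝ) ^ 2 * m ^ 2) := hlv
      _ ≤ 6 * t ^ 24 * (m * (2 * t ^ 24) + 4 * (X : ℝ) ^ 2 * m ^ 2) := by gcongr
      _ = 12 * t ^ 48 * m + 24 * t ^ 40 * m ^ 2 := by rw [← ht8]; ring
  have hm24 : m ≤ 24 * t ^ 6 := by
    rcases hm0.eq_or_lt with h | h
    · rw [← h]
      positivity
    · have h1 : 24 * t ^ 40 * m ^ 2 ≤ t ^ 42 * m ^ 2 / 2 := by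
        have h2 : 24 * t ^ 40 ≤ t ^ 42 / 2 := by
          have h3 : t ^ 42 = t ^ 40 * t ^ 2 := by ring
          rw [h3]
          have h4 : (0 : ℝ) < t ^ 40 := by positivity
          nlinarith
        nlinarith [sq_nonneg m]
      have h2 : t ^ 42 * m * m ≤ (24 * t ^ 6) * (t ^ 42) * m := by nlinarith
      have h3 : t ^ 42 * m ≤ (24 * t ^ 6) * t ^ 42 := le_of_mul_le_mul_right h2 h
      have h4 : t ^ 42 * m ≤ t ^ 42 * (24 * t ^ 6) := by linarith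
      exact le_of_mul_le_mul_left h4 (by positivity)
  have hb : ∀ q ∈ Q, |∑ p ∈ S, (jacobiSym (q : ℤ) p : ℝ)| ≤
      V + (if q ∈ Q1 then t ^ 8 else 0) := by
    intro q hq
    by_cases h : q ∈ Q1
    · rw [if_pos h]
      have h1 : |∑ p ∈ S, (jacobiSym (q : ℤ) p : ℝ)| ≤ (S.card : ℝ) := by
        refine (Finset.abs_sum_le_sum_abs _ _).trans ?_
        refine (Finset.sum_le_sum fun p _ => bil_jac_abs (q : ℤ) p).trans ?_
        simp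
      linarith
    · rw [if_neg h, add_zero]
      by_contra h2
      push Not at h2
      exact h (Finset.mem_filter.2 ⟨hq, h2.le⟩)
  have hsumif : ∑ q ∈ Q, (if q ∈ Q1 then t ^ 8 else (0 : ℝ)) = m * t ^ 8 := by
    rw [← Finset.sum_filter, Finset.sum_const, nsmul_eq_mul]
    congr 2
    have : Q.filter (· ∈ Q1) = Q1 := by
      ext q
      simp only [hQ1, Finset.mem_filter]
      tauto
    rw [this]
  calc ∑ q ∈ Q, |∑ p ∈ S, (jacobiSym (q : ℤ) p : ℝ)|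
      ≤ ∑ q ∈ Q, (V + (if q ∈ Q1 then t ^ 8 else 0)) := Finset.sum_le_sum hb
    _ = Q.card * V + m * t ^ 8 := by
        rw [Finset.sum_add_distrib, hsumif, Finset.sum_const, nsmul_eq_mul]
    _ ≤ t ^ 8 * V + (24 * t ^ 6) * t ^ 8 := by gcongr
    _ = t ^ 15 + 24 * t ^ 14 := by rw [hV]; ring
    _ ≤ 25 * t ^ 15 := by
        have h1 : t ^ 15 = t ^ 14 * t := by ring
        rw [h1]
        have h2 : (0 : ℝ) < t ^ 14 := by positivity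
        nlinarith

theorem bil : ∃ X0 : ℕ, ∀ X : ℕ, X0 ≤ X → ∀ P Q : Finset ℕ,
    (∀ p ∈ P, p.Prime ∧ p ≠ 2 ∧ p ≤ X) → (∀ q ∈ Q, q.Prime ∧ q ≠ 2 ∧ q ≤ X) →
    ∀ a b : ℕ → ℝ, (∀ p, |a p| ≤ 1) → (∀ q, |b q| ≤ 1) →
    |∑ p ∈ P, ∑ q ∈ Q, a p * b q * (jacobiSym (q : ℤ) p : ℝ)| ≤ 100 * (X : ℝ) ^ ((15 : ℝ) / 8) := by
  classical
  refine ⟨48 ^ 4, ?_⟩
  intro X hX P Q hP hQ a b ha hb
  have hXr : ((48 : ℝ)) ^ 4 ≤ (X : ℝ) := by exact_mod_cast hX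
  have hX0 : (0 : ℝ) ≤ X := Nat.cast_nonneg _
  set t : ℝ := (X : ℝ) ^ ((1 : ℝ) / 8) with ht
  have ht0 : 0 ≤ t := Real.rpow_nonneg hX0 _
  have ht8 : t ^ 8 = X := by
    rw [ht, ← Real.rpow_natCast, ← Real.rpow_mul hX0]
    norm_num
  have ht2 : 48 ≤ t ^ 2 := by
    by_contra h
    push Not at h
    have h1 : t ^ 8 < 48 ^ 4 := by
      calc t ^ 8 = (t ^ 2) ^ 4 := by ring
        _ < 48 ^ 4 := by gcongr
    rw [ht8] at h1
    linarith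
  have ht1 : 1 ≤ t := by
    by_contra h
    push Not at h
    nlinarith
  have ht15 : (X : ℝ) ^ ((15 : ℝ) / 8) = t ^ 15 := by
    rw [ht, ← Real.rpow_natCast, ← Real.rpow_mul hX0]
    norm_num
  rw [ht15]
  set T : ℕ → ℝ := fun p => ∑ q ∈ Q, b q * (jacobiSym (q : ℤ) p : ℝ) with hT
  set Pp : Finset ℕ := P.filter fun p => 0 ≤ T p with hPp
  set Pm : Finset ℕ := P.filter fun p => ¬ 0 ≤ T p with hPm
  have hPp' : ∀ p ∈ Pp, p.Prime ∧ p ≠ 2 ∧ p ≤ X := fun p hp => hP p (Finset.mem_filter.1 hp).1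
  have hPm' : ∀ p ∈ Pm, p.Prime ∧ p ≠ 2 ∧ p ≤ X := fun p hp => hP p (Finset.mem_filter.1 hp).1
  have h1 : |∑ p ∈ P, ∑ q ∈ Q, a p * b q * (jacobiSym (q : ℤ) p : ℝ)| ≤ ∑ p ∈ P, |T p| := by
    refine (Finset.abs_sum_le_sum_abs _ _).trans (Finset.sum_le_sum fun p _ => ?_)
    have h2 : ∑ q ∈ Q, a p * b q * (jacobiSym (q : ℤ) p : ℝ) = a p * T p := by
      rw [hT, Finset.mul_sum]
      exact Finset.sum_congr rfl fun q _ => by ring
    rw [h2, abs_mul]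
    calc |a p| * |T p| ≤ 1 * |T p| := mul_le_mul_of_nonneg_right (ha p) (abs_nonneg _)
      _ = |T p| := one_mul _
  have h2 : ∑ p ∈ P, |T p| = ∑ p ∈ Pp, T p - ∑ p ∈ Pm, T p := by
    rw [← Finset.sum_filter_add_sum_filter_not P (fun p => 0 ≤ T p), sub_eq_add_neg,
      ← Finset.sum_neg_distrib]
    congr 1
    · exact Finset.sum_congr rfl fun p hp => abs_of_nonneg (Finset.mem_filter.1 hp).2
    · exact Finset.sum_congr rfl fun p hp => abs_of_neg (not_le.1 (Finset.mem_filter.1 hp).2)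
  have hsw : ∀ R : Finset ℕ, |∑ p ∈ R, T p| ≤ ∑ q ∈ Q, |∑ p ∈ R, (jacobiSym (q : ℤ) p : ℝ)| := by
    intro R
    have h3 : ∑ p ∈ R, T p = ∑ q ∈ Q, b q * ∑ p ∈ R, (jacobiSym (q : ℤ) p : ℝ) := by
      rw [hT, Finset.sum_comm]
      exact Finset.sum_congr rfl fun q _ => by rw [Finset.mul_sum]
    rw [h3]
    refine (Finset.abs_sum_le_sum_abs _ _).trans (Finset.sum_le_sum fun q _ => ?_)
    rw [abs_mul]
    calc |b q| * |∑ p ∈ R, (jacobiSym (q : ℤ) p : ℝ)|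
        ≤ 1 * |∑ p ∈ R, (jacobiSym (q : ℤ) p : ℝ)| :=
          mul_le_mul_of_nonneg_right (hb q) (abs_nonneg _)
      _ = _ := one_mul _
  have h4 := (hsw Pp).trans (bil_set ht8 ht1 ht2 Pp Q hPp' hQ)
  have h5 := (hsw Pm).trans (bil_set ht8 ht1 ht2 Pm Q hPm' hQ)
  have h6 := (abs_le.1 h4).2
  have h7 := (abs_le.1 h5).1
  have h8 : (0 : ℝ) ≤ t ^ 15 := by positivity
  linarith

end RcHP
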