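import Pool.Agent.Lib.MP_e426f4_ag.RC.Bil

/-!
# RC-Blf: the bilinear bound over fibres

Proof. Group the pairs `(o1, o2)` by `(z1 o1, z2 o2) = (c1, c2) ∈ Z1 × Z2` (`Finset.sum_fiberwise_of_maps_to` twice).  On a fibre `K` is
the constant `K c1 c2`, `|K| ≤ 1`, and `y1` is injective on `{o1 : z1 o1 = c1}` and `y2` on `{o2 : z2 o2 = c2}`; so the inner sum is
`∑_{p ∈ P} ∑_{q ∈ Q} a p b q J(q | p)` with `P`, `Q` the images and `a p = U o1` for the unique `o1` (`Finset.sum_image`; define `a` on all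
of `ℕ` with value `0` off the image), bounded by `bil`.
-/

set_option autoImplicit false

namespace RcHP

open Finset TwHP

private theorem blf_ext (F : Finset (ℕ × ℕ)) (y : ℕ × ℕ → ℕ) (hy : Set.InjOn y F)
    (U : ℕ × ℕ → ℝ) (hU : ∀ o, |U o| ≤ 1) :
    ∃ a : ℕ → ℝ, (∀ p, |a p| ≤ 1) ∧ ∀ o ∈ F, a (y o) = U o := by
  classical
  refine ⟨fun p => if h : ∃ o ∈ F, y o = p then U h.choose else 0, fun p => ?_, fun o ho => ?_⟩
  · by_cases h : ∃ o ∈ F, y o = p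
    · simp only [h, dite_true]
      exact hU _
    · simp only [h, dite_false]
      simp
  · have h : ∃ o' ∈ F, y o' = y o := ⟨o, ho, rfl⟩
    have h1 : h.choose = o := hy h.choose_spec.1 ho h.choose_spec.2
    simp only [h, dite_true]
    rw [h1]

theorem blf : ∃ X0 : ℕ, ∀ X : ℕ, X0 ≤ X → ∀ (O1 O2 : Finset (ℕ × ℕ)) (y1 y2 z1 z2 : ℕ × ℕ → ℕ)
    (Z1 Z2 : Finset ℕ),
    (∀ o ∈ O1, (y1 o).Prime ∧ y1 o ≠ 2 ∧ y1 o ≤ X ∧ z1 o ∈ Z1) →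
    (∀ o ∈ O2, (y2 o).Prime ∧ y2 o ≠ 2 ∧ y2 o ≤ X ∧ z2 o ∈ Z2) →
    Set.InjOn (fun o => (y1 o, z1 o)) O1 → Set.InjOn (fun o => (y2 o, z2 o)) O2 →
    ∀ (U V : ℕ × ℕ → ℝ) (K : ℕ → ℕ → ℝ), (∀ o, |U o| ≤ 1) → (∀ o, |V o| ≤ 1) → (∀ c c', |K c c'| ≤ 1) →
    |∑ o1 ∈ O1, ∑ o2 ∈ O2, U o1 * V o2 * K (z1 o1) (z2 o2) * (jacobiSym (y2 o2 : ℤ) (y1 o1) : ℝ)| ≤
      (Z1.card : ℝ) * Z2.card * (100 * (X : ℝ) ^ ((15 : ℝ) / 8)) := by
  classical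
  obtain ⟨X0, hX0⟩ := bil
  refine ⟨X0, fun X hX O1 O2 y1 y2 z1 z2 Z1 Z2 h1 h2 hi1 hi2 U V K hU hV hK => ?_⟩
  have hB : (0 : ℝ) ≤ 100 * (X : ℝ) ^ ((15 : ℝ) / 8) := by positivity
  -- regroup
  have hre : ∑ o1 ∈ O1, ∑ o2 ∈ O2, U o1 * V o2 * K (z1 o1) (z2 o2) *
      (jacobiSym (y2 o2 : ℤ) (y1 o1) : ℝ) =
      ∑ c1 ∈ Z1, ∑ c2 ∈ Z2, ∑ o1 ∈ O1.filter (fun o => z1 o = c1),
        ∑ o2 ∈ O2.filter (fun o => z2 o = c2), U o1 * V o2 * K (z1 o1) (z2 o2) *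
          (jacobiSym (y2 o2 : ℤ) (y1 o1) : ℝ) := by
    rw [← Finset.sum_fiberwise_of_maps_to (g := z1) (t := Z1)
      (fun o ho => (h1 o ho).2.2.2) (fun o1 => ∑ o2 ∈ O2, U o1 * V o2 * K (z1 o1) (z2 o2) *
        (jacobiSym (y2 o2 : ℤ) (y1 o1) : ℝ))]
    refine Finset.sum_congr rfl fun c1 _ => ?_
    rw [Finset.sum_comm (s := Z2)]
    refine Finset.sum_congr rfl fun o1 _ => ?_
    rw [← Finset.sum_fiberwise_of_maps_to (g := z2) (t := Z2)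
      (fun o ho => (h2 o ho).2.2.2) (fun o2 => U o1 * V o2 * K (z1 o1) (z2 o2) *
        (jacobiSym (y2 o2 : ℤ) (y1 o1) : ℝ))]
  rw [hre]
  have hin : ∀ c1 ∈ Z1, ∀ c2 ∈ Z2, |∑ o1 ∈ O1.filter (fun o => z1 o = c1),
        ∑ o2 ∈ O2.filter (fun o => z2 o = c2), U o1 * V o2 * K (z1 o1) (z2 o2) *
          (jacobiSym (y2 o2 : ℤ) (y1 o1) : ℝ)| ≤ 100 * (X : ℝ) ^ ((15 : ℝ) / 8) := by
    intro c1 _ c2 _
    have hj1 : Set.InjOn y1 (O1.filter (fun o => z1 o = c1) : Finset (ℕ × ℕ)) := by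
      intro o ho o' ho' hoo
      rw [coe_filter, Set.mem_ofPred_eq] at ho ho'
      exact hi1 ho.1 ho'.1 (by simp only; rw [hoo, ho.2, ho'.2])
    have hj2 : Set.InjOn y2 (O2.filter (fun o => z2 o = c2) : Finset (ℕ × ℕ)) := by
      intro o ho o' ho' hoo
      rw [coe_filter, Set.mem_ofPred_eq] at ho ho'
      exact hi2 ho.1 ho'.1 (by simp only; rw [hoo, ho.2, ho'.2])
    obtain ⟨a, ha, ha'⟩ := blf_ext _ y1 hj1 U hU
    obtain ⟨b, hb, hb'⟩ := blf_ext _ y2 hj2 V hV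
    have hbil := hX0 X hX ((O1.filter (fun o => z1 o = c1)).image y1)
      ((O2.filter (fun o => z2 o = c2)).image y2)
      (fun p hp => by
        obtain ⟨o, ho, rfl⟩ := mem_image.1 hp
        have h := h1 o (mem_filter.1 ho).1
        exact ⟨h.1, h.2.1, h.2.2.1⟩)
      (fun q hq => by
        obtain ⟨o, ho, rfl⟩ := mem_image.1 hq
        have h := h2 o (mem_filter.1 ho).1
        exact ⟨h.1, h.2.1, h.2.2.1⟩) a b ha hb
    have heq : ∑ o1 ∈ O1.filter (fun o => z1 o = c1),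
        ∑ o2 ∈ O2.filter (fun o => z2 o = c2), U o1 * V o2 * K (z1 o1) (z2 o2) *
          (jacobiSym (y2 o2 : ℤ) (y1 o1) : ℝ) =
        K c1 c2 * ∑ p ∈ (O1.filter (fun o => z1 o = c1)).image y1,
          ∑ q ∈ (O2.filter (fun o => z2 o = c2)).image y2,
            a p * b q * (jacobiSym (q : ℤ) p : ℝ) := by
      rw [Finset.sum_image hj1, Finset.mul_sum]
      refine Finset.sum_congr rfl fun o1 ho1 => ?_
      rw [Finset.sum_image hj2, Finset.mul_sum]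
      refine Finset.sum_congr rfl fun o2 ho2 => ?_
      rw [ha' o1 ho1, hb' o2 ho2, (mem_filter.1 ho1).2, (mem_filter.1 ho2).2]
      ring
    rw [heq, abs_mul]
    calc _ ≤ 1 * (100 * (X : ℝ) ^ ((15 : ℝ) / 8)) :=
          mul_le_mul (hK c1 c2) hbil (abs_nonneg _) (by norm_num)
      _ = _ := one_mul _
  calc _ ≤ ∑ c1 ∈ Z1, |∑ c2 ∈ Z2, ∑ o1 ∈ O1.filter (fun o => z1 o = c1),
        ∑ o2 ∈ O2.filter (fun o => z2 o = c2), U o1 * V o2 * K (z1 o1) (z2 o2) *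
          (jacobiSym (y2 o2 : ℤ) (y1 o1) : ℝ)| := Finset.abs_sum_le_sum_abs _ _
    _ ≤ ∑ c1 ∈ Z1, ∑ c2 ∈ Z2, |∑ o1 ∈ O1.filter (fun o => z1 o = c1),
        ∑ o2 ∈ O2.filter (fun o => z2 o = c2), U o1 * V o2 * K (z1 o1) (z2 o2) *
          (jacobiSym (y2 o2 : ℤ) (y1 o1) : ℝ)| :=
        Finset.sum_le_sum fun c1 _ => Finset.abs_sum_le_sum_abs _ _
    _ ≤ ∑ c1 ∈ Z1, ∑ c2 ∈ Z2, 100 * (X : ℝ) ^ ((15 : ℝ) / 8) :=
        Finset.sum_le_sum fun c1 hc1 => Finset.sum_le_sum fun c2 hc2 => hin c1 hc1 c2 hc2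
    _ = _ := by
        simp only [Finset.sum_const, nsmul_eq_mul]
        ring

end RcHP
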