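import Pool.Agent.Lib.MP_e426f4_ag.RC.AnDefs

/-!
# RC-Chi: the characters of the conic

`tt1 = e1 J(y1|y0) J(y2|y0)`, `tt2 = e2 J(y0|y1) J(y2|y1)`, `chi b1 b2 = tt1^b1 tt2^b2`, `ga = (1/4)(1 + tt1)(1 + tt2)`.
-/

set_option autoImplicit false

namespace RcHP

open Finset TwHP

/-- `e1 J(y1|y0) J(y2|y0)` -/
def tt1 (e1 : ℤ) (y : Fin 3 → ℕ) : ℤ := e1 * (jacobiSym (y 1) (y 0) * jacobiSym (y 2) (y 0))

/-- `e2 J(y0|y1) J(y2|y1)` -/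
def tt2 (e2 : ℤ) (y : Fin 3 → ℕ) : ℤ := e2 * (jacobiSym (y 0) (y 1) * jacobiSym (y 2) (y 1))

/-- `tt1^b1 tt2^b2` -/
def chi (e1 e2 : ℤ) (b1 b2 : Bool) (y : Fin 3 → ℕ) : ℝ :=
  ((if b1 then tt1 e1 y else 1) * (if b2 then tt2 e2 y else 1) : ℤ)

/-- the values of the three forms at the point `t` -/
def yy (Q0 : ℕ) (be : Fin 3 → ℕ) (al : Fin 3 → ℕ → ℤ) (t : ℕ) (o : Fin 3 → ℕ × ℕ) : Fin 3 → ℕ :=
  fun k => yv Q0 (be k) (al k) t (o k)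

/-- all three values are prime at the point `t` -/
def prs (Q0 : ℕ) (be : Fin 3 → ℕ) (al : Fin 3 → ℕ → ℤ) (Y t : ℕ) : Finset (Fin 3 → ℕ × ℕ) :=
  (Fintype.piFinset fun _ : Fin 3 => bx Y).filter fun o => ∀ k, (yy Q0 be al t o k).Prime

/-- membership in `Ec` -/
theorem mem_Ec (Q0 : ℕ) (be : Fin 3 → ℕ) (al : Fin 3 → ℕ → ℤ) (e1 e2 : ℤ) (Y t : ℕ) (o : Fin 3 → ℕ × ℕ) :
    o ∈ Ec Q0 be al e1 e2 Y t ↔ o ∈ prs Q0 be al Y t ∧ tt1 e1 (yy Q0 be al t o) = 1 ∧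
      tt2 e2 (yy Q0 be al t o) = 1 := by
  unfold Ec prs tt1 tt2 yy
  rw [mem_filter, mem_filter]
  tauto

private lemma Chi_mul {a b : ℤ} (ha : a = 0 ∨ a = 1 ∨ a = -1) (hb : b = 0 ∨ b = 1 ∨ b = -1) :
    a * b = 0 ∨ a * b = 1 ∨ a * b = -1 := by
  rcases ha with rfl | rfl | rfl <;> rcases hb with rfl | rfl | rfl <;> simp

private lemma Chi_tt1 (e1 : ℤ) (h1 : e1 = 1 ∨ e1 = -1) (y : Fin 3 → ℕ) :
    tt1 e1 y = 0 ∨ tt1 e1 y = 1 ∨ tt1 e1 y = -1 :=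
  Chi_mul (Or.inr h1) (Chi_mul (jacobiSym.trichotomy _ _) (jacobiSym.trichotomy _ _))

private lemma Chi_tt2 (e2 : ℤ) (h2 : e2 = 1 ∨ e2 = -1) (y : Fin 3 → ℕ) :
    tt2 e2 y = 0 ∨ tt2 e2 y = 1 ∨ tt2 e2 y = -1 :=
  Chi_mul (Or.inr h2) (Chi_mul (jacobiSym.trichotomy _ _) (jacobiSym.trichotomy _ _))

private lemma Chi_sum (e1 e2 : ℤ) (y : Fin 3 → ℕ) :
    chi e1 e2 false false y + chi e1 e2 true false y + chi e1 e2 false true y +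
      chi e1 e2 true true y = (((1 + tt1 e1 y) * (1 + tt2 e2 y) : ℤ) : ℝ) := by
  unfold chi
  push_cast
  simp
  ring

/-- `(1/4) ∑_{b1, b2} chi` is `1` on `Ec` and nonnegative. -/
theorem chi_sum_nonneg (e1 e2 : ℤ) (h1 : e1 = 1 ∨ e1 = -1) (h2 : e2 = 1 ∨ e2 = -1) (y : Fin 3 → ℕ) :
    0 ≤ chi e1 e2 false false y + chi e1 e2 true false y + chi e1 e2 false true y + chi e1 e2 true true y := by
  rw [Chi_sum]
  have h : 0 ≤ (1 + tt1 e1 y) * (1 + tt2 e2 y) := by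
    rcases Chi_tt1 e1 h1 y with h | h | h <;> rcases Chi_tt2 e2 h2 y with h' | h' | h' <;>
      rw [h, h'] <;> norm_num
  exact_mod_cast h

theorem chi_sum_eq (e1 e2 : ℤ) (y : Fin 3 → ℕ) (h1 : tt1 e1 y = 1) (h2 : tt2 e2 y = 1) :
    chi e1 e2 false false y + chi e1 e2 true false y + chi e1 e2 false true y + chi e1 e2 true true y = 4 := by
  rw [Chi_sum, h1, h2]
  norm_num

private lemma Chi_ne_zero {a b : ℕ} (ha : a.Prime) (hb : b.Prime) (h : a ≠ b) :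
    jacobiSym (a : ℤ) b ≠ 0 := by
  have : NeZero b := ⟨hb.ne_zero⟩
  apply jacobiSym.ne_zero
  rw [Int.gcd_natCast_natCast]
  exact (Nat.coprime_primes ha hb).2 h

/-- For distinct primes `tt1`, `tt2` are `± 1`, so the sum vanishes unless both are `1`; and it is always `≤ 4`. -/
theorem chi_sum_zero (e1 e2 : ℤ) (he1 : e1 = 1 ∨ e1 = -1) (he2 : e2 = 1 ∨ e2 = -1) (y : Fin 3 → ℕ)
    (hp : ∀ k, (y k).Prime) (h01 : y 0 ≠ y 1) (h02 : y 0 ≠ y 2) (h12 : y 1 ≠ y 2)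
    (h : ¬ (tt1 e1 y = 1 ∧ tt2 e2 y = 1)) :
    chi e1 e2 false false y + chi e1 e2 true false y + chi e1 e2 false true y + chi e1 e2 true true y = 0 := by
  rw [Chi_sum]
  have e1' : e1 ≠ 0 := by rcases he1 with h | h <;> rw [h] <;> norm_num
  have e2' : e2 ≠ 0 := by rcases he2 with h | h <;> rw [h] <;> norm_num
  have n1 : tt1 e1 y ≠ 0 := mul_ne_zero e1' (mul_ne_zero (Chi_ne_zero (hp 1) (hp 0) h01.symm)
    (Chi_ne_zero (hp 2) (hp 0) h02.symm))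
  have n2 : tt2 e2 y ≠ 0 := mul_ne_zero e2' (mul_ne_zero (Chi_ne_zero (hp 0) (hp 1) h01)
    (Chi_ne_zero (hp 2) (hp 1) h12.symm))
  have h' : (1 + tt1 e1 y) * (1 + tt2 e2 y) = 0 := by
    rcases Chi_tt1 e1 he1 y with h3 | h3 | h3
    · exact absurd h3 n1
    · rcases Chi_tt2 e2 he2 y with h4 | h4 | h4
      · exact absurd h4 n2
      · exact absurd ⟨h3, h4⟩ h
      · rw [h4]
        norm_num
    · rw [h3]
      norm_num
  exact_mod_cast h'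

theorem chi_sum_le (e1 e2 : ℤ) (h1 : e1 = 1 ∨ e1 = -1) (h2 : e2 = 1 ∨ e2 = -1) (y : Fin 3 → ℕ) :
    chi e1 e2 false false y + chi e1 e2 true false y + chi e1 e2 false true y + chi e1 e2 true true y ≤ 4 := by
  rw [Chi_sum]
  have h : (1 + tt1 e1 y) * (1 + tt2 e2 y) ≤ 4 := by
    rcases Chi_tt1 e1 h1 y with h | h | h <;> rcases Chi_tt2 e2 h2 y with h' | h' | h' <;>
      rw [h, h'] <;> norm_num
  exact_mod_cast h

end RcHP
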