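import Pool.Agent.Lib.MP_e426f4_ag.RC.FamB
import Pool.Agent.Lib.MP_e426f4_ag.RC.Avg
import Pool.Agent.Lib.MP_e426f4_ag.M.ClassCard

/-!
# RC-ClsT: the class theorem

Proof. `C' = C * 2^(NP + 1)` with `C` of `fam_bound`.  By `avg` with `K = C/w (Y^2)^(r*3)` (`Y = Yf H ≥ 1`, cancel `(Y^2)^(r*3) > 0`) the exceptional set of the class
has at most `|Cl (2 rho)| C / w` elements, and `|Cl (2 rho)| ≤ 2 (4 rho H / Q0)^NP = 2^(NP+1) (2 rho H / Q0)^NP` for `H` large: `class_card` (`eps = 1`) transported by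
`Equiv.piCurry` as in `P/PosProp.lean`.
-/

set_option autoImplicit false

namespace RcHP

open Finset Filter Topology GenHP CIPHP TwHP

private theorem clsT_card {ι : Type} [Fintype ι] [DecidableEq ι] {n : ι → ℕ} {r : ℕ}
    {d : Fin (r * 3) → ι → ℕ} (AC : PSys n d ℝ) (A0 : PSys n d ℤ) (Q0 : ℕ) (hQ : 0 < Q0) (rho : ℝ)
    (hr : 0 < rho) : ∀ᶠ H : ℝ in atTop, ((Cl AC A0 Q0 rho H).ncard : ℝ) ≤
      2 * (2 * rho * H / Q0) ^ NP n d := by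
  set E : ((x : Σ j : Fin (r * 3), MIdx n (d j)) → ℤ) ≃ PSys n d ℤ :=
    Equiv.piCurry (fun (j : Fin (r * 3)) (_ : MIdx n (d j)) => ℤ) with hE
  have hcard := class_card (fun x : Σ j : Fin (r * 3), MIdx n (d j) => AC x.1 x.2)
      (fun x : Σ j : Fin (r * 3), MIdx n (d j) => A0 x.1 x.2) Q0 hQ rho 1 hr one_pos
  filter_upwards [hcard] with H hH
  have h1 := hH.2
  rw [card_sigma_NP] at h1
  have h2 : Cl AC A0 Q0 rho H = E '' {A : ((x : Σ j : Fin (r * 3), MIdx n (d j)) → ℤ) |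
      (∀ x, |(A x : ℝ) - H * AC x.1 x.2| ≤ rho * H) ∧ ∀ x, (Q0 : ℤ) ∣ A x - A0 x.1 x.2} := by
    ext A
    rw [Set.mem_image]
    constructor
    · rintro ⟨hA, hA'⟩
      exact ⟨E.symm A, ⟨fun x => hA x.1 x.2, fun x => hA' x.1 x.2⟩, E.apply_symm_apply A⟩
    · rintro ⟨f, ⟨hf, hf'⟩, rfl⟩
      exact ⟨fun j t => hf ⟨j, t⟩, fun j t => hf' ⟨j, t⟩⟩
  rw [h2, Set.ncard_image_of_injective _ E.injective]
  have e : (1 + 1 : ℝ) = 2 := by norm_num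
  rw [e] at h1
  exact h1

theorem rcls {ι : Type} [Fintype ι] [DecidableEq ι] (n : ι → ℕ) {r : ℕ} (d : Fin (r * 3) → ι → ℕ)
    (hr : 1 ≤ r) (hn : ∀ i, 1 ≤ n i) (hd : ∀ j i, 1 ≤ d j i) (i0 : ι) : RCLS n d := by
  classical
  obtain ⟨C, hC, hfam⟩ := fam_bound n d hr hn hd i0
  refine ⟨C * 2 ^ (NP n d + 1), by positivity, ?_⟩
  intro w hw bet hbet hbet1
  obtain ⟨rho0, hrho0, hrho01, hfam⟩ := hfam w hw bet hbet hbet1
  refine ⟨rho0, hrho0, hrho01, ?_⟩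
  intro rho hrho hrho' k hk A0 hA0 AC Ainf hAinf hAC hgood
  obtain ⟨M1, M2, sg, Yf, hfam⟩ := hfam rho hrho hrho' k hk A0 hA0 AC Ainf hAinf hAC hgood
  have hQ : 0 < primorial w ^ (k + 3) := pow_pos (primorial_pos w) _
  filter_upwards [hfam, clsT_card AC A0 (primorial w ^ (k + 3)) hQ (2 * rho) (by positivity),
    eventually_ge_atTop 0] with H h1 h2 h0
  obtain ⟨hY, hM, hK⟩ := h1
  have hK' : ∀ A ∈ Cl AC A0 (primorial w ^ (k + 3)) (2 * rho) H,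
      ((((Fintype.piFinset fun _ : Fin (r * 3) => bx (Yf H)).filter fun o =>
        ¬ Sol (vr A M1 M2 (primorial w ^ (k + 3)) sg o) ℚ).card : ℕ) : ℝ) ≤
        C / w * ((Yf H : ℝ) ^ 2) ^ (r * 3) := fun A hA => hK A hA
  have h3 := avg AC A0 (primorial w ^ (k + 3)) rho H M1 M2 sg (Yf H) hM
    (C / w * ((Yf H : ℝ) ^ 2) ^ (r * 3)) hK'
  have hYpos : (0 : ℝ) < ((Yf H : ℝ) ^ 2) ^ (r * 3) := by
    have : (0 : ℝ) < (Yf H : ℝ) := by exact_mod_cast hY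
    positivity
  have h4 : ((Set.ncard {A | A ∈ Cl AC A0 (primorial w ^ (k + 3)) rho H ∧ ¬ Sol A ℚ} : ℕ) : ℝ) ≤
      ((Cl AC A0 (primorial w ^ (k + 3)) (2 * rho) H).ncard : ℝ) * (C / w) := by
    have h5 : ((Cl AC A0 (primorial w ^ (k + 3)) (2 * rho) H).ncard : ℝ) *
        (C / w * ((Yf H : ℝ) ^ 2) ^ (r * 3)) =
        ((Cl AC A0 (primorial w ^ (k + 3)) (2 * rho) H).ncard : ℝ) * (C / w) *
          ((Yf H : ℝ) ^ 2) ^ (r * 3) := by ring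
    rw [h5] at h3
    exact le_of_mul_le_mul_right h3 hYpos
  have heq : {A : PSys n d ℤ | (∀ j t, |(A j t : ℝ) - H * AC j t| ≤ rho * H) ∧
      (∀ j t, ((primorial w : ℤ) ^ (k + 3)) ∣ A j t - A0 j t) ∧ ¬ Sol A ℚ} =
      {A | A ∈ Cl AC A0 (primorial w ^ (k + 3)) rho H ∧ ¬ Sol A ℚ} := by
    ext A
    simp only [Cl, Set.mem_setOf_eq]
    push_cast
    rw [and_assoc]
  rw [heq]
  have hQc : ((primorial w ^ (k + 3) : ℕ) : ℝ) = (primorial w : ℝ) ^ (k + 3) := by push_cast; rfl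
  rw [hQc] at h2
  have hCw : 0 ≤ C / w := by positivity
  calc ((Set.ncard {A | A ∈ Cl AC A0 (primorial w ^ (k + 3)) rho H ∧ ¬ Sol A ℚ} : ℕ) : ℝ)
      ≤ ((Cl AC A0 (primorial w ^ (k + 3)) (2 * rho) H).ncard : ℝ) * (C / w) := h4
    _ ≤ (2 * (2 * (2 * rho) * H / (primorial w : ℝ) ^ (k + 3)) ^ NP n d) * (C / w) :=
        mul_le_mul_of_nonneg_right h2 hCw
    _ = C * 2 ^ (NP n d + 1) / w * (2 * rho * H / (primorial w : ℝ) ^ (k + 3)) ^ NP n d := by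
        have h6 : 2 * (2 * rho) * H / (primorial w : ℝ) ^ (k + 3) =
            2 * (2 * rho * H / (primorial w : ℝ) ^ (k + 3)) := by ring
        rw [h6, mul_pow, pow_succ]
        ring

end RcHP
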