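import Pool.Agent.Lib.MP_e426f4_ag.RC.Jone

/-!
# RC-ELow: lower and upper bounds for `Ec`

Proof. Put `S(o) = ∑_{b1,b2} chi(yy t o)`, `PR = prs Q0 be al Y t`.
Lower bound: for `o ∈ PR` with `y 0, y 1, y 2` distinct: `1_{Ec} ≥ S/4` (`chi_sum_zero`, `chi_sum_eq`); otherwise `S/4 ≤ 1` (`chi_sum_le`).  So
`|Ec| ≥ (1/4) ∑_{PR} S - #{o ∈ PR : not distinct}`.  The term `(false, false)` gives `|PR| = ∏_k #{o ∈ bx Y : y k prime}`
(`Finset.card` of a `piFinset`) `≥ ((1 - ε') Y^2 Bw / L)^3` (`one_form`), the others are `≤ ε' (Y^2)^3 / L^3` (`j_one`, `A = 3`), the last number is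
`≤ 3 Y^5` (for `j ≠ l`, given `o j` and `(o l).1` there is at most one `(o l).2` with `y_l = y_j`), `≤ ε' (Y^2)^3 / L^3`.
Upper bound: `|Ec| ≤ |PR| ≤ ((1 + ε') Y^2 Bw / L)^3`.
-/

set_option autoImplicit false

namespace RcHP

open Finset TwHP

private theorem coll_card (Q0 : ℕ) (be : Fin 3 → ℕ) (al : Fin 3 → ℕ → ℤ) (Y t : ℕ) (j l : Fin 3)
    (hjl : j ≠ l) (hQ : 0 < Q0) (hbe : 0 < be l) (hpos : ∀ o ∈ bx Y, 0 < yz Q0 (be l) (al l) t o) :
    ((Fintype.piFinset fun _ : Fin 3 => bx Y).filter fun o =>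
      yy Q0 be al t o j = yy Q0 be al t o l).card ≤ Y ^ 5 := by
  classical
  have hcard : (Fintype.piFinset fun k : Fin 3 => if k = l then Icc 1 Y ×ˢ {1} else bx Y).card =
      Y ^ 5 := by
    rw [Fintype.card_piFinset, Fin.prod_univ_three]
    have h1 : (Icc 1 Y ×ˢ ({1} : Finset ℕ)).card = Y := by simp
    have h2 : (bx Y).card = Y ^ 2 := by
      unfold bx
      rw [card_product, Nat.card_Icc, Nat.add_sub_cancel]
      ring
    fin_cases l <;> simp [h2] <;> ring
  rw [← hcard]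
  refine card_le_card_of_injOn (fun o k => if k = l then ((o l).1, 1) else o k) ?_ ?_
  · intro o ho
    rw [mem_coe, mem_filter, Fintype.mem_piFinset] at ho
    rw [mem_coe, Fintype.mem_piFinset]
    intro k
    by_cases hk : k = l
    · simp only [hk, if_true]
      have := ho.1 l
      unfold bx at this
      rw [mem_product] at this
      rw [mem_product]
      exact ⟨this.1, mem_singleton_self 1⟩
    · simp only [hk, if_false]
      exact ho.1 k
  · intro o ho o' ho' hoo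
    rw [mem_coe, mem_filter, Fintype.mem_piFinset] at ho ho'
    have hk : ∀ k, k ≠ l → o k = o' k := by
      intro k hk
      have := congrFun hoo k
      simpa [hk] using this
    have hl1 : (o l).1 = (o' l).1 := by
      have := congrFun hoo l
      simpa using this
    have hy : yv Q0 (be l) (al l) t (o l) = yv Q0 (be l) (al l) t (o' l) := by
      have h1 := ho.2
      have h2 := ho'.2
      unfold yy at h1 h2
      rw [← h1, ← h2, hk j hjl]
    have hz : yz Q0 (be l) (al l) t (o l) = yz Q0 (be l) (al l) t (o' l) := by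
      have h1 := hpos _ (ho.1 l)
      have h2 := hpos _ (ho'.1 l)
      unfold yv at hy
      omega
    have hl2 : (o l).2 = (o' l).2 := by
      unfold yz at hz
      rw [hl1] at hz
      have h3 : (be l : ℤ) * (Q0 * (o l).2) = be l * (Q0 * (o' l).2) := by linarith
      have h4 : (be l : ℤ) ≠ 0 := by exact_mod_cast hbe.ne'
      have h5 : (Q0 : ℤ) ≠ 0 := by exact_mod_cast hQ.ne'
      have h6 := mul_left_cancel₀ h5 (mul_left_cancel₀ h4 h3)
      exact_mod_cast h6
    funext k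
    by_cases hkl : k = l
    · subst hkl
      exact Prod.ext hl1 hl2
    · exact hk k hkl

private theorem prs_card (Q0 : ℕ) (be : Fin 3 → ℕ) (al : Fin 3 → ℕ → ℤ) (Y t : ℕ) :
    (prs Q0 be al Y t).card =
      ∏ k, ((bx Y).filter fun o => (yv Q0 (be k) (al k) t o).Prime).card := by
  classical
  rw [← Fintype.card_piFinset]
  congr 1
  ext o
  unfold prs yy
  simp only [mem_filter, Fintype.mem_piFinset]
  constructor
  · exact fun h k => ⟨h.1 k, h.2 k⟩
  · exact fun h => ⟨fun k => (h k).1, fun k => (h k).2⟩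

theorem e_low (w Q0 E : ℕ) (be et : Fin 3 → ℕ) (hc : Cst w Q0) (hf : ∀ k, Fmc w (be k) (et k))
    (c0 c1 ε : ℝ) (hc0 : 0 < c0) (hc1 : 0 < c1) (hε : 0 < ε) :
    ∃ H0 : ℝ, ∀ H : ℝ, H0 ≤ H → ∀ Y N : ℕ, c1 * H ≤ Y → (Y : ℝ) ≤ H →
    ∀ al : Fin 3 → ℕ → ℤ, (∀ k, Lin w Q0 (be k) (et k) E c0 H Y N (al k)) →
    ∀ e1 e2 : ℤ, (e1 = 1 ∨ e1 = -1) → (e2 = 1 ∨ e2 = -1) → ∀ t ∈ Ico N (2 * N),
    (1 / 4 - ε) * ((Y : ℝ) ^ 2 * (Bw w / Real.log H)) ^ 3 ≤ ((Ec Q0 be al e1 e2 Y t).card : ℝ) ∧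
    ((Ec Q0 be al e1 e2 Y t).card : ℝ) ≤ 8 * ((Y : ℝ) ^ 2 * (Bw w / Real.log H)) ^ 3 := by
  classical
  obtain ⟨η, hη0, hη1, hηε⟩ : ∃ η : ℝ, 0 < η ∧ η ≤ 1 ∧ 4 * η ≤ ε := by
    refine ⟨min 1 (ε / 4), by positivity, min_le_left _ _, ?_⟩
    have := min_le_right 1 (ε / 4)
    linarith
  choose H1 hH1 using fun k => one_form w Q0 (be k) (et k) E hc (hf k) c0 c1 η hc0 hc1 hη0
  obtain ⟨H2, hH2⟩ := j_one w Q0 E 3 be et hc hf c0 c1 η hc0 hc1 hη0
  obtain ⟨H3, hH3⟩ : ∃ H3 : ℝ, ∀ H : ℝ, H3 ≤ H → 1 ≤ H ∧ 1 ≤ Real.log H ∧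
      3 * Real.log H ^ 3 ≤ η * (c1 * H) := by
    have h1 := (Real.isLittleO_pow_log_id_atTop (n := 3)).bound
      (show (0 : ℝ) < η * c1 / 3 by positivity)
    have h2 := Real.tendsto_log_atTop.eventually_ge_atTop 1
    have h3 := Filter.eventually_ge_atTop (1 : ℝ)
    obtain ⟨H3, hH3⟩ := Filter.eventually_atTop.mp (h1.and (h2.and h3))
    refine ⟨H3, fun H hH => ?_⟩
    obtain ⟨h4, h5, h6⟩ := hH3 H hH
    refine ⟨h6, h5, ?_⟩
    rw [Real.norm_eq_abs, Real.norm_eq_abs, id, abs_of_nonneg (by positivity),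
      abs_of_nonneg (by linarith)] at h4
    linarith
  refine ⟨max (max (H1 0) (max (H1 1) (H1 2))) (max H2 H3), fun H hH Y N hY1 hY2 al hl e1 e2 he1 he2
    t ht => ?_⟩
  have hHk : ∀ k, H1 k ≤ H := by
    intro k
    have h1 := (le_max_left _ _).trans hH
    fin_cases k
    · exact (le_max_left _ _).trans h1
    · exact (le_max_left _ _).trans ((le_max_right _ _).trans h1)
    · exact (le_max_right _ _).trans ((le_max_right _ _).trans h1)
  have hH2' : H2 ≤ H := (le_max_left _ _).trans ((le_max_right _ _).trans hH)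
  have hH3' : H3 ≤ H := (le_max_right _ _).trans ((le_max_right _ _).trans hH)
  obtain ⟨hHone, hLone, hLbig⟩ := hH3 H hH3'
  have hB := Bw_ge_one w
  set L := Real.log H with hL
  set G : ℝ := (Y : ℝ) ^ 2 * (Bw w / L) with hG
  have hL0 : 0 < L := by linarith
  have hG0 : 0 ≤ G := by positivity
  have hGge : (Y : ℝ) ^ 2 / L ≤ G := by
    rw [hG, ← mul_div_assoc]
    gcongr
    nlinarith [sq_nonneg (Y : ℝ)]
  have hGcube : ((Y : ℝ) ^ 2) ^ 3 / L ^ 3 ≤ G ^ 3 := by
    rw [← div_pow]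
    exact pow_le_pow_left₀ (by positivity) hGge 3
  set P := prs Q0 be al Y t with hP
  have hnk : ∀ k, |((((bx Y).filter fun o => (yv Q0 (be k) (al k) t o).Prime).card : ℕ) : ℝ) - G| ≤
      η * G := fun k => hH1 k H (hHk k) Y N hY1 hY2 (al k) (hl k) t ht
  have hPcard : (P.card : ℝ) =
      ∏ k, ((((bx Y).filter fun o => (yv Q0 (be k) (al k) t o).Prime).card : ℕ) : ℝ) := by
    rw [hP, prs_card]
    push_cast
    rfl
  have hPlow : (1 - 3 * η) * G ^ 3 ≤ (P.card : ℝ) := by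
    have h1 : ∏ k : Fin 3, ((1 - η) * G) ≤ (P.card : ℝ) := by
      rw [hPcard]
      refine prod_le_prod (fun k _ => mul_nonneg (by linarith) hG0) fun k _ => ?_
      have := (abs_le.mp (hnk k)).1
      linarith
    rw [prod_const, card_univ, Fintype.card_fin, mul_pow] at h1
    refine le_trans ?_ h1
    refine mul_le_mul_of_nonneg_right ?_ (by positivity)
    nlinarith [mul_nonneg hη0.le hη0.le, mul_nonneg (mul_nonneg hη0.le hη0.le) (sub_nonneg.mpr hη1)]
  have hPup : (P.card : ℝ) ≤ 8 * G ^ 3 := by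
    have h1 : (P.card : ℝ) ≤ ∏ k : Fin 3, (2 * G) := by
      rw [hPcard]
      refine prod_le_prod (fun k _ => by positivity) fun k _ => ?_
      have := (abs_le.mp (hnk k)).2
      nlinarith
    rw [prod_const, card_univ, Fintype.card_fin, mul_pow] at h1
    linarith
  have hEsub : Ec Q0 be al e1 e2 Y t ⊆ P := fun o ho =>
    ((mem_Ec Q0 be al e1 e2 Y t o).mp ho).1
  refine ⟨?_, ?_⟩
  swap
  · refine le_trans ?_ hPup
    exact_mod_cast card_le_card hEsub
  -- the collisions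
  have hpos : ∀ k, ∀ o ∈ bx Y, 0 < yz Q0 (be k) (al k) t o := by
    intro k o ho
    have h1 := (hl k).lo t ht o ho
    have h2 : (0 : ℝ) < (yz Q0 (be k) (al k) t o : ℝ) := lt_of_lt_of_le (by positivity) h1
    exact_mod_cast h2
  set Col := P.filter fun o => yy Q0 be al t o 0 = yy Q0 be al t o 1 ∨
    yy Q0 be al t o 0 = yy Q0 be al t o 2 ∨ yy Q0 be al t o 1 = yy Q0 be al t o 2 with hCol
  have hPsub : P ⊆ Fintype.piFinset fun _ : Fin 3 => bx Y := filter_subset _ _
  have hColcard : (Col.card : ℝ) ≤ 3 * (Y : ℝ) ^ 5 := by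
    have h1 : Col ⊆ (((Fintype.piFinset fun _ : Fin 3 => bx Y).filter fun o =>
        yy Q0 be al t o 0 = yy Q0 be al t o 1) ∪
        ((Fintype.piFinset fun _ : Fin 3 => bx Y).filter fun o =>
        yy Q0 be al t o 0 = yy Q0 be al t o 2)) ∪
        ((Fintype.piFinset fun _ : Fin 3 => bx Y).filter fun o =>
        yy Q0 be al t o 1 = yy Q0 be al t o 2) := by
      intro o ho
      rw [hCol, mem_filter] at ho
      have ho1 := hPsub ho.1
      rw [mem_union, mem_union, mem_filter, mem_filter, mem_filter]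
      rcases ho.2 with h | h | h
      · exact Or.inl (Or.inl ⟨ho1, h⟩)
      · exact Or.inl (Or.inr ⟨ho1, h⟩)
      · exact Or.inr ⟨ho1, h⟩
    have h2 := (card_le_card h1).trans ((card_union_le _ _).trans
      (Nat.add_le_add_right (card_union_le _ _) _))
    have h3 := coll_card Q0 be al Y t 0 1 (by decide) hc.pos (hf 1).pos (hpos 1)
    have h4 := coll_card Q0 be al Y t 0 2 (by decide) hc.pos (hf 2).pos (hpos 2)
    have h5 := coll_card Q0 be al Y t 1 2 (by decide) hc.pos (hf 2).pos (hpos 2)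
    have h6 : Col.card ≤ 3 * Y ^ 5 := by omega
    exact_mod_cast h6
  have hColG : (Col.card : ℝ) ≤ η * G ^ 3 := by
    refine hColcard.trans (le_trans ?_ (mul_le_mul_of_nonneg_left hGcube hη0.le))
    rw [← mul_div_assoc, le_div_iff₀ (by positivity)]
    have h1 : 3 * L ^ 3 ≤ η * Y := hLbig.trans (mul_le_mul_of_nonneg_left hY1 hη0.le)
    calc 3 * (Y : ℝ) ^ 5 * L ^ 3 = (Y : ℝ) ^ 5 * (3 * L ^ 3) := by ring
      _ ≤ (Y : ℝ) ^ 5 * (η * Y) := mul_le_mul_of_nonneg_left h1 (by positivity)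
      _ = _ := by ring
  -- the pointwise bound
  have hpt : ∀ o ∈ P, (chi e1 e2 false false (yy Q0 be al t o) +
      chi e1 e2 true false (yy Q0 be al t o) + chi e1 e2 false true (yy Q0 be al t o) +
      chi e1 e2 true true (yy Q0 be al t o)) / 4 ≤
      (if o ∈ Ec Q0 be al e1 e2 Y t then (1 : ℝ) else 0) + (if o ∈ Col then (1 : ℝ) else 0) := by
    intro o ho
    have hle := chi_sum_le e1 e2 he1 he2 (yy Q0 be al t o)
    by_cases hcol : o ∈ Col
    · rw [if_pos hcol]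
      have : (0 : ℝ) ≤ (if o ∈ Ec Q0 be al e1 e2 Y t then (1 : ℝ) else 0) := by
        split_ifs <;> norm_num
      linarith
    · have hcol' := hcol
      rw [hCol, mem_filter] at hcol
      push Not at hcol
      obtain ⟨h01, h02, h12⟩ := hcol ho
      rw [if_neg hcol', add_zero]
      by_cases htt : tt1 e1 (yy Q0 be al t o) = 1 ∧ tt2 e2 (yy Q0 be al t o) = 1
      · rw [chi_sum_eq e1 e2 _ htt.1 htt.2, if_pos ((mem_Ec Q0 be al e1 e2 Y t o).mpr ⟨ho, htt⟩)]
        norm_num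
      · rw [chi_sum_zero e1 e2 he1 he2 _ (mem_filter.mp ho).2 h01 h02 h12 htt]
        split_ifs <;> norm_num
  have hsum := sum_le_sum hpt
  rw [sum_add_distrib, ← sum_div, sum_add_distrib, sum_add_distrib, sum_add_distrib] at hsum
  have hEcard : ∑ o ∈ P, (if o ∈ Ec Q0 be al e1 e2 Y t then (1 : ℝ) else 0) =
      ((Ec Q0 be al e1 e2 Y t).card : ℝ) := by
    rw [← sum_filter, filter_mem_eq_inter, inter_eq_right.mpr hEsub]
    simp
  have hCcard : ∑ o ∈ P, (if o ∈ Col then (1 : ℝ) else 0) = (Col.card : ℝ) := by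
    rw [← sum_filter, filter_mem_eq_inter, inter_eq_right.mpr (filter_subset _ _), sum_const,
      nsmul_eq_mul, mul_one]
  rw [hEcard, hCcard] at hsum
  have hff : ∑ o ∈ P, chi e1 e2 false false (yy Q0 be al t o) = (P.card : ℝ) := by
    have : ∀ o ∈ P, chi e1 e2 false false (yy Q0 be al t o) = 1 := by
      intro o _
      unfold chi
      simp
    rw [sum_congr rfl this]
    simp
  have hj : ∀ b1 b2 : Bool, (b1 || b2) = true →
      -(η * G ^ 3) ≤ ∑ o ∈ P, chi e1 e2 b1 b2 (yy Q0 be al t o) := by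
    intro b1 b2 hb
    have h1 := hH2 H hH2' Y N hY1 hY2 al hl e1 e2 he1 he2 t ht b1 b2 hb
    have h2 := (abs_le.mp h1).1
    have h3 : η * ((Y : ℝ) ^ 2) ^ 3 / Real.log H ^ 3 ≤ η * G ^ 3 := by
      rw [mul_div_assoc]
      exact mul_le_mul_of_nonneg_left hGcube hη0.le
    linarith
  have h10 := hj true false rfl
  have h01 := hj false true rfl
  have h11 := hj true true rfl
  rw [hff] at hsum
  have hG3 : 0 ≤ G ^ 3 := by positivity
  have hfin : (1 / 4 - ε) * G ^ 3 ≤ (1 / 4 - 5 / 2 * η) * G ^ 3 :=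
    mul_le_mul_of_nonneg_right (by linarith) hG3
  refine hfin.trans ?_
  linarith

end RcHP
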