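import Pool.Agent.Lib.MP_e426f4_ag.RC.AnDefs
import Pool.Agent.Lib.MP_e426f4_ag.TW.PF
import Pool.Agent.Lib.MP_e426f4_ag.TW.HM
import Pool.Agent.Lib.MP_e426f4_ag.TW.LQ
import Pool.Agent.Lib.MP_e426f4_ag.TW.Split

/-!
# RC-Glue: a conic with prime coefficients (up to smooth factors) and two symbol conditions

Template: `TW/Glue.lean`.  Proof. `rough w (A k) = y k` (`y k > w` prime, `g k` smooth: `TwHP.rough_of_mul` or directly).  The `A k` are nonzero and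
pairwise `CopW`.  `pf`: `Phi w (A 0) (A 1) (A 2) = 1`, i.e. `J(-(A 1 A 2) | y 0) J(-(A 0 A 2) | y 1) J(-(A 0 A 1) | y 2) = 1`, hence the third
symbol is `1` too.  `hm`: it remains to see that the conic is soluble over `ℝ` and all `ℚ_q`.  `q ≤ w` and `ℝ`: `hloc`.  `q > w`, `q ≠ y 0, y 1, y 2`:
all coefficients are units: `lq_even` / `lq_one`.  `q = y 0`: `lq_one` with `J(-(A 1 A 2) | q) = 1`; `q = y 1, y 2`: permute (`iso_perm12`, ...).
-/

set_option autoImplicit false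

namespace RcHP

open Finset TwHP

theorem conic_glue (w : ℕ) (hw : 2 ≤ w) (A g : Fin 3 → ℤ) (y : Fin 3 → ℕ) (hA : ∀ k, A k = g k * y k)
    (hg : ∀ k, g k ≠ 0) (hgs : ∀ k, ∀ p : ℕ, p.Prime → (p : ℤ) ∣ g k → p ≤ w)
    (hy : ∀ k, (y k).Prime ∧ w < y k) (h01 : y 0 ≠ y 1) (h02 : y 0 ≠ y 2) (h12 : y 1 ≠ y 2)
    (hloc : LocW w (A 0) (A 1) (A 2)) (hJ0 : jacobiSym (-(A 1 * A 2)) (y 0) = 1)
    (hJ1 : jacobiSym (-(A 0 * A 2)) (y 1) = 1) : Iso ((A 0 : ℤ) : ℚ) ((A 1 : ℤ) : ℚ) ((A 2 : ℤ) : ℚ) := by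
  have hr : ∀ k, rough w (A k) = y k := by
    intro k
    rw [hA k]
    refine rough_of_mul w (g k) (y k) (hg k) (hgs k) (hy k).1.pos fun p hp hd => ?_
    rw [(Nat.prime_dvd_prime_iff_eq hp (hy k).1).1 hd]
    exact (hy k).2
  have hne : ∀ k, A k ≠ 0 := by
    intro k
    rw [hA k]
    exact mul_ne_zero (hg k) (by exact_mod_cast (hy k).1.ne_zero)
  -- the only large prime of `A k` is `y k`
  have hdv : ∀ k, ∀ q : ℕ, q.Prime → w < q → (q : ℤ) ∣ A k → q = y k := by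
    intro k q hq hwq hd
    rw [hA k] at hd
    rcases (Nat.prime_iff_prime_int.1 hq).dvd_or_dvd hd with h | h
    · exact absurd (hgs k q hq h) (not_le.2 hwq)
    · exact (Nat.prime_dvd_prime_iff_eq hq (hy k).1).1 (by exact_mod_cast h)
  have hcop : ∀ k l, y k ≠ y l → CopW w (A k) (A l) := by
    rintro k l hkl q hq hwq ⟨h1, h2⟩
    exact hkl ((hdv k q hq hwq h1).symm.trans (hdv l q hq hwq h2))
  have hphi := pf w hw (A 0) (A 1) (A 2) (hne 0) (hne 1) (hne 2) (hcop 0 1 h01) (hcop 0 2 h02)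
    (hcop 1 2 h12) hloc
  unfold Phi at hphi
  rw [hr 0, hr 1, hr 2, hJ0, hJ1, one_mul, one_mul] at hphi
  refine TwHP.hm (A 0) (A 1) (A 2) (hne 0) (hne 1) (hne 2) hloc.1 fun q hq => ?_
  by_cases hqw : q ≤ w
  · exact hloc.2 q hqw
  have hwq : w < q := not_le.1 hqw
  have hq2 : q ≠ 2 := by omega
  have hqp : q.Prime := hq.out
  by_cases h0 : q = y 0
  · have hn : ¬ (q : ℤ) ∣ A 1 := fun h => h01 (h0.symm.trans (hdv 1 q hqp hwq h))
    refine lq_one q hq2 (A 0) (A 1) (A 2) hn ?_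
    rw [h0]
    exact hJ0
  by_cases h1 : q = y 1
  · have hn : ¬ (q : ℤ) ∣ A 0 := fun h => h0 (hdv 0 q hqp hwq h)
    have h := lq_one q hq2 (A 1) (A 0) (A 2) hn (by rw [h1]; exact hJ1)
    exact (iso_perm12 _ _ _).1 h
  by_cases h2 : q = y 2
  · have hn : ¬ (q : ℤ) ∣ A 0 := fun h => h0 (hdv 0 q hqp hwq h)
    have h := lq_one q hq2 (A 2) (A 0) (A 1) hn (by rw [h2]; exact hphi)
    exact (iso_perm23 _ _ _).1 ((iso_perm12 _ _ _).1 h)
  · have hev : ∀ k, q ≠ y k → Even ((A k).natAbs.factorization q) := by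
      intro k hk
      rw [Nat.factorization_eq_zero_of_not_dvd fun h =>
        hk (hdv k q hqp hwq (Int.natCast_dvd.2 h))]
      exact Even.zero
    exact lq_even q hq2 (A 0) (A 1) (A 2) (hne 0) (hne 1) (hne 2) (hev 0 h0) (hev 1 h1) (hev 2 h2)

end RcHP
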