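import Pool.Agent.Lib.MP_e426f4_ag.RC.JacC
import Pool.Agent.Lib.MP_e426f4_ag.RC.Glue

/-!
# RC-EcSol: parameters in `Ec` give rational points on the conic

Proof. `y k = yv Q0 (be k) (al k) t (o k)` is prime, `y k ≥ c0 H > w` (hypothesis `hbig`), `(yz : ℤ) = y k`.  The two conditions of `Ec` contain
all of `J(y1|y0)`, `J(y2|y0)`, `J(y2|y1)`, which are therefore nonzero: the primes are distinct.
`J(-(A 1 A 2) | y 0) = J(-(g 1 g 2) | y 0) J(y 1 | y 0) J(y 2 | y 0)` and `J(-(g 1 g 2) | y 0) = J(-(g 1 g 2) | et 0) = e1` (`jac_const`); same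
for `J(-(A 0 A 2) | y 1)`, `e2`.  `conic_glue`.
-/

set_option autoImplicit false

namespace RcHP

open Finset TwHP

private lemma EcSol_ne {a b : ℕ} (ha : a.Prime) (h : jacobiSym (b : ℤ) a ≠ 0) : a ≠ b := by
  rintro rfl
  have : NeZero a := ⟨ha.ne_zero⟩
  apply h
  rw [jacobiSym.eq_zero_iff_not_coprime, Int.gcd_natCast_natCast, Nat.gcd_self]
  exact ha.one_lt.ne'

private lemma EcSol_smooth {w : ℕ} {a b : ℤ} (ha : ∀ p : ℕ, p.Prime → (p : ℤ) ∣ a → p ≤ w)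
    (hb : ∀ p : ℕ, p.Prime → (p : ℤ) ∣ b → p ≤ w) :
    ∀ p : ℕ, p.Prime → (p : ℤ) ∣ -(a * b) → p ≤ w := by
  intro p hp h
  rw [dvd_neg] at h
  rcases (Nat.prime_iff_prime_int.mp hp).dvd_or_dvd h with h | h
  · exact ha p hp h
  · exact hb p hp h

private lemma EcSol_sym (w : ℕ) (hw : 2 ≤ w) (a b : ℤ) (ha0 : a ≠ 0) (hb0 : b ≠ 0)
    (ha : ∀ p : ℕ, p.Prime → (p : ℤ) ∣ a → p ≤ w) (hb : ∀ p : ℕ, p.Prime → (p : ℤ) ∣ b → p ≤ w)
    (x y z e : ℕ) (hz : z ≡ e [MOD W8 w]) (he : e.Coprime (W8 w))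
    (h : jacobiSym (-(a * b)) e * (jacobiSym (x : ℤ) z * jacobiSym (y : ℤ) z) = 1) :
    jacobiSym (-((a * x) * (b * y))) z = 1 := by
  have hzc : z.Coprime (W8 w) := by
    show Nat.gcd _ _ = 1
    rw [hz.gcd_eq]
    exact he
  have h1 : -((a * x) * (b * y)) = -(a * b) * ((x : ℤ) * y) := by ring
  rw [h1, jacobiSym.mul_left, jacobiSym.mul_left,
    jac_const w hw (-(a * b)) (neg_ne_zero.mpr (mul_ne_zero ha0 hb0)) (EcSol_smooth ha hb) z e hz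
      hzc he]
  exact h

theorem ec_sol (w Q0 : ℕ) (hw : 2 ≤ w) (be et : Fin 3 → ℕ) (al : Fin 3 → ℕ → ℤ) (g : Fin 3 → ℤ)
    (hg : ∀ k, g k ≠ 0) (hgs : ∀ k, ∀ p : ℕ, p.Prime → (p : ℤ) ∣ g k → p ≤ w)
    (het : ∀ k, (et k).Coprime (W8 w)) (Y t : ℕ) (o : Fin 3 → ℕ × ℕ)
    (hres : ∀ k, yz Q0 (be k) (al k) t (o k) ≡ (et k : ℤ) [ZMOD (W8 w : ℤ)])
    (hbig : ∀ k, (w : ℤ) < yz Q0 (be k) (al k) t (o k))
    (ho : o ∈ Ec Q0 be al (jacobiSym (-(g 1 * g 2)) (et 0)) (jacobiSym (-(g 0 * g 2)) (et 1)) Y t)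
    (A : Fin 3 → ℤ) (hA : ∀ k, A k = g k * yz Q0 (be k) (al k) t (o k))
    (hloc : LocW w (A 0) (A 1) (A 2)) : Iso ((A 0 : ℤ) : ℚ) ((A 1 : ℤ) : ℚ) ((A 2 : ℤ) : ℚ) := by
  unfold Ec at ho
  rw [mem_filter] at ho
  obtain ⟨-, hpr, hs1, hs2⟩ := ho
  have hyz : ∀ k, ((yv Q0 (be k) (al k) t (o k) : ℕ) : ℤ) = yz Q0 (be k) (al k) t (o k) := by
    intro k
    have := hbig k
    exact Int.toNat_of_nonneg (by omega)
  have hmod : ∀ k, yv Q0 (be k) (al k) t (o k) ≡ et k [MOD W8 w] := by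
    intro k
    rw [← Int.natCast_modEq_iff, hyz]
    exact hres k
  have hA' : ∀ k, A k = g k * (yv Q0 (be k) (al k) t (o k) : ℕ) := by
    intro k
    rw [hyz, hA]
  have hj1 := right_ne_zero_of_mul_eq_one hs1
  have hj2 := right_ne_zero_of_mul_eq_one hs2
  refine conic_glue w hw A g (fun k => yv Q0 (be k) (al k) t (o k)) hA' hg hgs ?_ ?_ ?_ ?_ hloc
    ?_ ?_
  · intro k
    refine ⟨hpr k, ?_⟩
    have h1 := hbig k
    rw [← hyz] at h1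
    exact_mod_cast h1
  · exact EcSol_ne (hpr 0) (left_ne_zero_of_mul hj1)
  · exact EcSol_ne (hpr 0) (right_ne_zero_of_mul hj1)
  · exact EcSol_ne (hpr 1) (right_ne_zero_of_mul hj2)
  · rw [hA' 1, hA' 2]
    exact EcSol_sym w hw (g 1) (g 2) (hg 1) (hg 2) (hgs 1) (hgs 2) _ _ _ (et 0) (hmod 0) (het 0) hs1
  · rw [hA' 0, hA' 2]
    exact EcSol_sym w hw (g 0) (g 2) (hg 0) (hg 2) (hgs 0) (hgs 2) _ _ _ (et 1) (hmod 1) (het 1) hs2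

end RcHP
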