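import Pool.Agent.Lib.MP_e426f4_ag.P.Defs

/-!
# Random diagonal conic bundles: exceptional systems
-/

set_option autoImplicit false

namespace RcHP

open Finset Filter Topology GenHP CIPHP

section multi
variable {ι : Type} [Fintype ι] [DecidableEq ι] {n : ι → ℕ} {m : ℕ} {d : Fin m → ι → ℕ}

/-- `A` is `p`-adically exceptional: some non-empty subsystem (rows `em 0, em 1, ..`) is singular modulo powers of `p` at some point. -/
def ExcP (p κ : ℕ) (A : PSys n d ℤ) : Prop :=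
  ∃ (b : ℕ) (em : Fin b → Fin m), 1 ≤ b ∧ Function.Injective em ∧ ∃ z : MVar n → ℤ, BUnit p z ∧
    (∀ j, (p : ℤ) ^ κ ∣ MF (A (em j)) z) ∧
    ∀ J : Fin b → MVar n,
      (p : ℤ) ^ (b * κ) ∣ (PJac (fun j => A (em j) : PSys n (fun j => d (em j)) ℤ) z J).det

/-- `A` is exceptional at the real place. -/
def ExcR (bet : ℝ) (H : ℕ) (A : PSys n d ℤ) : Prop :=
  ∃ (b : ℕ) (em : Fin b → Fin m), 1 ≤ b ∧ Function.Injective em ∧ ∃ z : MVar n → ℝ, BNorm z ∧
    (∀ j, |MF (fun t => (A (em j) t : ℝ)) z| ≤ bet * H) ∧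
    ∀ J : Fin b → MVar n,
      |(PJac (fun j t => (A (em j) t : ℝ) : PSys n (fun j => d (em j)) ℝ) z J).det| < (bet * H) ^ b

end multi

end RcHP
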