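import Pool.Agent.Lib.MP_e426f4_ag.RC.SubC
import Pool.Agent.Lib.MP_e426f4_ag.RC.ExDefs
import Pool.Agent.Lib.MP_e426f4_ag.P.PadicExc1

/-!
# RC-ExP: few systems are `p`-adically exceptional

Proof. `b ≤ m` as `em` is injective.  For each of the finitely many pairs `(b, em)`, `1 ≤ b ≤ m`: `p_padic_exc1` (with `r = b`, `d ∘ em`) gives `C_(b,em)`, independent of
`k`; with `sub_count` the number of `A` is `≤ C / p^κ (2H+1)^NP` for `H` large.  Choose `κ` with `∑ C_(b,em) / p^κ ≤ eps`; finite union.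
-/

set_option autoImplicit false

namespace RcHP

open Finset Filter Topology GenHP CIPHP

private theorem expCover {ι : Type} [Fintype ι] [DecidableEq ι] {n : ι → ℕ} {m : ℕ}
    (d : Fin m → ι → ℕ)
    (S : (b : ℕ) → (em : Fin b → Fin m) → Set (PSys n (fun j => d (em j)) ℤ))
    (Cc : (Σ b : Fin (m + 1), (Fin b → Fin m)) → ℝ) (hC : ∀ i, 0 ≤ Cc i) (H : ℕ)
    (hb : ∀ i : (Σ b : Fin (m + 1), (Fin b → Fin m)), 1 ≤ (i.1 : ℕ) → Function.Injective i.2 →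
      (Set.ncard {A : PSys n (fun j => d (i.2 j)) ℤ | A ∈ pbox n (fun j => d (i.2 j)) H ∧
        A ∈ S i.1 i.2} : ℝ) ≤ Cc i * (2 * H + 1) ^ NP n (fun j => d (i.2 j))) :
    (Set.ncard {A : PSys n d ℤ | A ∈ pbox n d H ∧ ∃ (b : ℕ) (em : Fin b → Fin m), 1 ≤ b ∧
      Function.Injective em ∧ (fun j => A (em j) : PSys n (fun j => d (em j)) ℤ) ∈ S b em} : ℝ) ≤
      (∑ i, Cc i) * (2 * H + 1) ^ NP n d := by
  classical
  let f : (Σ b : Fin (m + 1), (Fin b → Fin m)) → Set (PSys n d ℤ) := fun i =>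
    {A | A ∈ pbox n d H ∧ (1 ≤ (i.1 : ℕ) ∧ Function.Injective i.2) ∧
      (fun j => A (i.2 j) : PSys n (fun j => d (i.2 j)) ℤ) ∈ S i.1 i.2}
  have hf : ∀ i, ((f i).ncard : ℝ) ≤ Cc i * (2 * H + 1) ^ NP n d := by
    intro i
    by_cases hi : 1 ≤ (i.1 : ℕ) ∧ Function.Injective i.2
    · have h := sub_count d i.2 hi.2 (S i.1 i.2) H (Cc i) (hb i hi.1 hi.2)
      have he : f i = {A : PSys n d ℤ | A ∈ pbox n d H ∧
          (fun j => A (i.2 j) : PSys n (fun j => d (i.2 j)) ℤ) ∈ S i.1 i.2} := by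
        ext A
        simp only [f, Set.mem_setOf_eq]
        exact ⟨fun h => ⟨h.1, h.2.2⟩, fun h => ⟨h.1, hi, h.2⟩⟩
      rw [he]
      exact h
    · have he : f i = ∅ := by
        ext A
        simp only [f, Set.mem_setOf_eq, Set.mem_empty_iff_false, iff_false]
        exact fun h => hi h.2.1
      rw [he, Set.ncard_empty]
      have := hC i
      simp only [Nat.cast_zero]
      positivity
  have hsub : {A : PSys n d ℤ | A ∈ pbox n d H ∧ ∃ (b : ℕ) (em : Fin b → Fin m), 1 ≤ b ∧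
      Function.Injective em ∧ (fun j => A (em j) : PSys n (fun j => d (em j)) ℤ) ∈ S b em} ⊆
      ⋃ i ∈ (Finset.univ : Finset (Σ b : Fin (m + 1), (Fin b → Fin m))), f i := by
    rintro A ⟨hA, b, em, hb1, hem, hS⟩
    have hbm : b ≤ m := by
      have := Fintype.card_le_of_injective em hem
      simpa using this
    simp only [Set.mem_iUnion, Finset.mem_univ, exists_prop, true_and]
    exact ⟨⟨⟨b, by omega⟩, em⟩, hA, ⟨hb1, hem⟩, hS⟩
  have hfin : (⋃ i ∈ (Finset.univ : Finset (Σ b : Fin (m + 1), (Fin b → Fin m))), f i).Finite :=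
    (Finset.univ : Finset (Σ b : Fin (m + 1), (Fin b → Fin m))).finite_toSet.biUnion
      fun i _ => pbox_finite H _
  have h3 : ({A : PSys n d ℤ | A ∈ pbox n d H ∧ ∃ (b : ℕ) (em : Fin b → Fin m), 1 ≤ b ∧
      Function.Injective em ∧
      (fun j => A (em j) : PSys n (fun j => d (em j)) ℤ) ∈ S b em}.ncard : ℝ) ≤
      ((∑ i, (f i).ncard : ℕ) : ℝ) := by
    exact_mod_cast (Set.ncard_le_ncard hsub hfin).trans (Finset.set_ncard_biUnion_le _ f)
  refine h3.trans ?_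
  push_cast
  rw [Finset.sum_mul]
  exact Finset.sum_le_sum fun i _ => hf i

theorem ex_p {ι : Type} [Fintype ι] [DecidableEq ι] {n : ι → ℕ} {m : ℕ} (d : Fin m → ι → ℕ)
    (hd : ∀ j i, 1 ≤ d j i) (p : ℕ) (hp : p.Prime) (eps : ℝ) (he : 0 < eps) :
    ∃ κ : ℕ, 1 ≤ κ ∧ ∀ᶠ H : ℕ in atTop,
      (Set.ncard {A : PSys n d ℤ | A ∈ pbox n d H ∧ ExcP p κ A} : ℝ) ≤ eps * (2 * H + 1) ^ NP n d := by
  classical
  have hpR : (1 : ℝ) < p := by exact_mod_cast hp.one_lt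
  have hp0 : (0 : ℝ) < p := by linarith
  let S : (k : ℕ) → (b : ℕ) → (em : Fin b → Fin m) → Set (PSys n (fun j => d (em j)) ℤ) :=
    fun k b em => {A | ∃ z : MVar n → ℤ, BUnit p z ∧ (∀ j, (p : ℤ) ^ k ∣ MF (A j) z) ∧
      ∀ J : Fin b → MVar n, (p : ℤ) ^ (b * k) ∣ (PJac A z J).det}
  have h1 : ∀ i : (Σ b : Fin (m + 1), (Fin b → Fin m)), ∃ C : ℝ, 0 < C ∧
      (1 ≤ (i.1 : ℕ) → ∀ k : ℕ, 1 ≤ k → ∀ᶠ H : ℕ in atTop,
        (Set.ncard {A : PSys n (fun j => d (i.2 j)) ℤ | A ∈ pbox n (fun j => d (i.2 j)) H ∧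
          A ∈ S k i.1 i.2} : ℝ) ≤
          C / (p : ℝ) ^ k * (2 * H + 1) ^ NP n (fun j => d (i.2 j))) := by
    intro i
    by_cases hi : 1 ≤ (i.1 : ℕ)
    · obtain ⟨C, hC, h⟩ := p_padic_exc1 n (fun j => d (i.2 j)) hi (fun j i' => hd _ i')
      exact ⟨C, hC, fun _ k hk => h p hp k hk⟩
    · exact ⟨1, one_pos, fun h => absurd h hi⟩
  choose Cc hCc hc using h1
  obtain ⟨κ0, hκ0⟩ := pow_unbounded_of_one_lt ((∑ i, Cc i) / eps) hpR
  refine ⟨κ0 + 1, by omega, ?_⟩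
  have hev : ∀ᶠ H : ℕ in atTop, ∀ i : (Σ b : Fin (m + 1), (Fin b → Fin m)), 1 ≤ (i.1 : ℕ) →
      (Set.ncard {A : PSys n (fun j => d (i.2 j)) ℤ | A ∈ pbox n (fun j => d (i.2 j)) H ∧
          A ∈ S (κ0 + 1) i.1 i.2} : ℝ) ≤
          Cc i / (p : ℝ) ^ (κ0 + 1) * (2 * H + 1) ^ NP n (fun j => d (i.2 j)) := by
    rw [Filter.eventually_all]
    intro i
    by_cases hi : 1 ≤ (i.1 : ℕ)
    · exact (hc i hi (κ0 + 1) (by omega)).mono fun H hH _ => hH
    · exact Filter.Eventually.of_forall fun H h => absurd h hi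
  filter_upwards [hev] with H hH
  have h2 := expCover d (S (κ0 + 1)) (fun i => Cc i / (p : ℝ) ^ (κ0 + 1))
    (fun i => by have := hCc i; positivity) H (fun i hi _ => hH i hi)
  refine h2.trans ?_
  refine mul_le_mul_of_nonneg_right ?_ (by positivity)
  rw [← Finset.sum_div, div_le_iff₀ (by positivity)]
  rw [div_lt_iff₀ he] at hκ0
  have h3 : (p : ℝ) ^ κ0 ≤ (p : ℝ) ^ (κ0 + 1) := pow_le_pow_right₀ hpR.le (by omega)
  nlinarith [mul_le_mul_of_nonneg_left h3 he.le]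

end RcHP
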