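import Pool.Agent.Lib.MP_e426f4_ag.P.RealExc1

/-!
# RC-ExR1: few systems are nearly singular at an approximate real zero

Adaptation of `P/RealExc1.lean` (`p_real_exc1`): the hypothesis `MF = 0` is replaced by
`|MF| ≤ bet * H`.
-/

set_option autoImplicit false

namespace RcHP

open Finset Filter Topology GenHP CIPHP

section multi
variable {ι : Type} [Fintype ι] [DecidableEq ι]

/-- truncation towards zero -/
private lemma p1r_trunc (y : ℝ) : ∃ m : ℤ, |(m : ℝ)| ≤ |y| ∧ |y - m| ≤ 1 := by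
  rcases le_or_gt 0 y with hy | hy
  · refine ⟨⌊y⌋, ?_, ?_⟩
    · rw [abs_of_nonneg hy, abs_of_nonneg (by exact_mod_cast Int.floor_nonneg.2 hy)]
      exact Int.floor_le y
    · rw [abs_le]
      constructor <;> linarith [Int.floor_le y, Int.lt_floor_add_one y]
  · refine ⟨⌈y⌉, ?_, ?_⟩
    · rw [abs_of_neg hy]
      have h1 : ⌈y⌉ ≤ 0 := Int.ceil_le.2 (by simpa using hy.le)
      have h2 : (⌈y⌉ : ℝ) ≤ 0 := by exact_mod_cast h1
      rw [abs_of_nonpos h2]
      linarith [Int.le_ceil y]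
    · rw [abs_le]
      constructor <;> linarith [Int.le_ceil y, Int.ceil_lt_add_one y]

variable {n : ι → ℕ}

/-- the net of the normalised points: one coordinate `± 1` in every block, the others multiples of
`bet` -/
private noncomputable def p1rNet (R : ℤ) (τ : ∀ i, Fin (n i + 1)) : Finset (MVar n → ℤ) :=
  Fintype.piFinset fun v : MVar n => if v.2 = τ v.1 then ({1, -1} : Finset ℤ) else Icc (-R) R

/-- the coordinates different from the chosen ones -/
private def p1rU (τ : ∀ i, Fin (n i + 1)) : Finset (MVar n) :=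
  univ.filter fun v : MVar n => v.2 ≠ τ v.1

omit [DecidableEq ι] in
private lemma p1rU_card (τ : ∀ i, Fin (n i + 1)) : (p1rU τ).card = ∑ i, n i := by
  have h : p1rU τ = (univ : Finset ι).sigma fun i => (univ : Finset (Fin (n i + 1))).erase (τ i) := by
    ext v
    simp [p1rU]
  rw [h, Finset.card_sigma]
  refine Finset.sum_congr rfl fun i _ => ?_
  rw [Finset.card_erase_of_mem (Finset.mem_univ _), Finset.card_univ, Fintype.card_fin]
  rfl

private noncomputable def p1rPt (bet : ℝ) (τ : ∀ i, Fin (n i + 1)) (m : MVar n → ℤ) :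
    MVar n → ℝ :=
  fun v => if v.2 = τ v.1 then (m v : ℝ) else bet * m v

private lemma p1r_net_card (bet : ℝ) (hb : 0 < bet) (hb1 : bet ≤ 1) (τ : ∀ i, Fin (n i + 1)) :
    ((p1rNet ⌊1 / bet⌋ τ).card : ℝ) ≤ 2 ^ Fintype.card (MVar n) * (3 / bet) ^ (∑ i, n i) := by
  classical
  rw [← p1rU_card τ]
  set R : ℤ := ⌊1 / bet⌋ with hR
  have hRnn : 0 ≤ R := Int.floor_nonneg.2 (by positivity)
  have h1 : (p1rNet R τ).card ≤
      2 ^ Fintype.card (MVar n) * ((2 * R + 1).toNat) ^ (p1rU τ).card := by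
    unfold p1rNet
    rw [Fintype.card_piFinset]
    have h2 : ∀ v : MVar n, (if v.2 = τ v.1 then ({1, -1} : Finset ℤ) else Icc (-R) R).card ≤
        2 * (if v.2 = τ v.1 then 1 else (2 * R + 1).toNat) := by
      intro v
      split_ifs with hv
      · exact card_le_two
      · rw [Int.card_Icc]
        have : (R + 1 - -R).toNat = (2 * R + 1).toNat := by congr 1; ring
        rw [this]
        omega
    refine (Finset.prod_le_prod' (fun v _ => h2 v)).trans ?_
    rw [Finset.prod_mul_distrib, Finset.prod_const, Finset.card_univ]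
    refine Nat.mul_le_mul_left _ (le_of_eq ?_)
    rw [Finset.prod_ite, Finset.prod_const_one, one_mul, Finset.prod_const]
    rfl
  have h2 : (((2 * R + 1).toNat : ℕ) : ℝ) ≤ 3 / bet := by
    have h3 : (((2 * R + 1).toNat : ℕ) : ℤ) = 2 * R + 1 := Int.toNat_of_nonneg (by omega)
    have h4 : (((2 * R + 1).toNat : ℕ) : ℝ) = 2 * (R : ℝ) + 1 := by
      exact_mod_cast congrArg (fun n : ℤ => (n : ℝ)) h3
    rw [h4]
    have h5 : (R : ℝ) ≤ 1 / bet := Int.floor_le _
    have h6 : 1 ≤ 1 / bet := by rw [le_div_iff₀ hb]; linarith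
    have h7 : 3 / bet = 3 * (1 / bet) := by ring
    rw [h7]
    linarith
  calc ((p1rNet R τ).card : ℝ)
      ≤ ((2 ^ Fintype.card (MVar n) * ((2 * R + 1).toNat) ^ (p1rU τ).card : ℕ) : ℝ) := by
        exact_mod_cast h1
    _ = 2 ^ Fintype.card (MVar n) * (((2 * R + 1).toNat : ℕ) : ℝ) ^ (p1rU τ).card := by
        push_cast; ring
    _ ≤ 2 ^ Fintype.card (MVar n) * (3 / bet) ^ (p1rU τ).card :=
        mul_le_mul_of_nonneg_left (pow_le_pow_left₀ (by positivity) h2 _) (by positivity)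

/-- the point of the net near a normalised point -/
private lemma p1r_near (bet : ℝ) (hb : 0 < bet) (z : MVar n → ℝ) (hz : BNorm z) :
    ∃ (τ : ∀ i, Fin (n i + 1)) (m : MVar n → ℤ), m ∈ p1rNet ⌊1 / bet⌋ τ ∧
      (∀ v, |p1rPt bet τ m v - z v| ≤ bet) := by
  classical
  obtain ⟨hz1, hz2⟩ := hz
  choose τ hτ using hz2
  choose mk hmk1 hmk2 using fun v => p1r_trunc (z v / bet)
  have hs : ∀ i, ∃ s : ℤ, (s = 1 ∨ s = -1) ∧ (s : ℝ) = z ⟨i, τ i⟩ := by
    intro i
    rcases (abs_eq (by norm_num : (0 : ℝ) ≤ 1)).1 (hτ i) with h | h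
    · exact ⟨1, Or.inl rfl, by simp [h]⟩
    · exact ⟨-1, Or.inr rfl, by simp [h]⟩
  choose s hs1 hs2 using hs
  refine ⟨τ, fun v => if v.2 = τ v.1 then s v.1 else mk v, ?_, ?_⟩
  · unfold p1rNet
    rw [Fintype.mem_piFinset]
    intro v
    by_cases hv : v.2 = τ v.1
    · rw [if_pos hv, if_pos hv]
      simp only [mem_insert, mem_singleton]
      exact hs1 v.1
    · rw [if_neg hv, if_neg hv, Finset.mem_Icc]
      have h1 := hmk1 v
      have h2 : |z v / bet| ≤ 1 / bet := by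
        rw [abs_div, abs_of_pos hb]
        exact div_le_div_of_nonneg_right (hz1 v) hb.le
      have h3 := abs_le.1 (h1.trans h2)
      constructor
      · have : -mk v ≤ ⌊1 / bet⌋ := Int.le_floor.2 (by push_cast; linarith [h3.1])
        linarith
      · exact Int.le_floor.2 h3.2
  · intro v
    by_cases hv : v.2 = τ v.1
    · simp only [p1rPt, if_pos hv]
      rw [hs2 v.1]
      have : v = ⟨v.1, τ v.1⟩ := by
        obtain ⟨i, a⟩ := v
        simp only at hv
        rw [hv]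
      rw [← this, sub_self, abs_zero]
      exact hb.le
    · simp only [p1rPt, if_neg hv]
      have h1 := hmk2 v
      have h2 : bet * (mk v : ℝ) - z v = -(bet * (z v / bet - mk v)) := by
        field_simp
        ring
      rw [h2, abs_neg, abs_mul, abs_of_pos hb]
      calc bet * |z v / bet - mk v| ≤ bet * 1 := mul_le_mul_of_nonneg_left h1 hb.le
        _ = bet := mul_one _

private lemma p1r_cover {α β : Type*} (S : Set α) (T : Finset β) (f : β → Set α)
    (hsub : ∀ a ∈ S, ∃ t ∈ T, a ∈ f t) (hfin : ∀ t ∈ T, (f t).Finite) (K : ℝ)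
    (hcard : ∀ t ∈ T, ((f t).ncard : ℝ) ≤ K) : (S.ncard : ℝ) ≤ T.card * K := by
  have h1 : S ⊆ ⋃ t ∈ T, f t := by
    intro a ha
    obtain ⟨t, ht, hat⟩ := hsub a ha
    simp only [Set.mem_iUnion]
    exact ⟨t, ht, hat⟩
  have h2 : (⋃ t ∈ T, f t).Finite := T.finite_toSet.biUnion fun t ht => hfin t ht
  have h3 : (S.ncard : ℝ) ≤ ((∑ t ∈ T, (f t).ncard : ℕ) : ℝ) := by
    exact_mod_cast (Set.ncard_le_ncard h1 h2).trans (Finset.set_ncard_biUnion_le T f)
  refine h3.trans ?_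
  push_cast
  calc ∑ t ∈ T, ((f t).ncard : ℝ) ≤ ∑ _t ∈ T, K := Finset.sum_le_sum hcard
    _ = T.card * K := by rw [Finset.sum_const, nsmul_eq_mul]

theorem ex_r1 {ι : Type} [Fintype ι] [DecidableEq ι] (n : ι → ℕ) {r : ℕ} (d : Fin r → ι → ℕ) (hr : 1 ≤ r)
    (hd : ∀ j i, 1 ≤ d j i) : ∃ C : ℝ, 0 < C ∧ ∀ bet : ℝ, 0 < bet → bet ≤ 1 →
    ∀ᶠ H : ℕ in atTop,
      (Set.ncard {A : PSys n d ℤ | A ∈ pbox n d H ∧ ∃ z : MVar n → ℝ, BNorm z ∧
        (∀ j, |MF (fun t => (A j t : ℝ)) z| ≤ bet * H) ∧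
        ∀ J : Fin r → MVar n, |(PJac (fun j t => (A j t : ℝ)) z J).det| < (bet * H) ^ r} : ℝ) ≤
        C * bet * (2 * H + 1) ^ NP n d := by
  classical
  obtain ⟨Cr, hCr, hcr⟩ := pcond_r n d hd
  set VV : ℕ := Fintype.card (MVar n) with hVV
  set D0 : ℕ := ∑ i, n i with hD0
  set TT : ℕ := Fintype.card (∀ i, Fin (n i + 1)) with hTT
  let tm : Fin r → ℝ := fun j => NM n (d j) * (VV * (∑ i, d j i : ℕ) + 4 ^ (∑ i, d j i) * 1) +
    (NM n (d j) * (∑ i, d j i : ℕ) + NM n (d j) * (∑ i, d j i : ℕ) * 4 ^ (∑ i, d j i))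
  have htm : ∀ j, 0 ≤ tm j := fun j => by
    show (0:ℝ) ≤ NM n (d j) * (VV * (∑ i, d j i : ℕ) + 4 ^ (∑ i, d j i) * 1) +
      (NM n (d j) * (∑ i, d j i : ℕ) + NM n (d j) * (∑ i, d j i : ℕ) * 4 ^ (∑ i, d j i))
    positivity
  obtain ⟨C1, hC1⟩ : ∃ C1 : ℝ, C1 = 1 + ∑ j, tm j := ⟨_, rfl⟩
  have hsum0 : 0 ≤ ∑ j, tm j := Finset.sum_nonneg fun j _ => htm j
  have hC1pos : 1 ≤ C1 := by rw [hC1]; linarith
  have hTTpos : (0 : ℝ) < TT := by
    have : 0 < TT := Fintype.card_pos
    exact_mod_cast this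
  have hrpos : (0 : ℝ) < r := by exact_mod_cast hr
  refine ⟨TT * 2 ^ VV * 3 ^ D0 * r * 2 * 3 ^ (r - 1) * Cr * C1 ^ D0 * C1 ^ r, by positivity, ?_⟩
  intro bet hb hb1
  filter_upwards [hcr (C1 * bet) (C1 * bet) (by positivity) (by positivity),
    eventually_ge_atTop 1] with H hH hH1
  have hHpos : (0 : ℝ) < H := by exact_mod_cast hH1
  let T1 : Finset (Σ _τ : (∀ i, Fin (n i + 1)), (MVar n → ℤ)) :=
    (univ : Finset (∀ i, Fin (n i + 1))).sigma fun τ => p1rNet ⌊1 / bet⌋ τ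
  let T2 : Finset (Σ _i : Fin r, (Fin r → ℤ)) :=
    (univ : Finset (Fin r)).sigma fun i => CIHP.er_net r bet i
  let ff : ((Σ _τ : (∀ i, Fin (n i + 1)), (MVar n → ℤ)) × (Σ _i : Fin r, (Fin r → ℤ))) →
      Set (PSys n d ℤ) := fun t => {A : PSys n d ℤ | A ∈ pbox n d H ∧
        (∀ j, |MF (fun s => (A j s : ℝ)) (p1rPt bet t.1.1 t.1.2)| ≤ (C1 * bet) * H) ∧
        ∀ v ∈ p1rU t.1.1, |∑ j, CIHP.er_pt bet t.2.1 t.2.2 j *
          MD (fun s => (A j s : ℝ)) (p1rPt bet t.1.1 t.1.2) v| ≤ (C1 * bet) * H}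
  have hT1 : (T1.card : ℝ) ≤ TT * (2 ^ VV * (3 / bet) ^ D0) := by
    simp only [T1, Finset.card_sigma]
    push_cast
    calc ∑ τ : (∀ i, Fin (n i + 1)), ((p1rNet ⌊1 / bet⌋ τ).card : ℝ)
        ≤ ∑ _τ : (∀ i, Fin (n i + 1)), (2 ^ VV * (3 / bet) ^ D0 : ℝ) :=
          Finset.sum_le_sum fun τ _ => p1r_net_card bet hb hb1 τ
      _ = TT * (2 ^ VV * (3 / bet) ^ D0) := by
          rw [Finset.sum_const, nsmul_eq_mul, Finset.card_univ]
  have hT2 : (T2.card : ℝ) ≤ r * (2 * (3 / bet) ^ (r - 1)) := by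
    simp only [T2, Finset.card_sigma]
    push_cast
    calc ∑ i : Fin r, ((CIHP.er_net r bet i).card : ℝ)
        ≤ ∑ _i : Fin r, (2 * (3 / bet) ^ (r - 1) : ℝ) :=
          Finset.sum_le_sum fun i _ => CIHP.er_net_card r bet hb hb1 i
      _ = r * (2 * (3 / bet) ^ (r - 1)) := by
          rw [Finset.sum_const, nsmul_eq_mul, Finset.card_univ, Fintype.card_fin]
  obtain ⟨K, hK⟩ : ∃ K : ℝ, K = Cr * (C1 * bet) ^ D0 * (C1 * bet) ^ r * (2 * H + 1) ^ NP n d :=
    ⟨_, rfl⟩
  have hK0 : 0 ≤ K := by rw [hK]; positivity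
  have hmain := p1r_cover
    {A : PSys n d ℤ | A ∈ pbox n d H ∧ ∃ z : MVar n → ℝ, BNorm z ∧
        (∀ j, |MF (fun t => (A j t : ℝ)) z| ≤ bet * H) ∧
        ∀ J : Fin r → MVar n, |(PJac (fun j t => (A j t : ℝ)) z J).det| < (bet * H) ^ r}
    (T1 ×ˢ T2) ff ?_ (fun t _ => pbox_finite H _) K ?_
  · refine hmain.trans ?_
    rw [Finset.card_product]
    push_cast
    calc (T1.card : ℝ) * T2.card * K
        ≤ (TT * (2 ^ VV * (3 / bet) ^ D0)) * (r * (2 * (3 / bet) ^ (r - 1))) * K := by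
          refine mul_le_mul_of_nonneg_right ?_ hK0
          exact mul_le_mul hT1 hT2 (by positivity) (by positivity)
      _ = TT * 2 ^ VV * 3 ^ D0 * r * 2 * 3 ^ (r - 1) * Cr * C1 ^ D0 * C1 ^ r * bet *
          (2 * H + 1) ^ NP n d := by
          rw [hK]
          have e1 : (3 / bet) ^ D0 * (C1 * bet) ^ D0 = 3 ^ D0 * C1 ^ D0 := by
            rw [← mul_pow, ← mul_pow]
            congr 1
            field_simp
          have e2 : (3 / bet) ^ (r - 1) * (C1 * bet) ^ r = 3 ^ (r - 1) * C1 ^ r * bet := by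
            have h3 : (C1 * bet) ^ r = C1 ^ r * (bet ^ (r - 1) * bet) := by
              rw [mul_pow, ← pow_succ]
              congr 2
              omega
            rw [h3, div_pow]
            have : bet ^ (r - 1) ≠ 0 := by positivity
            field_simp
          calc TT * (2 ^ VV * (3 / bet) ^ D0) * (r * (2 * (3 / bet) ^ (r - 1))) *
              (Cr * (C1 * bet) ^ D0 * (C1 * bet) ^ r * (2 * (H:ℝ) + 1) ^ NP n d)
              = TT * 2 ^ VV * r * 2 * Cr * ((3 / bet) ^ D0 * (C1 * bet) ^ D0) *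
                ((3 / bet) ^ (r - 1) * (C1 * bet) ^ r) * (2 * (H:ℝ) + 1) ^ NP n d := by ring
            _ = _ := by rw [e1, e2]; ring
  · rintro A ⟨hA, z, hz, hF0, hJ⟩
    have hAR : ∀ j t, |((A j t : ℤ) : ℝ)| ≤ H := by
      intro j t
      have := hA j t
      exact_mod_cast this
    obtain ⟨c, hc1, ⟨i0, hci⟩, hc⟩ := lk_real hr
      (fun j v => MD (fun t => (A j t : ℝ)) z v) (bet * H) (by positivity) (by
        intro J
        exact hJ J)
    obtain ⟨τ, m, hm, hclose⟩ := p1r_near bet hb z hz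
    obtain ⟨l, hl, hl1, hl2⟩ := CIHP.er_net_near bet hb i0 c hc1 (by rw [hci, abs_one])
    refine ⟨(⟨τ, m⟩, ⟨i0, l⟩), ?_, hA, ?_, ?_⟩
    · simp only [Finset.mem_product, T1, T2, Finset.mem_sigma, Finset.mem_univ, true_and]
      exact ⟨hm, hl⟩
    · intro j
      show |MF (fun s => (A j s : ℝ)) (p1rPt bet τ m)| ≤ (C1 * bet) * H
      have hshift : (fun v => z v + (p1rPt bet τ m v - z v)) = p1rPt bet τ m := by
        funext v; ring
      have h1 := MF_lip (fun t => (A j t : ℝ)) z (fun v => p1rPt bet τ m v - z v) H 1 bet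
        le_rfl hb.le hb1 (hAR j) hz.1 hclose
      rw [hshift, one_pow, mul_one] at h1
      have h1b : |MF (fun s => (A j s : ℝ)) (p1rPt bet τ m)| ≤ bet * H +
          (NM n (d j) * (VV * (∑ i, d j i : ℕ) + 4 ^ (∑ i, d j i) * 1) : ℝ) * H * bet := by
        have h1c := hF0 j
        have h1d := abs_sub_abs_le_abs_sub (MF (fun s => (A j s : ℝ)) (p1rPt bet τ m))
          (MF (fun s => (A j s : ℝ)) z)
        linarith
      refine h1b.trans ?_
      have h2 : tm j ≤ ∑ j, tm j := Finset.single_le_sum (fun j _ => htm j) (Finset.mem_univ j)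
      have h3 : (NM n (d j) * (VV * (∑ i, d j i : ℕ) + 4 ^ (∑ i, d j i) * 1) : ℝ) ≤ tm j := by
        show (NM n (d j) * (VV * (∑ i, d j i : ℕ) + 4 ^ (∑ i, d j i) * 1) : ℝ) ≤
          NM n (d j) * (VV * (∑ i, d j i : ℕ) + 4 ^ (∑ i, d j i) * 1) +
    (NM n (d j) * (∑ i, d j i : ℕ) + NM n (d j) * (∑ i, d j i : ℕ) * 4 ^ (∑ i, d j i))
        have : (0:ℝ) ≤ (NM n (d j) * (∑ i, d j i : ℕ) +
          NM n (d j) * (∑ i, d j i : ℕ) * 4 ^ (∑ i, d j i)) := by positivity
        linarith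
      have h4 : (NM n (d j) * (VV * (∑ i, d j i : ℕ) + 4 ^ (∑ i, d j i) * 1) : ℝ) ≤ C1 - 1 := by
        rw [hC1]; linarith
      calc bet * H + (NM n (d j) * (VV * (∑ i, d j i : ℕ) + 4 ^ (∑ i, d j i) * 1) : ℝ) * H * bet
          ≤ bet * H + (C1 - 1) * H * bet := by
            refine add_le_add le_rfl (mul_le_mul_of_nonneg_right ?_ hb.le)
            exact mul_le_mul_of_nonneg_right h4 hHpos.le
        _ = C1 * bet * H := by ring
    · intro v _
      show |∑ j, CIHP.er_pt bet i0 l j * MD (fun s => (A j s : ℝ)) (p1rPt bet τ m) v| ≤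
        (C1 * bet) * H
      have hshift : (fun v => z v + (p1rPt bet τ m v - z v)) = p1rPt bet τ m := by
        funext v; ring
      have hDb : ∀ j, |MD (fun t => (A j t : ℝ)) z v| ≤ NM n (d j) * (∑ i, d j i : ℕ) * H := by
        intro j
        have := MD_abs_le (fun t => (A j t : ℝ)) z v H 1 le_rfl (hAR j) hz.1
        simpa using this
      have h1 : ∀ j, |MD (fun t => (A j t : ℝ)) (p1rPt bet τ m) v - MD (fun t => (A j t : ℝ)) z v| ≤
          NM n (d j) * (∑ i, d j i : ℕ) * 4 ^ (∑ i, d j i) * (bet * H) := by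
        intro j
        have h2 := MD_taylor (fun t => (A j t : ℝ)) z (fun v => p1rPt bet τ m v - z v) v H 1
          bet le_rfl hb.le hb1 (hAR j) hz.1 hclose
        rw [hshift, one_pow, mul_one] at h2
        refine h2.trans (le_of_eq ?_)
        ring
      have h2 : ∑ j, CIHP.er_pt bet i0 l j * MD (fun t => (A j t : ℝ)) (p1rPt bet τ m) v =
          ∑ j, c j * MD (fun t => (A j t : ℝ)) z v +
          ∑ j, ((CIHP.er_pt bet i0 l j - c j) * MD (fun t => (A j t : ℝ)) z v +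
            CIHP.er_pt bet i0 l j * (MD (fun t => (A j t : ℝ)) (p1rPt bet τ m) v -
              MD (fun t => (A j t : ℝ)) z v)) := by
        rw [← Finset.sum_add_distrib]
        refine Finset.sum_congr rfl fun j _ => ?_
        ring
      rw [h2]
      refine (abs_add_le _ _).trans ?_
      have h3 : |∑ j, ((CIHP.er_pt bet i0 l j - c j) * MD (fun t => (A j t : ℝ)) z v +
            CIHP.er_pt bet i0 l j * (MD (fun t => (A j t : ℝ)) (p1rPt bet τ m) v -
              MD (fun t => (A j t : ℝ)) z v))| ≤ ∑ j, tm j * (bet * H) := by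
        refine (Finset.abs_sum_le_sum_abs _ _).trans (Finset.sum_le_sum fun j _ => ?_)
        refine (abs_add_le _ _).trans ?_
        rw [abs_mul, abs_mul]
        have a1 := mul_le_mul (hl1 j) (hDb j) (abs_nonneg _) hb.le
        have a2 := mul_le_mul (hl2 j) (h1 j) (abs_nonneg _) zero_le_one
        calc _ ≤ bet * (NM n (d j) * (∑ i, d j i : ℕ) * H) +
              1 * (NM n (d j) * (∑ i, d j i : ℕ) * 4 ^ (∑ i, d j i) * (bet * H)) :=
              add_le_add a1 a2
          _ = (NM n (d j) * (∑ i, d j i : ℕ) + NM n (d j) * (∑ i, d j i : ℕ) *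
              4 ^ (∑ i, d j i)) * (bet * H) := by ring
          _ ≤ tm j * (bet * H) := by
              refine mul_le_mul_of_nonneg_right ?_ (by positivity)
              show (NM n (d j) * (∑ i, d j i : ℕ) + NM n (d j) * (∑ i, d j i : ℕ) *
                  4 ^ (∑ i, d j i) : ℝ) ≤
                NM n (d j) * (VV * (∑ i, d j i : ℕ) + 4 ^ (∑ i, d j i) * 1) +
                (NM n (d j) * (∑ i, d j i : ℕ) + NM n (d j) * (∑ i, d j i : ℕ) *
                  4 ^ (∑ i, d j i))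
              have : (0:ℝ) ≤ NM n (d j) * (VV * (∑ i, d j i : ℕ) + 4 ^ (∑ i, d j i) * 1) := by
                positivity
              linarith
      rw [← Finset.sum_mul] at h3
      have h5 := hc v
      calc _ ≤ bet * H + (∑ j, tm j) * (bet * H) := add_le_add h5 h3
        _ = C1 * bet * H := by rw [hC1]; ring
  · intro t ht
    simp only [Finset.mem_product, T1, T2, Finset.mem_sigma, Finset.mem_univ, true_and] at ht
    obtain ⟨⟨τ, m⟩, ⟨i0, l⟩⟩ := t
    obtain ⟨hm, hl⟩ := ht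
    unfold p1rNet at hm
    rw [Fintype.mem_piFinset] at hm
    have h1 := hH τ (p1rPt bet τ m) (by
      intro i
      have hmi := hm ⟨i, τ i⟩
      rw [if_pos rfl] at hmi
      simp only [mem_insert, mem_singleton] at hmi
      simp only [p1rPt, if_true]
      rcases hmi with h | h
      · rw [h]; norm_num
      · rw [h]; norm_num) (CIHP.er_pt bet i0 l) i0 (CIHP.er_pt_abs bet i0 l hl) (p1rU τ) (by
      intro v hv
      exact (mem_filter.1 hv).2)
    rw [p1rU_card] at h1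
    rw [hK]
    exact h1

end multi

end RcHP
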