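import Pool.Agent.Lib.MP_e426f4_ag.RC.AnDefs

/-!
# RC-SmP: the smooth part of the values in a residue class

`P = primorial w = ∏_{p ≤ w} p`.
Proof. `g = ∏_{p ≤ w} p^(v_p(a))` (`= gcd(a, P^k)`: a convenient definition is `g = Int.gcd a (P^k)`, as `v_p(a) < k`); `g ∣ P^k ∣ P^(k+3)`.  For
`v ≡ a` mod `P^(k+3)`: `g ∣ v`, `v = g y`, and `y ≡ a / g` mod `P^(k+3)/g`, which is divisible by `P^3` and hence by `W8 w = 8 ∏_{3 ≤ p ≤ w} p`
(`P^3 = 8 ∏ p^3`).  `a / g` is coprime to `P`: if `p ∣ a / g`, `p ≤ w`, then `p g ∣ a`, and `p g ∣ P^k` because `v_p(g) = v_p(a) - ... < k`; so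
`p g ∣ gcd`, contradiction.  `et = (a / g) mod (W8 w)` as a natural number.
-/

set_option autoImplicit false

namespace RcHP

open Finset TwHP

theorem SmP_dvd (w p : ℕ) (hp : p.Prime) (hpw : p ≤ w) : p ∣ primorial w := by
  unfold primorial
  exact Finset.dvd_prod_of_mem _ (by simp [hp]; omega)

theorem SmP_le (w p : ℕ) (hp : p.Prime) (h : p ∣ primorial w) : p ≤ w := by
  unfold primorial at h
  obtain ⟨q, hq, hpq⟩ := (hp.prime.dvd_finset_prod_iff _).1 h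
  simp only [mem_filter, mem_range] at hq
  rw [(Nat.prime_dvd_prime_iff_eq hp hq.2).1 hpq]
  omega

theorem SmP_primorial (w : ℕ) (hw : 2 ≤ w) :
    primorial w = 2 * ∏ p ∈ (Icc 3 w).filter Nat.Prime, p := by
  have h : (range (w + 1)).filter Nat.Prime = insert 2 ((Icc 3 w).filter Nat.Prime) := by
    ext p
    simp only [mem_filter, mem_range, mem_insert, mem_Icc]
    constructor
    · rintro ⟨h1, h2⟩
      have h3 := h2.two_le
      by_cases h4 : p = 2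
      · exact Or.inl h4
      · exact Or.inr ⟨⟨by omega, by omega⟩, h2⟩
    · rintro (rfl | ⟨⟨h1, h2⟩, h3⟩)
      · exact ⟨by omega, Nat.prime_two⟩
      · exact ⟨by omega, h3⟩
  unfold primorial
  rw [h, Finset.prod_insert]
  simp

theorem SmP_W8 (w : ℕ) (hw : 2 ≤ w) : W8 w ∣ primorial w ^ 3 := by
  rw [SmP_primorial w hw, W8, mul_pow]
  exact mul_dvd_mul (by norm_num) (dvd_pow_self _ (by norm_num))

theorem SmP_W8_le (w p : ℕ) (hw : 2 ≤ w) (hp : p.Prime) (h : p ∣ W8 w) : p ≤ w :=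
  SmP_le w p hp (hp.dvd_of_dvd_pow (h.trans (SmP_W8 w hw)))

theorem smooth_part (w k : ℕ) (hw : 2 ≤ w) (a : ℤ)
    (ha : ∀ p : ℕ, p.Prime → p ≤ w → ¬ (p : ℤ) ^ k ∣ a) :
    ∃ g et : ℕ, 0 < g ∧ g ∣ primorial w ^ (k + 3) ∧ (∀ p : ℕ, p.Prime → p ∣ g → p ≤ w) ∧
      et.Coprime (W8 w) ∧ ∀ v : ℤ, ((primorial w ^ (k + 3) : ℕ) : ℤ) ∣ v - a →
        ∃ y : ℤ, v = g * y ∧ y ≡ (et : ℤ) [ZMOD (W8 w : ℤ)] := by
  set P := primorial w with hP
  have hPpos : 0 < P := primorial_pos w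
  set g : ℕ := Int.gcd a ((P ^ k : ℕ) : ℤ) with hg
  have hgpos : 0 < g := Int.gcd_pos_of_ne_zero_right _ (by positivity)
  have hgP : g ∣ P ^ k := by
    have := Int.gcd_dvd_right a ((P ^ k : ℕ) : ℤ)
    exact_mod_cast this
  have hga : (g : ℤ) ∣ a := Int.gcd_dvd_left a _
  obtain ⟨a', ha'⟩ := hga
  obtain ⟨m, hm⟩ := hgP
  have hcopp : ∀ p : ℕ, p.Prime → p ≤ w → ¬ (p : ℤ) ∣ a' := by
    intro p hp hpw hpa
    by_cases hpm : p ∣ m
    · have h1 : ((g * p : ℕ) : ℤ) ∣ a := by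
        rw [ha']
        push_cast
        exact mul_dvd_mul_left _ hpa
      have h2 : ((g * p : ℕ) : ℤ) ∣ ((P ^ k : ℕ) : ℤ) := by
        rw [hm]
        exact_mod_cast mul_dvd_mul_left g hpm
      have h3 : ((g * p : ℕ) : ℤ) ∣ (g : ℤ) := by
        rw [hg]
        exact Int.dvd_coe_gcd h1 h2
      have h4 : g * p ∣ g := by exact_mod_cast h3
      have h5 := Nat.le_of_dvd hgpos h4
      have h6 := hp.two_le
      nlinarith
    · have h1 : p ^ k ∣ g * m := by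
        rw [← hm]
        exact pow_dvd_pow_of_dvd (SmP_dvd w p hp hpw) k
      have h2 : p ^ k ∣ g := by
        refine Nat.Coprime.dvd_of_dvd_mul_right ?_ h1
        exact Nat.Coprime.pow_left k ((Nat.Prime.coprime_iff_not_dvd hp).2 hpm)
      apply ha p hp hpw
      rw [ha']
      refine Dvd.dvd.mul_right ?_ _
      exact_mod_cast h2
  have hW : (0 : ℤ) < (W8 w : ℤ) := by
    have : 0 < W8 w := Nat.pos_of_dvd_of_pos (SmP_W8 w hw) (pow_pos hPpos 3)
    exact_mod_cast this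
  have hmod : (((a' % (W8 w : ℤ)).toNat : ℕ) : ℤ) = a' % (W8 w : ℤ) :=
    Int.toNat_of_nonneg (Int.emod_nonneg _ hW.ne')
  refine ⟨g, (a' % (W8 w : ℤ)).toNat, hgpos, ?_, ?_, ?_, ?_⟩
  · exact (Dvd.intro m hm.symm).trans (pow_dvd_pow P (by omega))
  · intro p hp hpg
    exact SmP_le w p hp (hp.dvd_of_dvd_pow (hpg.trans (Dvd.intro m hm.symm)))
  · rw [Nat.coprime_iff_gcd_eq_one]
    by_contra hne
    obtain ⟨p, hp, hpd⟩ := Nat.exists_prime_and_dvd hne
    have h1 : p ∣ (a' % (W8 w : ℤ)).toNat := hpd.trans (Nat.gcd_dvd_left _ _)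
    have h2 : p ∣ W8 w := hpd.trans (Nat.gcd_dvd_right _ _)
    have h3 : (p : ℤ) ∣ a' % (W8 w : ℤ) := by
      rw [← hmod]
      exact_mod_cast h1
    have h4 : (p : ℤ) ∣ (W8 w : ℤ) := by exact_mod_cast h2
    have h5 : (p : ℤ) ∣ a' := by
      have := dvd_add h3 (h4.mul_right (a' / (W8 w : ℤ)))
      rwa [Int.emod_add_mul_ediv] at this
    exact hcopp p hp (SmP_W8_le w p hw hp h2) h5
  · intro v hv
    obtain ⟨q, hq⟩ := hv
    refine ⟨a' + m * P ^ 3 * q, ?_, ?_⟩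
    · have h1 : ((P ^ (k + 3) : ℕ) : ℤ) = g * m * P ^ 3 := by
        rw [pow_add, hm]
        push_cast
        ring
      rw [h1] at hq
      have : v = a + g * m * P ^ 3 * q := by linarith
      rw [this, ha']
      ring
    · rw [hmod]
      have h1 : (W8 w : ℤ) ∣ (P : ℤ) ^ 3 := by exact_mod_cast SmP_W8 w hw
      have h2 : a' + m * P ^ 3 * q ≡ a' [ZMOD (W8 w : ℤ)] := by
        refine (Int.modEq_iff_dvd.2 ?_)
        have h3 : a' - (a' + m * P ^ 3 * q) = (P : ℤ) ^ 3 * (-(m * q)) := by ring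
        rw [h3]
        exact h1.mul_right _
      exact h2.trans (Int.mod_modEq a' (W8 w : ℤ)).symm

/-- `Q0 = P^(k+3)` is an admissible modulus -/
theorem cst_Q0 (w k : ℕ) (hw : 2 ≤ w) : Cst w (primorial w ^ (k + 3)) where
  w2 := hw
  pos := pow_pos (primorial_pos w) _
  small := fun p hp hpw => dvd_pow (SmP_dvd w p hp hpw) (by omega)
  smooth := fun p hp h => SmP_le w p hp (hp.dvd_of_dvd_pow h)

end RcHP
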