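import Pool.Agent.Lib.MP_e426f4_ag.RC.Defs
import Pool.Agent.Lib.MP_e426f4_ag.RC.SmP

/-!
# RC-FamLin: the values of the varied systems on the line, in the form required by the analytic theorem

`Q0 = P^(k+3)`, `P = primorial w`.
Proof. For each `j` apply `smooth_part` to `a = sg j * MF (A0 j) U`: get `g j`, `et j`.  `be j = Q0 G j / g j` (`g j ∣ Q0`): positive, prime factors `≤ w`.
Given `A ≡ A0` mod `Q0`: for `x = 1 + Q0 t`, `sl .. x ≡ U` mod `Q0`, so `sg j * MF (A j) (sl x) ≡ a` mod `Q0` (`MF_congr_mod`) and `g j` divides it;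
`al j t` := the quotient.  `MF (vr .. j) (sl x) = MF (A j) (sl x) + Q0 sg j (a MF (M1 j) (sl x) + b MF (M2 j) (sl x)) = MF (A j)(sl x) + Q0 sg j G j (a x + b Q0)`
(linearity of `MF` in the coefficients), so `sg j * MF (vr .. j) (sl x) = g j (al j t + be j (a x + Q0 b)) = g j * yz` (`sg j ^ 2 = 1`), and this
value is also `≡ a` mod `Q0`, so `yz ≡ et j` mod `W8 w` by `smooth_part`.  `cong`: `p ∣ t - t'` gives `sl (1 + Q0 t) ≡ sl (1 + Q0 t')` mod `p`, so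
`p ∣ g j (al j t - al j t')`, and `p ∤ g j` as `p > w`.
-/

set_option autoImplicit false

namespace RcHP

open Finset GenHP CIPHP TwHP

private theorem famLin_sl {ι : Type} [Fintype ι] [DecidableEq ι] {n : ι → ℕ} (i0 : ι)
    (U V : MVar n → ℤ) (Q0 t : ℕ) (v : MVar n) :
    (Q0 : ℤ) ∣ sl i0 U V Q0 ((1 + Q0 * t : ℕ) : ℤ) v - U v := by
  unfold sl
  split_ifs
  · refine ⟨t * U v + V v, ?_⟩
    push_cast
    ring
  · simp

private theorem famLin_sl2 {ι : Type} [Fintype ι] [DecidableEq ι] {n : ι → ℕ} (i0 : ι)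
    (U V : MVar n → ℤ) (Q0 t t' p : ℕ) (hp : (p : ℤ) ∣ (t : ℤ) - (t' : ℤ)) (v : MVar n) :
    (p : ℤ) ∣ sl i0 U V Q0 ((1 + Q0 * t : ℕ) : ℤ) v - sl i0 U V Q0 ((1 + Q0 * t' : ℕ) : ℤ) v := by
  unfold sl
  split_ifs
  · have e : ((1 + Q0 * t : ℕ) : ℤ) * U v + Q0 * V v -
        (((1 + Q0 * t' : ℕ) : ℤ) * U v + Q0 * V v) = ((t : ℤ) - (t' : ℤ)) * (Q0 * U v) := by
      push_cast
      ring
    rw [e]
    exact Dvd.dvd.mul_right hp _
  · simp

private theorem famLin_vr {ι : Type} [Fintype ι] [DecidableEq ι] {n : ι → ℕ} {r : ℕ}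
    {d : Fin (r * 3) → ι → ℕ} (A M1 M2 : PSys n d ℤ) (Q0 : ℕ) (sg : Fin (r * 3) → ℤ)
    (o : Fin (r * 3) → ℕ × ℕ) (j : Fin (r * 3)) (z : MVar n → ℤ) :
    MF (vr A M1 M2 Q0 sg o j) z = MF (A j) z +
      Q0 * (sg j * ((o j).1 * MF (M1 j) z + (o j).2 * MF (M2 j) z)) := by
  simp only [MF, Fg, vr]
  rw [Finset.mul_sum, Finset.mul_sum, ← Finset.sum_add_distrib, Finset.mul_sum, Finset.mul_sum,
    ← Finset.sum_add_distrib]
  refine Finset.sum_congr rfl fun t _ => ?_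
  ring

theorem fam_lin {ι : Type} [Fintype ι] [DecidableEq ι] {n : ι → ℕ} {r : ℕ}
    {d : Fin (r * 3) → ι → ℕ} (i0 : ι) (w k Q0 : ℕ) (hw : 2 ≤ w) (hQ : Q0 = primorial w ^ (k + 3))
    (A0 : PSys n d ℤ) (U V : MVar n → ℤ)
    (hU : ∀ (p : ℕ), p.Prime → p ≤ w → ∀ j, ¬ (p : ℤ) ^ k ∣ MF (A0 j) U)
    (M1 M2 : PSys n d ℤ) (G : Fin (r * 3) → ℕ) (hG : ∀ j, 0 < G j)
    (hGs : ∀ j, ∀ p : ℕ, p.Prime → p ∣ G j → p ≤ w)
    (hM : ∀ j, ∀ x : ℤ, MF (M1 j) (sl i0 U V Q0 x) = G j * x ∧ MF (M2 j) (sl i0 U V Q0 x) = G j * Q0)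
    (sg : Fin (r * 3) → ℤ) (hsg : ∀ j, sg j = 1 ∨ sg j = -1) :
    ∃ be et g : Fin (r * 3) → ℕ, (∀ j, Fmc w (be j) (et j)) ∧ (∀ j, 0 < g j) ∧
      (∀ j, ∀ p : ℕ, p.Prime → p ∣ g j → p ≤ w) ∧
      ∀ A : PSys n d ℤ, (∀ j t, (Q0 : ℤ) ∣ A j t - A0 j t) → ∃ al : Fin (r * 3) → ℕ → ℤ,
        (∀ j, ∀ t t' p : ℕ, p.Prime → w < p → (p : ℤ) ∣ (t : ℤ) - (t' : ℤ) → (p : ℤ) ∣ al j t - al j t') ∧
        ∀ (j : Fin (r * 3)) (t : ℕ) (o : Fin (r * 3) → ℕ × ℕ),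
          yz Q0 (be j) (al j) t (o j) ≡ (et j : ℤ) [ZMOD (W8 w : ℤ)] ∧
          MF (vr A M1 M2 Q0 sg o j) (sl i0 U V Q0 ((1 + Q0 * t : ℕ) : ℤ)) =
            sg j * g j * yz Q0 (be j) (al j) t (o j) := by
  have hsg2 : ∀ j, sg j * sg j = 1 := by
    intro j
    rcases hsg j with h | h <;> rw [h] <;> norm_num
  have ha : ∀ j, ∀ p : ℕ, p.Prime → p ≤ w → ¬ (p : ℤ) ^ k ∣ sg j * MF (A0 j) U := by
    intro j p hp hpw hd
    apply hU p hp hpw j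
    have h1 := Dvd.dvd.mul_left hd (sg j)
    rwa [← mul_assoc, hsg2, one_mul] at h1
  choose g et hg0 hgd hgs hco hv using fun j => smooth_part w k hw (sg j * MF (A0 j) U) (ha j)
  have hC := cst_Q0 w k hw
  rw [← hQ] at hC
  have hgd' : ∀ j, g j ∣ Q0 := fun j => by rw [hQ]; exact hgd j
  choose c hc using hgd'
  have hv' : ∀ j, ∀ v : ℤ, (Q0 : ℤ) ∣ v - sg j * MF (A0 j) U →
      ∃ y : ℤ, v = g j * y ∧ y ≡ (et j : ℤ) [ZMOD (W8 w : ℤ)] := by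
    intro j v h
    apply hv j v
    rwa [← hQ]
  refine ⟨fun j => c j * G j, et, g, fun j => ⟨?_, ?_, hco j⟩, hg0, hgs, ?_⟩
  · refine Nat.mul_pos (Nat.pos_of_ne_zero fun h0 => ?_) (hG j)
    have h1 := hC.pos
    rw [hc j, h0, mul_zero] at h1
    exact lt_irrefl _ h1
  · intro p hp hpd
    rcases (Nat.Prime.dvd_mul hp).1 hpd with h | h
    · exact hC.smooth p hp (by rw [hc j]; exact Dvd.dvd.mul_left h _)
    · exact hGs j p hp h
  intro A hA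
  have key : ∀ j t, (Q0 : ℤ) ∣
      sg j * MF (A j) (sl i0 U V Q0 ((1 + Q0 * t : ℕ) : ℤ)) - sg j * MF (A0 j) U := by
    intro j t
    rw [← mul_sub]
    exact Dvd.dvd.mul_left (MF_congr_mod (Q0 : ℤ) (A j) (A0 j) _ _ (hA j)
      (famLin_sl i0 U V Q0 t)) _
  choose al hal _ using fun j t => hv' j _ (key j t)
  refine ⟨al, ?_, ?_⟩
  · intro j t t' p hp hwp hd
    have h1 := MF_congr_mod (p : ℤ) (A j) (A j) _ _ (fun t => by simp)
      (famLin_sl2 i0 U V Q0 t t' p hd)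
    have h2 : (p : ℤ) ∣ (g j : ℤ) * (al j t - al j t') := by
      rw [mul_sub, ← hal j t, ← hal j t', ← mul_sub]
      exact Dvd.dvd.mul_left h1 _
    have hpp : Prime (p : ℤ) := Nat.prime_iff_prime_int.1 hp
    rcases hpp.dvd_or_dvd h2 with h3 | h3
    · exfalso
      have h4 : p ∣ g j := by exact_mod_cast h3
      have := hgs j p hp h4
      omega
    · exact h3
  · intro j t o
    have hgz : (g j : ℤ) ≠ 0 := by
      have := hg0 j
      positivity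
    have hcz : (Q0 : ℤ) = g j * c j := by
      have := hc j
      exact_mod_cast this
    have h1 := hal j t
    obtain ⟨h2, h3⟩ := hM j ((1 + Q0 * t : ℕ) : ℤ)
    have hm : MF (vr A M1 M2 Q0 sg o j) (sl i0 U V Q0 ((1 + Q0 * t : ℕ) : ℤ)) =
        sg j * g j * yz Q0 (c j * G j) (al j) t (o j) := by
      rw [famLin_vr, h2, h3, yz]
      have h4 : MF (A j) (sl i0 U V Q0 ((1 + Q0 * t : ℕ) : ℤ)) = sg j * (g j * al j t) := by
        rw [← h1, ← mul_assoc, hsg2, one_mul]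
      rw [h4]
      push_cast
      linear_combination (sg j * ((o j).1 * (G j * (1 + Q0 * t)) + (o j).2 * (G j * Q0))) * hcz
    refine ⟨?_, hm⟩
    have h5 : (Q0 : ℤ) ∣ sg j * MF (vr A M1 M2 Q0 sg o j)
        (sl i0 U V Q0 ((1 + Q0 * t : ℕ) : ℤ)) - sg j * MF (A0 j) U := by
      rw [famLin_vr, mul_add, add_sub_right_comm]
      refine Dvd.dvd.add (key j t) ?_
      exact Dvd.dvd.mul_left (Dvd.intro _ rfl) _
    obtain ⟨y, hy1, hy2⟩ := hv' j _ h5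
    have h6 : yz Q0 (c j * G j) (al j) t (o j) = y := by
      rw [hm, mul_assoc (sg j), ← mul_assoc, hsg2, one_mul] at hy1
      exact mul_left_cancel₀ hgz hy1
    rw [h6]
    exact hy2

end RcHP
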