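import Pool.Agent.Lib.MP_e426f4_ag.RC.AnDefs
import Pool.Agent.Lib.MP_e426f4_ag.TW.PNear
import Pool.Agent.Lib.MP_e426f4_ag.TW.IsoBasic

/-!
# RC-NearP: `p`-adic closeness of integers

Proof. `a' = a (1 + δ)`, `δ = (a' - a)/a`, `‖δ‖ ≤ p^(-(k+3)) / p^(-(k-1)) = p^(-4) < ‖4‖` (as `p^k ∤ a`: `‖a‖ ≥ p^(-(k-1))`; `‖4‖ ≥ 1/4 ≥ p^(-2)`):
`one_add_square`, `iso_sq`.
-/

set_option autoImplicit false

namespace RcHP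

open TwHP

theorem near_dvd (p : ℕ) (k : ℕ) (a a' : ℤ) (ha : ¬ (p : ℤ) ^ k ∣ a)
    (h : (p : ℤ) ^ (k + 3) ∣ a' - a) : ¬ (p : ℤ) ^ k ∣ a' := by
  intro h1
  have h2 : (p : ℤ) ^ k ∣ a' - a := (pow_dvd_pow _ (by omega)).trans h
  have h3 := dvd_sub h1 h2
  rw [sub_sub_cancel] at h3
  exact ha h3

private theorem nearp_lt {p : ℕ} [Fact p.Prime] {k : ℕ} {a : ℤ} (ha : ¬ (p : ℤ) ^ k ∣ a) :
    (p : ℝ) ^ (-k : ℤ) < ‖(a : ℚ_[p])‖ := by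
  by_contra h
  rw [not_lt, Padic.norm_int_le_pow_iff_dvd] at h
  exact ha h

theorem near_sq (p : ℕ) [Fact p.Prime] (k : ℕ) (a a' : ℤ) (ha : ¬ (p : ℤ) ^ k ∣ a)
    (h : (p : ℤ) ^ (k + 3) ∣ a' - a) : ∃ t : ℚ_[p], t ≠ 0 ∧ (a' : ℚ_[p]) = a * t ^ 2 := by
  have hp : p.Prime := Fact.out
  have hp2 : 2 ≤ p := hp.two_le
  have hp0 : (0 : ℝ) < p := by exact_mod_cast hp.pos
  have h1 := nearp_lt ha
  have ha0 : 0 < ‖(a : ℚ_[p])‖ := lt_trans (zpow_pos hp0 _) h1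
  have ha1 : (a : ℚ_[p]) ≠ 0 := norm_pos_iff.1 ha0
  have h4 : (p : ℝ) ^ (-(3 : ℕ) : ℤ) < ‖((4 : ℤ) : ℚ_[p])‖ := by
    refine nearp_lt ?_
    intro h0
    have h5 := Int.le_of_dvd (by norm_num) h0
    have h6 : (2 : ℤ) ^ 3 ≤ (p : ℤ) ^ 3 := pow_le_pow_left₀ (by norm_num) (by exact_mod_cast hp2) 3
    norm_num at h6
    omega
  have h5 : ‖((a' - a : ℤ) : ℚ_[p])‖ ≤ (p : ℝ) ^ (-((k + 3 : ℕ) : ℤ)) := by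
    rw [Padic.norm_int_le_pow_iff_dvd]
    push_cast
    exact h
  obtain ⟨t, ht, hte⟩ := one_add_square p (((a' - a : ℤ) : ℚ_[p]) / a) (by
    rw [norm_div, div_lt_iff₀ ha0]
    have h6 : (p : ℝ) ^ (-((k + 3 : ℕ) : ℤ)) = (p : ℝ) ^ (-(3 : ℕ) : ℤ) * (p : ℝ) ^ (-k : ℤ) := by
      rw [← zpow_add₀ hp0.ne']
      congr 1
      push_cast
      ring
    rw [h6] at h5
    have h7 : ‖(4 : ℚ_[p])‖ = ‖((4 : ℤ) : ℚ_[p])‖ := by norm_num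
    rw [h7]
    refine lt_of_le_of_lt h5 ?_
    exact mul_lt_mul'' h4 h1 (zpow_pos hp0 _).le (zpow_pos hp0 _).le)
  refine ⟨t, ht, ?_⟩
  rw [hte]
  push_cast
  field_simp
  ring

theorem near_iso (p : ℕ) [Fact p.Prime] (k : ℕ) (a b c a' b' c' : ℤ) (ha : ¬ (p : ℤ) ^ k ∣ a)
    (hb : ¬ (p : ℤ) ^ k ∣ b) (hc : ¬ (p : ℤ) ^ k ∣ c) (ha' : (p : ℤ) ^ (k + 3) ∣ a' - a)
    (hb' : (p : ℤ) ^ (k + 3) ∣ b' - b) (hc' : (p : ℤ) ^ (k + 3) ∣ c' - c)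
    (h : Iso (a : ℚ_[p]) (b : ℚ_[p]) (c : ℚ_[p])) : Iso (a' : ℚ_[p]) (b' : ℚ_[p]) (c' : ℚ_[p]) := by
  obtain ⟨s, hs, h1⟩ := near_sq p k a a' ha ha'
  obtain ⟨t, ht, h2⟩ := near_sq p k b b' hb hb'
  obtain ⟨u, hu, h3⟩ := near_sq p k c c' hc hc'
  rw [h1, h2, h3]
  exact (iso_sq _ _ _ s t u hs ht hu).2 h

end RcHP
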