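import Pool.Agent.Lib.MP_e426f4_ag.RC.AnDefs
import Pool.Agent.Lib.MP_e426f4_ag.M.Defs

/-!
# RC-PtU: an integral point close to given local points

Proof. `Q = (∏_{p ≤ w} p)^k` (`primorial w ^ k`).  By the Chinese remainder theorem there are `c v ∈ [1, Q]` with `c v ≡ Up p v` mod `p^k` for all
`p ≤ w`.  Block by block.  Block `i`: `c = c ⟨i, 0⟩`, `s = 1` if `u ⟨i, 0⟩ ≥ 0`, else `s = -1`.  Let `c'' ∈ [1, Q]`, `c'' ≡ s c` mod `Q`,
`g = gcd(c'', Q)`, `c'' = g c'`; `c'` is coprime to `Q / g`.  By Dirichlet's theorem (`Nat.infinite_setOf_prime_and_eq_mod` or similar) there are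
arbitrarily large primes `q ≡ c'` mod `Q / g`; `U ⟨i, 0⟩ = s g q ≡ s c'' ≡ c` mod `Q`.  `T i = g q / |u ⟨i, 0⟩|` if `|u ⟨i,0⟩| ≥ η`, and
`T i = g q / η` otherwise: in both cases `|U ⟨i,0⟩ / T i - u ⟨i,0⟩| ≤ 2 η` (use `η / 2` at the start), and `T i → ∞` as `q → ∞` (`|u|` is bounded: it is a
fixed vector).  For `a ≠ 0` choose `U ⟨i, a⟩ ≡ c ⟨i, a⟩` mod `Q` with `|U ⟨i, a⟩ - T i u ⟨i, a⟩| ≤ Q`, and for `a = last` there are two such choices
with `≤ 2 Q`, differing by `Q`; at least one is not divisible by `q` (`q ∤ Q` for `q > Q`).  `2 Q / T i ≤ η`.  Then a prime dividing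
`gcd(U ⟨i,0⟩, U ⟨i,last⟩)` divides `g q` and is not `q`, so it divides `g`, hence `Q`, and is `≤ w`.  The gcd is positive as `U ⟨i,0⟩ ≠ 0`.
-/

set_option autoImplicit false

namespace RcHP

open Finset GenHP

private theorem ptu_crt (k : ℕ) (a : ℕ → ℤ) (S : Finset ℕ) :
    (∀ p ∈ S, p.Prime) → ∃ c : ℤ, ∀ p ∈ S, (p : ℤ) ^ k ∣ c - a p := by
  classical
  induction S using Finset.induction_on with
  | empty => exact fun _ => ⟨0, fun p hp => by simp at hp⟩
  | insert q S hq ih =>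
    intro hS
    obtain ⟨c, hc⟩ := ih fun p hp => hS p (Finset.mem_insert_of_mem hp)
    have hcop : IsCoprime (∏ p ∈ S, (p : ℤ) ^ k) ((q : ℤ) ^ k) := by
      refine IsCoprime.prod_left fun p hp => ?_
      refine IsCoprime.pow ?_
      rw [Nat.isCoprime_iff_coprime]
      rw [Nat.coprime_primes (hS p (Finset.mem_insert_of_mem hp)) (hS q (Finset.mem_insert_self q S))]
      rintro rfl
      exact hq hp
    obtain ⟨x, y, hxy⟩ := hcop
    refine ⟨c + x * (∏ p ∈ S, (p : ℤ) ^ k) * (a q - c), fun p hp => ?_⟩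
    rcases Finset.mem_insert.1 hp with rfl | hp
    · refine ⟨y * (c - a p), ?_⟩
      have : x * (∏ p ∈ S, (p : ℤ) ^ k) = 1 - y * (p : ℤ) ^ k := by linear_combination hxy
      rw [this]
      ring
    · have h1 : (p : ℤ) ^ k ∣ x * (∏ p ∈ S, (p : ℤ) ^ k) * (a q - c) :=
        ((Finset.dvd_prod_of_mem (fun p : ℕ => (p : ℤ) ^ k) hp).mul_left x).mul_right _
      have h2 := dvd_add (hc p hp) h1
      have h3 : c - a p + x * (∏ p ∈ S, (p : ℤ) ^ k) * (a q - c) =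
          c + x * (∏ p ∈ S, (p : ℤ) ^ k) * (a q - c) - a p := by ring
      rwa [h3] at h2

private theorem ptu_sign (x : ℝ) : ∃ s : ℤ, s * s = 1 ∧ x = s * |x| := by
  rcases le_total 0 x with h | h
  · exact ⟨1, by norm_num, by rw [abs_of_nonneg h]; simp⟩
  · exact ⟨-1, by norm_num, by rw [abs_of_nonpos h]; simp⟩

private theorem ptu_q {Q : ℕ} (hQ : 0 < Q) (c s : ℤ) (hs : s * s = 1) (B : ℕ) :
    ∃ g q : ℕ, 0 < g ∧ g ∣ Q ∧ B < q ∧ q.Prime ∧ (Q : ℤ) ∣ s * (g * q) - c := by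
  obtain ⟨c'', hc''⟩ : ∃ c'' : ℕ, (s * c) % (Q : ℤ) + Q = c'' := by
    refine ⟨((s * c) % (Q : ℤ) + Q).toNat, ?_⟩
    rw [Int.toNat_of_nonneg]
    have := Int.emod_nonneg (s * c) (by exact_mod_cast hQ.ne' : (Q : ℤ) ≠ 0)
    positivity
  obtain ⟨c', Q', hcop, h1, h2⟩ := Nat.exists_coprime c'' Q
  have hg : 0 < c''.gcd Q := Nat.gcd_pos_of_pos_right _ hQ
  have hQ' : Q' ≠ 0 := by
    rintro rfl
    rw [zero_mul] at h2
    omega
  have : NeZero Q' := ⟨hQ'⟩
  obtain ⟨q, hq1, hq2, hq3⟩ := Nat.forall_exists_prime_gt_and_eq_mod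
    ((ZMod.isUnit_iff_coprime c' Q').2 hcop) B
  refine ⟨c''.gcd Q, q, hg, Nat.gcd_dvd_right _ _, hq1, hq2, ?_⟩
  have h3 : (Q' : ℤ) ∣ (c' : ℤ) - q := Nat.modEq_iff_dvd.1 ((ZMod.natCast_eq_natCast_iff q c' Q').1 hq3)
  obtain ⟨e, he⟩ := h3
  have h4 : (Q : ℤ) = Q' * (c''.gcd Q : ℕ) := by
    exact_mod_cast h2
  have h5 : (c'' : ℤ) = c' * (c''.gcd Q : ℕ) := by
    exact_mod_cast h1
  have h6 := Int.emod_add_mul_ediv (s * c) (Q : ℤ)
  set g : ℤ := ((c''.gcd Q : ℕ) : ℤ) with hgdef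
  set K := s * c / (Q : ℤ) with hK
  refine ⟨s * (1 - K) - s * e, ?_⟩
  have h7 : (c'' : ℤ) = s * c - Q * K + Q := by
    rw [← hc'']
    linear_combination h6
  have h8 : s * (g * q) = s * c'' - s * g * (Q' * e) := by
    rw [h5]
    linear_combination (-(s * g)) * he
  rw [h8, h7]
  linear_combination c * hs + (s * e) * h4

private theorem ptu_block {m : ℕ} (hm : 1 ≤ m) {Q : ℕ} (hQ : 0 < Q) (c : Fin (m + 1) → ℤ)
    (u : Fin (m + 1) → ℝ) {η : ℝ} (hη : 0 < η) :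
    ∃ (U : Fin (m + 1) → ℤ) (T : ℝ), 1 ≤ T ∧ (∀ a, |(U a : ℝ) / T - u a| ≤ η) ∧
      (∀ a, (Q : ℤ) ∣ U a - c a) ∧ 0 < Int.gcd (U 0) (U (Fin.last m)) ∧
      ∀ p : ℕ, p.Prime → p ∣ Int.gcd (U 0) (U (Fin.last m)) → p ∣ Q := by
  obtain ⟨s, hs, hsu⟩ := ptu_sign (u 0)
  set M : ℝ := max |u 0| η with hM
  have hMpos : 0 < M := lt_max_of_lt_right hη
  obtain ⟨g, q, hg, hgQ, hBq, hq, hdvd⟩ := ptu_q hQ (c 0) s hs (⌈M * (2 * Q / η + 1)⌉₊ + Q)
  have hqQ : Q < q := by omega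
  have hqM : M * (2 * Q / η + 1) ≤ (q : ℝ) := by
    have h1 : M * (2 * Q / η + 1) ≤ (⌈M * (2 * Q / η + 1)⌉₊ : ℝ) := Nat.le_ceil _
    have h2 : ((⌈M * (2 * Q / η + 1)⌉₊ : ℕ) : ℝ) ≤ q := by
      exact_mod_cast (by omega : ⌈M * (2 * Q / η + 1)⌉₊ ≤ q)
    linarith
  have hg1 : (1 : ℝ) ≤ g := by exact_mod_cast hg
  set T : ℝ := g * q / M with hT
  have hT1 : 2 * Q / η + 1 ≤ T := by
    rw [hT, le_div_iff₀ hMpos]
    have h1 : (q : ℝ) ≤ g * q := by
      have : (0 : ℝ) ≤ q := by positivity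
      nlinarith
    linarith [mul_comm M (2 * Q / η + 1)]
  have hT2 : 1 ≤ T := by
    have : 0 ≤ 2 * (Q : ℝ) / η := by positivity
    linarith
  have hTpos : 0 < T := by linarith
  have hT3 : 2 * (Q : ℝ) ≤ η * T := by
    have h1 : 2 * (Q : ℝ) / η ≤ T := by linarith
    rw [div_le_iff₀ hη] at h1
    linarith
  have hQR : (0 : ℝ) < Q := by exact_mod_cast hQ
  let V : Fin (m + 1) → ℤ := fun a => c a + Q * round ((T * u a - c a) / Q)
  have hV : ∀ a, |(V a : ℝ) - T * u a| ≤ Q := by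
    intro a
    have h1 := abs_sub_round ((T * u a - c a) / (Q : ℝ))
    have h2 : (V a : ℝ) - T * u a =
        -(Q * ((T * u a - c a) / (Q : ℝ) - round ((T * u a - c a) / (Q : ℝ)))) := by
      simp only [V]
      push_cast
      field_simp
      ring
    rw [h2, abs_neg, abs_mul, abs_of_pos hQR]
    have h3 : (Q : ℝ) * |(T * u a - c a) / (Q : ℝ) - round ((T * u a - c a) / (Q : ℝ))| ≤
        Q * (1 / 2) := mul_le_mul_of_nonneg_left h1 hQR.le
    linarith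
  obtain ⟨δ, hδ, hδq⟩ : ∃ δ : ℤ, (δ = 0 ∨ δ = 1) ∧ ¬ (q : ℤ) ∣ V (Fin.last m) + δ * Q := by
    by_cases h : (q : ℤ) ∣ V (Fin.last m)
    · refine ⟨1, Or.inr rfl, fun h' => ?_⟩
      rw [one_mul] at h'
      have h1 : (q : ℤ) ∣ (Q : ℤ) := (dvd_add_right h).1 h'
      have h2 : q ∣ Q := by exact_mod_cast h1
      exact absurd (Nat.le_of_dvd hQ h2) (by omega)
    · exact ⟨0, Or.inl rfl, by rwa [zero_mul, add_zero]⟩
  have h0l : Fin.last m ≠ 0 := by
    intro h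
    have := congrArg Fin.val h
    simp at this
    omega
  let U : Fin (m + 1) → ℤ := fun a => if a = 0 then s * (g * q)
    else if a = Fin.last m then V (Fin.last m) + δ * Q else V a
  have hU0 : U 0 = s * (g * q) := by simp [U]
  have hUl : U (Fin.last m) = V (Fin.last m) + δ * Q := by simp [U, h0l]
  have hs0 : s ≠ 0 := by
    rintro rfl
    norm_num at hs
  have hgcd : (Int.gcd (U 0) (U (Fin.last m)) : ℤ) ∣ U 0 := Int.gcd_dvd_left _ _
  refine ⟨U, T, hT2, fun a => ?_, fun a => ?_, ?_, fun p hp hpg => ?_⟩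
  · by_cases ha : a = 0
    · subst ha
      rw [hU0]
      have hgq : (g : ℝ) * q / T = M := by
        have hgq0 : (g : ℝ) * q ≠ 0 := by
          have : 0 < q := hq.pos
          positivity
        rw [hT, div_div_eq_mul_div, mul_div_cancel_left₀ _ hgq0]
      have h1 : ((s * (g * q) : ℤ) : ℝ) / T = s * M := by
        push_cast
        rw [mul_div_assoc, hgq]
      rw [h1]
      have h2 : (s : ℝ) * M - u 0 = s * (M - |u 0|) := by
        have := hsu
        linear_combination -this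
      have h3 : |(s : ℝ)| = 1 := by
        have h4 : (s : ℝ) * s = 1 := by exact_mod_cast hs
        have h5 : |(s : ℝ)| * |(s : ℝ)| = 1 := by rw [← abs_mul, h4, abs_one]
        nlinarith [abs_nonneg (s : ℝ)]
      rw [h2, abs_mul, h3, one_mul, abs_of_nonneg (sub_nonneg.2 (le_max_left _ _))]
      rcases max_cases |u 0| η with h | h
      · rw [hM, h.1, sub_self]
        exact hη.le
      · rw [hM, h.1]
        linarith [abs_nonneg (u 0)]
    · have h1 : |(U a : ℝ) - T * u a| ≤ 2 * Q := by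
        by_cases hl : a = Fin.last m
        · subst hl
          rw [hUl]
          have h2 := hV (Fin.last m)
          have h3 : ((V (Fin.last m) + δ * Q : ℤ) : ℝ) - T * u (Fin.last m) =
              ((V (Fin.last m) : ℝ) - T * u (Fin.last m)) + (δ : ℝ) * Q := by
            push_cast
            ring
          rw [h3]
          have h4 : |(δ : ℝ) * Q| ≤ Q := by
            rcases hδ with h | h
            · rw [h]
              simp
            · rw [h]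
              simp
          calc |((V (Fin.last m) : ℝ) - T * u (Fin.last m)) + (δ : ℝ) * Q|
              ≤ |(V (Fin.last m) : ℝ) - T * u (Fin.last m)| + |(δ : ℝ) * Q| := abs_add_le _ _
            _ ≤ 2 * Q := by linarith
        · have h2 : U a = V a := by simp [U, ha, hl]
          rw [h2]
          have := hV a
          linarith
      have h2 : (U a : ℝ) / T - u a = ((U a : ℝ) - T * u a) / T := by
        field_simp
      rw [h2, abs_div, abs_of_pos hTpos, div_le_iff₀ hTpos]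
      linarith
  · by_cases ha : a = 0
    · subst ha
      rw [hU0]
      exact hdvd
    · have h1 : ∀ b, (Q : ℤ) ∣ V b - c b := fun b => ⟨round ((T * u b - c b) / Q), by
        simp only [V]
        ring⟩
      by_cases hl : a = Fin.last m
      · subst hl
        rw [hUl]
        have h2 : V (Fin.last m) + δ * Q - c (Fin.last m) =
          (V (Fin.last m) - c (Fin.last m)) + δ * Q := by ring
        rw [h2]
        exact dvd_add (h1 _) (dvd_mul_left _ _)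
      · have h2 : U a = V a := by simp [U, ha, hl]
        rw [h2]
        exact h1 a
  · rw [Nat.pos_iff_ne_zero]
    intro h
    rw [Int.gcd_eq_zero_iff] at h
    rw [hU0] at h
    have h1 : (g : ℤ) * q ≠ 0 := by
      have : 0 < q := hq.pos
      positivity
    exact (mul_ne_zero hs0 h1) h.1
  · have h1 : (p : ℤ) ∣ U 0 := (Int.natCast_dvd_natCast.2 hpg).trans (Int.gcd_dvd_left _ _)
    have h2 : (p : ℤ) ∣ U (Fin.last m) :=
      (Int.natCast_dvd_natCast.2 hpg).trans (Int.gcd_dvd_right _ _)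
    rw [hU0] at h1
    have h3 : (p : ℤ) ∣ ((g * q : ℕ) : ℤ) := by
      have h4 := h1.mul_left s
      have h5 : s * (s * (g * q)) = ((g * q : ℕ) : ℤ) := by
        push_cast
        linear_combination ((g : ℤ) * q) * hs
      rwa [h5] at h4
    have h4 : p ∣ g * q := by exact_mod_cast h3
    rcases (hp.dvd_mul).1 h4 with h5 | h5
    · exact h5.trans hgQ
    · exfalso
      have h6 : p = q := (Nat.prime_dvd_prime_iff_eq hp hq).1 h5
      subst h6
      rw [hUl] at h2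
      exact hδq h2

theorem exists_U {ι : Type} [Fintype ι] [DecidableEq ι] (n : ι → ℕ) (hn : ∀ i, 1 ≤ n i) (w k : ℕ)
    (Up : ℕ → MVar n → ℤ) (u : MVar n → ℝ) (η : ℝ) (hη : 0 < η) :
    ∃ (U : MVar n → ℤ) (T : ι → ℝ), (∀ i, 1 ≤ T i) ∧ (∀ v, |(U v : ℝ) / T v.1 - u v| ≤ η) ∧
      (∀ p : ℕ, p.Prime → p ≤ w → ∀ v, (p : ℤ) ^ k ∣ U v - Up p v) ∧
      ∀ i, 0 < Int.gcd (U ⟨i, 0⟩) (U ⟨i, Fin.last (n i)⟩) ∧
        ∀ p : ℕ, p.Prime → p ∣ Int.gcd (U ⟨i, 0⟩) (U ⟨i, Fin.last (n i)⟩) → p ≤ w := by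
  set S : Finset ℕ := (Finset.range (w + 1)).filter Nat.Prime with hS
  have hSp : ∀ p ∈ S, p.Prime := fun p hp => (Finset.mem_filter.1 hp).2
  set Q : ℕ := ∏ p ∈ S, p ^ k with hQ
  have hQpos : 0 < Q := Finset.prod_pos fun p hp => pow_pos (hSp p hp).pos k
  have hQw : ∀ p : ℕ, p.Prime → p ∣ Q → p ≤ w := by
    intro p hp hpQ
    obtain ⟨p', hp', h1⟩ := (Prime.dvd_finsetProd_iff hp.prime _).1 hpQ
    have h2 := hp.dvd_of_dvd_pow h1
    have h3 : p = p' := (Nat.prime_dvd_prime_iff_eq hp (hSp p' hp')).1 h2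
    rw [h3]
    have := (Finset.mem_filter.1 hp').1
    rw [Finset.mem_range] at this
    omega
  choose c hc using fun v => ptu_crt k (fun p => Up p v) S hSp
  have hb : ∀ i, ∃ (U : Fin (n i + 1) → ℤ) (T : ℝ), 1 ≤ T ∧
      (∀ a, |(U a : ℝ) / T - u ⟨i, a⟩| ≤ η) ∧
      (∀ a, (Q : ℤ) ∣ U a - c ⟨i, a⟩) ∧ 0 < Int.gcd (U 0) (U (Fin.last (n i))) ∧
      ∀ p : ℕ, p.Prime → p ∣ Int.gcd (U 0) (U (Fin.last (n i))) → p ∣ Q := fun i =>
    ptu_block (hn i) hQpos (fun a => c ⟨i, a⟩) (fun a => u ⟨i, a⟩) hη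
  choose U T h1 h2 h3 h4 h5 using hb
  refine ⟨fun v => U v.1 v.2, T, h1, fun v => h2 v.1 v.2, fun p hp hpw v => ?_, fun i =>
    ⟨h4 i, fun p hp hpg => hQw p hp (h5 i p hp hpg)⟩⟩
  have hpS : p ∈ S := by
    rw [hS, Finset.mem_filter, Finset.mem_range]
    exact ⟨by omega, hp⟩
  have h6 : (p : ℤ) ^ k ∣ (Q : ℤ) := by
    rw [hQ]
    push_cast
    exact Finset.dvd_prod_of_mem (fun p : ℕ => (p : ℤ) ^ k) hpS
  have h7 := dvd_add (h6.trans (h3 v.1 v.2)) (hc v p hpS)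
  have h8 : U v.1 v.2 - c ⟨v.1, v.2⟩ + (c v - Up p v) = U v.1 v.2 - Up p v := by
    have : c (⟨v.1, v.2⟩ : MVar n) = c v := rfl
    rw [this]
    ring
  rwa [h8] at h7

end RcHP
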