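import Pool.Agent.Lib.MP_e426f4_ag.RC.Defs
import Pool.Agent.Lib.MP_e426f4_ag.RC.PtU
import Pool.Agent.Lib.MP_e426f4_ag.RC.NearP

/-!
# RC-GoodU: an integral point which is good at all primes `p ≤ w` and close to a real point

Proof. For each prime `p ≤ w` take `Up p` from `GoodP p k A0` (`0` for other `p`), `exists_U` with exponent `k + 3`.  `MF (A0 j) U ≡ MF (A0 j) (Up p)`
mod `p^(k+3)` (`MF_congr_mod` in `M/Alg.lean`), `near_dvd`, `near_iso`.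
-/

set_option autoImplicit false

namespace RcHP

open Finset GenHP CIPHP TwHP

theorem exists_good {ι : Type} [Fintype ι] [DecidableEq ι] {n : ι → ℕ} {r : ℕ}
    {d : Fin (r * 3) → ι → ℕ} (hn : ∀ i, 1 ≤ n i) (w k : ℕ) (A0 : PSys n d ℤ)
    (hA0 : ∀ (p : ℕ) [Fact p.Prime], p ≤ w → GoodP p k A0) (u : MVar n → ℝ) (η : ℝ) (hη : 0 < η) :
    ∃ (U : MVar n → ℤ) (T : ι → ℝ), (∀ i, 1 ≤ T i) ∧ (∀ v, |(U v : ℝ) / T v.1 - u v| ≤ η) ∧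
      (∀ i, 0 < Int.gcd (U ⟨i, 0⟩) (U ⟨i, Fin.last (n i)⟩) ∧
        ∀ p : ℕ, p.Prime → p ∣ Int.gcd (U ⟨i, 0⟩) (U ⟨i, Fin.last (n i)⟩) → p ≤ w) ∧
      (∀ (p : ℕ), p.Prime → p ≤ w → ∀ j, ¬ (p : ℤ) ^ k ∣ MF (A0 j) U) ∧
      ∀ (p : ℕ) [Fact p.Prime], p ≤ w → ∀ i : Fin r, Iso ((MF (A0 (ix i 0)) U : ℤ) : ℚ_[p])
        ((MF (A0 (ix i 1)) U : ℤ) : ℚ_[p]) ((MF (A0 (ix i 2)) U : ℤ) : ℚ_[p]) := by
  classical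
  have hUp : ∃ Up : ℕ → MVar n → ℤ, ∀ (p : ℕ) [Fact p.Prime], p ≤ w →
      (∀ j, ¬ (p : ℤ) ^ k ∣ MF (A0 j) (Up p)) ∧
      ∀ i : Fin r, Iso ((MF (A0 (ix i 0)) (Up p) : ℤ) : ℚ_[p])
        ((MF (A0 (ix i 1)) (Up p) : ℤ) : ℚ_[p]) ((MF (A0 (ix i 2)) (Up p) : ℤ) : ℚ_[p]) := by
    have h0 : ∀ p : ℕ, ∃ z : MVar n → ℤ, ∀ [Fact p.Prime], p ≤ w →
        (∀ j, ¬ (p : ℤ) ^ k ∣ MF (A0 j) z) ∧
        ∀ i : Fin r, Iso ((MF (A0 (ix i 0)) z : ℤ) : ℚ_[p])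
          ((MF (A0 (ix i 1)) z : ℤ) : ℚ_[p]) ((MF (A0 (ix i 2)) z : ℤ) : ℚ_[p]) := by
      intro p
      by_cases h : p.Prime ∧ p ≤ w
      · obtain ⟨z, hz⟩ := @hA0 p ⟨h.1⟩ h.2
        exact ⟨z, fun {_} _ => hz⟩
      · exact ⟨fun _ => 0, fun {hf} hpw => absurd ⟨hf.out, hpw⟩ h⟩
    choose Up hUp using h0
    exact ⟨Up, hUp⟩
  obtain ⟨Up, hUp⟩ := hUp
  obtain ⟨U, T, hT, hcl, hcong, hgcd⟩ := exists_U n hn w (k + 3) Up u η hη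
  have hval : ∀ (p : ℕ), p.Prime → p ≤ w → ∀ j,
      (p : ℤ) ^ (k + 3) ∣ MF (A0 j) U - MF (A0 j) (Up p) := fun p hp hpw j =>
    MF_congr_mod _ _ _ _ _ (fun t => by rw [sub_self]; exact dvd_zero _) (hcong p hp hpw)
  refine ⟨U, T, hT, hcl, hgcd, ?_, ?_⟩
  · intro p hp hpw j
    have : Fact p.Prime := ⟨hp⟩
    exact near_dvd p k _ _ ((hUp p hpw).1 j) (hval p hp hpw j)
  · intro p hp hpw i
    have h1 := hUp p hpw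
    exact near_iso p k _ _ _ _ _ _ (h1.1 _) (h1.1 _) (h1.1 _) (hval p hp.out hpw _)
      (hval p hp.out hpw _) (hval p hp.out hpw _) (h1.2 i)

end RcHP
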