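import Pool.Agent.Lib.MP_e426f4_ag.RC.Defs
import Pool.Agent.Lib.MP_e426f4_ag.M.Poly

/-!
# RC-LineM: the line and the two special forms

Proof. For a block `i` let `g i = gcd(U ⟨i,0⟩, U ⟨i,last⟩) = A i U ⟨i,0⟩ + B i U ⟨i,last⟩` (Bezout).  `V ⟨i0, 0⟩ = - B i0`, `V ⟨i0, last⟩ = A i0`, all other
`V v = 0` (`0 ≠ last` as `n i0 ≥ 1`).  Linear polynomials: for `i ≠ i0`: `l i = A i X ⟨i,0⟩ + B i X ⟨i,last⟩` (value `g i` at `U`);
`L1 = A X ⟨i0,0⟩ + B X ⟨i0,last⟩`, `L2 = (U0 / g) X ⟨i0,last⟩ - (U1 / g) X ⟨i0,0⟩`: at `x U + Q0 V` they have the values `g x` and `Q0`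
(`L1(V) = 0`, `L2(U) = 0`, `L2(V) = (U0 A + U1 B)/g = 1`).
`P1 = (∏_{i ≠ i0} l i ^ d j i) L2^(d j i0 - 1) L1`, `P2 = g (∏ ..) L2^(d j i0)`: multihomogeneous of multidegree `d j` (`IsMultiHom`; products of multihomogeneous
polynomials are multihomogeneous with added degrees: `MvPolynomial.coeff_mul`), so `exists_mPoly` gives coefficient vectors `M1 j`, `M2 j`, and
`aeval_mPoly`: `MF (M1 j) z = aeval z P1`.  `G j = (∏_{i ≠ i0} g i ^ d j i) Q0^(d j i0 - 1) g i0`.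
-/

set_option autoImplicit false

namespace RcHP

open Finset GenHP CIPHP TwHP

section
variable {ι : Type} [Fintype ι] [DecidableEq ι] {n : ι → ℕ}

/-- the weights of the variables -/
private def lmW (n : ι → ℕ) (v : MVar n) : ι → ℕ := Pi.single v.1 1

private theorem lm_hom {d : ι → ℕ} {f : MvPolynomial (MVar n) ℤ}
    (h : MvPolynomial.IsWeightedHomogeneous (lmW n) f d) : IsMultiHom d f := by
  intro m hm i
  have h1 := h hm
  have h2 := congrFun h1 i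
  have h3 : (m.sum fun v c => c • lmW n v) = ∑ v, m v • lmW n v :=
    Finsupp.sum_fintype _ _ (fun v => by simp)
  rw [Finsupp.weight_apply, h3] at h2
  rw [← h2, Finset.sum_apply, Fintype.sum_sigma]
  rw [Finset.sum_eq_single i]
  · refine Finset.sum_congr rfl fun a _ => ?_
    simp [lmW]
  · intro i' _ hi'
    refine Finset.sum_eq_zero fun a _ => ?_
    simp [lmW, hi'.symm]
  · simp

omit [Fintype ι] in
private theorem lm_lin (i : ι) (a b : Fin (n i + 1)) (x y : ℤ) :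
    MvPolynomial.IsWeightedHomogeneous (lmW n)
      (MvPolynomial.C x * MvPolynomial.X (⟨i, a⟩ : MVar n) +
        MvPolynomial.C y * MvPolynomial.X (⟨i, b⟩ : MVar n)) (Pi.single i 1) := by
  have key : ∀ (c : Fin (n i + 1)) (z : ℤ), MvPolynomial.IsWeightedHomogeneous (lmW n)
      (MvPolynomial.C z * MvPolynomial.X (⟨i, c⟩ : MVar n)) (Pi.single i 1) := by
    intro c z
    have h1 := (MvPolynomial.isWeightedHomogeneous_C (lmW n) z).mul
      (MvPolynomial.isWeightedHomogeneous_X ℤ (lmW n) (⟨i, c⟩ : MVar n))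
    rw [zero_add] at h1
    exact h1
  exact (key a x).add (key b y)

private theorem lm_exists {r : ℕ} {d : Fin (r * 3) → ι → ℕ} (P : Fin (r * 3) → MvPolynomial (MVar n) ℤ)
    (hP : ∀ j, MvPolynomial.IsWeightedHomogeneous (lmW n) (P j) (d j)) :
    ∃ M : PSys n d ℤ, ∀ j (z : MVar n → ℤ), MF (M j) z = MvPolynomial.aeval z (P j) := by
  choose M hM using fun j => exists_mPoly (P j) (lm_hom (hP j))
  refine ⟨M, fun j z => ?_⟩
  rw [← hM j, aeval_mPoly]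
  rfl

private theorem lm_deg (i0 : ι) (e : ι → ℕ) (k : ℕ) (hk : k = e i0) :
    (∑ i ∈ Finset.univ.erase i0, e i • (Pi.single i 1 : ι → ℕ)) + k • (Pi.single i0 1 : ι → ℕ) = e := by
  rw [hk, Finset.sum_erase_add _ _ (Finset.mem_univ i0)]
  funext i
  rw [Finset.sum_apply, Finset.sum_eq_single i]
  · simp
  · intro i' _ hi'
    simp [hi'.symm]
  · simp

end

theorem exists_line {ι : Type} [Fintype ι] [DecidableEq ι] {n : ι → ℕ} {r : ℕ}
    {d : Fin (r * 3) → ι → ℕ} (hn : ∀ i, 1 ≤ n i) (hd : ∀ j i, 1 ≤ d j i) (i0 : ι) (w Q0 : ℕ)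
    (hc : Cst w Q0) (U : MVar n → ℤ)
    (hU : ∀ i, 0 < Int.gcd (U ⟨i, 0⟩) (U ⟨i, Fin.last (n i)⟩) ∧
        ∀ p : ℕ, p.Prime → p ∣ Int.gcd (U ⟨i, 0⟩) (U ⟨i, Fin.last (n i)⟩) → p ≤ w) :
    ∃ (V : MVar n → ℤ) (M1 M2 : PSys n d ℤ) (G : Fin (r * 3) → ℕ), (∀ j, 0 < G j) ∧
      (∀ j, ∀ p : ℕ, p.Prime → p ∣ G j → p ≤ w) ∧
      ∀ j, ∀ x : ℤ, MF (M1 j) (sl i0 U V Q0 x) = G j * x ∧ MF (M2 j) (sl i0 U V Q0 x) = G j * Q0 := by
  set g : ι → ℕ := fun i => Int.gcd (U ⟨i, 0⟩) (U ⟨i, Fin.last (n i)⟩) with hg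
  have hbez : ∀ i, ∃ A B : ℤ, (g i : ℤ) = A * U ⟨i, 0⟩ + B * U ⟨i, Fin.last (n i)⟩ := fun i =>
    ⟨Int.gcdA (U ⟨i, 0⟩) (U ⟨i, Fin.last (n i)⟩), Int.gcdB (U ⟨i, 0⟩) (U ⟨i, Fin.last (n i)⟩), by
      have := Int.gcd_eq_gcd_ab (U ⟨i, 0⟩) (U ⟨i, Fin.last (n i)⟩)
      linear_combination this⟩
  choose A B hAB using hbez
  obtain ⟨U0, hU0⟩ : (g i0 : ℤ) ∣ U ⟨i0, 0⟩ := Int.gcd_dvd_left _ _
  obtain ⟨U1, hU1⟩ : (g i0 : ℤ) ∣ U ⟨i0, Fin.last (n i0)⟩ := Int.gcd_dvd_right _ _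
  have hg0 : (g i0 : ℤ) ≠ 0 := by
    have := (hU i0).1
    exact_mod_cast this.ne'
  have h0l : (0 : Fin (n i0 + 1)) ≠ Fin.last (n i0) := by
    intro h
    have h1 := congrArg Fin.val h
    have h2 := hn i0
    simp at h1
    omega
  set V : MVar n → ℤ := fun v => if v = ⟨i0, 0⟩ then -B i0
    else if v = ⟨i0, Fin.last (n i0)⟩ then A i0 else 0 with hV
  have hV0 : V ⟨i0, 0⟩ = -B i0 := by simp [hV]
  have hV1 : V ⟨i0, Fin.last (n i0)⟩ = A i0 := by
    have hne : (⟨i0, Fin.last (n i0)⟩ : MVar n) ≠ ⟨i0, 0⟩ := by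
      intro h
      have h1 := (Sigma.mk.inj_iff.1 h).2
      exact h0l (eq_of_heq h1).symm
    simp [hV, hne]
  let l : ι → MvPolynomial (MVar n) ℤ := fun i =>
    MvPolynomial.C (A i) * MvPolynomial.X (⟨i, 0⟩ : MVar n) +
      MvPolynomial.C (B i) * MvPolynomial.X (⟨i, Fin.last (n i)⟩ : MVar n)
  let L2 : MvPolynomial (MVar n) ℤ :=
    MvPolynomial.C U0 * MvPolynomial.X (⟨i0, Fin.last (n i0)⟩ : MVar n) +
      MvPolynomial.C (-U1) * MvPolynomial.X (⟨i0, 0⟩ : MVar n)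
  have hl : ∀ i, MvPolynomial.IsWeightedHomogeneous (lmW n) (l i) (Pi.single i 1) := fun i =>
    lm_lin i 0 (Fin.last (n i)) (A i) (B i)
  have hL2 : MvPolynomial.IsWeightedHomogeneous (lmW n) L2 (Pi.single i0 1) :=
    lm_lin i0 (Fin.last (n i0)) 0 U0 (-U1)
  let P0 : Fin (r * 3) → MvPolynomial (MVar n) ℤ := fun j =>
    ∏ i ∈ Finset.univ.erase i0, l i ^ d j i
  have hP0 : ∀ j, MvPolynomial.IsWeightedHomogeneous (lmW n) (P0 j)
      (∑ i ∈ Finset.univ.erase i0, d j i • (Pi.single i 1 : ι → ℕ)) := fun j =>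
    MvPolynomial.IsWeightedHomogeneous.prod _ _ _ fun i _ => (hl i).pow (d j i)
  obtain ⟨M1, hM1⟩ := lm_exists (d := d) (fun j => P0 j * (L2 ^ (d j i0 - 1) * l i0)) (by
    intro j
    have h1 := (hP0 j).mul ((hL2.pow (d j i0 - 1)).mul (hl i0))
    have h2 : (d j i0 - 1) • (Pi.single i0 1 : ι → ℕ) + Pi.single i0 1 =
        d j i0 • (Pi.single i0 1 : ι → ℕ) := by
      have h3 := hd j i0
      have h4 : d j i0 = (d j i0 - 1) + 1 := by omega
      conv_rhs => rw [h4, add_smul, one_smul]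
    rw [h2, lm_deg i0 (d j) (d j i0) rfl] at h1
    exact h1)
  obtain ⟨M2, hM2⟩ := lm_exists (d := d) (fun j => P0 j * (MvPolynomial.C (g i0 : ℤ) * L2 ^ (d j i0))) (by
    intro j
    have h1 := (hP0 j).mul ((MvPolynomial.isWeightedHomogeneous_C (lmW n) (g i0 : ℤ)).mul
      (hL2.pow (d j i0)))
    rw [zero_add, lm_deg i0 (d j) (d j i0) rfl] at h1
    exact h1)
  refine ⟨V, M1, M2, fun j => (∏ i ∈ Finset.univ.erase i0, g i ^ d j i) * Q0 ^ (d j i0 - 1) * g i0,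
    fun j => ?_, fun j p hp hpG => ?_, fun j x => ?_⟩
  · have h1 : 0 < ∏ i ∈ Finset.univ.erase i0, g i ^ d j i :=
      Finset.prod_pos fun i _ => pow_pos (hU i).1 _
    exact Nat.mul_pos (Nat.mul_pos h1 (pow_pos hc.pos _)) (hU i0).1
  · rcases (hp.dvd_mul).1 hpG with h1 | h1
    · rcases (hp.dvd_mul).1 h1 with h2 | h2
      · obtain ⟨i, _, h3⟩ := (Prime.dvd_finsetProd_iff hp.prime _).1 h2
        exact (hU i).2 p hp (hp.dvd_of_dvd_pow h3)
      · exact hc.smooth p hp (hp.dvd_of_dvd_pow h2)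
    · exact (hU i0).2 p hp h1
  · have hli : ∀ i ∈ Finset.univ.erase i0,
        MvPolynomial.aeval (sl i0 U V Q0 x) (l i) = (g i : ℤ) := by
      intro i hi
      have hi0 : i ≠ i0 := (Finset.mem_erase.1 hi).1
      simp only [l, map_add, map_mul, MvPolynomial.aeval_X, sl, if_neg hi0]
      rw [hAB i]
      simp
    have hl0 : MvPolynomial.aeval (sl i0 U V Q0 x) (l i0) = (g i0 : ℤ) * x := by
      simp only [l, map_add, map_mul, MvPolynomial.aeval_X, sl, if_true, hV0, hV1]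
      rw [hAB i0]
      simp
      ring
    have hkey : (U0 * A i0 + U1 * B i0 : ℤ) = 1 := by
      have h1 := hAB i0
      rw [hU0, hU1] at h1
      have h2 : (g i0 : ℤ) * (U0 * A i0 + U1 * B i0) = (g i0 : ℤ) * 1 := by
        linear_combination -h1
      exact mul_left_cancel₀ hg0 h2
    have hL2v : MvPolynomial.aeval (sl i0 U V Q0 x) L2 = (Q0 : ℤ) := by
      simp only [L2, map_add, map_mul, MvPolynomial.aeval_X, sl, if_true, hV0, hV1]
      rw [hU0, hU1]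
      simp
      linear_combination (Q0 : ℤ) * hkey
    have hP0v : MvPolynomial.aeval (sl i0 U V Q0 x) (P0 j) =
        ∏ i ∈ Finset.univ.erase i0, (g i : ℤ) ^ d j i := by
      simp only [P0, map_prod, map_pow]
      exact Finset.prod_congr rfl fun i hi => by rw [hli i hi]
    have hpow : (Q0 : ℤ) ^ (d j i0) = (Q0 : ℤ) ^ (d j i0 - 1) * Q0 := by
      rw [← pow_succ]
      congr 1
      have := hd j i0
      omega
    constructor
    · rw [hM1, map_mul, map_mul, map_pow, hP0v, hL2v, hl0]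
      push_cast
      ring
    · rw [hM2, map_mul, map_mul, map_pow, hP0v, hL2v, hpow]
      push_cast
      simp
      ring

end RcHP
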