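import Pool.Agent.Lib.MP_e426f4_ag.RC.Defs
import Pool.Agent.Lib.MP_e426f4_ag.RC.NearP
import Pool.Agent.Lib.MP_e426f4_ag.RC.SmP

/-!
# RC-LocV: the conics of the fibres on the line are soluble at `∞` and at all `p ≤ w`

Proof. `Q0 = P^(k+3)`, `A ≡ A0` mod `Q0`, `x = 1 + Q0 t`: `MF (A j) (sl x) ≡ MF (A0 j) U` mod `Q0` (`sl x ≡ U`), so mod `p^(k+3)` for `p ≤ w`: `near_iso`.
Real place: `sg j MF (A j) (sl x) > 0` and `sg j MF (Ainf j) u > 0`: `iso_real`.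
-/

set_option autoImplicit false

namespace RcHP

open Finset GenHP CIPHP TwHP

theorem loc_val {ι : Type} [Fintype ι] [DecidableEq ι] {n : ι → ℕ} {r : ℕ}
    {d : Fin (r * 3) → ι → ℕ} (i0 : ι) (w k Q0 : ℕ) (hw : 2 ≤ w) (hQ : Q0 = primorial w ^ (k + 3))
    (A0 A : PSys n d ℤ) (hA : ∀ j t, (Q0 : ℤ) ∣ A j t - A0 j t) (U V : MVar n → ℤ)
    (hU : ∀ (p : ℕ), p.Prime → p ≤ w → ∀ j, ¬ (p : ℤ) ^ k ∣ MF (A0 j) U)
    (hU2 : ∀ (p : ℕ) [Fact p.Prime], p ≤ w → ∀ i : Fin r, Iso ((MF (A0 (ix i 0)) U : ℤ) : ℚ_[p])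
        ((MF (A0 (ix i 1)) U : ℤ) : ℚ_[p]) ((MF (A0 (ix i 2)) U : ℤ) : ℚ_[p]))
    (Ainf : PSys n d ℝ) (u : MVar n → ℝ) (bet : ℝ) (hb : 0 < bet) (hu : ∀ j, bet ≤ |MF (Ainf j) u|)
    (hiso : ∀ i : Fin r, Iso (MF (Ainf (ix i 0)) u) (MF (Ainf (ix i 1)) u) (MF (Ainf (ix i 2)) u))
    (sg : Fin (r * 3) → ℤ) (hsg : ∀ j, sg j = if 0 < MF (Ainf j) u then 1 else -1)
    (t : ℕ) (hpos : ∀ j, 0 < sg j * MF (A j) (sl i0 U V Q0 ((1 + Q0 * t : ℕ) : ℤ))) (i : Fin r) :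
    LocW w (MF (A (ix i 0)) (sl i0 U V Q0 ((1 + Q0 * t : ℕ) : ℤ)))
      (MF (A (ix i 1)) (sl i0 U V Q0 ((1 + Q0 * t : ℕ) : ℤ)))
      (MF (A (ix i 2)) (sl i0 U V Q0 ((1 + Q0 * t : ℕ) : ℤ))) := by
  obtain ⟨z, hz⟩ : ∃ z, z = sl i0 U V Q0 ((1 + Q0 * t : ℕ) : ℤ) := ⟨_, rfl⟩
  rw [← hz] at hpos ⊢
  have _ := hw
  constructor
  · have hsign : ∀ j, 0 < MF (Ainf j) u * ((MF (A j) z : ℤ) : ℝ) := by
      intro j
      have h1 := hpos j
      have h2 := hu j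
      rw [hsg j] at h1
      split_ifs at h1 with h3
      · rw [one_mul] at h1
        exact mul_pos h3 (by exact_mod_cast h1)
      · have h4 : MF (Ainf j) u < 0 := by
          rcases lt_or_eq_of_le (not_lt.1 h3) with h5 | h5
          · exact h5
          · rw [h5, abs_zero] at h2
            linarith
        have h5 : ((MF (A j) z : ℤ) : ℝ) < 0 := by
          have h6 : MF (A j) z < 0 := by linarith
          exact_mod_cast h6
        exact mul_pos_of_neg_of_neg h4 h5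
    exact iso_real _ _ _ _ _ _ (hsign _) (hsign _) (hsign _) (hiso i)
  · intro p hp hpw
    have hpd : (p : ℤ) ^ (k + 3) ∣ (Q0 : ℤ) := by
      rw [hQ]
      push_cast
      refine pow_dvd_pow_of_dvd ?_ _
      have h1 : p ∣ primorial w := by
        unfold primorial
        exact Finset.dvd_prod_of_mem _ (Finset.mem_filter.2
          ⟨Finset.mem_range.2 (by omega), hp.out⟩)
      exact_mod_cast h1
    have hzU : ∀ v, (Q0 : ℤ) ∣ z v - U v := by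
      intro v
      rw [hz]
      unfold sl
      split_ifs
      · push_cast
        exact ⟨t * U v + V v, by ring⟩
      · rw [sub_self]
        exact dvd_zero _
    have hval : ∀ j, (p : ℤ) ^ (k + 3) ∣ MF (A j) z - MF (A0 j) U := fun j =>
      hpd.trans (MF_congr_mod _ _ _ _ _ (hA j) hzU)
    have h1 := hU p hp.out hpw
    exact near_iso p k _ _ _ _ _ _ (h1 _) (h1 _) (h1 _) (hval _) (hval _) (hval _) (hU2 p hpw i)

end RcHP
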