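import Pool.Agent.Lib.MP_e426f4_ag.RC.Defs

/-!
# RC-ValR: real size and sign of the values on the line

Proof. Put `τ v = x T i0` for `v` in block `i0`, `τ v = T v.1` otherwise (`x ≥ 1`), `z v = sl .. x v / τ v`.  `|z v - u v| ≤ eta + Q0 |V v| / x ≤ 2 eta` for
`x ≥ X0` (`T ≥ 1`), so `|z v| ≤ 3` if `eta ≤ 1/2`.  `MF_scale` (`M/Alg.lean`): `MF (A j) (sl .. x) = (∏_i c i ^ d j i) MF (A j) z` with
`c i0 = x T i0`, `c i = T i`: the factor `F` is `≥ 1` and `= x^(d j i0) ∏_i T i^(d j i)`.  `|MF (A j) z / H - MF (Ainf j) u| ≤ |MF (A j / H - Ainf j) z| +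
|MF (Ainf j) z - MF (Ainf j) u| ≤ rho1 NM 3^D + Lipschitz constant * 2 eta ≤ bet / 2` if `rho1`, `eta` are small (a monomial of degree `D` is bounded by
`3^D` and has Lipschitz constant `D 3^D` on `|z| ≤ 3`: `D = ∑_i d j i`; see `mon`, `Fg` in `G/Defs.lean`, estimates in `M/Alg.lean`, `TW/Res.lean`,
`P/Grid.lean`, or use compactness: continuity of `(a, z) ↦ ∑ a_t z^t` on a compact set is uniform).  So `sg j * MF (A j) (sl) ≥ (bet/2) H F ≥ (bet/2) H`, and
`|MF (A j) (sl)| ≤ (NM 3^D 2) H F`.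
-/

set_option autoImplicit false

namespace RcHP

open Finset GenHP CIPHP TwHP

/-- uniform continuity of the values on bounded sets -/
private theorem ValR_uc {ι : Type} [Fintype ι] [DecidableEq ι] (n : ι → ℕ) {r : ℕ}
    (d : Fin r → ι → ℕ) (bet : ℝ) (hb : 0 < bet) :
    ∃ δ : ℝ, 0 < δ ∧ ∀ (a a' : PSys n d ℝ) (z z' : MVar n → ℝ), (∀ j t, |a j t| ≤ 2) →
      (∀ j t, |a' j t| ≤ 2) → (∀ v, |z v| ≤ 3) → (∀ v, |z' v| ≤ 3) →
      (∀ j t, |a j t - a' j t| ≤ δ) → (∀ v, |z v - z' v| ≤ δ) →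
      ∀ j, |MF (a j) z - MF (a' j) z'| ≤ bet := by
  have hc : Continuous fun p : PSys n d ℝ × (MVar n → ℝ) => fun j => MF (p.1 j) p.2 := by
    unfold MF Fg mon
    fun_prop
  have hK : IsCompact ((Metric.closedBall (0 : PSys n d ℝ) 2) ×ˢ
      (Metric.closedBall (0 : MVar n → ℝ) 3)) :=
    (isCompact_closedBall _ _).prod (isCompact_closedBall _ _)
  have hu := hK.uniformContinuousOn_of_continuous hc.continuousOn
  rw [Metric.uniformContinuousOn_iff] at hu
  obtain ⟨δ, hδ, h⟩ := hu bet hb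
  have mem1 : ∀ a : PSys n d ℝ, (∀ j t, |a j t| ≤ 2) → a ∈ Metric.closedBall (0 : PSys n d ℝ) 2 := by
    intro a ha
    rw [mem_closedBall_zero_iff, pi_norm_le_iff_of_nonneg (by norm_num)]
    intro j
    rw [pi_norm_le_iff_of_nonneg (by norm_num)]
    intro t
    rw [Real.norm_eq_abs]
    exact ha j t
  have mem2 : ∀ z : MVar n → ℝ, (∀ v, |z v| ≤ 3) → z ∈ Metric.closedBall (0 : MVar n → ℝ) 3 := by
    intro z hz
    rw [mem_closedBall_zero_iff, pi_norm_le_iff_of_nonneg (by norm_num)]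
    intro v
    rw [Real.norm_eq_abs]
    exact hz v
  refine ⟨δ / 2, by positivity, fun a a' z z' ha ha' hz hz' h1 h2 j => ?_⟩
  have h3 := h (a, z) ⟨mem1 a ha, mem2 z hz⟩ (a', z') ⟨mem1 a' ha', mem2 z' hz'⟩ (by
    rw [Prod.dist_eq, max_lt_iff]
    constructor
    · refine lt_of_le_of_lt ?_ (half_lt_self hδ)
      rw [dist_pi_le_iff (by positivity)]
      intro j
      rw [dist_pi_le_iff (by positivity)]
      intro t
      rw [Real.dist_eq]
      exact h1 j t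
    · refine lt_of_le_of_lt ?_ (half_lt_self hδ)
      rw [dist_pi_le_iff (by positivity)]
      intro v
      rw [Real.dist_eq]
      exact h2 v)
  have h4 := (dist_le_pi_dist (fun j => MF (a j) z) (fun j => MF (a' j) z') j).trans h3.le
  rw [Real.dist_eq] at h4
  exact h4

/-- scaling of the values on the line -/
private theorem ValR_scale {ι : Type} [Fintype ι] [DecidableEq ι] {n d : ι → ℕ} (i0 : ι)
    (T : ι → ℝ) (x : ℝ) (A : MIdx n d → ℤ) (H : ℝ) (hH : 0 < H) (c : ι → ℝ) (hc0 : ∀ i, c i ≠ 0)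
    (hc : ∀ i, c i = if i = i0 then x * T i0 else T i) (s : MVar n → ℤ) :
    ((MF A s : ℤ) : ℝ) = H * (x ^ d i0 * (∏ i, T i ^ d i) *
      MF (fun t => (A t : ℝ) / H) fun v => (s v : ℝ) / c v.1) := by
  have h1 : (fun v => (s v : ℝ)) = fun v => c v.1 * ((s v : ℝ) / c v.1) := by
    funext v
    have := hc0 v.1
    field_simp
  have h2 : (fun t => (A t : ℝ)) = fun t => H * ((A t : ℝ) / H) := by
    funext t
    field_simp
  have h3 : ∏ i, c i ^ d i = x ^ d i0 * ∏ i, T i ^ d i := by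
    have h4 : ∀ i, c i ^ d i = (if i = i0 then x ^ d i0 else 1) * T i ^ d i := by
      intro i
      rw [hc i]
      by_cases hi : i = i0
      · subst hi
        simp [mul_pow]
      · simp [hi]
    rw [Finset.prod_congr rfl fun i _ => h4 i, Finset.prod_mul_distrib]
    congr 1
    simp
  rw [← MF_cast A s, h2, MF_smul, h1, MF_scale, h3]

theorem val_real {ι : Type} [Fintype ι] [DecidableEq ι] (n : ι → ℕ) {r : ℕ}
    (d : Fin (r * 3) → ι → ℕ) (bet : ℝ) (hb : 0 < bet) :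
    ∃ rho1 eta : ℝ, 0 < rho1 ∧ 0 < eta ∧ ∀ (Ainf : PSys n d ℝ), (∀ j t, |Ainf j t| ≤ 1) →
      ∀ u : MVar n → ℝ, (∀ v, |u v| ≤ 2) → (∀ j, bet ≤ |MF (Ainf j) u|) →
      ∀ (sg : Fin (r * 3) → ℤ), (∀ j, sg j = if 0 < MF (Ainf j) u then 1 else -1) →
      ∀ (U : MVar n → ℤ) (T : ι → ℝ), (∀ i, 1 ≤ T i) → (∀ v, |(U v : ℝ) / T v.1 - u v| ≤ eta) →
      ∀ (V : MVar n → ℤ) (Q0 : ℕ) (i0 : ι), ∃ (X0 : ℕ) (c0 C1 : ℝ), 0 < c0 ∧ ∀ x : ℕ, X0 ≤ x →
      ∀ H : ℝ, 0 < H → ∀ A : PSys n d ℤ, (∀ j t, |(A j t : ℝ) - H * Ainf j t| ≤ rho1 * H) →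
      ∀ j, c0 * H ≤ ((sg j * MF (A j) (sl i0 U V Q0 x) : ℤ) : ℝ) ∧
        ((sg j * MF (A j) (sl i0 U V Q0 x) : ℤ) : ℝ) ≤ C1 * H * (x : ℝ) ^ d j i0 := by
  obtain ⟨δ, hδ, huc⟩ := ValR_uc n d (bet / 2) (half_pos hb)
  refine ⟨min 1 δ, min (1 / 2) (δ / 2), by positivity, by positivity, ?_⟩
  intro Ainf hAinf u hu hbet sg hsg U T hT hU V Q0 i0
  set eta := min (1 / 2) (δ / 2) with heta
  have heta0 : 0 < eta := by positivity
  have heta1 : eta ≤ 1 / 2 := min_le_left _ _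
  have heta2 : 2 * eta ≤ δ := by
    have := min_le_right (1 / 2) (δ / 2)
    rw [← heta] at this
    linarith
  refine ⟨1 + ∑ v, ⌈(Q0 : ℝ) * |(V v : ℝ)| / eta⌉₊, bet / 2,
    ∑ j, (∏ i, T i ^ d j i) * (|MF (Ainf j) u| + bet / 2), by positivity, ?_⟩
  intro x hx H hH A hA j
  have hx1 : (1 : ℝ) ≤ x := by
    have : 1 ≤ x := le_trans (Nat.le_add_right _ _) hx
    exact_mod_cast this
  have hx0 : (0 : ℝ) < x := by linarith
  have hxV : ∀ v, (Q0 : ℝ) * |(V v : ℝ)| ≤ eta * x := by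
    intro v
    have h1 : (Q0 : ℝ) * |(V v : ℝ)| / eta ≤ x := by
      refine (Nat.le_ceil _).trans ?_
      have h2 : ⌈(Q0 : ℝ) * |(V v : ℝ)| / eta⌉₊ ≤ ∑ v, ⌈(Q0 : ℝ) * |(V v : ℝ)| / eta⌉₊ :=
        Finset.single_le_sum (f := fun v => ⌈(Q0 : ℝ) * |(V v : ℝ)| / eta⌉₊)
          (fun _ _ => Nat.zero_le _) (Finset.mem_univ v)
      exact_mod_cast h2.trans (le_trans (Nat.le_add_left _ _) hx)
    rw [div_le_iff₀ heta0] at h1
    linarith
  have hT0 : ∀ i, 0 < T i := fun i => lt_of_lt_of_le one_pos (hT i)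
  set c : ι → ℝ := fun i => if i = i0 then (x : ℝ) * T i0 else T i with hc
  have hc0 : ∀ i, c i ≠ 0 := by
    intro i
    simp only [hc]
    split_ifs
    · have := hT0 i0
      positivity
    · exact (hT0 i).ne'
  set s : MVar n → ℤ := sl i0 U V Q0 x with hs
  set z : MVar n → ℝ := fun v => (s v : ℝ) / c v.1 with hz
  have hzu : ∀ v, |z v - u v| ≤ 2 * eta := by
    intro v
    have h1 := hU v
    by_cases hv : v.1 = i0
    · have e : z v = (U v : ℝ) / T v.1 + (Q0 : ℝ) * V v / (x * T v.1) := by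
        simp only [hz, hs, sl, hc, if_pos hv]
        rw [hv]
        push_cast
        have := hT0 i0
        field_simp
      have h2 : |(Q0 : ℝ) * V v / (x * T v.1)| ≤ eta := by
        have h3 : 0 < (x : ℝ) * T v.1 := mul_pos hx0 (hT0 _)
        rw [abs_div, abs_of_pos h3, div_le_iff₀ h3, abs_mul, Nat.abs_cast]
        calc (Q0 : ℝ) * |(V v : ℝ)| ≤ eta * x := hxV v
          _ = eta * (x * 1) := by ring
          _ ≤ eta * (x * T v.1) := by
            have := hT v.1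
            gcongr
      calc |z v - u v| = |((U v : ℝ) / T v.1 - u v) + (Q0 : ℝ) * V v / (x * T v.1)| := by
            rw [e]; congr 1; ring
        _ ≤ |(U v : ℝ) / T v.1 - u v| + |(Q0 : ℝ) * V v / (x * T v.1)| := abs_add_le _ _
        _ ≤ 2 * eta := by linarith
    · have e : z v = (U v : ℝ) / T v.1 := by
        simp only [hz, hs, sl, hc, if_neg hv]
      rw [e]
      linarith
  have hz3 : ∀ v, |z v| ≤ 3 := by
    intro v
    have h1 := hzu v
    have h2 := hu v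
    rw [abs_le] at h1 h2 ⊢
    constructor <;> linarith
  have hu3 : ∀ v, |u v| ≤ 3 := fun v => (hu v).trans (by norm_num)
  set a : PSys n d ℝ := fun j t => (A j t : ℝ) / H with ha
  have haA : ∀ j t, |a j t - Ainf j t| ≤ min 1 δ := by
    intro j t
    have h1 := hA j t
    have e : a j t - Ainf j t = ((A j t : ℝ) - H * Ainf j t) / H := by
      simp only [ha]
      field_simp
    rw [e, abs_div, abs_of_pos hH, div_le_iff₀ hH]
    exact h1
  have ha2 : ∀ j t, |a j t| ≤ 2 := by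
    intro j t
    have h1 := (haA j t).trans (min_le_left _ _)
    have h2 := hAinf j t
    rw [abs_le] at h1 h2 ⊢
    constructor <;> linarith
  have hA2 : ∀ j t, |Ainf j t| ≤ 2 := fun j t => (hAinf j t).trans (by norm_num)
  have hmain := huc a Ainf z u ha2 hA2 hz3 hu3 (fun j t => (haA j t).trans (min_le_right _ _))
    (fun v => (hzu v).trans heta2) j
  have hval : ((MF (A j) s : ℤ) : ℝ) = H * ((x : ℝ) ^ d j i0 * (∏ i, T i ^ d j i) *
      MF (a j) z) := ValR_scale i0 T x (A j) H hH c hc0 (fun _ => rfl) s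
  have hPT : ∀ j, 1 ≤ ∏ i, T i ^ d j i := by
    intro j
    calc (1 : ℝ) = ∏ _i : ι, (1 : ℝ) := by simp
      _ ≤ ∏ i, T i ^ d j i :=
        Finset.prod_le_prod (fun _ _ => zero_le_one) fun i _ => one_le_pow₀ (hT i)
  set F := MF (Ainf j) u with hF
  set G := MF (a j) z with hG
  have hx2 : 1 ≤ (x : ℝ) ^ d j i0 := one_le_pow₀ hx1
  have hP := hPT j
  set P := ∏ i, T i ^ d j i with hPdef
  have key : ∀ g : ℝ, bet / 2 ≤ g → g ≤ |F| + bet / 2 →
      bet / 2 * H ≤ H * ((x : ℝ) ^ d j i0 * P * g) ∧ H * ((x : ℝ) ^ d j i0 * P * g) ≤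
        (∑ j, (∏ i, T i ^ d j i) * (|MF (Ainf j) u| + bet / 2)) * H * (x : ℝ) ^ d j i0 := by
    intro g hg1 hg2
    have hg0 : 0 ≤ g := by linarith
    constructor
    · have h1 : 1 ≤ (x : ℝ) ^ d j i0 * P := by nlinarith
      calc bet / 2 * H = H * (1 * (bet / 2)) := by ring
        _ ≤ H * ((x : ℝ) ^ d j i0 * P * g) := by gcongr
    · have h1 : P * (|F| + bet / 2) ≤
          ∑ j, (∏ i, T i ^ d j i) * (|MF (Ainf j) u| + bet / 2) := by
        refine Finset.single_le_sum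
          (f := fun j => (∏ i, T i ^ d j i) * (|MF (Ainf j) u| + bet / 2)) (fun j _ => ?_)
          (Finset.mem_univ j)
        have := hPT j
        positivity
      calc H * ((x : ℝ) ^ d j i0 * P * g) ≤ H * ((x : ℝ) ^ d j i0 * P * (|F| + bet / 2)) := by
            gcongr
        _ = (P * (|F| + bet / 2)) * H * (x : ℝ) ^ d j i0 := by ring
        _ ≤ _ := by gcongr
  have hmain' := abs_le.mp hmain
  have hbj := hbet j
  rw [← hF] at hbj
  push_cast
  rw [hval, hsg j, ← hF]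
  by_cases hFp : 0 < F
  · rw [if_pos hFp]
    rw [abs_of_pos hFp] at hbj
    have h1 := key G (by linarith) (by rw [abs_of_pos hFp]; linarith)
    push_cast
    rw [one_mul]
    exact h1
  · rw [if_neg hFp]
    have hFn : F ≤ 0 := not_lt.mp hFp
    rw [abs_of_nonpos hFn] at hbj
    have h1 := key (-G) (by linarith) (by rw [abs_of_nonpos hFn]; linarith)
    push_cast
    have e : -1 * (H * ((x : ℝ) ^ d j i0 * P * G)) = H * ((x : ℝ) ^ d j i0 * P * -G) := by ring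
    rw [e]
    exact h1

end RcHP
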