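import Pool.Agent.Lib.MP_e426f4_ag.RC.AtFlat
import Pool.Agent.Lib.MP_e426f4_ag.RC.EcSol
import Pool.Agent.Lib.MP_e426f4_ag.RC.GoodU
import Pool.Agent.Lib.MP_e426f4_ag.RC.LineM
import Pool.Agent.Lib.MP_e426f4_ag.RC.ValR
import Pool.Agent.Lib.MP_e426f4_ag.RC.FamLin
import Pool.Agent.Lib.MP_e426f4_ag.RC.LocV

/-!
# RC-FamB: in each family `vr A ..` over the box all but a proportion `C / w` of the members have a rational point

Proof. `C` from `at_flat r`.  Given `w`, `bet`: `rho1`, `eta` from `val_real n d bet`; `rho0 = min 1 (rho1 / 5)`.  Given the class: `u` from `GoodR`,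
`sg j` = sign of `MF (Ainf j) u`, `U`, `T` from `exists_good` (`η = eta`), `V, M1, M2, G` from `exists_line` (`cst_Q0`), `be, et, g` from `fam_lin`, `X0, c0, C1` from
`val_real`.  Let `m = ∑ |M1| + |M2| + 1`, `c1 = min 1 (rho / (2 Q0 m)) / 2`, so that for `1 ≤ a, b ≤ Y ≤ 2 c1 H..` the variation is `≤ rho H` in each coefficient
(`Y = ⌊2 c1 H⌋`; then `c1 H ≤ Y ≤ H` for `H` large).  For `A ∈ Cl AC A0 Q0 (2 rho) H`: all `vr A .. o` with `o j ∈ bx Y` satisfy `|vr - H Ainf| ≤ 4 rho H ≤ rho1 H` and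
are `≡ A0` mod `Q0`.  `al` from `fam_lin`; `Lin` holds with `c0' = c0 / max g`, `E = 1 + (3 r + 3) * (1 + ∑ d)`, `N = ⌊(log H)^(3r+2)⌋` (`x = 1 + Q0 t ≤ 2 Q0 N + 1 ≤ (log H)^(3r+3)` and
`x ≥ X0` for `H` large; `g * yz = sg * MF`, bounds of `val_real` divided by `g`).  Signs `e1 i = jacobiSym (-(g' 1 * g' 2)) (et 0)`, `e2 i = jacobiSym (-(g' 0 * g' 2)) (et 1)` with
`g' k = sg (ix i k) * g (ix i k)` (`± 1` by `jac_pm`).  By `at_flat` (`H0`) all but `C/w (Y^2)^(3r)` of the `o` have some `t` with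
`(fun k => o (ix i k)) ∈ Ec ..` for all `i`; for these `ec_sol` with `A k = MF (vr .. (ix i k)) (sl ..)`, `loc_val`, gives `Iso ℚ` for all `i`, and the values are
nonzero: `Sol (vr ..) ℚ` with the point `s = sl ..` (cast: `MF_cast` / `MF_map`).  `r * 3 = 3 * r`.
-/

set_option autoImplicit false

namespace RcHP

open Finset Filter Topology GenHP CIPHP TwHP

private theorem fb_log (r Q0 X0 : ℕ) (C1 : ℝ) : ∀ᶠ H : ℝ in atTop, 1 ≤ Real.log H ∧
    C1 ≤ Real.log H ∧ X0 ≤ ⌊Real.log H ^ (3 * r + 2)⌋₊ ∧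
    ∀ t ∈ Ico ⌊Real.log H ^ (3 * r + 2)⌋₊ (2 * ⌊Real.log H ^ (3 * r + 2)⌋₊),
      ((1 + Q0 * t : ℕ) : ℝ) ≤ Real.log H ^ (3 * r + 3) := by
  filter_upwards [Real.tendsto_log_atTop.eventually_ge_atTop 1,
    Real.tendsto_log_atTop.eventually_ge_atTop C1,
    Real.tendsto_log_atTop.eventually_ge_atTop (X0 : ℝ),
    Real.tendsto_log_atTop.eventually_ge_atTop (1 + 2 * Q0 : ℝ)] with H h1 h2 h3 h4
  set L := Real.log H with hL
  have hL0 : 0 ≤ L := by linarith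
  have h5 : 1 ≤ L ^ (3 * r + 2) := one_le_pow₀ h1
  have h6 : L ≤ L ^ (3 * r + 2) := le_self_pow₀ h1 (by omega)
  refine ⟨h1, h2, Nat.le_floor (h3.trans h6), fun t ht => ?_⟩
  rw [mem_Ico] at ht
  have h7 : (t : ℝ) ≤ 2 * L ^ (3 * r + 2) := by
    have h8 : (t : ℝ) ≤ 2 * (⌊L ^ (3 * r + 2)⌋₊ : ℝ) := by exact_mod_cast ht.2.le
    have h9 := Nat.floor_le (by positivity : 0 ≤ L ^ (3 * r + 2))
    linarith
  push_cast
  have h10 : (Q0 : ℝ) * t ≤ Q0 * (2 * L ^ (3 * r + 2)) :=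
    mul_le_mul_of_nonneg_left h7 (by positivity)
  have e : L ^ (3 * r + 3) = L * L ^ (3 * r + 2) := by ring
  have h11 : (1 + 2 * (Q0 : ℝ)) * L ^ (3 * r + 2) ≤ L * L ^ (3 * r + 2) :=
    mul_le_mul_of_nonneg_right h4 (by positivity)
  rw [e]
  linarith

private theorem fb_var {ι : Type} [Fintype ι] [DecidableEq ι] {n : ι → ℕ} {m : ℕ}
    {d : Fin m → ι → ℕ} (M1 M2 : PSys n d ℤ) (sg : Fin m → ℤ)
    (hsg : ∀ j, sg j = 1 ∨ sg j = -1) (Q0 : ℕ) (hQ : 0 < Q0) (rho : ℝ) (hrho : 0 < rho) :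
    ∃ c1 : ℝ, 0 < c1 ∧ c1 ≤ 1 / 2 ∧ ∀ H : ℝ, 0 ≤ H → ∀ Y : ℕ, (Y : ℝ) ≤ 2 * c1 * H →
      ∀ o : Fin m → ℕ × ℕ, (∀ j, o j ∈ bx Y) → ∀ j t,
      |((Q0 * (sg j * ((o j).1 * M1 j t + (o j).2 * M2 j t)) : ℤ) : ℝ)| ≤ rho * H := by
  set S : ℝ := 1 + ∑ j, ∑ t, (|(M1 j t : ℝ)| + |(M2 j t : ℝ)|) with hS
  have hS1 : ∀ j t, |(M1 j t : ℝ)| + |(M2 j t : ℝ)| ≤ S := by
    intro j t
    have h1 := Finset.single_le_sum (f := fun t => |(M1 j t : ℝ)| + |(M2 j t : ℝ)|)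
      (fun t _ => by positivity) (Finset.mem_univ t)
    have h2 := Finset.single_le_sum (f := fun j => ∑ t, (|(M1 j t : ℝ)| + |(M2 j t : ℝ)|))
      (fun j _ => Finset.sum_nonneg fun t _ => by positivity) (Finset.mem_univ j)
    rw [hS]
    linarith
  have hS0 : 0 < S := by
    have : (0 : ℝ) ≤ ∑ j, ∑ t, (|(M1 j t : ℝ)| + |(M2 j t : ℝ)|) :=
      Finset.sum_nonneg fun j _ => Finset.sum_nonneg fun t _ => by positivity
    rw [hS]
    linarith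
  have hQ0 : (0 : ℝ) < Q0 := by exact_mod_cast hQ
  have hq : 0 < rho / (Q0 * S) := by positivity
  refine ⟨min 1 (rho / (Q0 * S)) / 2, by positivity, ?_, ?_⟩
  · have := min_le_left (1 : ℝ) (rho / (Q0 * S))
    linarith
  · intro H hH Y hY o ho j t
    have h1 := ho j
    simp only [bx, mem_product, mem_Icc] at h1
    have ha : ((o j).1 : ℝ) ≤ Y := by exact_mod_cast h1.1.2
    have hb : ((o j).2 : ℝ) ≤ Y := by exact_mod_cast h1.2.2
    have hsg' : |(sg j : ℝ)| = 1 := by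
      rcases hsg j with h | h <;> rw [h] <;> simp
    push_cast
    rw [abs_mul, abs_mul, hsg', one_mul, abs_of_pos hQ0]
    have h2 : |((o j).1 : ℝ) * M1 j t + (o j).2 * M2 j t| ≤ Y * S := by
      calc |((o j).1 : ℝ) * M1 j t + (o j).2 * M2 j t| ≤
          |((o j).1 : ℝ) * M1 j t| + |((o j).2 : ℝ) * M2 j t| := abs_add_le _ _
        _ = (o j).1 * |(M1 j t : ℝ)| + (o j).2 * |(M2 j t : ℝ)| := by
          rw [abs_mul, abs_mul, Nat.abs_cast, Nat.abs_cast]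
        _ ≤ Y * |(M1 j t : ℝ)| + Y * |(M2 j t : ℝ)| :=
          add_le_add (mul_le_mul_of_nonneg_right ha (abs_nonneg _))
            (mul_le_mul_of_nonneg_right hb (abs_nonneg _))
        _ = Y * (|(M1 j t : ℝ)| + |(M2 j t : ℝ)|) := by ring
        _ ≤ Y * S := mul_le_mul_of_nonneg_left (hS1 j t) (Nat.cast_nonneg _)
    have h3 : (Y : ℝ) ≤ rho / (Q0 * S) * H := by
      refine hY.trans ?_
      have h4 : 2 * (min 1 (rho / (Q0 * S)) / 2) = min 1 (rho / (Q0 * S)) := by ring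
      rw [h4]
      exact mul_le_mul_of_nonneg_right (min_le_right _ _) hH
    calc (Q0 : ℝ) * |((o j).1 : ℝ) * M1 j t + (o j).2 * M2 j t| ≤ Q0 * (Y * S) :=
          mul_le_mul_of_nonneg_left h2 hQ0.le
      _ ≤ Q0 * (rho / (Q0 * S) * H * S) := by
          refine mul_le_mul_of_nonneg_left ?_ hQ0.le
          exact mul_le_mul_of_nonneg_right h3 hS0.le
      _ = rho * H := by field_simp

private theorem fb_sol {ι : Type} [Fintype ι] [DecidableEq ι] {n : ι → ℕ} {r : ℕ}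
    {d : Fin (r * 3) → ι → ℕ} (i0 : ι) (w k Q0 : ℕ) (hw : 2 ≤ w) (hQ : Q0 = primorial w ^ (k + 3))
    (A0 A' : PSys n d ℤ) (hA : ∀ j t, (Q0 : ℤ) ∣ A' j t - A0 j t) (U V : MVar n → ℤ)
    (hU : ∀ (p : ℕ), p.Prime → p ≤ w → ∀ j, ¬ (p : ℤ) ^ k ∣ MF (A0 j) U)
    (hU2 : ∀ (p : ℕ) [Fact p.Prime], p ≤ w → ∀ i : Fin r, Iso ((MF (A0 (ix i 0)) U : ℤ) : ℚ_[p])
        ((MF (A0 (ix i 1)) U : ℤ) : ℚ_[p]) ((MF (A0 (ix i 2)) U : ℤ) : ℚ_[p]))
    (Ainf : PSys n d ℝ) (u : MVar n → ℝ) (bet : ℝ) (hb : 0 < bet) (hu : ∀ j, bet ≤ |MF (Ainf j) u|)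
    (hiso : ∀ i : Fin r, Iso (MF (Ainf (ix i 0)) u) (MF (Ainf (ix i 1)) u) (MF (Ainf (ix i 2)) u))
    (sg : Fin (r * 3) → ℤ) (hsg : ∀ j, sg j = if 0 < MF (Ainf j) u then 1 else -1)
    (hsg1 : ∀ j, sg j = 1 ∨ sg j = -1)
    (t : ℕ) (hpos : ∀ j, 0 < sg j * MF (A' j) (sl i0 U V Q0 ((1 + Q0 * t : ℕ) : ℤ)))
    (be et g : Fin (r * 3) → ℕ) (hF : ∀ j, Fmc w (be j) (et j)) (hg0 : ∀ j, 0 < g j)
    (hgs : ∀ j, ∀ p : ℕ, p.Prime → p ∣ g j → p ≤ w) (al : Fin (r * 3) → ℕ → ℤ) (Y : ℕ)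
    (o : Fin (r * 3) → ℕ × ℕ)
    (hres : ∀ j, yz Q0 (be j) (al j) t (o j) ≡ (et j : ℤ) [ZMOD (W8 w : ℤ)])
    (hval : ∀ j, MF (A' j) (sl i0 U V Q0 ((1 + Q0 * t : ℕ) : ℤ)) =
      sg j * g j * yz Q0 (be j) (al j) t (o j))
    (hbig : ∀ j, (w : ℤ) < yz Q0 (be j) (al j) t (o j))
    (ho : ∀ i : Fin r, (fun k => o (ix i k)) ∈ Ec Q0 (fun k => be (ix i k))
      (fun k => al (ix i k))
      (jacobiSym (-(sg (ix i 1) * g (ix i 1) * (sg (ix i 2) * g (ix i 2)))) (et (ix i 0)))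
      (jacobiSym (-(sg (ix i 0) * g (ix i 0) * (sg (ix i 2) * g (ix i 2)))) (et (ix i 1))) Y t) :
    Sol A' ℚ := by
  have hMF : ∀ j, MF (cst ℚ A' j)
      (fun v => ((sl i0 U V Q0 ((1 + Q0 * t : ℕ) : ℤ) v : ℤ) : ℚ)) =
      ((MF (A' j) (sl i0 U V Q0 ((1 + Q0 * t : ℕ) : ℤ)) : ℤ) : ℚ) := fun j =>
    MF_map (Int.castRingHom ℚ) (A' j) _
  refine ⟨fun v => ((sl i0 U V Q0 ((1 + Q0 * t : ℕ) : ℤ) v : ℤ) : ℚ), fun j => ?_, fun i => ?_⟩
  · rw [hMF j]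
    have h1 := hpos j
    have h2 : MF (A' j) (sl i0 U V Q0 ((1 + Q0 * t : ℕ) : ℤ)) ≠ 0 := by
      intro h
      rw [h, mul_zero] at h1
      exact lt_irrefl _ h1
    exact_mod_cast h2
  · rw [hMF, hMF, hMF]
    have hloc := loc_val i0 w k Q0 hw hQ A0 A' hA U V hU hU2 Ainf u bet hb hu hiso sg hsg t hpos i
    refine ec_sol w Q0 hw (fun k => be (ix i k)) (fun k => et (ix i k)) (fun k => al (ix i k))
      (fun k => sg (ix i k) * g (ix i k)) (fun k => ?_) (fun k p hp hpg => ?_)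
      (fun k => (hF (ix i k)).cop) Y t (fun k => o (ix i k)) (fun k => hres (ix i k))
      (fun k => hbig (ix i k)) (ho i)
      (fun k => MF (A' (ix i k)) (sl i0 U V Q0 ((1 + Q0 * t : ℕ) : ℤ)))
      (fun k => hval (ix i k)) hloc
    · have h1 : (g (ix i k) : ℤ) ≠ 0 := by exact_mod_cast (hg0 (ix i k)).ne'
      have h2 : sg (ix i k) ≠ 0 := by
        rcases hsg1 (ix i k) with h | h <;> rw [h] <;> norm_num
      exact mul_ne_zero h2 h1
    · have h1 : (p : ℤ) ∣ (g (ix i k) : ℤ) := by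
        rcases hsg1 (ix i k) with h | h
        · simpa [h] using hpg
        · simpa [h] using hpg
      exact hgs (ix i k) p hp (by exact_mod_cast h1)

private theorem fb_sg {ι : Type} [Fintype ι] [DecidableEq ι] {n : ι → ℕ} {r : ℕ}
    {d : Fin (r * 3) → ι → ℕ} (Ainf : PSys n d ℝ) (u : MVar n → ℝ) :
    ∃ sg : Fin (r * 3) → ℤ, (∀ j, sg j = if 0 < MF (Ainf j) u then 1 else -1) ∧
      ∀ j, sg j = 1 ∨ sg j = -1 := by
  refine ⟨fun j => if 0 < MF (Ainf j) u then 1 else -1, fun j => rfl, fun j => ?_⟩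
  by_cases h : 0 < MF (Ainf j) u
  · simp [h]
  · simp [h]

open Classical in
theorem fam_bound {ι : Type} [Fintype ι] [DecidableEq ι] (n : ι → ℕ) {r : ℕ}
    (d : Fin (r * 3) → ι → ℕ) (hr : 1 ≤ r) (hn : ∀ i, 1 ≤ n i) (hd : ∀ j i, 1 ≤ d j i) (i0 : ι) :
    ∃ C : ℝ, 0 < C ∧ ∀ w : ℕ, 2 ≤ w → ∀ bet : ℝ, 0 < bet → bet ≤ 1 →
    ∃ rho0 : ℝ, 0 < rho0 ∧ rho0 ≤ 1 ∧ ∀ rho : ℝ, 0 < rho → rho ≤ rho0 → ∀ k : ℕ, 1 ≤ k →
      ∀ A0 : PSys n d ℤ, (∀ (p : ℕ) [Fact p.Prime], p ≤ w → GoodP p k A0) →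
      ∀ AC Ainf : PSys n d ℝ, (∀ j t, |Ainf j t| ≤ 1) → (∀ j t, |AC j t - Ainf j t| ≤ rho) →
      GoodR bet Ainf → ∃ (M1 M2 : PSys n d ℤ) (sg : Fin (r * 3) → ℤ) (Yf : ℝ → ℕ),
      ∀ᶠ H : ℝ in atTop, 1 ≤ Yf H ∧
        (∀ o : Fin (r * 3) → ℕ × ℕ, (∀ j, o j ∈ bx (Yf H)) → ∀ j t,
          |(((primorial w ^ (k + 3) : ℕ) * (sg j * ((o j).1 * M1 j t + (o j).2 * M2 j t)) : ℤ) : ℝ)| ≤
            rho * H) ∧
        ∀ A ∈ Cl AC A0 (primorial w ^ (k + 3)) (2 * rho) H,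
          ((((Fintype.piFinset fun _ : Fin (r * 3) => bx (Yf H)).filter fun o =>
            ¬ Sol (vr A M1 M2 (primorial w ^ (k + 3)) sg o) ℚ).card : ℕ) : ℝ) ≤
            C / w * ((Yf H : ℝ) ^ 2) ^ (r * 3) := by
  obtain ⟨C, hC, hat⟩ := at_flat r hr
  refine ⟨C, hC, fun w hw bet hbet hbet1 => ?_⟩
  obtain ⟨rho1, eta, hrho1, heta, hval⟩ := val_real n d bet hbet
  refine ⟨min 1 (rho1 / 5), by positivity, min_le_left _ _, ?_⟩
  intro rho hrho hrho0 k hk A0 hA0 AC Ainf hAinf hAC hgood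
  obtain ⟨u, hu2, hub, huiso⟩ := hgood
  obtain ⟨sg, hsg, hsg1⟩ := fb_sg Ainf u
  obtain ⟨U, T, hT, hUT, hgcd, hUk, hUiso⟩ := exists_good hn w k A0 hA0 u eta heta
  have hcst := cst_Q0 w k hw
  obtain ⟨Q0, hQ0⟩ : ∃ Q0, Q0 = primorial w ^ (k + 3) := ⟨_, rfl⟩
  rw [← hQ0] at hcst
  rw [← hQ0]
  obtain ⟨V, M1, M2, G, hG0, hGs, hM⟩ := exists_line hn hd i0 w Q0 hcst U hgcd
  obtain ⟨be, et, g, hFmc, hg0, hgs, hal⟩ := fam_lin i0 w k Q0 hw hQ0 A0 U V hUk M1 M2 G hG0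
    hGs hM sg hsg1
  obtain ⟨X0, c0, C1, hc0, hreal⟩ := hval Ainf hAinf u hu2 hub sg hsg U T hT hUT V Q0 i0
  obtain ⟨c1, hc1, hc12, hvar⟩ := fb_var M1 M2 sg hsg1 Q0 hcst.pos rho hrho
  set gm : ℕ := ∑ j, g j with hgm
  have hgj : ∀ j, g j ≤ gm := fun j =>
    Finset.single_le_sum (f := g) (fun _ _ => Nat.zero_le _) (Finset.mem_univ j)
  have hgm0 : 0 < gm := by
    have h1 : 0 < r * 3 := by omega
    exact lt_of_lt_of_le (hg0 ⟨0, h1⟩) (hgj ⟨0, h1⟩)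
  have hgm0' : (0 : ℝ) < gm := by exact_mod_cast hgm0
  have hc0' : 0 < c0 / gm := by positivity
  set E : ℕ := 1 + (3 * r + 3) * ∑ j, d j i0 with hE
  obtain ⟨H0, hH0⟩ := hat w Q0 hcst be et hFmc E (c0 / gm) c1 hc0' hc1
  refine ⟨M1, M2, sg, fun H => ⌊2 * c1 * H⌋₊, ?_⟩
  filter_upwards [fb_log r Q0 X0 C1, eventually_ge_atTop H0, eventually_ge_atTop (1 / c1),
    eventually_gt_atTop (w / (c0 / gm))] with H hlog hHH0 hHc1 hHw
  obtain ⟨hL1, hLC1, hLX0, hLx⟩ := hlog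
  have hHpos : 0 < H := lt_of_lt_of_le (by positivity) hHc1
  have hc1H : 1 ≤ c1 * H := by
    rw [div_le_iff₀ hc1] at hHc1
    linarith
  set Y : ℕ := ⌊2 * c1 * H⌋₊ with hY
  have hYle : (Y : ℝ) ≤ 2 * c1 * H := Nat.floor_le (by positivity)
  have hYlt : 2 * c1 * H < Y + 1 := Nat.lt_floor_add_one _
  have hYc : c1 * H ≤ Y := by linarith
  have hY1 : 1 ≤ Y := by
    have : (1 : ℝ) ≤ Y := hc1H.trans hYc
    exact_mod_cast this
  have hYH : (Y : ℝ) ≤ H := by nlinarith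
  have hwH : (w : ℝ) < c0 / gm * H := by
    rw [div_lt_iff₀ hc0'] at hHw
    linarith
  set N : ℕ := ⌊Real.log H ^ (3 * r + 2)⌋₊ with hN
  refine ⟨hY1, hvar H hHpos.le Y hYle, ?_⟩
  intro A hA
  obtain ⟨hA1, hA2⟩ := hA
  obtain ⟨al, hcong, hav⟩ := hal A hA2
  -- real bounds for the varied systems
  have hbd : ∀ o : Fin (r * 3) → ℕ × ℕ, (∀ j, o j ∈ bx Y) → ∀ t ∈ Ico N (2 * N), ∀ j,
      c0 * H ≤ ((g j * yz Q0 (be j) (al j) t (o j) : ℤ) : ℝ) ∧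
      ((g j * yz Q0 (be j) (al j) t (o j) : ℤ) : ℝ) ≤
        C1 * H * ((1 + Q0 * t : ℕ) : ℝ) ^ d j i0 := by
    intro o ho t ht j
    have hx : X0 ≤ 1 + Q0 * t := by
      have h1 : N ≤ t := (mem_Ico.1 ht).1
      have h2 : t ≤ Q0 * t := Nat.le_mul_of_pos_left _ hcst.pos
      omega
    have h1 := hreal (1 + Q0 * t) hx H hHpos (vr A M1 M2 Q0 sg o) (by
      intro j t
      have h2 := hA1 j t
      have h3 := hAC j t
      have h4 := hvar H hHpos.le Y hYle o ho j t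
      have h5 : ((vr A M1 M2 Q0 sg o j t : ℤ) : ℝ) - H * Ainf j t =
          ((A j t : ℝ) - H * AC j t) + H * (AC j t - Ainf j t) +
          ((Q0 * (sg j * ((o j).1 * M1 j t + (o j).2 * M2 j t)) : ℤ) : ℝ) := by
        simp only [vr]
        push_cast
        ring
      rw [h5]
      have h6 : |H * (AC j t - Ainf j t)| ≤ H * rho := by
        rw [abs_mul, abs_of_pos hHpos]
        exact mul_le_mul_of_nonneg_left h3 hHpos.le
      have h7 : rho ≤ rho1 / 5 := hrho0.trans (min_le_right _ _)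
      have h8 : 4 * rho * H ≤ rho1 * H := by nlinarith
      calc |((A j t : ℝ) - H * AC j t) + H * (AC j t - Ainf j t) +
          ((Q0 * (sg j * ((o j).1 * M1 j t + (o j).2 * M2 j t)) : ℤ) : ℝ)| ≤
          |(A j t : ℝ) - H * AC j t| + |H * (AC j t - Ainf j t)| +
          |((Q0 * (sg j * ((o j).1 * M1 j t + (o j).2 * M2 j t)) : ℤ) : ℝ)| :=
            abs_add_three _ _ _
        _ ≤ rho1 * H := by linarith) j
    have h2 := (hav j t o).2
    have h3 : sg j * MF (vr A M1 M2 Q0 sg o j) (sl i0 U V Q0 ((1 + Q0 * t : ℕ) : ℤ)) =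
        g j * yz Q0 (be j) (al j) t (o j) := by
      rw [h2]
      rcases hsg1 j with h | h <;> rw [h] <;> ring
    rw [h3] at h1
    exact h1
  have hLin : ∀ j, Lin w Q0 (be j) (et j) E (c0 / gm) H Y N (al j) := by
    intro j
    have hgj0 : (0 : ℝ) < g j := by exact_mod_cast hg0 j
    have hgj1 : (1 : ℝ) ≤ g j := by exact_mod_cast hg0 j
    have hgjm : (g j : ℝ) ≤ gm := by exact_mod_cast hgj j
    have hlo : ∀ t ∈ Ico N (2 * N), ∀ o ∈ bx Y, c0 / gm * H ≤ (yz Q0 (be j) (al j) t o : ℝ) := by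
      intro t ht o ho
      have h1 := (hbd (fun _ => o) (fun _ => ho) t ht j).1
      push_cast at h1
      have h2 : c0 / gm * H * g j ≤ c0 * H := by
        calc c0 / gm * H * g j ≤ c0 / gm * H * gm :=
              mul_le_mul_of_nonneg_left hgjm (by positivity)
          _ = c0 * H := by field_simp
      have h3 : c0 / gm * H * g j ≤ yz Q0 (be j) (al j) t o * g j := by linarith
      exact le_of_mul_le_mul_right h3 hgj0
    refine ⟨hlo, ?_, ?_, fun t t' p hp hwp hd => hcong j t t' p hp hwp hd⟩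
    · intro t ht o ho
      have h1 := (hbd (fun _ => o) (fun _ => ho) t ht j).2
      push_cast at h1
      have h0 : 0 ≤ (yz Q0 (be j) (al j) t o : ℝ) :=
        le_trans (by positivity) (hlo t ht o ho)
      have h2 : (yz Q0 (be j) (al j) t o : ℝ) ≤ g j * yz Q0 (be j) (al j) t o :=
        le_mul_of_one_le_left h0 hgj1
      have hx := hLx t ht
      push_cast at hx
      set L := Real.log H with hL
      have hx0 : (0 : ℝ) ≤ 1 + Q0 * t := by positivity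
      have h3 : (1 + Q0 * (t : ℝ)) ^ d j i0 ≤ (L ^ (3 * r + 3)) ^ d j i0 :=
        pow_le_pow_left₀ hx0 hx _
      have h4 : C1 * H * (1 + Q0 * (t : ℝ)) ^ d j i0 ≤ L * H * (L ^ (3 * r + 3)) ^ d j i0 := by
        calc C1 * H * (1 + Q0 * (t : ℝ)) ^ d j i0 ≤ L * H * (1 + Q0 * (t : ℝ)) ^ d j i0 :=
              mul_le_mul_of_nonneg_right (mul_le_mul_of_nonneg_right hLC1 hHpos.le)
                (by positivity)
          _ ≤ L * H * (L ^ (3 * r + 3)) ^ d j i0 :=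
              mul_le_mul_of_nonneg_left h3 (by positivity)
      have h5 : L * H * (L ^ (3 * r + 3)) ^ d j i0 = H * L ^ (1 + (3 * r + 3) * d j i0) := by
        rw [← pow_mul, pow_add, pow_one]
        ring
      have h6 : d j i0 ≤ ∑ j, d j i0 :=
        Finset.single_le_sum (f := fun j => d j i0) (fun _ _ => Nat.zero_le _)
          (Finset.mem_univ j)
      have h7 : L ^ (1 + (3 * r + 3) * d j i0) ≤ L ^ E := by
        refine pow_le_pow_right₀ hL1 ?_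
        rw [hE]
        exact Nat.add_le_add_left (Nat.mul_le_mul_left _ h6) 1
      have h8 : H * L ^ (1 + (3 * r + 3) * d j i0) ≤ H * L ^ E :=
        mul_le_mul_of_nonneg_left h7 hHpos.le
      linarith
    · intro t _ o _
      exact (hav j t fun _ => o).1
  have hposg : ∀ j, (g j : ℤ) ≠ 0 := fun j => by exact_mod_cast (hg0 j).ne'
  have hsg0 : ∀ j, sg j ≠ 0 := fun j => by
    rcases hsg1 j with h | h <;> rw [h] <;> norm_num
  have hpm : ∀ j j' j'', jacobiSym (-(sg j * g j * (sg j' * g j'))) (et j'') = 1 ∨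
      jacobiSym (-(sg j * g j * (sg j' * g j'))) (et j'') = -1 := by
    intro j j' j''
    refine jac_pm w hw _ ?_ ?_ _ (hFmc j'').cop
    · exact neg_ne_zero.2 (mul_ne_zero (mul_ne_zero (hsg0 j) (hposg j))
        (mul_ne_zero (hsg0 j') (hposg j')))
    · intro p hp hpd
      have hp' : Prime (p : ℤ) := Nat.prime_iff_prime_int.1 hp
      have hpg : ∀ j, (p : ℤ) ∣ sg j * g j → p ≤ w := by
        intro j h1
        have h2 : (p : ℤ) ∣ (g j : ℤ) := by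
          rcases hsg1 j with h | h
          · simpa [h] using h1
          · simpa [h] using h1
        exact hgs j p hp (by exact_mod_cast h2)
      rw [dvd_neg] at hpd
      rcases hp'.dvd_or_dvd hpd with h | h
      · exact hpg j h
      · exact hpg j' h
  have hmain := hH0 H hHH0 Y hYc hYH N hN al hLin
    (fun i => jacobiSym (-(sg (ix i 1) * g (ix i 1) * (sg (ix i 2) * g (ix i 2)))) (et (ix i 0)))
    (fun i => jacobiSym (-(sg (ix i 0) * g (ix i 0) * (sg (ix i 2) * g (ix i 2)))) (et (ix i 1)))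
    (fun i => hpm _ _ _) (fun i => hpm _ _ _)
  refine le_trans ?_ (hmain.trans (le_of_eq (by rw [mul_comm 3 r])))
  norm_cast
  refine Finset.card_le_card fun o ho => ?_
  simp only [Finset.mem_filter] at ho ⊢
  refine ⟨ho.1, ?_⟩
  by_contra hcon
  push Not at hcon
  obtain ⟨t, ht, hEc⟩ := hcon
  apply ho.2
  have hob : ∀ j, o j ∈ bx Y := fun j => Fintype.mem_piFinset.1 ho.1 j
  have hvr : ∀ j, 0 < sg j *
      MF (vr A M1 M2 Q0 sg o j) (sl i0 U V Q0 ((1 + Q0 * t : ℕ) : ℤ)) := by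
    intro j
    have h1 := (hbd o hob t ht j).1
    have h2 := (hav j t o).2
    have h3 : sg j * MF (vr A M1 M2 Q0 sg o j) (sl i0 U V Q0 ((1 + Q0 * t : ℕ) : ℤ)) =
        g j * yz Q0 (be j) (al j) t (o j) := by
      rw [h2]
      rcases hsg1 j with h | h <;> rw [h] <;> ring
    rw [h3]
    have h4 : (0 : ℝ) < ((g j * yz Q0 (be j) (al j) t (o j) : ℤ) : ℝ) :=
      lt_of_lt_of_le (by positivity) h1
    exact_mod_cast h4
  refine fb_sol i0 w k Q0 hw hQ0 A0 (vr A M1 M2 Q0 sg o) (fun j t => ?_) U V hUk hUiso Ainf u bet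
    hbet hub huiso sg hsg hsg1 t hvr be et g hFmc hg0 hgs al Y o (fun j => (hav j t o).1)
    (fun j => (hav j t o).2) (fun j => ?_) hEc
  · have h1 : vr A M1 M2 Q0 sg o j t - A0 j t = (A j t - A0 j t) +
        Q0 * (sg j * ((o j).1 * M1 j t + (o j).2 * M2 j t)) := by
      simp only [vr]
      ring
    rw [h1]
    exact dvd_add (hA2 j t) (dvd_mul_right _ _)
  · have h1 := (hLin j).lo t ht (o j) (hob j)
    have h2 : ((w : ℤ) : ℝ) < (yz Q0 (be j) (al j) t (o j) : ℝ) := by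
      push_cast
      linarith
    exact_mod_cast h2

end RcHP
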