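import Pool.Agent.Lib.MP_e426f4_ag.RC.Defs
import Pool.Agent.Lib.MP_e426f4_ag.RC.NearP
import Pool.Agent.Lib.MP_e426f4_ag.TW.LocP

/-!
# RC-IntP: from a `ℚ_p`-point to an integral point

Proof. `s` with nonzero values.  Every block of `s` is nonzero (`d j l ≥ 1` for one `j`, which exists as `r ≥ 1`: if block `l` is zero then `MF (A j) s = 0` by `MF_scale` with
`c l = 0`, or directly).  Scale block `l` by `p^(m l)`, `m l ∈ ℤ`, so that the maximum of the norms of the block is `1` (`Padic.norm_eq_zpow_neg_valuation`): `MF_scale`: the value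
of form `j` is multiplied by `∏_l p^(m l d j l)`, which for the three forms of one conic differ by squares (`EqPar`): `Iso` is preserved (`iso_sq`, `iso_mul`).  Now `s` is integral with a unit
coordinate in each block.  Approximate by integers (`locP_approx` coordinatewise; the values are continuous functions, `near_square` for the nonzero values): `z` with
`MF (A j) z = MF (A j) s * t^2`, `t ≠ 0`, and `BUnit p z`.
-/

set_option autoImplicit false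

namespace RcHP

open Finset Filter Topology GenHP CIPHP TwHP

private theorem IntP_cont {ι : Type} [Fintype ι] [DecidableEq ι] {n d : ι → ℕ} (p : ℕ)
    [Fact p.Prime] (A : MIdx n d → ℚ_[p]) : Continuous fun z : MVar n → ℚ_[p] => MF A z := by
  unfold MF Fg mon
  fun_prop

/-- a block of a point with a nonzero value is nonzero -/
private theorem IntP_block {ι : Type} [Fintype ι] [DecidableEq ι] {n d : ι → ℕ} {K : Type}
    [Field K] (A : MIdx n d → K) (s : MVar n → K) (hs : MF A s ≠ 0) (hd : ∀ i, 1 ≤ d i) (i : ι) :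
    ∃ a, s ⟨i, a⟩ ≠ 0 := by
  by_contra hcon
  push Not at hcon
  have h1 : s = fun v : MVar n => (fun l => if l = i then (0 : K) else 1) v.1 * s v := by
    funext v
    obtain ⟨l, a⟩ := v
    by_cases h : l = i
    · subst h
      simp only [if_true, zero_mul]
      exact hcon a
    · simp only [if_neg h, one_mul]
  have h2 := MF_scale (fun l => if l = i then (0 : K) else 1) A s
  rw [← h1] at h2
  have h3 : ∏ l, (fun l => if l = i then (0 : K) else 1) l ^ d l = 0 := by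
    apply Finset.prod_eq_zero (Finset.mem_univ i)
    simp only [if_true]
    exact zero_pow (by have := hd i; omega)
  rw [h3, zero_mul] at h2
  exact hs h2

/-- scaling preserves solubility of the conics -/
private theorem IntP_iso {ι : Type} [Fintype ι] {K : Type} [Field K] (c : ι → K)
    (hc : ∀ i, c i ≠ 0) (d : Fin 3 → ι → ℕ) (hd : ∀ j j' l, d j l % 2 = d j' l % 2)
    (F : Fin 3 → K) (h : Iso (F 0) (F 1) (F 2)) :
    Iso ((∏ i, c i ^ d 0 i) * F 0) ((∏ i, c i ^ d 1 i) * F 1) ((∏ i, c i ^ d 2 i) * F 2) := by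
  have key : ∀ j : Fin 3, (∏ i, c i ^ d j i) * F j =
      ((∏ i, c i ^ (d 0 i % 2)) * F j) * (∏ i, c i ^ (d j i / 2)) ^ 2 := by
    intro j
    have h1 : ∏ i, c i ^ d j i = (∏ i, c i ^ (d 0 i % 2)) * (∏ i, c i ^ (d j i / 2)) ^ 2 := by
      rw [← Finset.prod_pow, ← Finset.prod_mul_distrib]
      refine Finset.prod_congr rfl fun i _ => ?_
      rw [← pow_mul, ← pow_add]
      congr 1
      rw [hd 0 j i]
      omega
    rw [h1]
    ring
  have hne : ∀ e : ι → ℕ, ∏ i, c i ^ e i ≠ 0 := fun e =>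
    Finset.prod_ne_zero_iff.2 fun i _ => pow_ne_zero _ (hc i)
  rw [key 0, key 1, key 2, iso_sq _ _ _ _ _ _ (hne _) (hne _) (hne _), iso_mul _ _ _ _ (hne _)]
  exact h

theorem int_p {ι : Type} [Fintype ι] [DecidableEq ι] {n : ι → ℕ} {r : ℕ} {d : Fin (r * 3) → ι → ℕ}
    (hr : 1 ≤ r) (hd : ∀ j i, 1 ≤ d j i) (hpar : EqPar d) (p : ℕ) [Fact p.Prime] (A : PSys n d ℤ)
    (h : Sol A ℚ_[p]) : ∃ z : MVar n → ℤ, BUnit p z ∧ (∀ j, MF (A j) z ≠ 0) ∧
      ∀ i : Fin r, Iso ((MF (A (ix i 0)) z : ℤ) : ℚ_[p]) ((MF (A (ix i 1)) z : ℤ) : ℚ_[p])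
        ((MF (A (ix i 2)) z : ℤ) : ℚ_[p]) := by
  obtain ⟨s, hs0, hs1⟩ := h
  have hj : 0 < r * 3 := by omega
  have hblock : ∀ i : ι, ∃ a, s ⟨i, a⟩ ≠ 0 := fun i =>
    IntP_block _ s (hs0 ⟨0, hj⟩) (fun i => hd _ i) i
  have hmax : ∀ i : ι, ∃ a : Fin (n i + 1), ∀ b, ‖s ⟨i, b⟩‖ ≤ ‖s ⟨i, a⟩‖ := fun i =>
    Finite.exists_max fun a => ‖s ⟨i, a⟩‖
  choose a ha using hmax
  have hane : ∀ i, s ⟨i, a i⟩ ≠ 0 := by
    intro i h0
    obtain ⟨b, hb⟩ := hblock i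
    have h1 := ha i b
    rw [h0, norm_zero] at h1
    exact hb (norm_le_zero_iff.1 h1)
  obtain ⟨c, hc⟩ : ∃ c : ι → ℚ_[p], c = fun i => (p : ℚ_[p]) ^ (-(s ⟨i, a i⟩).valuation) := ⟨_, rfl⟩
  have hp0 : (p : ℚ_[p]) ≠ 0 := by exact_mod_cast (Fact.out : p.Prime).ne_zero
  have hcne : ∀ i, c i ≠ 0 := fun i => by
    rw [hc]
    exact zpow_ne_zero _ hp0
  have hcn : ∀ i, ‖c i‖ * ‖s ⟨i, a i⟩‖ = 1 := by
    intro i
    have hpR : (p : ℝ) ≠ 0 := by exact_mod_cast (Fact.out : p.Prime).ne_zero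
    rw [hc]
    simp only
    rw [Padic.norm_p_zpow, Padic.norm_eq_zpow_neg_valuation (hane i), ← zpow_add₀ hpR]
    simp
  obtain ⟨s', hs'⟩ : ∃ s' : MVar n → ℚ_[p], s' = fun v => c v.1 * s v := ⟨_, rfl⟩
  have hs'le : ∀ v, ‖s' v‖ ≤ 1 := by
    rintro ⟨i, b⟩
    rw [hs', ← hcn i]
    simp only
    rw [norm_mul]
    exact mul_le_mul_of_nonneg_left (ha i b) (norm_nonneg _)
  have hs'one : ∀ i, ‖s' ⟨i, a i⟩‖ = 1 := by
    intro i
    rw [hs']
    simp only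
    rw [norm_mul, hcn i]
  have hMF : ∀ j, MF (cst ℚ_[p] A j) s' = (∏ i, c i ^ d j i) * MF (cst ℚ_[p] A j) s := by
    intro j
    rw [hs']
    exact MF_scale c _ s
  have hne' : ∀ j, MF (cst ℚ_[p] A j) s' ≠ 0 := by
    intro j
    rw [hMF]
    exact mul_ne_zero (Finset.prod_ne_zero_iff.2 fun i _ => pow_ne_zero _ (hcne i)) (hs0 j)
  have hiso' : ∀ i : Fin r, Iso (MF (cst ℚ_[p] A (ix i 0)) s') (MF (cst ℚ_[p] A (ix i 1)) s')
      (MF (cst ℚ_[p] A (ix i 2)) s') := by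
    intro i
    rw [hMF, hMF, hMF]
    exact IntP_iso c hcne (fun j => d (ix i j)) (fun j j' l => hpar i j j' l)
      (fun j => MF (cst ℚ_[p] A (ix i j)) s) (hs1 i)
  -- approximation
  choose ε hε hε' using fun j => near_square p (MF (cst ℚ_[p] A j) s') (hne' j)
  have hcont : ∀ j, ∃ δ : ℝ, 0 < δ ∧ ∀ z : MVar n → ℚ_[p], dist z s' < δ →
      dist (MF (cst ℚ_[p] A j) z) (MF (cst ℚ_[p] A j) s') < ε j := fun j => by
    have h1 := (IntP_cont p (cst ℚ_[p] A j)).continuousAt (x := s')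
    rw [Metric.continuousAt_iff] at h1
    obtain ⟨δ, h2, h3⟩ := h1 (ε j) (hε j)
    exact ⟨δ, h2, fun z hz => h3 hz⟩
  choose δ hδ hδ' using hcont
  have hδmin : ∃ δ0 : ℝ, 0 < δ0 ∧ δ0 ≤ 1 ∧ ∀ j, δ0 ≤ δ j := by
    haveI : Nonempty (Fin (r * 3)) := ⟨⟨0, hj⟩⟩
    obtain ⟨j0, hj0⟩ := Finite.exists_min δ
    exact ⟨min (δ j0) 1, lt_min (hδ j0) one_pos, min_le_right _ _, fun j =>
      (min_le_left _ _).trans (hj0 j)⟩
  obtain ⟨δ0, h0pos, h0one, h0le⟩ := hδmin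
  obtain ⟨k, hk⟩ : ∃ k : ℕ, (p : ℝ) ^ (-k : ℤ) < δ0 := by
    have hp1 : (1 : ℝ) < p := by exact_mod_cast (Fact.out : p.Prime).one_lt
    obtain ⟨k, hk⟩ := exists_pow_lt_of_lt_one h0pos (inv_lt_one_of_one_lt₀ hp1)
    refine ⟨k, ?_⟩
    rwa [zpow_neg, zpow_natCast, ← inv_pow]
  choose z hz using fun v => locP_approx p (s' v) (hs'le v) k
  have hzd : dist (fun v => ((z v : ℤ) : ℚ_[p])) s' < δ0 := by
    rw [dist_pi_lt_iff h0pos]
    intro v
    rw [dist_eq_norm]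
    exact lt_of_le_of_lt (hz v) hk
  have hval : ∀ j, MF (cst ℚ_[p] A j) (fun v => ((z v : ℤ) : ℚ_[p])) =
      ((MF (A j) z : ℤ) : ℚ_[p]) := fun j => MF_map (Int.castRingHom ℚ_[p]) (A j) z
  have hsq : ∀ j, ((MF (A j) z : ℤ) : ℚ_[p]) ≠ 0 ∧ ∃ t : ℚ_[p], t ≠ 0 ∧
      ((MF (A j) z : ℤ) : ℚ_[p]) = MF (cst ℚ_[p] A j) s' * t ^ 2 := by
    intro j
    apply hε' j
    rw [← hval, ← dist_eq_norm]
    exact hδ' j _ (lt_of_lt_of_le hzd (h0le j))
  refine ⟨z, ?_, ?_, ?_⟩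
  · intro i
    refine ⟨a i, fun hdvd => ?_⟩
    have h1 : ‖((z ⟨i, a i⟩ : ℤ) : ℚ_[p])‖ < 1 := Padic.norm_intCast_lt_one_iff.2 hdvd
    have h2 : ‖((z ⟨i, a i⟩ : ℤ) : ℚ_[p]) - s' ⟨i, a i⟩‖ < 1 :=
      lt_of_le_of_lt (hz _) (lt_of_lt_of_le hk h0one)
    have h3 : s' ⟨i, a i⟩ = ((z ⟨i, a i⟩ : ℤ) : ℚ_[p]) +
        -(((z ⟨i, a i⟩ : ℤ) : ℚ_[p]) - s' ⟨i, a i⟩) := by ring
    have h4 := Padic.nonarchimedean ((z ⟨i, a i⟩ : ℤ) : ℚ_[p])
      (-(((z ⟨i, a i⟩ : ℤ) : ℚ_[p]) - s' ⟨i, a i⟩))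
    rw [← h3, hs'one, norm_neg] at h4
    exact absurd h4 (not_le.2 (max_lt h1 h2))
  · intro j h0
    apply (hsq j).1
    rw [h0, Int.cast_zero]
  · intro i
    obtain ⟨-, t0, ht0, e0⟩ := hsq (ix i 0)
    obtain ⟨-, t1, ht1, e1⟩ := hsq (ix i 1)
    obtain ⟨-, t2, ht2, e2⟩ := hsq (ix i 2)
    rw [e0, e1, e2, iso_sq _ _ _ _ _ _ ht0 ht1 ht2]
    exact hiso' i

end RcHP
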