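import Pool.Agent.Lib.MP_e426f4_ag.RC.Defs
import Pool.Agent.Lib.MP_e426f4_ag.TW.IsoBasic

/-!
# RC-NormR: normalised real points; rational points are local points

Proof of `norm_r`. Every block of `s` is nonzero (as in RC-IntP).  Divide block `l` by its sup norm: `MF_scale`: the values are multiplied by positive numbers: `iso_real`.
Proof of `els_of_sol`. Cast `s` along `ℚ → K` (`algebraMap`/`Rat.castHom`): `MF_map`, `iso_map`.
-/

set_option autoImplicit false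

namespace RcHP

open Finset Filter Topology GenHP CIPHP TwHP

theorem NormR_block {ι : Type} [Fintype ι] [DecidableEq ι] {n d : ι → ℕ}
    (hd : ∀ i, 1 ≤ d i) (A : MIdx n d → ℝ) (s : MVar n → ℝ) (h : MF A s ≠ 0) (i : ι) :
    ∃ a, s ⟨i, a⟩ ≠ 0 := by
  by_contra hc
  push Not at hc
  apply h
  have h1 := MF_scale (fun l => if l = i then (0 : ℝ) else 1) A s
  have h2 : (fun v : MVar n => (if v.1 = i then (0 : ℝ) else 1) * s v) = s := by
    funext v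
    obtain ⟨l, a⟩ := v
    by_cases hl : l = i
    · subst hl
      simp [hc a]
    · simp [hl]
  rw [h2] at h1
  rw [h1, Finset.prod_eq_zero (Finset.mem_univ i), zero_mul]
  simp only [if_true]
  exact zero_pow (by have := hd i; omega)

theorem norm_r {ι : Type} [Fintype ι] [DecidableEq ι] {n : ι → ℕ} {r : ℕ} {d : Fin (r * 3) → ι → ℕ}
    (hr : 1 ≤ r) (hd : ∀ j i, 1 ≤ d j i) (A : PSys n d ℤ)
    (h : Sol A ℝ) : ∃ z : MVar n → ℝ, BNorm z ∧ (∀ j, MF (fun t => (A j t : ℝ)) z ≠ 0) ∧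
      ∀ i : Fin r, Iso (MF (fun t => (A (ix i 0) t : ℝ)) z) (MF (fun t => (A (ix i 1) t : ℝ)) z)
        (MF (fun t => (A (ix i 2) t : ℝ)) z) := by
  obtain ⟨s, hs0, hs⟩ := h
  have hj0 : Fin (r * 3) := ⟨0, by omega⟩
  have hmax : ∀ i : ι, ∃ a : Fin (n i + 1), ∀ b, |s ⟨i, b⟩| ≤ |s ⟨i, a⟩| := fun i =>
    Finite.exists_max fun a => |s ⟨i, a⟩|
  choose am ham using hmax
  have hpos : ∀ i, 0 < |s ⟨i, am i⟩| := fun i => by
    obtain ⟨a, ha⟩ := NormR_block (hd hj0) _ s (hs0 hj0) i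
    exact lt_of_lt_of_le (abs_pos.2 ha) (ham i a)
  have hc : ∀ i, 0 < |s ⟨i, am i⟩|⁻¹ := fun i => inv_pos.2 (hpos i)
  have hval : ∀ j, ∃ c : ℝ, 0 < c ∧ MF (fun t => (A j t : ℝ))
      (fun v => |s ⟨v.1, am v.1⟩|⁻¹ * s v) = c * MF (cst ℝ A j) s := fun j =>
    ⟨∏ i, (|s ⟨i, am i⟩|⁻¹) ^ d j i, Finset.prod_pos fun i _ => pow_pos (hc i) _,
      MF_scale (fun i => |s ⟨i, am i⟩|⁻¹) (fun t => (A j t : ℝ)) s⟩
  have hsign : ∀ j, 0 < MF (cst ℝ A j) s * MF (fun t => (A j t : ℝ))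
      (fun v => |s ⟨v.1, am v.1⟩|⁻¹ * s v) := fun j => by
    obtain ⟨c, hc0, hce⟩ := hval j
    rw [hce]
    have h1 := hs0 j
    have h2 : 0 < MF (cst ℝ A j) s ^ 2 := by positivity
    nlinarith
  refine ⟨fun v => |s ⟨v.1, am v.1⟩|⁻¹ * s v, ⟨fun v => ?_, fun i => ⟨am i, ?_⟩⟩, fun j => ?_,
    fun i => ?_⟩
  · rw [abs_mul, abs_of_pos (hc v.1), inv_mul_le_one₀ (hpos v.1)]
    exact ham v.1 v.2
  · show abs (|s ⟨i, am i⟩|⁻¹ * s ⟨i, am i⟩) = 1
    rw [abs_mul, abs_of_pos (hc i), inv_mul_cancel₀ (hpos i).ne']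
  · have h1 := hsign j
    intro h0
    rw [h0, mul_zero] at h1
    exact lt_irrefl _ h1
  · exact iso_real _ _ _ _ _ _ (hsign _) (hsign _) (hsign _) (hs i)

theorem NormR_cast {ι : Type} [Fintype ι] [DecidableEq ι] {n : ι → ℕ} {r : ℕ}
    {d : Fin (r * 3) → ι → ℕ} (A : PSys n d ℤ) (h : Sol A ℚ) (K : Type) [Field K]
    (f : ℚ →+* K) : Sol A K := by
  obtain ⟨s, hs0, hs⟩ := h
  have key : ∀ j, MF (cst K A j) (fun v => f (s v)) = f (MF (cst ℚ A j) s) := fun j => by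
    rw [← MF_map f (cst ℚ A j) s]
    congr 1
    funext t
    simp [cst]
  refine ⟨fun v => f (s v), fun j => ?_, fun i => ?_⟩
  · rw [key j]
    exact (map_ne_zero f).2 (hs0 j)
  · rw [key, key, key]
    exact iso_map f _ _ _ (hs i)

theorem els_of_sol {ι : Type} [Fintype ι] [DecidableEq ι] {n : ι → ℕ} {r : ℕ} {d : Fin (r * 3) → ι → ℕ}
    (A : PSys n d ℤ) (h : Sol A ℚ) : ELS A :=
  ⟨NormR_cast A h ℝ (Rat.castHom ℝ), fun p _ => NormR_cast A h ℚ_[p] (Rat.castHom ℚ_[p])⟩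

end RcHP
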