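import Pool.Agent.Lib.MP_e426f4_ag.RC.Defs
import Pool.Agent.Lib.MP_e426f4_ag.RC.ExDefs
import Pool.Agent.Lib.MP_e426f4_ag.RC.NearP

/-!
# RC-PertP: `p`-adic perturbation

Proof. `m = r * 3`, `e = m κ + 9`.  Let `S` be the set of `j` with `p^κ ∣ MF (A j) z`, enumerated by an injective `em : Fin b → Fin m` (`Finset.orderEmbOfFin` or
`Finset.equivFin`).  If `b = 0`, `z` itself works (`κ ≤ 2 e`).  Otherwise `¬ ExcP` gives columns `J` with `p^(b κ) ∤ D := det (PJac (A ∘ em) z J)`.  Write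
`D = p^del D'`, `p ∤ D'`, `del < b κ ≤ m κ`.  Put for `j ∈ S`: `τ j = 0` if `p^(2e-3) ∤ MF (A j) z`; otherwise, with `MF (A j) z = p^v f`, `p ∤ f` (it is nonzero), `τ j = p^ε D' f`,
`ε ∈ {0, 1}`, `ε ≡ e + del + v` mod 2.  `w = adj(L) τ` (`L` = the `b × b` matrix; `L * adj L = D`), vector `h` supported on the columns `J` (these are distinct
because `D ≠ 0`, `PJac_injective`): `∑_v MD (A j) z v * h v = D τ j` for `j ∈ S`.  `z' = z + p^e h`: `MF (A j) z' = MF (A j) z + p^e ∑ MD (A j) z v h v + p^(2e) R`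
(`MF_add_smul` in `M/Alg.lean`).
 - `j ∉ S`: `MF (A j) z' ≡ MF (A j) z` mod `p^e`, `e ≥ κ + 3`: `near_sq` with `k = κ`; not divisible by `p^κ`.
 - `j ∈ S`, `τ j = 0`: `≡` mod `p^(2e)`, and `p^(2e-3) ∤`: `near_sq` with `k = 2e - 3`; not divisible by `p^(2e-3)`.
 - `j ∈ S`, else: `MF (A j) z' ≡ p^e D τ j = p^(e+del+ε) D'^2 f` mod `p^(2e-3)`, valuation `e + del + ε ≤ 2e - 9`: `near_sq` with `k = 2e - 8`: it is `t^2 p^(e+del+ε) D'^2 f`, and
   `p^(e+del+ε) D'^2 f = MF (A j) z * p^(e+del+ε-v) D'^2` with `e+del+ε-v` even (maybe negative: work in `ℚ_p`, `zpow`): a square times `MF (A j) z`.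
So all values at `z'` are `MF (A j) z` times squares and not divisible by `p^(2e)`; `iso_sq`.
-/

set_option autoImplicit false

namespace RcHP

open Finset Filter Topology GenHP CIPHP TwHP

private theorem pp_fac (p : ℕ) [Fact p.Prime] (D : ℤ) (hD : D ≠ 0) :
    ∃ (v : ℕ) (f : ℤ), D = (p : ℤ) ^ v * f ∧ ¬ (p : ℤ) ∣ f := by
  have h1 : FiniteMultiplicity (p : ℤ) D := by
    rw [Int.finiteMultiplicity_iff]
    refine ⟨?_, hD⟩
    rw [Int.natAbs_natCast]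
    exact (Fact.out : p.Prime).ne_one
  obtain ⟨c, hc1, hc2⟩ := h1.exists_eq_pow_mul_and_not_dvd
  exact ⟨_, c, hc1, hc2⟩

private theorem pp_ndvd (p : ℕ) [Fact p.Prime] {v k : ℕ} {f : ℤ} (hf : ¬ (p : ℤ) ∣ f)
    (hk : v < k) : ¬ (p : ℤ) ^ k ∣ (p : ℤ) ^ v * f := by
  have hp0 : (p : ℤ) ≠ 0 := by exact_mod_cast (Fact.out : p.Prime).ne_zero
  intro h
  have h1 : (p : ℤ) ^ (v + 1) ∣ (p : ℤ) ^ v * f := (pow_dvd_pow _ hk).trans h
  rw [pow_succ] at h1
  exact hf (Int.dvd_of_mul_dvd_mul_left (pow_ne_zero v hp0) h1)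

private theorem pp_pow_lt (p : ℕ) [Fact p.Prime] {v k : ℕ} {f : ℤ}
    (h : ¬ (p : ℤ) ^ k ∣ (p : ℤ) ^ v * f) : v < k := by
  by_contra hcon
  push Not at hcon
  exact h ((pow_dvd_pow _ hcon).mul_right _)

open Classical in
private theorem pp_enum {M : ℕ} (P : Fin M → Prop) :
    ∃ (b : ℕ) (em : Fin b → Fin M), Function.Injective em ∧ ∀ j, (∃ l, em l = j) ↔ P j := by
  let S : Finset (Fin M) := univ.filter P
  refine ⟨S.card, S.orderEmbOfFin rfl, (S.orderEmbOfFin rfl).injective, fun j => ?_⟩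
  have h1 : j ∈ Set.range (S.orderEmbOfFin rfl) ↔ j ∈ (S : Set (Fin M)) := by
    rw [Finset.range_orderEmbOfFin]
  constructor
  · rintro ⟨l, hl⟩
    have := h1.1 ⟨l, hl⟩
    simpa [S] using this
  · intro h
    exact h1.2 (by simpa [S] using h)

/-- the square class of the perturbed value -/
private theorem pp_sq (p : ℕ) [Fact p.Prime] {e del v ep : ℕ} {D' f : ℤ}
    (hD' : ¬ (p : ℤ) ∣ D') (hev : ∃ s : ℤ, ((e : ℤ) + del + ep) = v + 2 * s) :
    ∃ t : ℚ_[p], t ≠ 0 ∧ (((p : ℤ) ^ (e + del + ep) * (D' ^ 2 * f) : ℤ) : ℚ_[p]) =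
      (((p : ℤ) ^ v * f : ℤ) : ℚ_[p]) * t ^ 2 := by
  obtain ⟨s, hs⟩ := hev
  have hp0 : (p : ℚ_[p]) ≠ 0 := by exact_mod_cast (Fact.out : p.Prime).ne_zero
  have hD0 : (D' : ℚ_[p]) ≠ 0 := by
    have : D' ≠ 0 := by
      rintro rfl
      exact hD' (dvd_zero _)
    exact_mod_cast this
  refine ⟨(p : ℚ_[p]) ^ s * D', mul_ne_zero (zpow_ne_zero _ hp0) hD0, ?_⟩
  have h1 : (p : ℚ_[p]) ^ (e + del + ep) = (p : ℚ_[p]) ^ v * ((p : ℚ_[p]) ^ s) ^ 2 := by
    rw [← zpow_natCast (p : ℚ_[p]) (e + del + ep), ← zpow_natCast (p : ℚ_[p]) v,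
      ← zpow_natCast ((p : ℚ_[p]) ^ s) 2, ← zpow_mul, ← zpow_add₀ hp0]
    congr 1
    push_cast
    rw [hs]
    ring
  push_cast
  rw [h1]
  ring

theorem pert_p {ι : Type} [Fintype ι] [DecidableEq ι] {n : ι → ℕ} {r : ℕ} {d : Fin (r * 3) → ι → ℕ}
    (p : ℕ) [Fact p.Prime] (κ : ℕ) (hκ : 1 ≤ κ) (A : PSys n d ℤ) (hA : ¬ ExcP p κ A)
    (z : MVar n → ℤ) (hz : BUnit p z) (hne : ∀ j, MF (A j) z ≠ 0)
    (hiso : ∀ i : Fin r, Iso ((MF (A (ix i 0)) z : ℤ) : ℚ_[p]) ((MF (A (ix i 1)) z : ℤ) : ℚ_[p])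
      ((MF (A (ix i 2)) z : ℤ) : ℚ_[p])) : GoodP p (2 * (r * 3 * κ + 9)) A := by
  classical
  set e : ℕ := r * 3 * κ + 9 with he
  -- it is enough to change the values by squares
  have hfin : ∀ z' : MVar n → ℤ, (∀ j, (∃ t : ℚ_[p], t ≠ 0 ∧
      ((MF (A j) z' : ℤ) : ℚ_[p]) = ((MF (A j) z : ℤ) : ℚ_[p]) * t ^ 2) ∧
      ¬ (p : ℤ) ^ (2 * e) ∣ MF (A j) z') → GoodP p (2 * e) A := by
    intro z' h
    refine ⟨z', fun j => (h j).2, fun i => ?_⟩
    obtain ⟨t0, ht0, e0⟩ := (h (ix i 0)).1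
    obtain ⟨t1, ht1, e1⟩ := (h (ix i 1)).1
    obtain ⟨t2, ht2, e2⟩ := (h (ix i 2)).1
    rw [e0, e1, e2]
    exact (iso_sq _ _ _ t0 t1 t2 ht0 ht1 ht2).2 (hiso i)
  obtain ⟨b, em, hinj, hS⟩ := pp_enum fun j => (p : ℤ) ^ κ ∣ MF (A j) z
  have hbm : b ≤ r * 3 := by
    have := Fintype.card_le_of_injective em hinj
    simpa using this
  have hM : ∀ _ : Fin (r * 3), κ + 3 ≤ e := by
    intro j
    have h1 : 1 ≤ r * 3 := lt_of_le_of_lt (Nat.zero_le _) j.2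
    have h2 : κ ≤ r * 3 * κ := Nat.le_mul_of_pos_left _ h1
    omega
  rcases Nat.eq_zero_or_pos b with hb0 | hb0
  · subst hb0
    refine hfin z fun j => ⟨⟨1, one_ne_zero, by ring⟩, fun h => ?_⟩
    have h1 : (p : ℤ) ^ κ ∣ MF (A j) z :=
      (pow_dvd_pow _ (by have := hM j; omega)).trans h
    obtain ⟨l, -⟩ := (hS j).2 h1
    exact l.elim0
  have h0 : ∃ J : Fin b → MVar n,
      ¬ (p : ℤ) ^ (b * κ) ∣ (PJac (fun j => A (em j) : PSys n (fun j => d (em j)) ℤ) z J).det := by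
    by_contra hcon
    push Not at hcon
    exact hA ⟨b, em, hb0, hinj, z, hz, fun l => (hS (em l)).1 ⟨l, rfl⟩, hcon⟩
  obtain ⟨J, hJ⟩ := h0
  set L := PJac (fun j => A (em j) : PSys n (fun j => d (em j)) ℤ) z J with hL
  set D : ℤ := L.det with hD
  have hD0 : D ≠ 0 := by
    intro h
    rw [h] at hJ
    exact hJ (dvd_zero _)
  obtain ⟨del, D', hDD, hD'⟩ := pp_fac p D hD0
  have hdel : del < r * 3 * κ := by
    have h1 : del < b * κ := by
      rw [hDD] at hJ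
      exact pp_pow_lt p hJ
    exact lt_of_lt_of_le h1 (Nat.mul_le_mul_right κ hbm)
  -- valuations of the values
  have hfac : ∀ j, ∃ (v : ℕ) (f : ℤ), MF (A j) z = (p : ℤ) ^ v * f ∧ ¬ (p : ℤ) ∣ f := fun j =>
    pp_fac p _ (hne j)
  choose v f hvf hf using hfac
  set ep : Fin (r * 3) → ℕ := fun j => (e + del + v j) % 2 with hep
  have hep1 : ∀ j, ep j ≤ 1 := fun j => by
    have := Nat.mod_lt (e + del + v j) (by norm_num : 0 < 2)
    simp only [hep]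
    omega
  set tau : Fin b → ℤ := fun l => if (p : ℤ) ^ (2 * e - 3) ∣ MF (A (em l)) z then
    (p : ℤ) ^ ep (em l) * (D' * f (em l)) else 0 with htau
  set w : Fin b → ℤ := L.adjugate.mulVec tau with hw
  have hLw : ∀ l, ∑ l', L l l' * w l' = D * tau l := by
    intro l
    have h1 : L.mulVec w = D • tau := by
      rw [hw, Matrix.mulVec_mulVec, Matrix.mul_adjugate, Matrix.smul_mulVec, Matrix.one_mulVec]
    have h2 := congrFun h1 l
    simpa [Matrix.mulVec, dotProduct] using h2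
  set h : MVar n → ℤ := fun u => ∑ l, if J l = u then w l else 0 with hh
  have hsum : ∀ l, ∑ u, MD (A (em l)) z u * h u = D * tau l := by
    intro l
    rw [← hLw l]
    have h1 : ∀ u, MD (A (em l)) z u * h u =
        ∑ l', if J l' = u then MD (A (em l)) z u * w l' else 0 := by
      intro u
      simp only [hh, Finset.mul_sum]
      refine Finset.sum_congr rfl fun l' _ => ?_
      split_ifs <;> ring
    rw [Finset.sum_congr rfl fun u _ => h1 u, Finset.sum_comm]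
    refine Finset.sum_congr rfl fun l' _ => ?_
    rw [Finset.sum_ite_eq]
    simp [hL, PJac]
  set z' : MVar n → ℤ := fun u => z u + (p : ℤ) ^ e * h u with hz'
  have hval : ∀ j, ∃ R : ℤ, MF (A j) z' = MF (A j) z + (p : ℤ) ^ e * (∑ u, MD (A j) z u * h u) +
      (p : ℤ) ^ (2 * e) * R := by
    intro j
    obtain ⟨R, hR⟩ := MF_add_smul (A j) z h ((p : ℤ) ^ e)
    refine ⟨R, ?_⟩
    rw [hz', hR, mul_comm 2 e, pow_mul]
  refine hfin z' fun j => ?_
  obtain ⟨R, hR⟩ := hval j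
  by_cases hj : (p : ℤ) ^ κ ∣ MF (A j) z
  swap
  · -- `j` is not in `S`
    have h1 : (p : ℤ) ^ (κ + 3) ∣ MF (A j) z' - MF (A j) z := by
      have h2 : MF (A j) z' - MF (A j) z = (p : ℤ) ^ e * ((∑ u, MD (A j) z u * h u) +
          (p : ℤ) ^ e * R) := by
        rw [hR, two_mul, pow_add]
        ring
      rw [h2]
      exact (pow_dvd_pow _ (hM j)).mul_right _
    refine ⟨near_sq p κ _ _ hj h1, fun h2 => near_dvd p κ _ _ hj h1 ?_⟩
    exact (pow_dvd_pow _ (by have := hM j; omega)).trans h2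
  obtain ⟨l, rfl⟩ := (hS j).2 hj
  rw [hsum l] at hR
  by_cases hl : (p : ℤ) ^ (2 * e - 3) ∣ MF (A (em l)) z
  swap
  · have ht0 : tau l = 0 := by simp only [htau, if_neg hl]
    have h1 : (p : ℤ) ^ ((2 * e - 3) + 3) ∣ MF (A (em l)) z' - MF (A (em l)) z := by
      have h2 : MF (A (em l)) z' - MF (A (em l)) z = (p : ℤ) ^ (2 * e) * R := by
        rw [hR, ht0]
        ring
      have h3 : (2 * e - 3) + 3 = 2 * e := by omega
      rw [h2, h3]
      exact dvd_mul_right _ _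
    refine ⟨near_sq p _ _ _ hl h1, fun h2 => near_dvd p _ _ _ hl h1 ?_⟩
    exact (pow_dvd_pow _ (by omega)).trans h2
  · have ht0 : tau l = (p : ℤ) ^ ep (em l) * (D' * f (em l)) := by simp only [htau, if_pos hl]
    have hev : ∃ s : ℤ, ((e : ℤ) + del + ep (em l)) = v (em l) + 2 * s := by
      have h1 : (e + del + v (em l)) % 2 = ep (em l) := rfl
      refine ⟨((e : ℤ) + del + ep (em l) - v (em l)) / 2, ?_⟩
      omega
    obtain ⟨t1, ht1, ht1'⟩ := pp_sq p (e := e) (del := del) (v := v (em l)) (ep := ep (em l))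
      (D' := D') (f := f (em l)) hD' hev
    set a : ℤ := (p : ℤ) ^ (e + del + ep (em l)) * (D' ^ 2 * f (em l)) with ha
    have hDf : ¬ (p : ℤ) ∣ D' ^ 2 * f (em l) := by
      have hp : Prime (p : ℤ) := Nat.prime_iff_prime_int.1 (Fact.out : p.Prime)
      intro h1
      rcases hp.dvd_or_dvd h1 with h2 | h2
      · exact hD' (hp.dvd_of_dvd_pow h2)
      · exact hf _ h2
    have hla : ¬ (p : ℤ) ^ (2 * e - 8) ∣ a := by
      refine pp_ndvd p hDf ?_
      have := hep1 (em l)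
      omega
    have h1 : (p : ℤ) ^ ((2 * e - 8) + 3) ∣ MF (A (em l)) z' - a := by
      have h2 : MF (A (em l)) z' - a = MF (A (em l)) z + (p : ℤ) ^ (2 * e) * R := by
        rw [hR, ht0, hDD, ha, pow_add, pow_add]
        ring
      rw [h2]
      refine dvd_add ((pow_dvd_pow _ (by omega)).trans hl) ?_
      exact (pow_dvd_pow _ (by omega)).mul_right _
    obtain ⟨t2, ht2, ht2'⟩ := near_sq p _ _ _ hla h1
    refine ⟨⟨t1 * t2, mul_ne_zero ht1 ht2, ?_⟩, fun h2 => near_dvd p _ _ _ hla h1 ?_⟩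
    · rw [ht2', ht1', hvf (em l)]
      ring
    · exact (pow_dvd_pow _ (by omega)).trans h2

theorem good_mono {ι : Type} [Fintype ι] [DecidableEq ι] {n : ι → ℕ} {r : ℕ} {d : Fin (r * 3) → ι → ℕ}
    (p : ℕ) [Fact p.Prime] (k k' : ℕ) (h : k ≤ k') (A : PSys n d ℤ) (hA : GoodP p k A) : GoodP p k' A := by
  obtain ⟨U, h1, h2⟩ := hA
  exact ⟨U, fun j hj => h1 j ((pow_dvd_pow _ h).trans hj), h2⟩

end RcHP
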