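import Pool.Agent.Lib.MP_e426f4_ag.RC.Defs
import Pool.Agent.Lib.MP_e426f4_ag.RC.ExDefs
import Pool.Agent.Lib.MP_e426f4_ag.TW.IsoBasic
import Pool.Agent.Lib.MP_e426f4_ag.P.Alg
import Pool.Agent.Lib.MP_e426f4_ag.M.AlgReal

/-!
# RC-PertR: perturbation at the real place

Proof. Work with `a = A / H`, `|a| ≤ 1`.  `S = {j : |MF (a j) z| ≤ bet}`, enumerated by an injective `em : Fin b → Fin (r * 3)`.  If `b = 0`: `u = z`.  Otherwise `¬ ExcR` gives `J` with
`|D| ≥ bet^b`, `D = det (PJac (a ∘ em) z J)` (homogeneity: `PJac_smul`).  Let `h = adj(L) τ`, supported on `J`, `τ j = sign(D) sign(MF (a j) z)`: `∑_v MD (a j) z v h v = D τ j = |D| sign(MF (a j) z)`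
for `j ∈ S`, `|h v| ≤ K` with a constant `K` depending only on `n, d` (entries of `adj L` are bounded as `|z| ≤ 1`, `|a| ≤ 1`).  `u = z + δ h`, `0 < δ ≤ 1/(K+1)`, so `|u| ≤ 2`.  Second order
Taylor bound: `|MF (a j) u - MF (a j) z - δ ∑ MD (a j) z v h v| ≤ C δ^2`, and `|MF (a j) u - MF (a j) z| ≤ C δ` (`C` depends on `n, d` only; polynomial in `δ` with bounded coefficients; e.g.
from `MF_add_smul` or `P/Grid.lean`).  With `δ` small (`C δ ≤ bet^b / 2`, `C δ ≤ bet / 2`): for `j ∈ S`: `MF (a j) u` has the sign of `MF (a j) z` and absolute value `≥ δ bet^b / 2`; for `j ∉ S`: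
same sign, absolute value `≥ bet / 2`.  `c = min (bet/2) (δ bet^(r*3) / 2)` (`b ≤ r * 3`, `bet ≤ 1`).  `iso_real`.
-/

set_option autoImplicit false

namespace RcHP

open Finset Filter Topology GenHP CIPHP TwHP

open Classical in
private theorem pr_enum {M : ℕ} (P : Fin M → Prop) :
    ∃ (b : ℕ) (em : Fin b → Fin M), Function.Injective em ∧ ∀ j, (∃ l, em l = j) ↔ P j := by
  let S : Finset (Fin M) := univ.filter P
  refine ⟨S.card, S.orderEmbOfFin rfl, (S.orderEmbOfFin rfl).injective, fun j => ?_⟩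
  have h1 : j ∈ Set.range (S.orderEmbOfFin rfl) ↔ j ∈ (S : Set (Fin M)) := by
    rw [Finset.range_orderEmbOfFin]
  constructor
  · rintro ⟨l, hl⟩
    have := h1.1 ⟨l, hl⟩
    simpa [S] using this
  · intro h
    exact h1.2 (by simpa [S] using h)

private theorem pr_adj {b : ℕ} (L : Matrix (Fin b) (Fin b) ℝ) (K : ℝ) (hK : 1 ≤ K)
    (hL : ∀ i l, |L i l| ≤ K) (i l : Fin b) :
    |L.adjugate i l| ≤ (Nat.factorial b : ℝ) * K ^ b := by
  rw [Matrix.adjugate_apply]
  have h := Matrix.det_le (A := L.updateRow l (Pi.single i 1)) (abv := AbsoluteValue.abs)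
    (x := K) (fun a b => by
      rw [Matrix.updateRow_apply]
      split_ifs with hab
      · change |(Pi.single i (1 : ℝ) : Fin _ → ℝ) b| ≤ K
        rcases eq_or_ne b i with rfl | hbi
        · rw [Pi.single_eq_same, abs_one]
          exact hK
        · rw [Pi.single_eq_of_ne hbi, abs_zero]
          linarith
      · exact hL a b)
  rw [Fintype.card_fin, nsmul_eq_mul] at h
  exact h

section consts
variable {ι : Type} [Fintype ι] [DecidableEq ι]

/-- bound for the partial derivatives -/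
private noncomputable def pr_K1 (n : ι → ℕ) {m : ℕ} (d : Fin m → ι → ℕ) : ℝ :=
  1 + ∑ j, ((NM n (d j) : ℝ) * (∑ i, d j i : ℕ))

/-- bound for the direction of the perturbation -/
private noncomputable def pr_K (n : ι → ℕ) {m : ℕ} (d : Fin m → ι → ℕ) : ℝ :=
  1 + (m : ℝ) * ((m : ℝ) * ((Nat.factorial m : ℝ) * pr_K1 n d ^ m))

/-- constant of the Taylor estimate -/
private noncomputable def pr_C1 (n : ι → ℕ) {m : ℕ} (d : Fin m → ι → ℕ) : ℝ :=
  1 + ∑ j, ((NM n (d j) : ℝ) * 4 ^ (∑ i, d j i))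

/-- Lipschitz constant -/
private noncomputable def pr_C2 (n : ι → ℕ) {m : ℕ} (d : Fin m → ι → ℕ) : ℝ :=
  1 + ∑ j, ((NM n (d j) : ℝ) * (Fintype.card (MVar n) * (∑ i, d j i : ℕ) + 4 ^ (∑ i, d j i) * 1))

private theorem pr_K1_one (n : ι → ℕ) {m : ℕ} (d : Fin m → ι → ℕ) : 1 ≤ pr_K1 n d := by
  unfold pr_K1
  have : (0 : ℝ) ≤ ∑ j, ((NM n (d j) : ℝ) * (∑ i, d j i : ℕ)) :=
    Finset.sum_nonneg fun i _ => by positivity
  linarith

private theorem pr_K_one (n : ι → ℕ) {m : ℕ} (d : Fin m → ι → ℕ) : 1 ≤ pr_K n d := by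
  unfold pr_K
  have h1 := pr_K1_one n d
  have : (0 : ℝ) ≤ (m : ℝ) * ((m : ℝ) * ((Nat.factorial m : ℝ) * pr_K1 n d ^ m)) := by positivity
  linarith

private theorem pr_C1_one (n : ι → ℕ) {m : ℕ} (d : Fin m → ι → ℕ) : 1 ≤ pr_C1 n d := by
  unfold pr_C1
  have : (0 : ℝ) ≤ ∑ j, ((NM n (d j) : ℝ) * 4 ^ (∑ i, d j i)) :=
    Finset.sum_nonneg fun i _ => by positivity
  linarith

private theorem pr_C2_one (n : ι → ℕ) {m : ℕ} (d : Fin m → ι → ℕ) : 1 ≤ pr_C2 n d := by
  unfold pr_C2
  have : (0 : ℝ) ≤ ∑ j, ((NM n (d j) : ℝ) *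
      (Fintype.card (MVar n) * (∑ i, d j i : ℕ) + 4 ^ (∑ i, d j i) * 1)) :=
    Finset.sum_nonneg fun i _ => by positivity
  linarith

private theorem pr_K1_ge (n : ι → ℕ) {m : ℕ} (d : Fin m → ι → ℕ) (j : Fin m) :
    (NM n (d j) : ℝ) * (∑ i, d j i : ℕ) ≤ pr_K1 n d := by
  unfold pr_K1
  have h := Finset.single_le_sum (f := fun j => (NM n (d j) : ℝ) * (∑ i, d j i : ℕ))
    (fun i _ => by positivity) (Finset.mem_univ j)
  linarith

private theorem pr_C1_ge (n : ι → ℕ) {m : ℕ} (d : Fin m → ι → ℕ) (j : Fin m) :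
    (NM n (d j) : ℝ) * 4 ^ (∑ i, d j i) ≤ pr_C1 n d := by
  unfold pr_C1
  have h := Finset.single_le_sum (f := fun j => (NM n (d j) : ℝ) * 4 ^ (∑ i, d j i))
    (fun i _ => by positivity) (Finset.mem_univ j)
  linarith

private theorem pr_C2_ge (n : ι → ℕ) {m : ℕ} (d : Fin m → ι → ℕ) (j : Fin m) :
    (NM n (d j) : ℝ) * (Fintype.card (MVar n) * (∑ i, d j i : ℕ) + 4 ^ (∑ i, d j i) * 1) ≤
      pr_C2 n d := by
  unfold pr_C2
  have h := Finset.single_le_sum
    (f := fun j => (NM n (d j) : ℝ) *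
      (Fintype.card (MVar n) * (∑ i, d j i : ℕ) + 4 ^ (∑ i, d j i) * 1))
    (fun i _ => by positivity) (Finset.mem_univ j)
  linarith

/-- the direction of the perturbation -/
private theorem pr_dir {n : ι → ℕ} {m : ℕ} {d : Fin m → ι → ℕ} (a : PSys n d ℝ)
    (ha : ∀ j t, |a j t| ≤ 1) (z : MVar n → ℝ) (hz : ∀ v, |z v| ≤ 1) {b : ℕ}
    (em : Fin b → Fin m) (hb : b ≤ m) (J : Fin b → MVar n) (tau : Fin b → ℝ)
    (htau : ∀ l, |tau l| ≤ 1) :
    ∃ h : MVar n → ℝ, (∀ v, |h v| ≤ pr_K n d) ∧ ∀ l, ∑ v, MD (a (em l)) z v * h v =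
      (PJac (fun j => a (em j) : PSys n (fun j => d (em j)) ℝ) z J).det * tau l := by
  set L := PJac (fun j => a (em j) : PSys n (fun j => d (em j)) ℝ) z J with hL
  have hK1 := pr_K1_one n d
  have hLb : ∀ i l, |L i l| ≤ pr_K1 n d := by
    intro i l
    have h1 := MD_abs_le (a (em i)) z (J l) 1 1 le_rfl (ha (em i)) hz
    rw [one_pow, mul_one, mul_one] at h1
    exact le_trans h1 (pr_K1_ge n d (em i))
  set K2 : ℝ := (Nat.factorial m : ℝ) * pr_K1 n d ^ m with hK2
  have hK20 : 0 ≤ K2 := by positivity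
  have hadj : ∀ i l, |L.adjugate i l| ≤ K2 := by
    intro i l
    refine (pr_adj L _ hK1 hLb i l).trans ?_
    refine mul_le_mul ?_ (pow_le_pow_right₀ hK1 hb) (by positivity) (by positivity)
    exact_mod_cast Nat.factorial_le hb
  set w : Fin b → ℝ := L.adjugate.mulVec tau with hw
  have hbm : (b : ℝ) ≤ m := by exact_mod_cast hb
  have hwb : ∀ l, |w l| ≤ m * K2 := by
    intro l
    calc |w l| = |∑ l', L.adjugate l l' * tau l'| := rfl
      _ ≤ ∑ l', |L.adjugate l l' * tau l'| := Finset.abs_sum_le_sum_abs _ _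
      _ ≤ ∑ _l' : Fin b, K2 := by
          refine Finset.sum_le_sum fun l' _ => ?_
          rw [abs_mul]
          calc |L.adjugate l l'| * |tau l'| ≤ K2 * 1 :=
                mul_le_mul (hadj l l') (htau l') (abs_nonneg _) hK20
            _ = K2 := mul_one _
      _ = b * K2 := by
          rw [Finset.sum_const, Finset.card_univ, Fintype.card_fin, nsmul_eq_mul]
      _ ≤ m * K2 := mul_le_mul_of_nonneg_right hbm hK20
  refine ⟨fun u => ∑ l, if J l = u then w l else 0, fun u => ?_, fun l => ?_⟩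
  · calc |∑ l, if J l = u then w l else 0| ≤ ∑ l, |if J l = u then w l else 0| :=
          Finset.abs_sum_le_sum_abs _ _
      _ ≤ ∑ _l : Fin b, (m * K2 : ℝ) := by
          refine Finset.sum_le_sum fun l _ => ?_
          split_ifs
          · exact hwb l
          · rw [abs_zero]
            positivity
      _ = b * (m * K2) := by
          rw [Finset.sum_const, Finset.card_univ, Fintype.card_fin, nsmul_eq_mul]
      _ ≤ m * (m * K2) := mul_le_mul_of_nonneg_right hbm (by positivity)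
      _ ≤ pr_K n d := by
          unfold pr_K
          linarith
  · have h0 : ∑ l', L l l' * w l' = L.det * tau l := by
      have h1 : L.mulVec w = L.det • tau := by
        rw [hw, Matrix.mulVec_mulVec, Matrix.mul_adjugate, Matrix.smul_mulVec, Matrix.one_mulVec]
      have h2 := congrFun h1 l
      simpa [Matrix.mulVec, dotProduct] using h2
    rw [← h0]
    have h1 : ∀ u, MD (a (em l)) z u * (∑ l, if J l = u then w l else 0) =
        ∑ l', if J l' = u then MD (a (em l)) z u * w l' else 0 := by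
      intro u
      simp only [Finset.mul_sum]
      refine Finset.sum_congr rfl fun l' _ => ?_
      split_ifs <;> ring
    rw [Finset.sum_congr rfl fun u _ => h1 u, Finset.sum_comm]
    refine Finset.sum_congr rfl fun l' _ => ?_
    rw [Finset.sum_ite_eq]
    simp [hL, PJac]

end consts

/-- same sign and lower bound: case of a small value -/
private theorem pr_small {x y S err del B : ℝ} (hx : x ≠ 0) (hdel : 0 < del) (hB : 0 < B)
    (hS : ∃ D : ℝ, B ≤ |D| ∧ S = |D| * (SignType.sign x : ℝ)) (hy : y = x + del * S + err)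
    (herr : |err| ≤ del * (B / 2)) : 0 < x * y ∧ del * B / 2 ≤ |y| := by
  obtain ⟨D, hD, rfl⟩ := hS
  have hdD : del * B ≤ del * |D| := mul_le_mul_of_nonneg_left hD hdel.le
  have hp : 0 < del * B := mul_pos hdel hB
  have h1 := abs_le.1 herr
  rcases lt_or_gt_of_ne hx with h | h
  · rw [sign_neg h] at hy
    simp only [SignType.coe_neg, SignType.coe_one] at hy
    have h2 : y < 0 := by
      rw [hy]
      nlinarith
    refine ⟨mul_pos_of_neg_of_neg h h2, ?_⟩
    rw [abs_of_neg h2, hy]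
    nlinarith
  · rw [sign_pos h] at hy
    simp only [SignType.coe_one] at hy
    have h2 : 0 < y := by
      rw [hy]
      nlinarith
    refine ⟨mul_pos h h2, ?_⟩
    rw [abs_of_pos h2, hy]
    nlinarith

/-- same sign and lower bound: case of a large value -/
private theorem pr_large {x y bet : ℝ} (hb : 0 < bet) (hx : bet < |x|) (hy : |y - x| ≤ bet / 2) :
    0 < x * y ∧ bet / 2 ≤ |y| := by
  have h1 := abs_le.1 hy
  rcases le_or_gt 0 x with h | h
  · rw [abs_of_nonneg h] at hx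
    have h2 : 0 < y := by linarith
    refine ⟨mul_pos (by linarith) h2, ?_⟩
    rw [abs_of_pos h2]
    linarith
  · rw [abs_of_neg h] at hx
    have h2 : y < 0 := by linarith
    refine ⟨mul_pos_of_neg_of_neg h h2, ?_⟩
    rw [abs_of_neg h2]
    linarith

theorem pert_r {ι : Type} [Fintype ι] [DecidableEq ι] (n : ι → ℕ) {r : ℕ} (d : Fin (r * 3) → ι → ℕ)
    (bet : ℝ) (hb : 0 < bet) (hb1 : bet ≤ 1) :
    ∃ c : ℝ, 0 < c ∧ c ≤ 1 ∧ ∀ H : ℕ, 1 ≤ H → ∀ A : PSys n d ℤ, A ∈ pbox n d H → ¬ ExcR bet H A →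
      ∀ z : MVar n → ℝ, BNorm z → (∀ j, MF (fun t => (A j t : ℝ)) z ≠ 0) →
      (∀ i : Fin r, Iso (MF (fun t => (A (ix i 0) t : ℝ)) z) (MF (fun t => (A (ix i 1) t : ℝ)) z)
        (MF (fun t => (A (ix i 2) t : ℝ)) z)) →
      GoodR c (fun j t => (A j t : ℝ) / H) := by
  have hK := pr_K_one n d
  have hC1 := pr_C1_one n d
  have hC2 := pr_C2_one n d
  set K := pr_K n d with hKdef
  set C : ℝ := (pr_C1 n d + pr_C2 n d) * K ^ 2 with hC
  have hK2 : K ≤ K ^ 2 := by nlinarith
  have hCK : K ≤ C := by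
    rw [hC]
    nlinarith
  have hC0 : 0 < C := by linarith
  set B : ℝ := bet ^ (r * 3) with hB
  have hB0 : 0 < B := by positivity
  have hB1 : B ≤ 1 := pow_le_one₀ hb.le hb1
  set del : ℝ := B / (2 * C) with hdel
  have hdel0 : 0 < del := by positivity
  have hCdel : C * del = B / 2 := by
    rw [hdel]
    field_simp
  have hKdel : del * K ≤ 1 := by
    have h1 : del * K ≤ del * C := mul_le_mul_of_nonneg_left hCK hdel0.le
    rw [mul_comm del C, hCdel] at h1
    linarith
  refine ⟨min (bet / 2) (del * B / 2), lt_min (by positivity) (by positivity),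
    (min_le_left _ _).trans (by linarith), ?_⟩
  intro H hH A hAH hexc z hz hne hiso
  have hH0 : (0 : ℝ) < H := by exact_mod_cast hH
  set a : PSys n d ℝ := fun j t => (A j t : ℝ) / H with hadef
  have ha : ∀ j t, |a j t| ≤ 1 := by
    intro j t
    simp only [hadef]
    rw [abs_div, abs_of_pos hH0, div_le_one hH0]
    exact_mod_cast hAH j t
  have hAa : ∀ j, (fun t => (A j t : ℝ)) = fun t => (H : ℝ) * a j t := by
    intro j
    funext t
    simp only [hadef]
    field_simp
  have hMF : ∀ j, MF (fun t => (A j t : ℝ)) z = H * MF (a j) z := by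
    intro j
    rw [hAa j, MF_smul]
  have hne' : ∀ j, MF (a j) z ≠ 0 := by
    intro j h
    apply hne j
    rw [hMF j, h, mul_zero]
  -- conclusion from a point with values of the same signs
  have hfin : ∀ u : MVar n → ℝ, (∀ v, |u v| ≤ 2) → (∀ j, 0 < MF (a j) z * MF (a j) u ∧
      min (bet / 2) (del * B / 2) ≤ |MF (a j) u|) → GoodR (min (bet / 2) (del * B / 2)) a := by
    intro u hu h
    refine ⟨u, hu, fun j => (h j).2, fun i => ?_⟩
    have hs : ∀ j, 0 < MF (fun t => (A j t : ℝ)) z * MF (a j) u := by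
      intro j
      rw [hMF j, mul_assoc]
      exact mul_pos hH0 (h j).1
    exact iso_real _ _ _ _ _ _ (hs _) (hs _) (hs _) (hiso i)
  obtain ⟨b, em, hinj, hS⟩ := pr_enum fun j => |MF (a j) z| ≤ bet
  have hbm : b ≤ r * 3 := by
    have := Fintype.card_le_of_injective em hinj
    simpa using this
  rcases Nat.eq_zero_or_pos b with hb0 | hb0
  · subst hb0
    refine hfin z (fun v => (hz.1 v).trans (by norm_num)) fun j => ⟨?_, ?_⟩
    · exact mul_self_pos.2 (hne' j)
    · refine (min_le_left _ _).trans ?_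
      by_contra hcon
      push Not at hcon
      obtain ⟨l, -⟩ := (hS j).2 (by linarith)
      exact l.elim0
  have h0 : ∃ J : Fin b → MVar n, (bet * H) ^ b ≤
      |(PJac (fun j t => (A (em j) t : ℝ) : PSys n (fun j => d (em j)) ℝ) z J).det| := by
    by_contra hcon
    push Not at hcon
    refine hexc ⟨b, em, hb0, hinj, z, hz, fun l => ?_, hcon⟩
    rw [hMF, abs_mul, abs_of_pos hH0, mul_comm]
    exact mul_le_mul_of_nonneg_right ((hS (em l)).1 ⟨l, rfl⟩) hH0.le
  obtain ⟨J, hJ⟩ := h0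
  have hJ' : bet ^ b ≤ |(PJac (fun j => a (em j) : PSys n (fun j => d (em j)) ℝ) z J).det| := by
    have h1 : (fun j t => (A (em j) t : ℝ) : PSys n (fun j => d (em j)) ℝ) =
        fun j t => (H : ℝ) * (fun j => a (em j) : PSys n (fun j => d (em j)) ℝ) j t := by
      funext j t
      exact congrFun (hAa (em j)) t
    rw [h1, PJac_smul, abs_mul, abs_pow, abs_of_pos hH0, mul_pow, mul_comm (bet ^ b)] at hJ
    exact le_of_mul_le_mul_left hJ (by positivity)
  set D : ℝ := (PJac (fun j => a (em j) : PSys n (fun j => d (em j)) ℝ) z J).det with hD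
  have hBD : B ≤ |D| := (pow_le_pow_of_le_one hb.le hb1 hbm).trans hJ'
  have hD0 : D ≠ 0 := by
    intro h
    rw [h, abs_zero] at hBD
    linarith
  have hsg : ∀ x : ℝ, |((SignType.sign x : SignType) : ℝ)| ≤ 1 := by
    intro x
    rcases lt_trichotomy x 0 with h | h | h
    · rw [sign_neg h]
      simp
    · rw [h, sign_zero]
      simp
    · rw [sign_pos h]
      simp
  obtain ⟨h, hh1, hh2⟩ := pr_dir a ha z hz.1 em hbm J
    (fun l => (SignType.sign D : ℝ) * (SignType.sign (MF (a (em l)) z) : ℝ)) (fun l => by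
      rw [abs_mul]
      exact mul_le_one₀ (hsg _) (abs_nonneg _) (hsg _))
  rw [← hD] at hh2
  set u : MVar n → ℝ := fun v => z v + del * h v with hu
  have hy : ∀ v, |del * h v| ≤ del * K := by
    intro v
    rw [abs_mul, abs_of_pos hdel0]
    exact mul_le_mul_of_nonneg_left (hh1 v) hdel0.le
  refine hfin u (fun v => ?_) fun j => ?_
  · calc |u v| ≤ |z v| + |del * h v| := abs_add_le _ _
      _ ≤ 1 + 1 := add_le_add (hz.1 v) ((hy v).trans hKdel)
      _ = 2 := by norm_num
  by_cases hj : |MF (a j) z| ≤ bet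
  · obtain ⟨l, rfl⟩ := (hS j).2 hj
    have h1 := MF_taylor (a (em l)) z (fun v => del * h v) 1 1 (del * K) le_rfl
      (by positivity) hKdel (ha (em l)) hz.1 hy
    rw [one_pow, mul_one, mul_one] at h1
    have h2 : ∑ v, MD (a (em l)) z v * (del * h v) = del * (D *
        ((SignType.sign D : ℝ) * (SignType.sign (MF (a (em l)) z) : ℝ))) := by
      rw [← hh2 l, Finset.mul_sum]
      exact Finset.sum_congr rfl fun v _ => by ring
    have h3 : D * ((SignType.sign D : ℝ) * (SignType.sign (MF (a (em l)) z) : ℝ)) =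
        |D| * (SignType.sign (MF (a (em l)) z) : ℝ) := by
      rw [← mul_assoc, self_mul_sign]
    rw [h2, h3] at h1
    have h4 : (NM n (d (em l)) : ℝ) * 4 ^ (∑ i, d (em l) i) * (del * K) ^ 2 ≤
        del * (B / 2) := by
      have h5 := pr_C1_ge n d (em l)
      have h6 : (NM n (d (em l)) : ℝ) * 4 ^ (∑ i, d (em l) i) * (del * K) ^ 2 ≤
          (pr_C1 n d + pr_C2 n d) * (del * K) ^ 2 :=
        mul_le_mul_of_nonneg_right (by linarith) (by positivity)
      refine h6.trans (le_of_eq ?_)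
      rw [← hCdel, hC]
      ring
    obtain ⟨h7, h8⟩ := pr_small (x := MF (a (em l)) z) (y := MF (a (em l)) u)
      (S := |D| * (SignType.sign (MF (a (em l)) z) : ℝ))
      (err := MF (a (em l)) u - MF (a (em l)) z -
        del * (|D| * (SignType.sign (MF (a (em l)) z) : ℝ))) (del := del) (B := B)
      (hne' _) hdel0 hB0 ⟨D, hBD, rfl⟩ (by ring) (h1.trans h4)
    exact ⟨h7, (min_le_right _ _).trans h8⟩
  · push Not at hj
    have h1 := MF_lip (a j) z (fun v => del * h v) 1 1 (del * K) le_rfl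
      (by positivity) hKdel (ha j) hz.1 hy
    rw [one_pow, mul_one, mul_one] at h1
    have hM1 : 1 ≤ r * 3 := lt_of_le_of_lt (Nat.zero_le _) j.2
    have hBb : B ≤ bet := by
      have := pow_le_pow_of_le_one hb.le hb1 hM1
      rw [pow_one] at this
      exact this
    have h2 : (NM n (d j) : ℝ) * (Fintype.card (MVar n) * (∑ i, d j i : ℕ) +
        4 ^ (∑ i, d j i) * 1) * (del * K) ≤ bet / 2 := by
      have h5 := pr_C2_ge n d j
      have h6 : (NM n (d j) : ℝ) * (Fintype.card (MVar n) * (∑ i, d j i : ℕ) +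
          4 ^ (∑ i, d j i) * 1) * (del * K) ≤ (pr_C1 n d + pr_C2 n d) * (del * K) :=
        mul_le_mul_of_nonneg_right (by linarith) (by positivity)
      have h7 : (pr_C1 n d + pr_C2 n d) * (del * K) ≤ C * del := by
        have h8 : (pr_C1 n d + pr_C2 n d) * del * K ≤ (pr_C1 n d + pr_C2 n d) * del * K ^ 2 :=
          mul_le_mul_of_nonneg_left hK2 (by positivity)
        rw [hC]
        linarith
      rw [hCdel] at h7
      linarith
    obtain ⟨h7, h8⟩ := pr_large (y := MF (a j) u) hb hj (h1.trans h2)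
    exact ⟨h7, (min_le_left _ _).trans h8⟩

end RcHP
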