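import Pool.Agent.Lib.MP_e426f4_ag.RC.ExP
import Pool.Agent.Lib.MP_e426f4_ag.RC.ExR
import Pool.Agent.Lib.MP_e426f4_ag.RC.PertP
import Pool.Agent.Lib.MP_e426f4_ag.RC.IntP
import Pool.Agent.Lib.MP_e426f4_ag.RC.PertR
import Pool.Agent.Lib.MP_e426f4_ag.RC.NormR

/-!
# RC-Glob: from classes to all systems

Template: `P/Global.lean` (copy it; the lemmas there are private).  Changes: `PSoluble A` becomes `Sol A ℚ`; the modulus is `Q = primorial w ^ (k + 3)`; the witness condition `pzW` is: there are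
`H ≥ 1`, `A ∈ pbox n d H` in the cell `a` and the class `b` with `GoodR c (fun j t => (A j t : ℝ) / H)` and `GoodP p k A` for all primes `p ≤ w`; then `RCLS` (with `bet = c`,
`Ainf = A / H`, `AC = pzC R a`, `rho = 1 / R`) bounds the class.  Exceptional sets: `ER = {ExcR bet H A}` (`ex_r`, `eps / 4`), `EP p = {ExcP p κ_p A}` (`ex_p`, `eps / (4 (w + 1))`, `p ≤ w`);
`k = max_p 2 (r * 3 * κ_p + 9)`.  For `A ∈ pbox`, `ELS A`, not in `ER` nor in any `EP p`: `norm_r`, `pert_r` give `GoodR c (A / H)`; `int_p`, `pert_p`, `good_mono` give `GoodP p k A`.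
Order of choices: `w` (from `C`), `bet` (`ex_r`), `c` (`pert_r`), `rho0` (`RCLS` with `bet := c`), `R`, `κ_p`, `k`.
-/

set_option autoImplicit false

namespace RcHP

open Finset Filter Topology GenHP CIPHP TwHP

section multi
variable {ι : Type} [Fintype ι] [DecidableEq ι] {n : ι → ℕ} {r : ℕ} {d : Fin (r * 3) → ι → ℕ}

/-- the centre of the cell `a` -/
private noncomputable def pzC (R : ℕ) (a : PSys n d (Fin R)) : PSys n d ℝ :=
  fun j m => -1 + (2 * (a j m : ℝ) + 1) / R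

/-- the nonsoluble systems of a class -/
private def pzS (R Q : ℕ) (a : PSys n d (Fin R)) (b : PSys n d (Fin Q)) (H : ℕ) :
    Set (PSys n d ℤ) :=
  {A | (∀ j m, |(A j m : ℝ) - H * pzC R a j m| ≤ 1 / R * H) ∧
    (∀ j m, (Q : ℤ) ∣ A j m - (b j m : ℤ)) ∧ ¬ Sol A ℚ}

/-- the class has a witness -/
private def pzW (w k R Q : ℕ) (c : ℝ) (a : PSys n d (Fin R))
    (b : PSys n d (Fin Q)) : Prop :=
  ∃ (H : ℕ) (A : PSys n d ℤ), 1 ≤ H ∧ A ∈ pbox n d H ∧
    (∀ j m, |(A j m : ℝ) - H * pzC R a j m| ≤ 1 / R * H) ∧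
    (∀ j m, (Q : ℤ) ∣ A j m - (b j m : ℤ)) ∧
    GoodR c (fun j t => (A j t : ℝ) / H) ∧
    (∀ (p : ℕ) [Fact p.Prime], p ≤ w → GoodP p k A)

private theorem pz_cell (H R : ℕ) (hH : 1 ≤ H) (hR : 1 ≤ R) (z : ℝ) (hz : |z| ≤ H) :
    ∃ a : Fin R, |z - H * (-1 + (2 * (a : ℝ) + 1) / R)| ≤ 1 / R * H := by
  have hH0 : (0 : ℝ) < H := by exact_mod_cast hH
  have hR0 : (0 : ℝ) < R := by exact_mod_cast hR
  rw [abs_le] at hz
  set t : ℝ := (z / H + 1) * R / 2 with ht
  have ht0 : 0 ≤ t := by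
    have : -1 ≤ z / H := by rw [le_div_iff₀ hH0]; linarith
    rw [ht]
    have : 0 ≤ z / H + 1 := by linarith
    positivity
  have ht1 : t ≤ R := by
    have h1 : z / H ≤ 1 := by rw [div_le_iff₀ hH0]; linarith
    rw [ht]
    nlinarith
  have hkey : ∀ a : ℝ, |t - (a + 1 / 2)| ≤ 1 / 2 → |z - H * (-1 + (2 * a + 1) / R)| ≤ 1 / R * H := by
    intro a ha
    have e : z - H * (-1 + (2 * a + 1) / R) = (2 * H / R) * (t - (a + 1 / 2)) := by
      rw [ht]
      field_simp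
      ring
    rw [e, abs_mul, abs_of_pos (by positivity : 0 < 2 * (H : ℝ) / R)]
    calc 2 * (H : ℝ) / R * |t - (a + 1 / 2)| ≤ 2 * (H : ℝ) / R * (1 / 2) :=
          mul_le_mul_of_nonneg_left ha (by positivity)
      _ = 1 / R * H := by ring
  rcases lt_or_ge t R with hlt | hge
  · refine ⟨⟨⌊t⌋₊, (Nat.floor_lt ht0).mpr hlt⟩, hkey _ ?_⟩
    have h1 := Nat.floor_le ht0
    have h2 := Nat.lt_floor_add_one t
    simp only
    rw [abs_le]
    constructor <;> linarith
  · have htR : t = R := le_antisymm ht1 hge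
    refine ⟨⟨R - 1, by omega⟩, hkey _ ?_⟩
    simp only
    rw [Nat.cast_sub hR, htR, abs_le]
    push_cast
    constructor <;> linarith

private theorem pz_finite_of_abs_le (S : Set (PSys n d ℤ)) (C : ℝ)
    (h : ∀ A ∈ S, ∀ j m, |(A j m : ℝ)| ≤ C) : S.Finite := by
  refine (Set.Finite.pi' (fun j : Fin (r * 3) =>
    GenHP.finite_of_abs_le {a : MIdx n (d j) → ℤ | ∀ m, |(a m : ℝ)| ≤ C} C
      fun a ha m => ha m)).subset ?_
  intro A hA j
  exact h A hA j

private theorem pz_S_finite (R Q : ℕ) (a : PSys n d (Fin R)) (b : PSys n d (Fin Q)) (H : ℕ) :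
    (pzS R Q a b H).Finite := by
  refine pz_finite_of_abs_le _ (∑ i, ∑ m, |(H : ℝ) * pzC R a i m| + 1 / R * H) ?_
  intro A hA i m
  have h1 := hA.1 i m
  have h2 : |(H : ℝ) * pzC R a i m| ≤ ∑ i, ∑ m, |(H : ℝ) * pzC R a i m| := by
    refine le_trans ?_ (Finset.single_le_sum (f := fun i => ∑ m, |(H : ℝ) * pzC R a i m|)
      (fun _ _ => Finset.sum_nonneg fun _ _ => abs_nonneg _) (Finset.mem_univ i))
    exact Finset.single_le_sum (f := fun m => |(H : ℝ) * pzC R a i m|) (fun _ _ => abs_nonneg _)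
      (Finset.mem_univ m)
  calc |(A i m : ℝ)| = |H * pzC R a i m + ((A i m : ℝ) - H * pzC R a i m)| := by ring_nf
    _ ≤ |(H : ℝ) * pzC R a i m| + |(A i m : ℝ) - H * pzC R a i m| := abs_add_le _ _
    _ ≤ _ := add_le_add h2 h1

private theorem pz_class (C : ℝ) (w k R : ℕ) (hk : 1 ≤ k) (hR : 1 ≤ R) (c : ℝ)
    (rho0 : ℝ)
    (hcl : ∀ rho : ℝ, 0 < rho → rho ≤ rho0 → ∀ k : ℕ, 1 ≤ k →
      ∀ A0 : PSys n d ℤ, (∀ (p : ℕ) [Fact p.Prime], p ≤ w → GoodP p k A0) →
      ∀ AC Ainf : PSys n d ℝ, (∀ j t, |Ainf j t| ≤ 1) → (∀ j t, |AC j t - Ainf j t| ≤ rho) →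
      GoodR c Ainf →
      ∀ᶠ H : ℝ in atTop,
        (Set.ncard {A : PSys n d ℤ | (∀ j t, |(A j t : ℝ) - H * AC j t| ≤ rho * H) ∧
          (∀ j t, ((primorial w : ℤ) ^ (k + 3)) ∣ A j t - A0 j t) ∧ ¬ Sol A ℚ} : ℝ) ≤
          C / w * (2 * rho * H / (primorial w : ℝ) ^ (k + 3)) ^ NP n d)
    (hrho : (1 : ℝ) / R ≤ rho0) (a : PSys n d (Fin R))
    (b : PSys n d (Fin (primorial w ^ (k + 3))))
    (hW : pzW w k R (primorial w ^ (k + 3)) c a b) :
    ∀ᶠ H : ℕ in atTop, ((pzS R (primorial w ^ (k + 3)) a b H).ncard : ℝ) ≤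
      C / w * (2 * (1 / R) * H / (primorial w : ℝ) ^ (k + 3)) ^ NP n d := by
  obtain ⟨H0, A, hH0, hbox, hcell, hres, hgR, hp⟩ := hW
  have hR0 : (0 : ℝ) < R := by exact_mod_cast hR
  have hH0' : (0 : ℝ) < H0 := by exact_mod_cast hH0
  have h := hcl (1 / R) (by positivity) hrho k hk A hp (pzC R a)
    (fun j t => (A j t : ℝ) / H0) ?_ ?_ hgR
  · refine (tendsto_natCast_atTop_atTop.eventually h).mono fun H hH => ?_
    refine le_trans ?_ hH
    have heq : pzS R (primorial w ^ (k + 3)) a b H =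
        {A' : PSys n d ℤ | (∀ i m, |(A' i m : ℝ) - (H : ℝ) * pzC R a i m| ≤ 1 / R * (H : ℝ)) ∧
          (∀ i m, ((primorial w : ℤ) ^ (k + 3)) ∣ A' i m - A i m) ∧ ¬ Sol A' ℚ} := by
      ext A'
      unfold pzS
      refine and_congr_right fun _ => and_congr_left fun _ =>
        forall_congr' fun i => forall_congr' fun m => ?_
      have h1 := hres i m
      push_cast at h1 ⊢
      constructor
      · intro h2
        have := dvd_sub h2 h1
        simpa using this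
      · intro h2
        have := dvd_add h2 h1
        simpa using this
    rw [heq]
  · intro i m
    have h1 : |A i m| ≤ H0 := hbox i m
    have h2 : |(A i m : ℝ)| ≤ H0 := by exact_mod_cast h1
    rw [abs_div, abs_of_pos hH0', div_le_one hH0']
    exact h2
  · intro i m
    have h1 := hcell i m
    have e1 : pzC R a i m - (A i m : ℝ) / H0 =
        -((H0 : ℝ)⁻¹ * ((A i m : ℝ) - H0 * pzC R a i m)) := by
      field_simp
      ring
    rw [e1, abs_neg, abs_mul, abs_inv, abs_of_pos hH0', inv_mul_le_iff₀ hH0']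
    linarith

end multi

theorem exceptional_small {ι : Type} [Fintype ι] [DecidableEq ι] {n : ι → ℕ} {r : ℕ}
    {d : Fin (r * 3) → ι → ℕ} (hr : 1 ≤ r) (hd : ∀ j i, 1 ≤ d j i) (hpar : EqPar d)
    (hcls : RCLS n d) (eps : ℝ) (he : 0 < eps) : ∀ᶠ H : ℕ in atTop,
    (Set.ncard {A : PSys n d ℤ | A ∈ pbox n d H ∧ ELS A ∧ ¬ Sol A ℚ} : ℝ) ≤
      eps * (2 * H + 1) ^ NP n d := by
  classical
  obtain ⟨C, hC, hcls⟩ := hcls
  -- w
  obtain ⟨w0, hw0⟩ := exists_nat_gt (4 * C / eps)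
  set w : ℕ := max 2 w0 with hw
  have hw2 : 2 ≤ w := le_max_left _ _
  have hwpos : (0 : ℝ) < w := by
    have : 0 < w := by omega
    exact_mod_cast this
  have hwC : C / (w : ℝ) ≤ eps / 4 := by
    have h1 : (w0 : ℝ) ≤ w := by exact_mod_cast le_max_right 2 w0
    have h2 : 4 * C / eps ≤ w := by linarith
    rw [div_le_iff₀ he] at h2
    rw [div_le_iff₀ hwpos]
    linarith
  -- bet, c
  obtain ⟨bet, hb, hb1, hreal⟩ := ex_r (n := n) d hd (eps / 4) (by positivity)
  obtain ⟨c, hc0, hc1, hpert⟩ := pert_r n d bet hb hb1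
  obtain ⟨rho0, hrho0, hrho01, hcl⟩ := hcls w hw2 c hc0 hc1
  -- R
  obtain ⟨R, hR, hRrho⟩ : ∃ R : ℕ, 1 ≤ R ∧ (1 : ℝ) / R ≤ rho0 := by
    obtain ⟨m, hm⟩ := exists_nat_one_div_lt hrho0
    refine ⟨m + 1, by omega, ?_⟩
    push_cast
    exact hm.le
  have hR0 : (0 : ℝ) < R := by exact_mod_cast hR
  -- k
  set Pr : Finset ℕ := (Finset.range (w + 1)).filter Nat.Prime with hPr
  have hpad : ∀ p : ℕ, ∃ κ : ℕ, p ∈ Pr → 1 ≤ κ ∧ ∀ᶠ H : ℕ in atTop,
      (Set.ncard {A : PSys n d ℤ | A ∈ pbox n d H ∧ ExcP p κ A} : ℝ) ≤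
        eps / (4 * (w + 1)) * (2 * H + 1) ^ NP n d := by
    intro p
    by_cases hp : p ∈ Pr
    · obtain ⟨κ, hκ⟩ := ex_p (n := n) d hd p (Finset.mem_filter.mp hp).2
        (eps / (4 * (w + 1))) (by positivity)
      exact ⟨κ, fun _ => hκ⟩
    · exact ⟨0, fun h => absurd h hp⟩
  choose κ hκ using hpad
  set k : ℕ := 1 + ∑ p ∈ Pr, 2 * (r * 3 * κ p + 9) with hk
  have hk1 : 1 ≤ k := by omega
  have hkp : ∀ p ∈ Pr, 2 * (r * 3 * κ p + 9) ≤ k := by
    intro p hp
    have := Finset.single_le_sum (f := fun p => 2 * (r * 3 * κ p + 9))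
      (fun _ _ => Nat.zero_le _) hp
    omega
  set Q : ℕ := primorial w ^ (k + 3) with hQ
  have hQpos : 0 < Q := pow_pos (primorial_pos w) _
  have hQ0 : (0 : ℝ) < Q := by exact_mod_cast hQpos
  have hQcast : (primorial w : ℝ) ^ (k + 3) = Q := by rw [hQ]; push_cast; rfl
  -- eventual bounds
  have h1 : ∀ᶠ H : ℕ in atTop, ∀ ab : PSys n d (Fin R) × PSys n d (Fin Q),
      pzW w k R Q c ab.1 ab.2 →
      ((pzS R Q ab.1 ab.2 H).ncard : ℝ) ≤ C / w * (2 * (1 / R) * H / Q) ^ NP n d := by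
    rw [Filter.eventually_all]
    intro ab
    by_cases hW : pzW w k R Q c ab.1 ab.2
    · have := pz_class C w k R hk1 hR c rho0 hcl hRrho ab.1 ab.2 hW
      rw [hQcast] at this
      exact this.mono fun H hH _ => hH
    · exact Filter.Eventually.of_forall fun H h => absurd h hW
  have h3 : ∀ᶠ H : ℕ in atTop, ∀ p ∈ Pr,
      (Set.ncard {A : PSys n d ℤ | A ∈ pbox n d H ∧ ExcP p (κ p) A} : ℝ) ≤
        eps / (4 * (w + 1)) * (2 * H + 1) ^ NP n d := by
    rw [Filter.eventually_all_finset]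
    intro p hp
    exact (hκ p hp).2
  filter_upwards [h1, hreal, h3, Filter.eventually_ge_atTop 1] with H h1 h2 h3 hH
  have hbfin : (pbox n d H).Finite := by
    refine pz_finite_of_abs_le _ H fun A hA j m => ?_
    have := hA j m
    exact_mod_cast this
  have hbm : ∀ A, A ∈ hbfin.toFinset ↔ A ∈ pbox n d H := fun A => Set.Finite.mem_toFinset _
  -- the finsets
  set E : Finset (PSys n d ℤ) := hbfin.toFinset.filter (fun A => ELS A ∧ ¬ Sol A ℚ) with hE
  set ER : Finset (PSys n d ℤ) := hbfin.toFinset.filter (fun A => ExcR bet H A) with hER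
  set EP : ℕ → Finset (PSys n d ℤ) := fun p => hbfin.toFinset.filter (fun A =>
      ExcP p (κ p) A) with hEP
  set GW : Finset (PSys n d (Fin R) × PSys n d (Fin Q)) :=
    Finset.univ.filter (fun ab => pzW w k R Q c ab.1 ab.2) with hGW
  have hfin : ∀ ab : PSys n d (Fin R) × PSys n d (Fin Q), (pzS R Q ab.1 ab.2 H).Finite :=
    fun ab => pz_S_finite R Q ab.1 ab.2 H
  have hsub : E ⊆ (GW.biUnion fun ab => (hfin ab).toFinset) ∪ ER ∪ (Pr.biUnion EP) := by
    intro A hA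
    rw [hE, Finset.mem_filter, hbm] at hA
    obtain ⟨hAbox, ⟨hreal0, hpad0⟩, hns⟩ := hA
    by_cases hr' : A ∈ ER
    · exact Finset.mem_union_left _ (Finset.mem_union_right _ hr')
    by_cases hpp : ∃ p ∈ Pr, A ∈ EP p
    · exact Finset.mem_union_right _ (Finset.mem_biUnion.mpr hpp)
    refine Finset.mem_union_left _ (Finset.mem_union_left _ ?_)
    -- the cell
    have hAabs : ∀ i m, |(A i m : ℝ)| ≤ H := fun i m => by
      have := hAbox i m
      exact_mod_cast this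
    choose a ha using fun i m => pz_cell H R hH hR (A i m : ℝ) (hAabs i m)
    have hbex : ∀ i m, ∃ b : Fin Q, (Q : ℤ) ∣ A i m - (b : ℤ) := by
      intro i m
      have hQz : (0 : ℤ) < Q := by exact_mod_cast hQpos
      have h0 : 0 ≤ A i m % Q := Int.emod_nonneg _ hQz.ne'
      have h1 : A i m % Q < Q := Int.emod_lt_of_pos _ hQz
      refine ⟨⟨(A i m % Q).toNat, by omega⟩, ?_⟩
      simp only
      rw [Int.toNat_of_nonneg h0]
      exact Int.dvd_self_sub_emod
    choose b hb' using hbex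
    refine Finset.mem_biUnion.mpr ⟨(a, b), ?_, ?_⟩
    · rw [hGW, Finset.mem_filter]
      refine ⟨Finset.mem_univ _, H, A, hH, hAbox, ha, hb', ?_, ?_⟩
      · have hnR : ¬ ExcR bet H A := fun hcon =>
          hr' (Finset.mem_filter.mpr ⟨(hbm A).2 hAbox, hcon⟩)
        obtain ⟨z, hz1, hz2, hz3⟩ := norm_r hr hd A hreal0
        exact hpert H hH A hAbox hnR z hz1 hz2 hz3
      · intro p hp hpw
        have hpPr : p ∈ Pr := by
          rw [hPr, Finset.mem_filter, Finset.mem_range]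
          exact ⟨by omega, hp.out⟩
        have hnP : ¬ ExcP p (κ p) A := fun hcon =>
          hpp ⟨p, hpPr, Finset.mem_filter.mpr ⟨(hbm A).2 hAbox, hcon⟩⟩
        obtain ⟨z, hz1, hz2, hz3⟩ := int_p hr hd hpar p A (hpad0 p)
        exact good_mono p _ k (hkp p hpPr) A (pert_p p (κ p) (hκ p hpPr).1 A hnP z hz1 hz2 hz3)
    · rw [Set.Finite.mem_toFinset]
      exact ⟨ha, hb', hns⟩
  have hcardE : Set.ncard {A : PSys n d ℤ | A ∈ pbox n d H ∧ ELS A ∧ ¬ Sol A ℚ} = E.card := by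
    rw [← Set.ncard_coe_finset]
    congr 1
    ext A
    rw [Finset.mem_coe, hE, Finset.mem_filter, hbm]
    rfl
  have hcardR : (ER.card : ℝ) ≤ eps / 4 * (2 * H + 1) ^ NP n d := by
    refine le_trans (le_of_eq ?_) h2
    rw [← Set.ncard_coe_finset]
    congr 2
    ext A
    rw [Finset.mem_coe, hER, Finset.mem_filter, hbm]
    rfl
  have hcardP : ∀ p ∈ Pr, ((EP p).card : ℝ) ≤ eps / (4 * (w + 1)) * (2 * H + 1) ^ NP n d := by
    intro p hp
    refine le_trans (le_of_eq ?_) (h3 p hp)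
    rw [← Set.ncard_coe_finset]
    congr 2
    ext A
    rw [Finset.mem_coe, hEP]
    simp only [Finset.mem_filter, hbm]
    rfl
  have hcardS : ∀ ab ∈ GW, (((hfin ab).toFinset).card : ℝ) ≤
      C / w * (2 * (1 / R) * H / Q) ^ NP n d := by
    intro ab hab
    rw [← Set.ncard_eq_toFinset_card _ (hfin ab)]
    exact h1 ab (Finset.mem_filter.mp hab).2
  rw [hcardE]
  have hcS : ∀ M : ℕ, Fintype.card (PSys n d (Fin M)) = M ^ NP n d := by
    intro M
    rw [Fintype.card_pi]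
    unfold NP
    rw [← Finset.prod_pow_eq_pow_sum]
    refine Finset.prod_congr rfl fun i _ => ?_
    rw [Fintype.card_fun, Fintype.card_fin]
    rfl
  have hGWcard : (GW.card : ℝ) ≤ (R : ℝ) ^ NP n d * (Q : ℝ) ^ NP n d := by
    have h6 : GW.card ≤ R ^ NP n d * Q ^ NP n d := by
      refine (Finset.card_le_univ _).trans (le_of_eq ?_)
      rw [Fintype.card_prod, hcS, hcS]
    exact_mod_cast h6
  have hsumS : ((GW.biUnion fun ab => (hfin ab).toFinset).card : ℝ) ≤
      eps / 4 * (2 * H + 1) ^ NP n d := by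
    calc ((GW.biUnion fun ab => (hfin ab).toFinset).card : ℝ)
        ≤ ∑ ab ∈ GW, (((hfin ab).toFinset).card : ℝ) := by exact_mod_cast Finset.card_biUnion_le
      _ ≤ ∑ ab ∈ GW, (C / w * (2 * (1 / R) * H / Q) ^ NP n d : ℝ) := Finset.sum_le_sum hcardS
      _ = (GW.card : ℝ) * (C / w * (2 * (1 / R) * H / Q) ^ NP n d) := by
          rw [Finset.sum_const, nsmul_eq_mul]
      _ ≤ ((R : ℝ) ^ NP n d * (Q : ℝ) ^ NP n d) * (C / w * (2 * (1 / R) * H / Q) ^ NP n d) :=
          mul_le_mul_of_nonneg_right hGWcard (by positivity)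
      _ = C / w * (2 * H) ^ NP n d := by
          have h7 : (2 * (H : ℝ)) = R * Q * (2 * (1 / R) * H / Q) := by
            field_simp
          rw [h7, mul_pow, mul_pow]
          ring
      _ ≤ eps / 4 * (2 * H + 1) ^ NP n d := by
          refine mul_le_mul hwC ?_ (by positivity) (by positivity)
          exact pow_le_pow_left₀ (by positivity) (by linarith) _
  have hsumP : ((Pr.biUnion EP).card : ℝ) ≤ eps / 4 * (2 * H + 1) ^ NP n d := by
    have hPrc : (Pr.card : ℝ) ≤ (w : ℝ) + 1 := by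
      have : Pr.card ≤ w + 1 := by
        refine (Finset.card_filter_le _ _).trans ?_
        rw [Finset.card_range]
      exact_mod_cast this
    calc ((Pr.biUnion EP).card : ℝ) ≤ ∑ p ∈ Pr, ((EP p).card : ℝ) := by
          exact_mod_cast Finset.card_biUnion_le
      _ ≤ ∑ p ∈ Pr, (eps / (4 * (w + 1)) * (2 * H + 1) ^ NP n d : ℝ) := Finset.sum_le_sum hcardP
      _ = (Pr.card : ℝ) * (eps / (4 * (w + 1)) * (2 * H + 1) ^ NP n d) := by
          rw [Finset.sum_const, nsmul_eq_mul]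
      _ ≤ ((w : ℝ) + 1) * (eps / (4 * (w + 1)) * (2 * H + 1) ^ NP n d) :=
          mul_le_mul_of_nonneg_right hPrc (by positivity)
      _ = eps / 4 * (2 * H + 1) ^ NP n d := by field_simp
  have hfinal : (E.card : ℝ) ≤ ((GW.biUnion fun ab => (hfin ab).toFinset).card : ℝ) +
      (ER.card : ℝ) + ((Pr.biUnion EP).card : ℝ) := by
    have h7 : E.card ≤ (GW.biUnion fun ab => (hfin ab).toFinset).card + ER.card +
        (Pr.biUnion EP).card := by
      refine (Finset.card_le_card hsub).trans ((Finset.card_union_le _ _).trans ?_)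
      exact Nat.add_le_add_right (Finset.card_union_le _ _) _
    exact_mod_cast h7
  have hpos : 0 ≤ (2 * (H : ℝ) + 1) ^ NP n d := by positivity
  nlinarith

end RcHP
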