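import Pool.Agent.Lib.MP_e426f4_ag.RC.Defs
import Pool.Agent.Lib.MP_e426f4_ag.M.Spec
import Pool.Agent.Lib.MP_e426f4_ag.M.ClassCard

/-!
# RC-Pos: a positive proportion of systems has a rational point

Special system: `A0 (ix i 0) = c z^d`, `A0 (ix i 1) = - c z^d`, `A0 (ix i 2) = c z^d`, where `z^d` is
the monomial `ms0 (fun _ => 0)`, with value `1` at the base point.  `c = 1` for the residue class,
`c = 1/2` for the real centre.
-/

set_option autoImplicit false

namespace RcHP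

open Finset Filter Topology GenHP CIPHP TwHP

section multi
variable {ι : Type} [Fintype ι] [DecidableEq ι] {n : ι → ℕ} {r : ℕ} {d : Fin (r * 3) → ι → ℕ}

/-- base point -/
private def rp_e (R : Type) [CommRing R] : MVar n → R := fun v => if v.2 = 0 then 1 else 0

/-- the sign of a form -/
private def rp_s (R : Type) [CommRing R] (j : Fin (r * 3)) : R :=
  if (finProdFinEquiv.symm j).2 = (1 : Fin 3) then -1 else 1

/-- the special system -/
private noncomputable def rp_A (R : Type) [CommRing R] (n : ι → ℕ) (d : Fin (r * 3) → ι → ℕ)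
    (c : R) : PSys n d R :=
  open Classical in fun j t => if t = ms0 (fun _ => 0) then c * rp_s R j else 0

private theorem rp_MF (R : Type) [CommRing R] (c : R) (j : Fin (r * 3)) :
    MF (rp_A R n d c j) (rp_e R) = c * rp_s R j := by
  classical
  unfold MF Fg
  rw [Finset.sum_eq_single (ms0 (fun _ => 0))]
  · rw [mon_ms0]
    have h0 : ∀ i, rp_e (n := n) R ⟨i, 0⟩ = 1 := fun i => by simp [rp_e]
    rw [Finset.prod_eq_one fun i _ => by rw [h0, one_pow], mul_one]
    simp [rp_A]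
  · intro b _ hb
    simp [rp_A, hb]
  · intro h
    exact absurd (Finset.mem_univ _) h

private theorem rp_s0 (R : Type) [CommRing R] (i : Fin r) : rp_s R (ix i 0) = 1 := by
  unfold rp_s ix
  rw [Equiv.symm_apply_apply]
  simp

private theorem rp_s1 (R : Type) [CommRing R] (i : Fin r) : rp_s R (ix i 1) = -1 := by
  unfold rp_s ix
  rw [Equiv.symm_apply_apply]
  simp

private theorem rp_s2 (R : Type) [CommRing R] (i : Fin r) : rp_s R (ix i 2) = 1 := by
  unfold rp_s ix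
  rw [Equiv.symm_apply_apply]
  simp

private theorem rp_sabs (j : Fin (r * 3)) : |rp_s ℝ j| = 1 := by
  unfold rp_s
  split_ifs <;> simp

private theorem rp_iso (K : Type) [Field K] (c : K) : Iso (c * 1) (c * -1) (c * 1) := by
  refine ⟨1, 1, 0, ?_, ?_⟩
  · simp
  · ring

end multi

theorem pos_prop {ι : Type} [Fintype ι] [DecidableEq ι] {n : ι → ℕ} {r : ℕ}
    {d : Fin (r * 3) → ι → ℕ} (hr : 1 ≤ r) (hcls : RCLS n d) : ∃ c : ℝ, 0 < c ∧ ∀ᶠ H : ℕ in atTop,
    c * (2 * H + 1) ^ NP n d ≤ (Set.ncard {A : PSys n d ℤ | A ∈ pbox n d H ∧ Sol A ℚ} : ℝ) := by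
  classical
  obtain ⟨C, hC, hclass⟩ := hcls
  obtain ⟨w, hw⟩ : ∃ w : ℕ, w = max 2 ⌈4 * C⌉₊ := ⟨_, rfl⟩
  have hw2 : 2 ≤ w := by rw [hw]; exact le_max_left _ _
  have hwC : C / w ≤ 1 / 4 := by
    have h1 : 4 * C ≤ w := by
      rw [hw]
      refine (Nat.le_ceil _).trans ?_
      exact_mod_cast le_max_right _ _
    have h3 : (0 : ℝ) < w := by exact_mod_cast (by omega : 0 < w)
    rw [div_le_iff₀ h3]
    linarith
  obtain ⟨rho0, hrho0, hrho01, hclass⟩ := hclass w hw2 (1 / 2) (by norm_num) (by norm_num)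
  set rho : ℝ := min rho0 (1 / 2) with hrho
  have hr0 : 0 < rho := lt_min hrho0 (by norm_num)
  have hr1 : rho ≤ 1 / 2 := min_le_right _ _
  have hprim : 0 < primorial w := primorial_pos w
  set Ai : PSys n d ℤ := rp_A ℤ n d 1 with hAi
  set Ar : PSys n d ℝ := rp_A ℝ n d (1 / 2) with hAr
  have hp1 : ∀ p : ℕ, p.Prime → ¬ (p : ℤ) ∣ 1 := by
    intro p hp h
    have h3 := Int.isUnit_iff_natAbs_eq.1 (isUnit_of_dvd_one h)
    rw [Int.natAbs_natCast] at h3
    exact hp.one_lt.ne' h3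
  have hGP : ∀ (p : ℕ) [Fact p.Prime], p ≤ w → GoodP p 1 Ai := by
    intro p hpf _
    have hp : p.Prime := hpf.out
    refine ⟨rp_e ℤ, fun j => ?_, fun i => ?_⟩
    · rw [hAi, rp_MF, one_mul, pow_one]
      unfold rp_s
      split_ifs
      · rw [dvd_neg]
        exact hp1 p hp
      · exact hp1 p hp
    · rw [hAi, rp_MF, rp_MF, rp_MF, rp_s0, rp_s1, rp_s2]
      have h := rp_iso ℚ_[p] 1
      rw [one_mul, one_mul] at h
      push_cast
      exact h
  have hA1 : ∀ j t, |Ar j t| ≤ 1 := by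
    intro j t
    rw [hAr]
    unfold rp_A
    split_ifs
    · rw [abs_mul, rp_sabs, abs_of_pos (by norm_num)]
      norm_num
    · rw [abs_zero]
      norm_num
  have hA2 : ∀ j t, |Ar j t - Ar j t| ≤ rho := by
    intro j t
    rw [sub_self, abs_zero]
    exact hr0.le
  have hGR : GoodR (1 / 2) Ar := by
    refine ⟨rp_e ℝ, ?_, fun j => ?_, fun i => ?_⟩
    · intro v
      unfold rp_e
      split_ifs <;> simp
    · rw [hAr, rp_MF, abs_mul, rp_sabs, mul_one, abs_of_pos (by norm_num)]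
    · rw [hAr, rp_MF, rp_MF, rp_MF, rp_s0, rp_s1, rp_s2]
      exact rp_iso ℝ (1 / 2)
  have hN := tendsto_natCast_atTop_atTop.eventually
    (hclass rho hr0 (min_le_left _ _) 1 le_rfl Ai hGP Ar Ar hA1 hA2 hGR)
  -- the number of members of the class
  set E : ((x : Σ j : Fin (r * 3), MIdx n (d j)) → ℤ) ≃ PSys n d ℤ :=
    Equiv.piCurry (fun (j : Fin (r * 3)) (_ : MIdx n (d j)) => ℤ) with hE
  have hEapp : ∀ (f : (x : Σ j : Fin (r * 3), MIdx n (d j)) → ℤ) (j : Fin (r * 3))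
      (t : MIdx n (d j)), E f j t = f ⟨j, t⟩ := fun f j t => rfl
  have hcard := tendsto_natCast_atTop_atTop.eventually
    (class_card (fun x : Σ j : Fin (r * 3), MIdx n (d j) => Ar x.1 x.2)
      (fun x : Σ j : Fin (r * 3), MIdx n (d j) => Ai x.1 x.2) (primorial w ^ (1 + 3))
      (pow_pos hprim _) rho (1 / 2) hr0 (by norm_num))
  refine ⟨(1 / 4) * (2 * rho / (3 * (primorial w : ℝ) ^ (1 + 3))) ^ NP n d, by positivity, ?_⟩
  filter_upwards [hN, hcard, eventually_ge_atTop 1] with H h1 h3 h4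
  have hH1 : (1 : ℝ) ≤ H := by exact_mod_cast h4
  obtain ⟨h5, _⟩ := h3
  have hQc : ((primorial w ^ (1 + 3) : ℕ) : ℝ) = (primorial w : ℝ) ^ (1 + 3) := by push_cast; ring
  have hQz : ((primorial w ^ (1 + 3) : ℕ) : ℤ) = (primorial w : ℤ) ^ (1 + 3) := by push_cast; ring
  simp only [hQc, hQz] at h5
  rw [card_sigma_NP] at h5
  set X : ℝ := (2 * rho * H / (primorial w : ℝ) ^ (1 + 3)) ^ NP n d with hX
  have hX0 : 0 ≤ X := by positivity
  set Q : Set (PSys n d ℤ) := {A : PSys n d ℤ | (∀ j t, |(A j t : ℝ) - H * Ar j t| ≤ rho * H) ∧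
      ∀ j t, ((primorial w : ℤ) ^ (1 + 3)) ∣ A j t - Ai j t} with hQ
  set Q' : Set ((x : Σ j : Fin (r * 3), MIdx n (d j)) → ℤ) :=
    {A | (∀ x, |(A x : ℝ) - H * Ar x.1 x.2| ≤ rho * H) ∧
      ∀ x, ((primorial w : ℤ) ^ (1 + 3)) ∣ A x - Ai x.1 x.2} with hQ'
  have hQeq : Q = E '' Q' := by
    ext A
    rw [Set.mem_image]
    constructor
    · rintro ⟨hA, hA'⟩
      exact ⟨E.symm A, ⟨fun x => hA x.1 x.2, fun x => hA' x.1 x.2⟩, E.apply_symm_apply A⟩
    · rintro ⟨f, ⟨hf, hf'⟩, rfl⟩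
      exact ⟨fun j t => hf ⟨j, t⟩, fun j t => hf' ⟨j, t⟩⟩
  have hQcard : Q.ncard = Q'.ncard := by
    rw [hQeq]
    exact Set.ncard_image_of_injective _ E.injective
  have hQfin : Q.Finite := by
    rw [hQeq]
    exact (class_finite (fun x : Σ j : Fin (r * 3), MIdx n (d j) => Ar x.1 x.2) rho H _).image _
  have h5' : (1 - 1 / 2) * X ≤ (Q.ncard : ℝ) := by
    rw [hQcard]
    exact h5
  set N : Set (PSys n d ℤ) := {A : PSys n d ℤ | (∀ j t, |(A j t : ℝ) - H * Ar j t| ≤ rho * H) ∧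
          (∀ j t, ((primorial w : ℤ) ^ (1 + 3)) ∣ A j t - Ai j t) ∧ ¬ Sol A ℚ} with hNdef
  set S : Set (PSys n d ℤ) := {A : PSys n d ℤ | A ∈ pbox n d H ∧ Sol A ℚ} with hS
  have hsub : Q ⊆ N ∪ S := by
    rintro A ⟨hA, hA'⟩
    by_cases hsol : Sol A ℚ
    · right
      refine ⟨?_, hsol⟩
      intro j t
      have h5 : |(A j t : ℝ) - H * Ar j t| ≤ rho * H := hA j t
      have h6 : |(H : ℝ) * Ar j t| ≤ H / 2 := by
        rw [hAr]
        unfold rp_A
        split_ifs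
        · rw [abs_mul, abs_mul, rp_sabs, abs_of_nonneg (by positivity),
            abs_of_nonneg (by norm_num)]
          linarith
        · rw [mul_zero, abs_zero]
          positivity
      have h7 : |(A j t : ℝ)| ≤ H := by
        have h8 : (A j t : ℝ) = ((A j t : ℝ) - H * Ar j t) + H * Ar j t := by ring
        rw [h8]
        refine (abs_add_le _ _).trans ?_
        nlinarith
      have h9 : ((|A j t| : ℤ) : ℝ) ≤ ((H : ℤ) : ℝ) := by
        rw [Int.cast_abs]
        exact_mod_cast h7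
      exact_mod_cast h9
    · left
      exact ⟨hA, hA', hsol⟩
  have hSfin : S.Finite := pbox_finite H _
  have hNfin : N.Finite := hQfin.subset fun A hA => ⟨hA.1, hA.2.1⟩
  have hle : (Q.ncard : ℝ) ≤ (N.ncard : ℝ) + (S.ncard : ℝ) := by
    have h5 := Set.ncard_le_ncard hsub (hNfin.union hSfin)
    have h6 := Set.ncard_union_le N S
    exact_mod_cast h5.trans h6
  have h1' : (N.ncard : ℝ) ≤ 1 / 4 * X :=
    h1.trans (mul_le_mul_of_nonneg_right hwC hX0)
  have hSX : 1 / 4 * X ≤ (S.ncard : ℝ) := by linarith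
  refine le_trans ?_ hSX
  have h6 : (2 * (H : ℝ) + 1) ^ NP n d ≤ (3 * H) ^ NP n d :=
    pow_le_pow_left₀ (by positivity) (by linarith) _
  have h7 : (2 * rho / (3 * (primorial w : ℝ) ^ (1 + 3))) ^ NP n d * (3 * (H : ℝ)) ^ NP n d = X := by
    rw [hX, ← mul_pow]
    congr 1
    field_simp
  calc (1 / 4) * (2 * rho / (3 * (primorial w : ℝ) ^ (1 + 3))) ^ NP n d *
        (2 * (H : ℝ) + 1) ^ NP n d
      ≤ (1 / 4) * (2 * rho / (3 * (primorial w : ℝ) ^ (1 + 3))) ^ NP n d * (3 * H) ^ NP n d :=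
        mul_le_mul_of_nonneg_left h6 (by positivity)
    _ = 1 / 4 * ((2 * rho / (3 * (primorial w : ℝ) ^ (1 + 3))) ^ NP n d *
        (3 * (H : ℝ)) ^ NP n d) := by ring
    _ = 1 / 4 * X := by rw [h7]

end RcHP
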