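import Pool.Agent.Lib.MP_e426f4_ag.RC.ClsT
import Pool.Agent.Lib.MP_e426f4_ag.RC.Glob
import Pool.Agent.Lib.MP_e426f4_ag.RC.Pos

/-!
# RC-Final: assembly (done)
-/

set_option autoImplicit false

namespace RcHP

open Finset Filter Topology GenHP CIPHP TwHP

theorem final {ι : Type} [Fintype ι] [DecidableEq ι] {n : ι → ℕ} {r : ℕ}
    {d : Fin (r * 3) → ι → ℕ} (hr : 1 ≤ r) (hn : ∀ i, 1 ≤ n i) (hd : ∀ j i, 1 ≤ d j i)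
    (hpar : EqPar d) (i0 : ι) :
    (∃ c : ℝ, 0 < c ∧ ∀ᶠ H : ℕ in atTop,
      c * (2 * H + 1) ^ NP n d ≤ (Set.ncard {A : PSys n d ℤ | A ∈ pbox n d H ∧ Sol A ℚ} : ℝ)) ∧
    ∀ eps : ℝ, 0 < eps → ∀ᶠ H : ℕ in atTop,
      (Set.ncard {A : PSys n d ℤ | A ∈ pbox n d H ∧ ELS A ∧ ¬ Sol A ℚ} : ℝ) ≤
        eps * (2 * H + 1) ^ NP n d :=
  ⟨pos_prop hr (rcls n d hr hn hd i0),
    fun eps he => exceptional_small hr hd hpar (rcls n d hr hn hd i0) eps he⟩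

end RcHP
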