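import Pool.Agent.Lib.MP_e426f4_ag.RC.AnDefs

/-!
# RC-JacC: Jacobi symbols with smooth numerator depend only on the class modulo `W8 w`

Proof. `g = ± ∏ p^e`, `p ≤ w`.  `jacobiSym` is multiplicative in the first argument; `J(-1 | y)`, `J(2 | y)` depend on `y` mod `8`, and for odd
`p ≤ w`, `J(p | y)` depends on `y` mod `4 p` (quadratic reciprocity, or `jacobiSym.mod_right`: `J(a | b) = J(a | b % (4 |a|))`), and
`4 p ∣ W8 w`.  (Alternatively: `W8 w` and squares: write `g = s^2 * g1` with `g1` squarefree, `4 |g1| ∣ W8 w`, `jacobiSym.mod_right`.)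
Both `y`, `y'` are odd and coprime to `g`.
-/

set_option autoImplicit false

namespace RcHP

open Finset TwHP

private theorem jacC_odd (w y : ℕ) (hy : y.Coprime (W8 w)) : Odd y := by
  have h2 : y.Coprime 2 :=
    Nat.Coprime.coprime_dvd_right ((by norm_num : 2 ∣ 8).trans (Dvd.intro _ rfl)) hy
  exact Nat.coprime_two_right.mp h2

private theorem jacC_four (w : ℕ) (p : ℕ) (hp : p.Prime) (hpw : p ≤ w) : 4 * p ∣ W8 w := by
  rcases Nat.lt_or_ge p 3 with h | h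
  · have : p = 2 := le_antisymm (by omega) hp.two_le
    subst this
    exact Dvd.intro _ rfl
  · have h1 : p ∣ ∏ q ∈ (Icc 3 w).filter Nat.Prime, q :=
      Finset.dvd_prod_of_mem _ (mem_filter.mpr ⟨mem_Icc.mpr ⟨h, hpw⟩, hp⟩)
    exact mul_dvd_mul (by norm_num) h1

private theorem jacC_prime_dvd (w : ℕ) (p : ℕ) (hp : p.Prime) (hpw : p ≤ w) : p ∣ W8 w :=
  (Dvd.intro_left 4 rfl).trans (jacC_four w p hp hpw)

private theorem jacC_one (w : ℕ) (a : ℤ) (ha : 4 * a.natAbs ∣ W8 w)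
    (y y' : ℕ) (h : y ≡ y' [MOD W8 w]) (hy : Odd y) (hy' : Odd y') :
    jacobiSym a y = jacobiSym a y' := by
  have h4 : y % (4 * a.natAbs) = y' % (4 * a.natAbs) := h.of_dvd ha
  rw [jacobiSym.mod_right a hy, jacobiSym.mod_right a hy', h4]

private theorem jacC_nat (w : ℕ) (y y' : ℕ) (h : y ≡ y' [MOD W8 w]) (hy : Odd y) (hy' : Odd y')
    (g : ℕ) (hg : g ≠ 0) (hgs : ∀ p : ℕ, p.Prime → p ∣ g → p ≤ w) :
    jacobiSym (g : ℤ) y = jacobiSym (g : ℤ) y' := by
  induction g using induction_on_primes with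
  | zero => exact absurd rfl hg
  | one => simp
  | prime_mul p a hp ih =>
    have ha : a ≠ 0 := by
      rintro rfl; exact hg (by simp)
    have hpw : p ≤ w := hgs p hp (Dvd.intro _ rfl)
    push_cast
    rw [jacobiSym.mul_left, jacobiSym.mul_left,
      ih ha (fun q hq hqa => hgs q hq (hqa.mul_left _)),
      jacC_one w (p : ℤ) (by simpa using jacC_four w p hp hpw) y y' h hy hy']

theorem jac_const (w : ℕ) (hw : 2 ≤ w) (g : ℤ) (hg : g ≠ 0) (hgs : ∀ p : ℕ, p.Prime → (p : ℤ) ∣ g → p ≤ w)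
    (y y' : ℕ) (h : y ≡ y' [MOD W8 w]) (hy : y.Coprime (W8 w)) (hy' : y'.Coprime (W8 w)) :
    jacobiSym g y = jacobiSym g y' := by
  have ho := jacC_odd w y hy
  have ho' := jacC_odd w y' hy'
  have hn := jacC_nat w y y' h ho ho' g.natAbs (Int.natAbs_ne_zero.mpr hg)
    (fun p hp hpg => hgs p hp (Int.natCast_dvd.mpr hpg))
  have hm1 : jacobiSym (-1) y = jacobiSym (-1) y' :=
    jacC_one w (-1) (by
      have h48 : 4 ∣ W8 w := (by norm_num : 4 ∣ 8).trans (Dvd.intro _ rfl)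
      simpa using h48) y y' h ho ho'
  rcases Int.natAbs_eq g with hg1 | hg1
  · rw [hg1]; exact hn
  · rw [hg1, neg_eq_neg_one_mul, jacobiSym.mul_left, jacobiSym.mul_left, hn, hm1]

theorem jac_pm (w : ℕ) (hw : 2 ≤ w) (g : ℤ) (hg : g ≠ 0) (hgs : ∀ p : ℕ, p.Prime → (p : ℤ) ∣ g → p ≤ w)
    (y : ℕ) (hy : y.Coprime (W8 w)) : jacobiSym g y = 1 ∨ jacobiSym g y = -1 := by
  apply jacobiSym.eq_one_or_neg_one
  rw [Int.gcd_eq_natAbs]
  apply Nat.Coprime.symm
  rw [Int.natAbs_natCast]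
  apply Nat.coprime_of_dvd
  intro p hp h1 h2
  have h3 : p ≤ w := hgs p hp (Int.natCast_dvd.mpr h2)
  have h4 := Nat.dvd_gcd h1 (jacC_prime_dvd w p hp h3)
  rw [hy] at h4
  exact hp.one_lt.ne' (Nat.dvd_one.mp h4)

end RcHP
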