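import Pool.Agent.Lib.MP_e426f4_ag.RC.AnDefs

/-!
# RC-TotB: `R / φ(R)`

Proof. `R / φ(R) = ∏_{p ∣ R} p / (p - 1)` (`Nat.totient_mul_prod_primeFactors` or `Nat.totient_eq_mul_prod_factors`).  The prime
factors of `Q0` resp. `be * Q0` are exactly the primes `≤ w`; those of `be * Q0^2 * D` are the primes `≤ w` and the prime factors
`> w` of `D`.  (`W8 w = 8 ∏_{3 ≤ p ≤ w} p`.)
-/

set_option autoImplicit false

namespace RcHP

open Finset TwHP

private theorem totB_ratio (R : ℕ) (hR : 0 < R) :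
    (R : ℝ) / Nat.totient R = ∏ p ∈ R.primeFactors, (p : ℝ) / ((p : ℝ) - 1) := by
  have h1 : ((Nat.totient R : ℚ) : ℝ) = ((R * ∏ p ∈ R.primeFactors, (1 - (p : ℚ)⁻¹) : ℚ) : ℝ) := by
    rw [Nat.totient_eq_mul_prod_factors]
  push_cast at h1
  have hR' : (R : ℝ) ≠ 0 := by exact_mod_cast hR.ne'
  rw [h1, ← div_div, div_self hR', one_div, ← Finset.prod_inv_distrib]
  refine Finset.prod_congr rfl fun p hp => ?_
  have hp1 : (1 : ℝ) < p := by exact_mod_cast (Nat.prime_of_mem_primeFactors hp).one_lt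
  have h2 : (p : ℝ) ≠ 0 := by positivity
  have h3 : (p : ℝ) - 1 ≠ 0 := by linarith
  have h4 : (1 : ℝ) - (p : ℝ)⁻¹ ≠ 0 := by
    have h5 : (1 : ℝ) - (p : ℝ)⁻¹ = ((p : ℝ) - 1) / p := by field_simp
    rw [h5]
    exact div_ne_zero h3 h2
  field_simp

private theorem totB_one_le (p : ℕ) (hp : p.Prime) : (1 : ℝ) ≤ (p : ℝ) / ((p : ℝ) - 1) := by
  have hp1 : (1 : ℝ) < p := by exact_mod_cast hp.one_lt
  rw [le_div_iff₀ (by linarith)]
  linarith

theorem tot_one (w Q0 be et : ℕ) (hc : Cst w Q0) (hf : Fmc w be et) :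
    ((be * Q0 : ℕ) : ℝ) / Nat.totient (be * Q0) = Bw w := by
  have hpos : 0 < be * Q0 := Nat.mul_pos hf.pos hc.pos
  rw [totB_ratio _ hpos, Bw]
  congr 1
  ext p
  simp only [Nat.mem_primeFactors, Finset.mem_filter, Finset.mem_Icc]
  constructor
  · rintro ⟨hp, hd, -⟩
    refine ⟨⟨hp.one_lt.le, ?_⟩, hp⟩
    rcases (Nat.Prime.dvd_mul hp).1 hd with h | h
    · exact hf.smooth p hp h
    · exact hc.smooth p hp h
  · rintro ⟨⟨-, hw⟩, hp⟩
    exact ⟨hp, Dvd.dvd.mul_left (hc.small p hp hw) _, hpos.ne'⟩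

theorem tot_two (w Q0 be et D : ℕ) (hc : Cst w Q0) (hf : Fmc w be et) (hD : 0 < D) :
    ((be * Q0 ^ 2 * D : ℕ) : ℝ) / Nat.totient (be * Q0 ^ 2 * D) = Bw w * hh w D := by
  have hpos : 0 < be * Q0 ^ 2 * D := Nat.mul_pos (Nat.mul_pos hf.pos (pow_pos hc.pos 2)) hD
  have hdis : Disjoint ((Icc 1 w).filter Nat.Prime) (D.primeFactors.filter (w < ·)) := by
    rw [Finset.disjoint_left]
    intro p hp hp'
    simp only [Finset.mem_filter, Finset.mem_Icc] at hp hp'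
    exact absurd hp'.2 (not_lt.2 hp.1.2)
  rw [totB_ratio _ hpos, Bw, hh, ← Finset.prod_union hdis]
  congr 1
  ext p
  simp only [Nat.mem_primeFactors, Finset.mem_filter, Finset.mem_Icc, Finset.mem_union]
  constructor
  · rintro ⟨hp, hd, -⟩
    rcases le_or_gt p w with hw | hw
    · exact Or.inl ⟨⟨hp.one_lt.le, hw⟩, hp⟩
    · right
      rcases (Nat.Prime.dvd_mul hp).1 hd with h | h
      · exfalso
        rcases (Nat.Prime.dvd_mul hp).1 h with h' | h'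
        · exact absurd (hf.smooth p hp h') (not_le.2 hw)
        · exact absurd (hc.smooth p hp (hp.dvd_of_dvd_pow h')) (not_le.2 hw)
      · exact ⟨⟨hp, h, hD.ne'⟩, hw⟩
  · rintro (⟨⟨-, hw⟩, hp⟩ | ⟨⟨hp, hd, -⟩, -⟩)
    · refine ⟨hp, ?_, hpos.ne'⟩
      exact Dvd.dvd.mul_right (Dvd.dvd.mul_left (dvd_pow (hc.small p hp hw) two_ne_zero) _) _
    · exact ⟨hp, Dvd.dvd.mul_left hd _, hpos.ne'⟩

theorem Bw_ge_one (w : ℕ) : 1 ≤ Bw w := by
  rw [Bw]
  have h : ∏ _p ∈ (Icc 1 w).filter Nat.Prime, (1 : ℝ) ≤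
      ∏ p ∈ (Icc 1 w).filter Nat.Prime, (p : ℝ) / ((p : ℝ) - 1) :=
    Finset.prod_le_prod (fun _ _ => zero_le_one) fun p hp =>
      totB_one_le p (Finset.mem_filter.1 hp).2
  simpa using h

theorem hh_ge_one (w D : ℕ) : 1 ≤ hh w D := by
  rw [hh]
  have h : ∏ _p ∈ D.primeFactors.filter (w < ·), (1 : ℝ) ≤
      ∏ p ∈ D.primeFactors.filter (w < ·), (p : ℝ) / ((p : ℝ) - 1) :=
    Finset.prod_le_prod (fun _ _ => zero_le_one) fun p hp =>
      totB_one_le p (Nat.prime_of_mem_primeFactors (Finset.mem_filter.1 hp).1)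
  simpa using h

end RcHP
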