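import Pool.Agent.Lib.MP_e426f4_ag.RC.ApC
import Pool.Agent.Lib.MP_e426f4_ag.RC.TotB
import Pool.Agent.Lib.MP_e426f4_ag.TW.ClassInv

/-!
# RC-OneF: prime values of one form at one point

Proof. For fixed `a ∈ [1, Y]`, `b ↦ yz t (a, b) = u + R b` with `R = be * Q0`, `u = al t + be * a * (1 + Q0 t)`, `b ∈ [1, Y]`.
`u` is coprime to `R`: a prime `p ∣ R` is `≤ w`; if it divided `u` it would divide `yz ≡ et` mod `W8 w` (`p ∣ W8 w`: primes `≤ w` divide
`W8 w`), contradiction to `et` coprime to `W8 w`.  `apc` with `M = Y`, `s0 = 1`, `E' = 1` (`R` constant, `≤ log H`), `A = 3`, `ε / 2`,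
`tot_one`; sum over `a`: the error is `Y * H / L^3 ≤ (ε/2) Y^2 Bw / L` as `Y ≥ c1 H`, `Bw ≥ 1`.
-/

set_option autoImplicit false

namespace RcHP

open Finset TwHP

private theorem cop_aux (w Q0 be et E : ℕ) (hc : Cst w Q0) (hf : Fmc w be et) (c0 H : ℝ) (Y N : ℕ)
    (al : ℕ → ℤ) (hl : Lin w Q0 be et E c0 H Y N al) (t : ℕ) (ht : t ∈ Ico N (2 * N)) (a : ℕ)
    (ha : a ∈ Icc 1 Y) :
    IsCoprime (al t + be * a * (1 + Q0 * t) : ℤ) ((be * Q0 : ℕ) : ℤ) := by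
  rw [Int.isCoprime_iff_gcd_eq_one]
  by_contra hg
  obtain ⟨p, hp, hpg⟩ := Nat.exists_prime_and_dvd hg
  rw [Int.gcd_eq_natAbs] at hpg
  have h1 : (p : ℤ) ∣ (al t + be * a * (1 + Q0 * t) : ℤ) :=
    Int.natCast_dvd.mpr (hpg.trans (Nat.gcd_dvd_left _ _))
  have h2 : p ∣ be * Q0 := by
    have := hpg.trans (Nat.gcd_dvd_right _ _)
    rwa [Int.natAbs_natCast] at this
  have hpw : p ≤ w := by
    rcases (Nat.Prime.dvd_mul hp).mp h2 with h | h
    · exact hf.smooth p hp h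
    · exact hc.smooth p hp h
  have h1Y : (a, 1) ∈ bx Y := by
    unfold bx
    rw [mem_Icc] at ha
    simp only [mem_product, mem_Icc]
    omega
  have hres := hl.res t ht _ h1Y
  have h3 : (p : ℤ) ∣ yz Q0 be al t (a, 1) := by
    have e : yz Q0 be al t (a, 1) = (al t + be * a * (1 + Q0 * t) : ℤ) + ((be * Q0 : ℕ) : ℤ) := by
      unfold yz
      push_cast
      ring
    rw [e]
    exact dvd_add h1 (by exact_mod_cast h2)
  have h4 : p ∣ W8 w := (prime_dvd_W8 w hc.w2 p hp).mpr hpw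
  have h5 : (p : ℤ) ∣ (et : ℤ) := by
    have h6 : ((W8 w : ℕ) : ℤ) ∣ (et : ℤ) - yz Q0 be al t (a, 1) := hres.dvd
    have h7 : (p : ℤ) ∣ (et : ℤ) - yz Q0 be al t (a, 1) :=
      (Int.natCast_dvd_natCast.mpr h4).trans h6
    have := dvd_add h7 h3
    simpa using this
  have h8 : p ∣ et := Int.natCast_dvd_natCast.mp h5
  exact Nat.Prime.one_lt hp |>.ne' (Nat.eq_one_of_dvd_one (hf.cop ▸ Nat.dvd_gcd h8 h4))

private theorem card_row (Q0 be : ℕ) (al : ℕ → ℤ) (t a Y : ℕ) :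
    (((Icc 1 Y).filter fun b => (yv Q0 be al t (a, b)).Prime).card) =
      (((Ico (1 : ℤ) (1 + Y)).filter fun s : ℤ =>
        ((al t + be * a * (1 + Q0 * t) : ℤ) + ((be * Q0 : ℕ) : ℤ) * s).toNat.Prime).card) := by
  refine card_bij (fun b _ => (b : ℤ)) ?_ ?_ ?_
  · intro b hb
    rw [mem_filter, mem_Icc] at hb
    rw [mem_filter, mem_Ico]
    refine ⟨by omega, ?_⟩
    have e : (al t + be * a * (1 + Q0 * t) : ℤ) + ((be * Q0 : ℕ) : ℤ) * (b : ℤ) =
        yz Q0 be al t (a, b) := by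
      unfold yz
      push_cast
      ring
    rw [e]
    exact hb.2
  · intro b _ b' _ h
    exact_mod_cast h
  · intro s hs
    rw [mem_filter, mem_Ico] at hs
    refine ⟨s.toNat, ?_, by omega⟩
    rw [mem_filter, mem_Icc]
    refine ⟨by omega, ?_⟩
    have e0 : ((s.toNat : ℕ) : ℤ) = s := by omega
    have e : (al t + be * a * (1 + Q0 * t) : ℤ) + ((be * Q0 : ℕ) : ℤ) * s =
        yz Q0 be al t (a, s.toNat) := by
      unfold yz
      rw [e0]
      push_cast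
      ring
    unfold yv
    rw [← e]
    exact hs.2

theorem one_form (w Q0 be et E : ℕ) (hc : Cst w Q0) (hf : Fmc w be et) (c0 c1 ε : ℝ) (hc0 : 0 < c0)
    (hc1 : 0 < c1) (hε : 0 < ε) : ∃ H0 : ℝ, ∀ H : ℝ, H0 ≤ H → ∀ Y N : ℕ, c1 * H ≤ Y → (Y : ℝ) ≤ H →
    ∀ al : ℕ → ℤ, Lin w Q0 be et E c0 H Y N al → ∀ t ∈ Ico N (2 * N),
    |((((bx Y).filter fun o => (yv Q0 be al t o).Prime).card : ℕ) : ℝ) -
        (Y : ℝ) ^ 2 * (Bw w / Real.log H)| ≤ ε * ((Y : ℝ) ^ 2 * (Bw w / Real.log H)) := by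
  obtain ⟨H1, hH1⟩ := apc E 1 3 c0 (ε / 2) hc0 (by positivity)
  -- `log H` large
  obtain ⟨H2, hH2⟩ : ∃ H2 : ℝ, ∀ H : ℝ, H2 ≤ H → 1 ≤ H ∧ ((be * Q0 : ℕ) : ℝ) ≤ Real.log H ∧
      2 / (ε * c1) + 1 ≤ Real.log H := by
    refine ⟨Real.exp (((be * Q0 : ℕ) : ℝ) + (2 / (ε * c1) + 1)), fun H hH => ?_⟩
    have hpos : 0 ≤ 2 / (ε * c1) := by positivity
    have hb : (0 : ℝ) ≤ ((be * Q0 : ℕ) : ℝ) := by positivity
    have h1 : (0 : ℝ) < H := (Real.exp_pos _).trans_le hH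
    have h2 := Real.log_le_log (Real.exp_pos _) hH
    rw [Real.log_exp] at h2
    refine ⟨?_, by linarith, by linarith⟩
    have h3 : Real.exp 0 ≤ Real.exp (((be * Q0 : ℕ) : ℝ) + (2 / (ε * c1) + 1)) :=
      Real.exp_le_exp.mpr (by linarith)
    rw [Real.exp_zero] at h3
    linarith
  refine ⟨max H1 H2, fun H hH Y N hY1 hY2 al hl t ht => ?_⟩
  obtain ⟨hH1', hR, hLbig⟩ := hH2 H ((le_max_right _ _).trans hH)
  set L := Real.log H with hL
  have hLone : 1 ≤ L := by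
    have : 0 ≤ 2 / (ε * c1) := by positivity
    linarith
  have hL0 : 0 < L := by linarith
  have hRpos : 1 ≤ be * Q0 := Nat.mul_pos hf.pos hc.pos
  have hrow : ∀ a ∈ Icc 1 Y,
      |((((Icc 1 Y).filter fun b => (yv Q0 be al t (a, b)).Prime).card : ℕ) : ℝ) -
        Y * Bw w / L| ≤ ε / 2 * (Y * Bw w / L) + H / L ^ 3 := by
    intro a ha
    have h := hH1 H ((le_max_left _ _).trans hH) (be * Q0) hRpos (by rw [pow_one]; exact hR)
      (al t + be * a * (1 + Q0 * t) : ℤ) 1 Y ?_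
      (cop_aux w Q0 be et E hc hf c0 H Y N al hl t ht a ha)
    · rw [card_row, ← tot_one w Q0 be et hc hf]
      exact h
    · intro s hs1 hs2
      have hmem : (a, s.toNat) ∈ bx Y := by
        unfold bx
        rw [mem_Icc] at ha
        simp only [mem_product, mem_Icc]
        omega
      have e0 : ((s.toNat : ℕ) : ℤ) = s := by omega
      have e : (al t + be * a * (1 + Q0 * t) : ℤ) + ((be * Q0 : ℕ) : ℤ) * s =
          yz Q0 be al t (a, s.toNat) := by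
        unfold yz
        rw [e0]
        push_cast
        ring
      rw [e]
      exact ⟨hl.lo t ht _ hmem, hl.hi t ht _ hmem⟩
  have hcard : ((((bx Y).filter fun o => (yv Q0 be al t o).Prime).card : ℕ) : ℝ) =
      ∑ a ∈ Icc 1 Y, ((((Icc 1 Y).filter fun b => (yv Q0 be al t (a, b)).Prime).card : ℕ) : ℝ) := by
    rw [← Nat.cast_sum]
    congr 1
    unfold bx
    rw [card_filter, sum_product]
    refine sum_congr rfl fun a _ => ?_
    rw [card_filter]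
  have hB := Bw_ge_one w
  have hY0 : (0 : ℝ) ≤ Y := by positivity
  rw [hcard]
  have e1 : (Y : ℝ) ^ 2 * (Bw w / L) = ∑ a ∈ Icc 1 Y, Y * Bw w / L := by
    rw [sum_const, Nat.card_Icc, nsmul_eq_mul]
    simp only [Nat.add_sub_cancel]
    ring
  rw [e1, ← sum_sub_distrib]
  refine (abs_sum_le_sum_abs _ _).trans ((sum_le_sum hrow).trans ?_)
  rw [sum_add_distrib, ← mul_sum]
  have h5 : ∑ a ∈ Icc 1 Y, H / L ^ 3 ≤ ε / 2 * ∑ a ∈ Icc 1 Y, Y * Bw w / L := by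
    rw [mul_sum]
    refine sum_le_sum fun a _ => ?_
    rw [div_le_iff₀ (by positivity)]
    have h6 : ε / 2 * (Y * Bw w / L) * L ^ 3 = ε / 2 * Y * Bw w * L ^ 2 := by
      field_simp
    rw [h6]
    have h7 : 2 / (ε * c1) ≤ L ^ 2 := by nlinarith
    have h8 : 1 ≤ ε / 2 * c1 * L ^ 2 := by
      rw [div_le_iff₀ (by positivity)] at h7
      linarith
    calc H ≤ (ε / 2 * c1 * L ^ 2) * H := by nlinarith
      _ = ε / 2 * (c1 * H) * 1 * L ^ 2 := by ring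
      _ ≤ ε / 2 * Y * Bw w * L ^ 2 := by gcongr
  linarith

end RcHP
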