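import Pool.Agent.Lib.MP_e426f4_ag.RC.Blf
import Pool.Agent.Lib.MP_e426f4_ag.RC.OneF

/-!
# RC-Jcore: sums with one Jacobi symbol between two forms are small

`yj`, `yl`: the values of the forms `j`, `l` at the point `t`; `zj`, `zl`: the coordinates of the fibration (either the second
coordinate `o.2` or the value at another point `t'`).

Proof. `X = ⌊H (log H)^E⌋₊`, `Z1 = Z2 = range (X + 1)` (as `z ≤ X`: hypothesis).  For fixed `om` apply `blf` with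
`O1 = {o ∈ bx Y : yj o prime}`, `O2 = {o ∈ bx Y : yl o prime}`, `U o = F1 o om`, `V o = F2 o om`; the primes are `≥ c0 H > 2`.  Total
`≤ Y^2 (X + 1)^2 100 X^(15/8)`, and `X + 1 ≤ 2 H L^E`, `Y ≥ c1 H`: so `≤ Y^2 400 H^(31/8) 8 L^(31E/8).. ≤ ε (Y^2)^3 / L^A` for `H` large.
-/

set_option autoImplicit false

namespace RcHP

open Finset TwHP

private theorem jcore_bx_card (Y : ℕ) : ((bx Y).card : ℝ) = (Y : ℝ) ^ 2 := by
  unfold bx
  rw [card_product, Nat.card_Icc, Nat.add_sub_cancel]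
  push_cast
  ring

private theorem jcore_ev (n : ℕ) {c : ℝ} (hc : 0 < c) :
    ∃ H1 : ℝ, ∀ H : ℝ, H1 ≤ H → 400 * Real.log H ^ n ≤ c * H ^ ((1 : ℝ) / 8) := by
  have h1 := isLittleO_log_rpow_rpow_atTop (n : ℝ) (show (0 : ℝ) < 1 / 8 by norm_num)
  have h2 := h1.def (show (0 : ℝ) < c / 400 by positivity)
  rw [Filter.eventually_atTop] at h2
  obtain ⟨H1, h2⟩ := h2
  refine ⟨max H1 1, fun H hH => ?_⟩
  have h3 := h2 H ((le_max_left _ _).trans hH)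
  have hH1 : 1 ≤ H := (le_max_right _ _).trans hH
  have hL : 0 ≤ Real.log H := Real.log_nonneg hH1
  rw [Real.rpow_natCast, Real.norm_of_nonneg (pow_nonneg hL n),
    Real.norm_of_nonneg (Real.rpow_nonneg (by linarith) _)] at h3
  linarith

theorem jcore (E A : ℕ) (c0 c1 ε : ℝ) (hc0 : 0 < c0) (hc1 : 0 < c1) (hε : 0 < ε) :
    ∃ H0 : ℝ, ∀ H : ℝ, H0 ≤ H → ∀ Y : ℕ, c1 * H ≤ Y → (Y : ℝ) ≤ H →
    ∀ (yj yl zj zl : ℕ × ℕ → ℕ),
    (∀ o ∈ bx Y, c0 * H ≤ yj o ∧ (yj o : ℝ) ≤ H * Real.log H ^ E ∧ (zj o : ℝ) ≤ H * Real.log H ^ E) →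
    (∀ o ∈ bx Y, c0 * H ≤ yl o ∧ (yl o : ℝ) ≤ H * Real.log H ^ E ∧ (zl o : ℝ) ≤ H * Real.log H ^ E) →
    Set.InjOn (fun o => (yj o, zj o)) (bx Y) → Set.InjOn (fun o => (yl o, zl o)) (bx Y) →
    ∀ (F1 F2 : ℕ × ℕ → ℕ × ℕ → ℝ) (K : ℕ → ℕ → ℝ), (∀ o o', |F1 o o'| ≤ 1) → (∀ o o', |F2 o o'| ≤ 1) →
    (∀ c c', |K c c'| ≤ 1) →
    |∑ om ∈ bx Y, ∑ oj ∈ (bx Y).filter (fun o => (yj o).Prime),
        ∑ ol ∈ (bx Y).filter (fun o => (yl o).Prime),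
        F1 oj om * F2 ol om * K (zj oj) (zl ol) * (jacobiSym (yl ol : ℤ) (yj oj) : ℝ)| ≤
      ε * ((Y : ℝ) ^ 2) ^ 3 / Real.log H ^ A := by
  obtain ⟨X0, hX0⟩ := blf
  obtain ⟨H1, hH1⟩ := jcore_ev (4 * E + A) (show 0 < ε * c1 ^ 4 by positivity)
  refine ⟨max (max H1 X0) (max 3 (2 / c0 + 1)), ?_⟩
  intro H hH Y hY1 hY2 yj yl zj zl hj hl hinj hinl F1 F2 K hF1 hF2 hK
  have hHa : H1 ≤ H := (le_max_left _ _).trans ((le_max_left _ _).trans hH)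
  have hHb : (X0 : ℝ) ≤ H := (le_max_right _ _).trans ((le_max_left _ _).trans hH)
  have hHc : (3 : ℝ) ≤ H := (le_max_left _ _).trans ((le_max_right _ _).trans hH)
  have hHd : 2 / c0 + 1 ≤ H := (le_max_right _ _).trans ((le_max_right _ _).trans hH)
  have hH0 : 0 < H := by linarith
  have hc0H : 2 < c0 * H := by
    have h1 : c0 * (2 / c0 + 1) ≤ c0 * H := mul_le_mul_of_nonneg_left hHd hc0.le
    have h2 : c0 * (2 / c0 + 1) = 2 + c0 := by field_simp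
    linarith
  have hL1 : 1 ≤ Real.log H := by
    rw [Real.le_log_iff_exp_le hH0]
    exact (Real.exp_one_lt_d9.le.trans (by norm_num)).trans hHc
  have hL0 : 0 < Real.log H := by linarith
  have hLE : 1 ≤ Real.log H ^ E := one_le_pow₀ hL1
  set X : ℕ := ⌊H * Real.log H ^ E⌋₊ with hXdef
  have hHL : H ≤ H * Real.log H ^ E := le_mul_of_one_le_right hH0.le hLE
  have hXX0 : X0 ≤ X := Nat.le_floor (hHb.trans hHL)
  have hXle : (X : ℝ) ≤ H * Real.log H ^ E := Nat.floor_le (by positivity)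
  have hO : ∀ (y z : ℕ × ℕ → ℕ), (∀ o ∈ bx Y, c0 * H ≤ y o ∧ (y o : ℝ) ≤ H * Real.log H ^ E ∧
      (z o : ℝ) ≤ H * Real.log H ^ E) → ∀ o ∈ (bx Y).filter (fun o => (y o).Prime),
      (y o).Prime ∧ y o ≠ 2 ∧ y o ≤ X ∧ z o ∈ range (X + 1) := by
    intro y z h o ho
    rw [mem_filter] at ho
    obtain ⟨h1, h2, h3⟩ := h o ho.1
    refine ⟨ho.2, ?_, Nat.le_floor h2, ?_⟩
    · intro h4
      rw [h4] at h1
      push_cast at h1
      linarith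
    · rw [mem_range]
      exact Nat.lt_succ_of_le (Nat.le_floor h3)
  have hB : ∀ om ∈ bx Y, |∑ oj ∈ (bx Y).filter (fun o => (yj o).Prime),
        ∑ ol ∈ (bx Y).filter (fun o => (yl o).Prime),
        F1 oj om * F2 ol om * K (zj oj) (zl ol) * (jacobiSym (yl ol : ℤ) (yj oj) : ℝ)| ≤
      ((range (X + 1)).card : ℝ) * (range (X + 1)).card * (100 * (X : ℝ) ^ ((15 : ℝ) / 8)) := by
    intro om _
    exact hX0 X hXX0 _ _ yj yl zj zl (range (X + 1)) (range (X + 1)) (hO yj zj hj) (hO yl zl hl)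
      (hinj.mono (by intro o ho; exact (mem_filter.1 ho).1))
      (hinl.mono (by intro o ho; exact (mem_filter.1 ho).1))
      (fun o => F1 o om) (fun o => F2 o om) K (fun o => hF1 o om) (fun o => hF2 o om) hK
  refine (abs_sum_le_sum_abs _ _).trans ((sum_le_sum hB).trans ?_)
  rw [sum_const, nsmul_eq_mul, jcore_bx_card, card_range, le_div_iff₀ (pow_pos hL0 A)]
  have hX1 : ((X + 1 : ℕ) : ℝ) ≤ 2 * (H * Real.log H ^ E) := by
    push_cast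
    linarith
  have hXp : (X : ℝ) ^ ((15 : ℝ) / 8) ≤ H ^ ((15 : ℝ) / 8) * Real.log H ^ (2 * E) := by
    have h1 : (X : ℝ) ^ ((15 : ℝ) / 8) ≤ (H * Real.log H ^ E) ^ ((15 : ℝ) / 8) :=
      Real.rpow_le_rpow (Nat.cast_nonneg _) hXle (by norm_num)
    rw [Real.mul_rpow hH0.le (pow_nonneg hL0.le _)] at h1
    have h2 : (Real.log H ^ E) ^ ((15 : ℝ) / 8) ≤ (Real.log H ^ E) ^ (2 : ℝ) :=
      Real.rpow_le_rpow_of_exponent_le hLE (by norm_num)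
    have h3 : (Real.log H ^ E) ^ (2 : ℝ) = Real.log H ^ (2 * E) := by
      rw [show (2 : ℝ) = ((2 : ℕ) : ℝ) by norm_num, Real.rpow_natCast, ← pow_mul, mul_comm]
    rw [h3] at h2
    exact h1.trans (mul_le_mul_of_nonneg_left h2 (Real.rpow_nonneg hH0.le _))
  have hY4 : (c1 * H) ^ 4 ≤ (Y : ℝ) ^ 4 := pow_le_pow_left₀ (by positivity) hY1 4
  have hmain : ((X + 1 : ℕ) : ℝ) * ((X + 1 : ℕ) : ℝ) * (100 * (X : ℝ) ^ ((15 : ℝ) / 8))
      * Real.log H ^ A ≤ ε * (Y : ℝ) ^ 4 := by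
    have h1 : ((X + 1 : ℕ) : ℝ) * ((X + 1 : ℕ) : ℝ)
        ≤ (2 * (H * Real.log H ^ E)) * (2 * (H * Real.log H ^ E)) :=
      mul_le_mul hX1 hX1 (Nat.cast_nonneg _) (by positivity)
    have h2 : ((X + 1 : ℕ) : ℝ) * ((X + 1 : ℕ) : ℝ) * (100 * (X : ℝ) ^ ((15 : ℝ) / 8))
        ≤ (2 * (H * Real.log H ^ E)) * (2 * (H * Real.log H ^ E))
          * (100 * (H ^ ((15 : ℝ) / 8) * Real.log H ^ (2 * E))) :=
      mul_le_mul h1 (by linarith) (by positivity) (by positivity)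
    have h3 : (2 * (H * Real.log H ^ E)) * (2 * (H * Real.log H ^ E))
          * (100 * (H ^ ((15 : ℝ) / 8) * Real.log H ^ (2 * E))) * Real.log H ^ A
        = H ^ 2 * H ^ ((15 : ℝ) / 8) * (400 * Real.log H ^ (4 * E + A)) := by ring
    have h4 := hH1 H hHa
    have h5 : H ^ 2 * H ^ ((15 : ℝ) / 8) * (400 * Real.log H ^ (4 * E + A))
        ≤ H ^ 2 * H ^ ((15 : ℝ) / 8) * (ε * c1 ^ 4 * H ^ ((1 : ℝ) / 8)) :=
      mul_le_mul_of_nonneg_left h4 (by positivity)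
    have h6 : H ^ 2 * H ^ ((15 : ℝ) / 8) * (ε * c1 ^ 4 * H ^ ((1 : ℝ) / 8))
        = ε * (c1 * H) ^ 4 := by
      have h7 : H ^ ((15 : ℝ) / 8) * H ^ ((1 : ℝ) / 8) = H ^ 2 := by
        rw [← Real.rpow_add hH0, show (15 : ℝ) / 8 + 1 / 8 = ((2 : ℕ) : ℝ) by norm_num,
          Real.rpow_natCast]
      calc H ^ 2 * H ^ ((15 : ℝ) / 8) * (ε * c1 ^ 4 * H ^ ((1 : ℝ) / 8))
          = H ^ 2 * (ε * c1 ^ 4) * (H ^ ((15 : ℝ) / 8) * H ^ ((1 : ℝ) / 8)) := by ring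
        _ = ε * (c1 * H) ^ 4 := by
            rw [h7]
            ring
    calc ((X + 1 : ℕ) : ℝ) * ((X + 1 : ℕ) : ℝ) * (100 * (X : ℝ) ^ ((15 : ℝ) / 8))
          * Real.log H ^ A
        ≤ (2 * (H * Real.log H ^ E)) * (2 * (H * Real.log H ^ E))
          * (100 * (H ^ ((15 : ℝ) / 8) * Real.log H ^ (2 * E))) * Real.log H ^ A :=
          mul_le_mul_of_nonneg_right h2 (pow_nonneg hL0.le _)
      _ = _ := h3
      _ ≤ _ := h5
      _ = _ := h6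
      _ ≤ ε * (Y : ℝ) ^ 4 := mul_le_mul_of_nonneg_left hY4 hε.le
  calc (Y : ℝ) ^ 2 * (((X + 1 : ℕ) : ℝ) * ((X + 1 : ℕ) : ℝ)
        * (100 * (X : ℝ) ^ ((15 : ℝ) / 8))) * Real.log H ^ A
      = (Y : ℝ) ^ 2 * (((X + 1 : ℕ) : ℝ) * ((X + 1 : ℕ) : ℝ)
        * (100 * (X : ℝ) ^ ((15 : ℝ) / 8)) * Real.log H ^ A) := by ring
    _ ≤ (Y : ℝ) ^ 2 * (ε * (Y : ℝ) ^ 4) := mul_le_mul_of_nonneg_left hmain (by positivity)
    _ = ε * ((Y : ℝ) ^ 2) ^ 3 := by ring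

end RcHP
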