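import Pool.Agent.Lib.MP_e426f4_ag.RC.Jcore
import Pool.Agent.Lib.MP_e426f4_ag.RC.Chi

/-!
# RC-Jone: character sums at one point

Proof. Write the sum over `prs` as a triple sum over `o 0, o 1, o 2 ∈ bx Y` with `y k` prime (a sum over `Fintype.piFinset` of functions on
`Fin 3` is a triple sum: e.g. `Fin.consEquiv`/`Finset.sum_bij'`, or `Fin.cons`).  Cases (`z k o = o.2`; `(y k, o.2)` is injective on `bx Y`,
since `be (1 + Q0 t) > 0`):
 `(b1, b2) = (1, 0)`: `e1 J(y1|y0) J(y2|y0)`: pair `j = 0`, `l = 1`, `m = 2`: symbol `J(y1|y0)`, `F1 = e1 J(y2|y0)` (function of `o 0`, `o 2`)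
 times the indicator that `y 2` is prime, `F2 = 1`, `K = 1`;
 `(0, 1)`: `e2 J(y0|y1) J(y2|y1)`: pair `j = 1`, `l = 0`, `m = 2`: symbol `J(y0|y1)`, `F1 = e2 J(y2|y1)`, `F2 = 1`;
 `(1, 1)`: `e1 e2 J(y1|y0) J(y2|y0) J(y0|y1) J(y2|y1)`: pair `j = 0`, `l = 2`, `m = 1`: symbol `J(y2|y0)`,
 `F1 = e1 e2 J(y1|y0) J(y0|y1)` (function of `o 0`, `o 1`), `F2 = J(y2|y1)` (function of `o 2`, `o 1`).
Then `jcore`.
-/

set_option autoImplicit false

namespace RcHP

open Finset TwHP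

private theorem jone_pi3 {α : Type} [DecidableEq α] (P : Fin 3 → Finset α) (G : α → α → α → ℝ) :
    ∑ o ∈ Fintype.piFinset P, G (o 0) (o 1) (o 2) = ∑ a ∈ P 0, ∑ b ∈ P 1, ∑ c ∈ P 2, G a b c := by
  have h1 : ∑ a ∈ P 0, ∑ b ∈ P 1, ∑ c ∈ P 2, G a b c =
      ∑ x ∈ P 0 ×ˢ (P 1 ×ˢ P 2), G x.1 x.2.1 x.2.2 := by
    rw [Finset.sum_product]
    refine Finset.sum_congr rfl fun a _ => ?_
    rw [Finset.sum_product]
  rw [h1]
  refine Finset.sum_bij' (fun o _ => (o 0, o 1, o 2)) (fun x _ => ![x.1, x.2.1, x.2.2]) ?_ ?_ ?_ ?_ ?_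
  · intro o ho
    rw [Fintype.mem_piFinset] at ho
    simp only [mem_product]
    exact ⟨ho 0, ho 1, ho 2⟩
  · intro x hx
    simp only [mem_product] at hx
    rw [Fintype.mem_piFinset]
    intro k
    fin_cases k
    · exact hx.1
    · exact hx.2.1
    · exact hx.2.2
  · intro o _
    funext k
    fin_cases k <;> rfl
  · intro x _
    rfl
  · intro o _
    rfl

private theorem jone_abs (a : ℤ) (b : ℕ) : |(jacobiSym a b : ℝ)| ≤ 1 := by
  rcases jacobiSym.trichotomy a b with h | h | h <;> rw [h] <;> norm_num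

private theorem jone_sgn {e : ℤ} (h : e = 1 ∨ e = -1) : |(e : ℝ)| = 1 := by
  rcases h with h | h <;> rw [h] <;> norm_num

private theorem jone_core (w Q0 E A : ℕ) (be et : Fin 3 → ℕ) (hf : ∀ k, Fmc w (be k) (et k))
    (c0 c1 ε : ℝ) (hc0 : 0 < c0) (hc1 : 0 < c1) (hε : 0 < ε) :
    ∃ H0 : ℝ, ∀ H : ℝ, H0 ≤ H → ∀ Y N : ℕ, c1 * H ≤ Y → (Y : ℝ) ≤ H →
    ∀ al : Fin 3 → ℕ → ℤ, (∀ k, Lin w Q0 (be k) (et k) E c0 H Y N (al k)) →
    ∀ t ∈ Ico N (2 * N), ∀ j l m : Fin 3, ∀ F1 F2 : ℕ × ℕ → ℕ × ℕ → ℝ,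
    (∀ o o', |F1 o o'| ≤ 1) → (∀ o o', |F2 o o'| ≤ 1) →
    |∑ om ∈ (bx Y).filter (fun o => (yv Q0 (be m) (al m) t o).Prime),
      ∑ oj ∈ (bx Y).filter (fun o => (yv Q0 (be j) (al j) t o).Prime),
      ∑ ol ∈ (bx Y).filter (fun o => (yv Q0 (be l) (al l) t o).Prime),
        F1 oj om * F2 ol om * (jacobiSym (yv Q0 (be l) (al l) t ol : ℤ) (yv Q0 (be j) (al j) t oj) : ℝ)|
      ≤ ε * ((Y : ℝ) ^ 2) ^ 3 / Real.log H ^ A := by
  obtain ⟨H0, hH0⟩ := jcore E A c0 c1 ε hc0 hc1 hε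
  refine ⟨max H0 (Real.exp 1), ?_⟩
  intro H hH Y N hY1 hY2 al hLin t ht j l m F1 F2 hF1 hF2
  have hHe : Real.exp 1 ≤ H := (le_max_right _ _).trans hH
  have hHpos : 0 < H := (Real.exp_pos 1).trans_le hHe
  have hlog : 1 ≤ Real.log H := (Real.le_log_iff_exp_le hHpos).mpr hHe
  have hlogE : 1 ≤ Real.log H ^ E := one_le_pow₀ hlog
  have hYL : (Y : ℝ) ≤ H * Real.log H ^ E := by
    calc (Y : ℝ) ≤ H := hY2
      _ = H * 1 := (mul_one H).symm
      _ ≤ H * Real.log H ^ E := by gcongr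
  have hval : ∀ k : Fin 3, ∀ o ∈ bx Y, ((yv Q0 (be k) (al k) t o : ℕ) : ℝ) =
      ((yz Q0 (be k) (al k) t o : ℤ) : ℝ) := by
    intro k o ho
    have h1 := (hLin k).lo t ht o ho
    have h2 : (0 : ℝ) < (yz Q0 (be k) (al k) t o : ℝ) := (mul_pos hc0 hHpos).trans_le h1
    have h3 : (0 : ℤ) < yz Q0 (be k) (al k) t o := by exact_mod_cast h2
    have h4 : ((yv Q0 (be k) (al k) t o : ℕ) : ℤ) = yz Q0 (be k) (al k) t o :=
      Int.toNat_of_nonneg h3.le
    exact_mod_cast congrArg (fun z : ℤ => (z : ℝ)) h4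
  have hb : ∀ k : Fin 3, ∀ o ∈ bx Y, c0 * H ≤ (yv Q0 (be k) (al k) t o : ℝ) ∧
      ((yv Q0 (be k) (al k) t o : ℕ) : ℝ) ≤ H * Real.log H ^ E ∧
      ((o.2 : ℕ) : ℝ) ≤ H * Real.log H ^ E := by
    intro k o ho
    rw [hval k o ho]
    refine ⟨(hLin k).lo t ht o ho, (hLin k).hi t ht o ho, ?_⟩
    have h5 : o.2 ≤ Y := (mem_Icc.mp (mem_product.mp ho).2).2
    exact (by exact_mod_cast h5 : (o.2 : ℝ) ≤ Y).trans hYL
  have hinj : ∀ k : Fin 3, Set.InjOn (fun o => (yv Q0 (be k) (al k) t o, o.2)) (bx Y) := by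
    intro k o ho o' ho' h
    simp only [Prod.mk.injEq] at h
    have h1 : ((yz Q0 (be k) (al k) t o : ℤ) : ℝ) = ((yz Q0 (be k) (al k) t o' : ℤ) : ℝ) := by
      rw [← hval k o ho, ← hval k o' ho', h.1]
    have h2 : yz Q0 (be k) (al k) t o = yz Q0 (be k) (al k) t o' := by exact_mod_cast h1
    unfold yz at h2
    rw [h.2] at h2
    have h3 : (be k : ℤ) * (1 + Q0 * t) * ((o.1 : ℤ) - (o'.1 : ℤ)) = 0 := by linarith
    have hbe : (0 : ℤ) < be k := by exact_mod_cast (hf k).pos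
    have h4 : (0 : ℤ) < 1 + Q0 * t := by positivity
    rcases mul_eq_zero.mp h3 with h5 | h5
    · exact absurd h5 (mul_pos hbe h4).ne'
    · have h6 : o.1 = o'.1 := by
        have : (o.1 : ℤ) = (o'.1 : ℤ) := by linarith
        exact_mod_cast this
      exact Prod.ext h6 h.2
  have hmain := hH0 H ((le_max_left _ _).trans hH) Y hY1 hY2
    (fun o => yv Q0 (be j) (al j) t o) (fun o => yv Q0 (be l) (al l) t o) (fun o => o.2)
    (fun o => o.2) (hb j) (hb l) (hinj j) (hinj l)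
    (fun o om => if (yv Q0 (be m) (al m) t om).Prime then F1 o om else 0) F2 (fun _ _ => 1)
    (by
      intro o o'
      split_ifs
      · exact hF1 o o'
      · simp) hF2 (by intro _ _; simp)
  refine le_trans (le_of_eq ?_) hmain
  congr 1
  rw [Finset.sum_filter]
  refine Finset.sum_congr rfl fun om _ => ?_
  by_cases hp : (yv Q0 (be m) (al m) t om).Prime
  · simp only [if_pos hp, mul_one]
  · simp only [if_neg hp, zero_mul, Finset.sum_const_zero]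

theorem j_one (w Q0 E A : ℕ) (be et : Fin 3 → ℕ) (hc : Cst w Q0) (hf : ∀ k, Fmc w (be k) (et k))
    (c0 c1 ε : ℝ) (hc0 : 0 < c0) (hc1 : 0 < c1) (hε : 0 < ε) :
    ∃ H0 : ℝ, ∀ H : ℝ, H0 ≤ H → ∀ Y N : ℕ, c1 * H ≤ Y → (Y : ℝ) ≤ H →
    ∀ al : Fin 3 → ℕ → ℤ, (∀ k, Lin w Q0 (be k) (et k) E c0 H Y N (al k)) →
    ∀ e1 e2 : ℤ, (e1 = 1 ∨ e1 = -1) → (e2 = 1 ∨ e2 = -1) → ∀ t ∈ Ico N (2 * N),
    ∀ b1 b2 : Bool, (b1 || b2) = true →
    |∑ o ∈ prs Q0 be al Y t, chi e1 e2 b1 b2 (yy Q0 be al t o)| ≤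
      ε * ((Y : ℝ) ^ 2) ^ 3 / Real.log H ^ A := by
  classical
  obtain ⟨H0, hH0⟩ := jone_core w Q0 E A be et hf c0 c1 ε hc0 hc1 hε
  refine ⟨H0, ?_⟩
  intro H hH Y N hY1 hY2 al hLin e1 e2 he1 he2 t ht b1 b2 hb
  set y : Fin 3 → ℕ × ℕ → ℕ := fun k o => yv Q0 (be k) (al k) t o with hy
  have hprs : prs Q0 be al Y t = Fintype.piFinset fun k => (bx Y).filter fun o => (y k o).Prime := by
    unfold prs
    apply Finset.ext
    intro o
    rw [Finset.mem_filter, Fintype.mem_piFinset, Fintype.mem_piFinset]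
    constructor
    · rintro ⟨h1, h2⟩ k
      exact Finset.mem_filter.mpr ⟨h1 k, h2 k⟩
    · intro h
      exact ⟨fun k => (Finset.mem_filter.mp (h k)).1, fun k => (Finset.mem_filter.mp (h k)).2⟩
  set G : ℕ × ℕ → ℕ × ℕ → ℕ × ℕ → ℝ := fun a b c =>
    chi e1 e2 b1 b2 ![y 0 a, y 1 b, y 2 c] with hG
  have hsum : ∑ o ∈ prs Q0 be al Y t, chi e1 e2 b1 b2 (yy Q0 be al t o) =
      ∑ a ∈ (bx Y).filter (fun o => (y 0 o).Prime), ∑ b ∈ (bx Y).filter (fun o => (y 1 o).Prime),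
        ∑ c ∈ (bx Y).filter (fun o => (y 2 o).Prime), G a b c := by
    rw [hprs, ← jone_pi3 (fun k => (bx Y).filter fun o => (y k o).Prime) G]
    refine Finset.sum_congr rfl fun o _ => ?_
    simp only [hG]
    congr 1
    funext k
    fin_cases k <;> rfl
  rw [hsum]
  have hcore := hH0 H hH Y N hY1 hY2 al hLin t ht
  cases b1 <;> cases b2
  · simp at hb
  · -- (0, 1)
    refine le_trans (le_of_eq ?_) (hcore 1 0 2
      (fun o om => (e2 : ℝ) * (jacobiSym (y 2 om : ℤ) (y 1 o) : ℝ)) (fun _ _ => 1) ?_ ?_)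
    · congr 1
      rw [Finset.sum_comm]
      rw [Finset.sum_congr rfl fun b _ => Finset.sum_comm]
      rw [Finset.sum_comm]
      refine Finset.sum_congr rfl fun c _ => Finset.sum_congr rfl fun b _ =>
        Finset.sum_congr rfl fun a _ => ?_
      simp only [hG, chi, tt2, hy]
      push_cast
      ring
    · intro o o'
      rw [abs_mul, jone_sgn he2, one_mul]
      exact jone_abs _ _
    · intro _ _; simp
  · -- (1, 0)
    refine le_trans (le_of_eq ?_) (hcore 0 1 2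
      (fun o om => (e1 : ℝ) * (jacobiSym (y 2 om : ℤ) (y 0 o) : ℝ)) (fun _ _ => 1) ?_ ?_)
    · congr 1
      rw [Finset.sum_congr rfl fun a _ => Finset.sum_comm]
      rw [Finset.sum_comm]
      refine Finset.sum_congr rfl fun c _ => Finset.sum_congr rfl fun a _ =>
        Finset.sum_congr rfl fun b _ => ?_
      simp only [hG, chi, tt1, hy]
      push_cast
      ring
    · intro o o'
      rw [abs_mul, jone_sgn he1, one_mul]
      exact jone_abs _ _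
    · intro _ _; simp
  · -- (1, 1)
    refine le_trans (le_of_eq ?_) (hcore 0 2 1
      (fun o om => (e1 : ℝ) * (e2 : ℝ) * ((jacobiSym (y 1 om : ℤ) (y 0 o) : ℝ) *
        (jacobiSym (y 0 o : ℤ) (y 1 om) : ℝ)))
      (fun o om => (jacobiSym (y 2 o : ℤ) (y 1 om) : ℝ)) ?_ ?_)
    · congr 1
      rw [Finset.sum_comm]
      refine Finset.sum_congr rfl fun b _ => Finset.sum_congr rfl fun a _ =>
        Finset.sum_congr rfl fun c _ => ?_
      simp only [hG, chi, tt1, tt2, hy]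
      push_cast
      ring
    · intro o o'
      rw [abs_mul, abs_mul, abs_mul, jone_sgn he1, jone_sgn he2, one_mul, one_mul]
      exact mul_le_one₀ (jone_abs _ _) (abs_nonneg _) (jone_abs _ _)
    · intro o o'
      exact jone_abs _ _

end RcHP
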