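import Pool.Agent.Lib.MP_e426f4_ag.RC.Jcore
import Pool.Agent.Lib.MP_e426f4_ag.RC.Chi

/-!
# RC-Jtwo: character sums at two points

Proof. `t ≠ t'`.  As in Jone (same three cases for `(b1, b2)` at `t`), with the coordinates `z k o = yv t' o` of the form `k`: the map
`o ↦ (yv t o, yv t' o)` is injective on `bx Y` (the determinant `be^2 Q0^2 (t - t')` of the two linear forms is nonzero, and the values are
positive so `toNat` loses nothing).  The character at `t'` is a product of symbols `J(y'_a | y'_b)`: those with `{a, b} = {j, l}` form the kernel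
`K(zj, zl)`, those with `{a, b} = {j, m}` go to `F1 (o j) (o m)`, those with `{l, m}` to `F2`.  The conditions that `y'_k` is prime are
indicators: put them into `F1` (`k = j` and `k = m`) and `F2` (`k = l`); the condition that `y_m(t)` is prime goes into `F1`.
Only the case `(b1, b2) ≠ (0, 0)` is stated; the other case follows by exchanging `t` and `t'`.
-/

set_option autoImplicit false

namespace RcHP

open Finset TwHP

/-- functions of product form -/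
private def Dc (j l m : Fin 3) (z : Fin 3 → ℕ × ℕ → ℕ) (g : (Fin 3 → ℕ × ℕ) → ℝ) : Prop :=
  ∃ (F1 F2 : ℕ × ℕ → ℕ × ℕ → ℝ) (K : ℕ → ℕ → ℝ), (∀ o o', |F1 o o'| ≤ 1) ∧
    (∀ o o', |F2 o o'| ≤ 1) ∧ (∀ c c', |K c c'| ≤ 1) ∧
    ∀ o, g o = F1 (o j) (o m) * F2 (o l) (o m) * K (z j (o j)) (z l (o l))

private lemma Jtwo_abs_mul {x y : ℝ} (hx : |x| ≤ 1) (hy : |y| ≤ 1) : |x * y| ≤ 1 := by
  rw [abs_mul]
  exact mul_le_one₀ hx (abs_nonneg _) hy

section Dc

variable {j l m : Fin 3} {z : Fin 3 → ℕ × ℕ → ℕ}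

private lemma Dc.mul {g g' : (Fin 3 → ℕ × ℕ) → ℝ} (h : Dc j l m z g) (h' : Dc j l m z g') :
    Dc j l m z fun o => g o * g' o := by
  obtain ⟨F1, F2, K, h1, h2, h3, h4⟩ := h
  obtain ⟨F1', F2', K', h1', h2', h3', h4'⟩ := h'
  refine ⟨fun o o' => F1 o o' * F1' o o', fun o o' => F2 o o' * F2' o o',
    fun c c' => K c c' * K' c c', fun o o' => Jtwo_abs_mul (h1 _ _) (h1' _ _),
    fun o o' => Jtwo_abs_mul (h2 _ _) (h2' _ _), fun o o' => Jtwo_abs_mul (h3 _ _) (h3' _ _),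
    fun o => ?_⟩
  beta_reduce
  rw [h4, h4']
  ring

private lemma Dc_jm (f : ℕ × ℕ → ℕ × ℕ → ℝ) (hf : ∀ o o', |f o o'| ≤ 1) :
    Dc j l m z fun o => f (o j) (o m) :=
  ⟨f, fun _ _ => 1, fun _ _ => 1, hf, by simp, by simp, fun o => by ring⟩

private lemma Dc_lm (f : ℕ × ℕ → ℕ × ℕ → ℝ) (hf : ∀ o o', |f o o'| ≤ 1) :
    Dc j l m z fun o => f (o l) (o m) :=
  ⟨fun _ _ => 1, f, fun _ _ => 1, by simp, hf, by simp, fun o => by ring⟩

private lemma Dc_jl (f : ℕ → ℕ → ℝ) (hf : ∀ o o', |f o o'| ≤ 1) :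
    Dc j l m z fun o => f (z j (o j)) (z l (o l)) :=
  ⟨fun _ _ => 1, fun _ _ => 1, f, by simp, by simp, hf, fun o => by ring⟩

private lemma Dc_const {c : ℝ} (hc : |c| ≤ 1) : Dc j l m z fun _ => c :=
  Dc_jm (fun _ _ => c) fun _ _ => hc

private lemma Dc_single (hk : ∀ k, k = m ∨ k = j ∨ k = l) (k : Fin 3) (f : ℕ × ℕ → ℝ)
    (hf : ∀ o, |f o| ≤ 1) : Dc j l m z fun o => f (o k) := by
  rcases hk k with rfl | rfl | rfl
  · exact Dc_jm (fun _ o => f o) fun _ o => hf o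
  · exact Dc_jm (fun o _ => f o) fun o _ => hf o
  · exact Dc_lm (fun o _ => f o) fun o _ => hf o

private lemma Jtwo_jac (a : ℤ) (b : ℕ) : |(jacobiSym a b : ℝ)| ≤ 1 := by
  rcases jacobiSym.trichotomy a b with h | h | h <;> rw [h] <;> norm_num

private lemma Dc_jac (hk : ∀ k, k = m ∨ k = j ∨ k = l) {a b : Fin 3} (hab : a ≠ b) :
    Dc j l m z fun o => (jacobiSym (z a (o a) : ℤ) (z b (o b)) : ℝ) := by
  rcases hk a with ha | ha | ha <;> rcases hk b with hb | hb | hb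
  · exact absurd (ha.trans hb.symm) hab
  · rw [ha, hb]
    exact Dc_jm (fun o o' => (jacobiSym (z m o' : ℤ) (z j o) : ℝ)) fun _ _ => Jtwo_jac _ _
  · rw [ha, hb]
    exact Dc_lm (fun o o' => (jacobiSym (z m o' : ℤ) (z l o) : ℝ)) fun _ _ => Jtwo_jac _ _
  · rw [ha, hb]
    exact Dc_jm (fun o o' => (jacobiSym (z j o : ℤ) (z m o') : ℝ)) fun _ _ => Jtwo_jac _ _
  · exact absurd (ha.trans hb.symm) hab
  · rw [ha, hb]
    exact Dc_jl (fun c c' => (jacobiSym (c : ℤ) c' : ℝ)) fun _ _ => Jtwo_jac _ _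
  · rw [ha, hb]
    exact Dc_lm (fun o o' => (jacobiSym (z l o : ℤ) (z m o') : ℝ)) fun _ _ => Jtwo_jac _ _
  · rw [ha, hb]
    exact Dc_jl (fun c c' => (jacobiSym (c' : ℤ) c : ℝ)) fun _ _ => Jtwo_jac _ _
  · exact absurd (ha.trans hb.symm) hab

/-- symbols between the forms `m` and `k` -/
private lemma Dc_jacm (hk : ∀ k, k = m ∨ k = j ∨ k = l) (y : Fin 3 → ℕ × ℕ → ℕ) {a b : Fin 3}
    (hab : a ≠ b) (hm : a = m ∨ b = m) :
    Dc j l m z fun o => (jacobiSym (y a (o a) : ℤ) (y b (o b)) : ℝ) := by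
  rcases hm with hm | hm
  · rcases hk b with hb | hb | hb
    · exact absurd (hm.trans hb.symm) hab
    · rw [hm, hb]
      exact Dc_jm (fun o o' => (jacobiSym (y m o' : ℤ) (y j o) : ℝ)) fun _ _ => Jtwo_jac _ _
    · rw [hm, hb]
      exact Dc_lm (fun o o' => (jacobiSym (y m o' : ℤ) (y l o) : ℝ)) fun _ _ => Jtwo_jac _ _
  · rcases hk a with ha | ha | ha
    · exact absurd (ha.trans hm.symm) hab
    · rw [hm, ha]
      exact Dc_jm (fun o o' => (jacobiSym (y j o : ℤ) (y m o') : ℝ)) fun _ _ => Jtwo_jac _ _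
    · rw [hm, ha]
      exact Dc_lm (fun o o' => (jacobiSym (y l o : ℤ) (y m o') : ℝ)) fun _ _ => Jtwo_jac _ _

private lemma Jtwo_e {e : ℤ} (he : e = 1 ∨ e = -1) : |(e : ℝ)| ≤ 1 := by
  rcases he with rfl | rfl <;> norm_num

private lemma Dc_chi (hk : ∀ k, k = m ∨ k = j ∨ k = l) {e1 e2 : ℤ} (he1 : e1 = 1 ∨ e1 = -1)
    (he2 : e2 = 1 ∨ e2 = -1) (c1 c2 : Bool) :
    Dc j l m z fun o => chi e1 e2 c1 c2 fun k => z k (o k) := by
  have h1 : Dc j l m z fun o => ((tt1 e1 fun k => z k (o k) : ℤ) : ℝ) := by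
    have := (Dc_const (j := j) (l := l) (m := m) (z := z) (Jtwo_e he1)).mul
      ((Dc_jac hk (show (1 : Fin 3) ≠ 0 by decide)).mul
        (Dc_jac (z := z) hk (show (2 : Fin 3) ≠ 0 by decide)))
    convert this using 2 with o
    unfold tt1
    push_cast
    rfl
  have h2 : Dc j l m z fun o => ((tt2 e2 fun k => z k (o k) : ℤ) : ℝ) := by
    have := (Dc_const (j := j) (l := l) (m := m) (z := z) (Jtwo_e he2)).mul
      ((Dc_jac hk (show (0 : Fin 3) ≠ 1 by decide)).mul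
        (Dc_jac (z := z) hk (show (2 : Fin 3) ≠ 1 by decide)))
    convert this using 2 with o
    unfold tt2
    push_cast
    rfl
  have h0 : Dc j l m z fun _ => (1 : ℝ) := Dc_const (by simp)
  have h3 : Dc j l m z fun o => ((if c1 then tt1 e1 (fun k => z k (o k)) else 1 : ℤ) : ℝ) := by
    cases c1
    · simpa using h0
    · simpa using h1
  have h4 : Dc j l m z fun o => ((if c2 then tt2 e2 (fun k => z k (o k)) else 1 : ℤ) : ℝ) := by
    cases c2
    · simpa using h0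
    · simpa using h2
  have h5 := h3.mul h4
  convert h5 using 2 with o
  unfold chi
  push_cast
  rfl

end Dc

/-- the sum over the triples -/
private lemma Jtwo_sum (Y : ℕ) {j l m : Fin 3} (hjl : j ≠ l) (hjm : j ≠ m) (hlm : l ≠ m)
    (hk : ∀ k, k = m ∨ k = j ∨ k = l) (G : ℕ × ℕ → ℕ × ℕ → ℕ × ℕ → ℝ) :
    ∑ o ∈ Fintype.piFinset (fun _ : Fin 3 => bx Y), G (o m) (o j) (o l) =
      ∑ om ∈ bx Y, ∑ oj ∈ bx Y, ∑ ol ∈ bx Y, G om oj ol := by
  have e : ∀ om ∈ bx Y, ∑ oj ∈ bx Y, ∑ ol ∈ bx Y, G om oj ol =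
      ∑ p ∈ bx Y ×ˢ bx Y, G om p.1 p.2 := fun om _ => (Finset.sum_product' _ _ _).symm
  rw [Finset.sum_congr rfl e, ← Finset.sum_product' (bx Y) (bx Y ×ˢ bx Y)
    (fun om p => G om p.1 p.2)]
  refine Finset.sum_bij' (fun o _ => (o m, (o j, o l)))
    (fun p _ k => if k = m then p.1 else if k = j then p.2.1 else p.2.2) ?_ ?_ ?_ ?_ ?_
  · intro o ho
    rw [Fintype.mem_piFinset] at ho
    exact Finset.mem_product.2 ⟨ho m, Finset.mem_product.2 ⟨ho j, ho l⟩⟩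
  · intro p hp
    rw [Finset.mem_product, Finset.mem_product] at hp
    rw [Fintype.mem_piFinset]
    intro k
    split_ifs
    · exact hp.1
    · exact hp.2.1
    · exact hp.2.2
  · intro o _
    funext k
    rcases hk k with h | h | h
    · simp [h]
    · simp [h, hjm]
    · simp [h, hlm, hjl.symm]
  · intro p _
    simp [hjm, hlm, hjl.symm]
  · intro o _
    rfl

private lemma Jtwo_ind (p : Prop) [Decidable p] : |(if p then (1 : ℝ) else 0)| ≤ 1 := by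
  split_ifs <;> norm_num

/-- the bound, for a symbol between the forms `j` and `l` -/
private lemma Jtwo_case {Q0 Y t t' : ℕ} {be : Fin 3 → ℕ} {al : Fin 3 → ℕ → ℤ} {j l m : Fin 3}
    (hjl : j ≠ l) (hjm : j ≠ m) (hlm : l ≠ m) (hk : ∀ k, k = m ∨ k = j ∨ k = l) {e1 e2 : ℤ}
    (he1 : e1 = 1 ∨ e1 = -1) (he2 : e2 = 1 ∨ e2 = -1) {b1 b2 c1' c2' : Bool}
    {q : (Fin 3 → ℕ × ℕ) → ℝ} (hq : Dc j l m (fun k => yv Q0 (be k) (al k) t') q)
    (hchi : ∀ o, chi e1 e2 b1 b2 (yy Q0 be al t o) =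
      q o * (jacobiSym (yv Q0 (be l) (al l) t (o l) : ℤ) (yv Q0 (be j) (al j) t (o j)) : ℝ))
    {B : ℝ}
    (hJ : ∀ (F1 F2 : ℕ × ℕ → ℕ × ℕ → ℝ) (K : ℕ → ℕ → ℝ), (∀ o o', |F1 o o'| ≤ 1) →
      (∀ o o', |F2 o o'| ≤ 1) → (∀ c c', |K c c'| ≤ 1) →
      |∑ om ∈ bx Y, ∑ oj ∈ (bx Y).filter (fun o => (yv Q0 (be j) (al j) t o).Prime),
          ∑ ol ∈ (bx Y).filter (fun o => (yv Q0 (be l) (al l) t o).Prime),
          F1 oj om * F2 ol om * K (yv Q0 (be j) (al j) t' oj) (yv Q0 (be l) (al l) t' ol) *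
            (jacobiSym (yv Q0 (be l) (al l) t ol : ℤ) (yv Q0 (be j) (al j) t oj) : ℝ)| ≤ B) :
    |∑ o ∈ prs Q0 be al Y t ∩ prs Q0 be al Y t',
      chi e1 e2 b1 b2 (yy Q0 be al t o) * chi e1 e2 c1' c2' (yy Q0 be al t' o)| ≤ B := by
  classical
  have hD := (((Dc_single (j := j) (l := l) (m := m) (z := fun k => yv Q0 (be k) (al k) t') hk m
      (fun o => if (yv Q0 (be m) (al m) t o).Prime then (1 : ℝ) else 0)
      (fun o => Jtwo_ind _)).mul (hq.mul (Dc_chi hk he1 he2 c1' c2'))).mul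
    (Dc_single (j := j) (l := l) (m := m) (z := fun k => yv Q0 (be k) (al k) t') hk 0
      (fun o => if (yv Q0 (be 0) (al 0) t' o).Prime then (1 : ℝ) else 0)
      (fun o => Jtwo_ind _))).mul
    ((Dc_single (j := j) (l := l) (m := m) (z := fun k => yv Q0 (be k) (al k) t') hk 1
      (fun o => if (yv Q0 (be 1) (al 1) t' o).Prime then (1 : ℝ) else 0)
      (fun o => Jtwo_ind _)).mul
    (Dc_single (j := j) (l := l) (m := m) (z := fun k => yv Q0 (be k) (al k) t') hk 2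
      (fun o => if (yv Q0 (be 2) (al 2) t' o).Prime then (1 : ℝ) else 0)
      (fun o => Jtwo_ind _)))
  obtain ⟨F1, F2, K, hF1, hF2, hK, hg⟩ := hD
  have hB := hJ F1 F2 K hF1 hF2 hK
  refine le_trans (le_of_eq ?_) hB
  congr 1
  have e1' : prs Q0 be al Y t ∩ prs Q0 be al Y t' =
      (Fintype.piFinset fun _ : Fin 3 => bx Y).filter fun o =>
        (∀ k, (yy Q0 be al t o k).Prime) ∧ ∀ k, (yy Q0 be al t' o k).Prime := by
    ext o
    unfold prs
    rw [Finset.mem_inter, Finset.mem_filter, Finset.mem_filter, Finset.mem_filter]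
    tauto
  rw [e1', Finset.sum_filter]
  have e2' : ∀ o ∈ Fintype.piFinset (fun _ : Fin 3 => bx Y),
      (if (∀ k, (yy Q0 be al t o k).Prime) ∧ ∀ k, (yy Q0 be al t' o k).Prime then
        chi e1 e2 b1 b2 (yy Q0 be al t o) * chi e1 e2 c1' c2' (yy Q0 be al t' o) else 0) =
      (fun om oj ol => if (yv Q0 (be j) (al j) t oj).Prime then
        (if (yv Q0 (be l) (al l) t ol).Prime then
          F1 oj om * F2 ol om * K (yv Q0 (be j) (al j) t' oj) (yv Q0 (be l) (al l) t' ol) *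
            (jacobiSym (yv Q0 (be l) (al l) t ol : ℤ) (yv Q0 (be j) (al j) t oj) : ℝ)
        else 0) else 0) (o m) (o j) (o l) := by
    intro o _
    simp only
    have h1 := hg o
    simp only at h1
    rw [← h1, hchi o]
    have hc : chi e1 e2 c1' c2' (yy Q0 be al t' o) =
        chi e1 e2 c1' c2' fun k => yv Q0 (be k) (al k) t' (o k) := rfl
    rw [hc]
    have hall : (∀ k, (yy Q0 be al t o k).Prime) ↔ (yv Q0 (be m) (al m) t (o m)).Prime ∧
        (yv Q0 (be j) (al j) t (o j)).Prime ∧ (yv Q0 (be l) (al l) t (o l)).Prime := by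
      constructor
      · intro h
        exact ⟨h m, h j, h l⟩
      · rintro ⟨h1, h2, h3⟩ k
        rcases hk k with rfl | rfl | rfl
        · exact h1
        · exact h2
        · exact h3
    have hall' : (∀ k, (yy Q0 be al t' o k).Prime) ↔ (yv Q0 (be 0) (al 0) t' (o 0)).Prime ∧
        (yv Q0 (be 1) (al 1) t' (o 1)).Prime ∧ (yv Q0 (be 2) (al 2) t' (o 2)).Prime := by
      constructor
      · intro h
        exact ⟨h 0, h 1, h 2⟩
      · rintro ⟨h1, h2, h3⟩ k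
        fin_cases k
        · exact h1
        · exact h2
        · exact h3
    simp only [hall, hall']
    by_cases hm : (yv Q0 (be m) (al m) t (o m)).Prime <;>
      by_cases hj : (yv Q0 (be j) (al j) t (o j)).Prime <;>
      by_cases hl : (yv Q0 (be l) (al l) t (o l)).Prime <;>
      by_cases h0 : (yv Q0 (be 0) (al 0) t' (o 0)).Prime <;>
      by_cases h1' : (yv Q0 (be 1) (al 1) t' (o 1)).Prime <;>
      by_cases h2' : (yv Q0 (be 2) (al 2) t' (o 2)).Prime <;>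
      simp [hm, hj, hl, h0, h1', h2', mul_comm, mul_left_comm, mul_assoc]
  refine (Finset.sum_congr rfl e2').trans ((Jtwo_sum Y hjl hjm hlm hk fun om oj ol =>
    if (yv Q0 (be j) (al j) t oj).Prime then
        (if (yv Q0 (be l) (al l) t ol).Prime then
          F1 oj om * F2 ol om * K (yv Q0 (be j) (al j) t' oj) (yv Q0 (be l) (al l) t' ol) *
            (jacobiSym (yv Q0 (be l) (al l) t ol : ℤ) (yv Q0 (be j) (al j) t oj) : ℝ)
        else 0) else 0).trans ?_)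
  refine Finset.sum_congr rfl fun om _ => ?_
  rw [Finset.sum_filter]
  refine Finset.sum_congr rfl fun oj _ => ?_
  by_cases hj : (yv Q0 (be j) (al j) t oj).Prime
  · simp only [if_pos hj]
    rw [Finset.sum_filter]
  · simp only [if_neg hj, Finset.sum_const_zero]

theorem j_two (w Q0 E A : ℕ) (be et : Fin 3 → ℕ) (hc : Cst w Q0) (hf : ∀ k, Fmc w (be k) (et k))
    (c0 c1 ε : ℝ) (hc0 : 0 < c0) (hc1 : 0 < c1) (hε : 0 < ε) :
    ∃ H0 : ℝ, ∀ H : ℝ, H0 ≤ H → ∀ Y N : ℕ, c1 * H ≤ Y → (Y : ℝ) ≤ H →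
    ∀ al : Fin 3 → ℕ → ℤ, (∀ k, Lin w Q0 (be k) (et k) E c0 H Y N (al k)) →
    ∀ e1 e2 : ℤ, (e1 = 1 ∨ e1 = -1) → (e2 = 1 ∨ e2 = -1) → ∀ t ∈ Ico N (2 * N), ∀ t' ∈ Ico N (2 * N),
    t ≠ t' → ∀ b1 b2 c1' c2' : Bool, (b1 || b2) = true →
    |∑ o ∈ prs Q0 be al Y t ∩ prs Q0 be al Y t',
      chi e1 e2 b1 b2 (yy Q0 be al t o) * chi e1 e2 c1' c2' (yy Q0 be al t' o)| ≤
      ε * ((Y : ℝ) ^ 2) ^ 3 / Real.log H ^ A := by
  obtain ⟨H0, hH0⟩ := jcore E A c0 c1 ε hc0 hc1 hε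
  refine ⟨max H0 1, ?_⟩
  intro H hH Y N hY1 hY2 al hL e1 e2 he1 he2 t ht t' ht' htt b1 b2 c1' c2' hb
  have hHpos : 0 < H := lt_of_lt_of_le one_pos ((le_max_right _ _).trans hH)
  have hzpos : ∀ k, ∀ s ∈ Ico N (2 * N), ∀ o ∈ bx Y, 0 < yz Q0 (be k) (al k) s o := by
    intro k s hs o ho
    have h1 := (hL k).lo s hs o ho
    have h2 : (0 : ℝ) < (yz Q0 (be k) (al k) s o : ℝ) := lt_of_lt_of_le (mul_pos hc0 hHpos) h1
    exact_mod_cast h2
  have hyz : ∀ k, ∀ s ∈ Ico N (2 * N), ∀ o ∈ bx Y,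
      ((yv Q0 (be k) (al k) s o : ℕ) : ℤ) = yz Q0 (be k) (al k) s o := fun k s hs o ho =>
    Int.toNat_of_nonneg (hzpos k s hs o ho).le
  have hyr : ∀ k, ∀ s ∈ Ico N (2 * N), ∀ o ∈ bx Y,
      ((yv Q0 (be k) (al k) s o : ℕ) : ℝ) = (yz Q0 (be k) (al k) s o : ℝ) := by
    intro k s hs o ho
    rw [← hyz k s hs o ho]
    push_cast
    rfl
  have hlo : ∀ k, ∀ s ∈ Ico N (2 * N), ∀ o ∈ bx Y, c0 * H ≤ (yv Q0 (be k) (al k) s o : ℝ) := by
    intro k s hs o ho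
    rw [hyr k s hs o ho]
    exact (hL k).lo s hs o ho
  have hhi : ∀ k, ∀ s ∈ Ico N (2 * N), ∀ o ∈ bx Y,
      (yv Q0 (be k) (al k) s o : ℝ) ≤ H * Real.log H ^ E := by
    intro k s hs o ho
    rw [hyr k s hs o ho]
    exact (hL k).hi s hs o ho
  have hinj : ∀ k, Set.InjOn (fun o => (yv Q0 (be k) (al k) t o, yv Q0 (be k) (al k) t' o))
      (bx Y) := by
    intro k o ho o2 ho2 heq
    rw [Prod.mk.injEq] at heq
    obtain ⟨h1, h2⟩ := heq
    have ho' : o ∈ bx Y := ho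
    have ho2' : o2 ∈ bx Y := ho2
    have g1 : yz Q0 (be k) (al k) t o = yz Q0 (be k) (al k) t o2 := by
      rw [← hyz k t ht o ho', ← hyz k t ht o2 ho2', h1]
    have g2 : yz Q0 (be k) (al k) t' o = yz Q0 (be k) (al k) t' o2 := by
      rw [← hyz k t' ht' o ho', ← hyz k t' ht' o2 ho2', h2]
    unfold yz at g1 g2
    have hb0 : (be k : ℤ) ≠ 0 := by
      have := (hf k).pos
      omega
    have hQ : (Q0 : ℤ) ≠ 0 := by
      have := hc.pos
      omega
    have htz : (t : ℤ) - t' ≠ 0 := by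
      intro h
      exact htt (by omega)
    have g1' : ((o.1 : ℤ) - o2.1) * (1 + Q0 * t) + Q0 * ((o.2 : ℤ) - o2.2) = 0 := by
      have : (be k : ℤ) * (((o.1 : ℤ) - o2.1) * (1 + Q0 * t) + Q0 * ((o.2 : ℤ) - o2.2)) = 0 := by
        linear_combination g1
      exact (mul_eq_zero.1 this).resolve_left hb0
    have g2' : ((o.1 : ℤ) - o2.1) * (1 + Q0 * t') + Q0 * ((o.2 : ℤ) - o2.2) = 0 := by
      have : (be k : ℤ) * (((o.1 : ℤ) - o2.1) * (1 + Q0 * t') + Q0 * ((o.2 : ℤ) - o2.2)) = 0 := by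
        linear_combination g2
      exact (mul_eq_zero.1 this).resolve_left hb0
    have g3 : ((o.1 : ℤ) - o2.1) * ((Q0 : ℤ) * ((t : ℤ) - t')) = 0 := by
      linear_combination g1' - g2'
    have g4 : (o.1 : ℤ) - o2.1 = 0 :=
      (mul_eq_zero.1 g3).resolve_right (mul_ne_zero hQ htz)
    rw [g4, zero_mul, zero_add] at g1'
    have g5 : (o.2 : ℤ) - o2.2 = 0 := (mul_eq_zero.1 g1').resolve_left hQ
    exact Prod.ext (by omega) (by omega)
  have hJ : ∀ j l : Fin 3, ∀ (F1 F2 : ℕ × ℕ → ℕ × ℕ → ℝ) (K : ℕ → ℕ → ℝ),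
      (∀ o o', |F1 o o'| ≤ 1) → (∀ o o', |F2 o o'| ≤ 1) → (∀ c c', |K c c'| ≤ 1) →
      |∑ om ∈ bx Y, ∑ oj ∈ (bx Y).filter (fun o => (yv Q0 (be j) (al j) t o).Prime),
          ∑ ol ∈ (bx Y).filter (fun o => (yv Q0 (be l) (al l) t o).Prime),
          F1 oj om * F2 ol om * K (yv Q0 (be j) (al j) t' oj) (yv Q0 (be l) (al l) t' ol) *
            (jacobiSym (yv Q0 (be l) (al l) t ol : ℤ) (yv Q0 (be j) (al j) t oj) : ℝ)| ≤
        ε * ((Y : ℝ) ^ 2) ^ 3 / Real.log H ^ A := fun j l =>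
    hH0 H ((le_max_left _ _).trans hH) Y hY1 hY2 _ _ _ _
      (fun o ho => ⟨hlo j t ht o ho, hhi j t ht o ho, hhi j t' ht' o ho⟩)
      (fun o ho => ⟨hlo l t ht o ho, hhi l t ht o ho, hhi l t' ht' o ho⟩) (hinj j) (hinj l)
  cases b1 <;> cases b2
  · exact absurd hb (by decide)
  · -- `j = 1`, `l = 0`, `m = 2`
    have hk : ∀ k : Fin 3, k = 2 ∨ k = 1 ∨ k = 0 := by decide
    refine Jtwo_case (j := 1) (l := 0) (m := 2) (by decide) (by decide) (by decide) hk he1 he2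
      (q := fun o => (e2 : ℝ) * (jacobiSym (yv Q0 (be 2) (al 2) t (o 2) : ℤ)
        (yv Q0 (be 1) (al 1) t (o 1)) : ℝ)) ?_ ?_ (hJ 1 0)
    · exact (Dc_const (Jtwo_e he2)).mul
        (Dc_jacm hk (fun k => yv Q0 (be k) (al k) t) (by decide) (Or.inl rfl))
    · intro o
      simp only [chi, tt1, tt2, yy]
      push_cast
      simp
      ring
  · -- `j = 0`, `l = 1`, `m = 2`
    have hk : ∀ k : Fin 3, k = 2 ∨ k = 0 ∨ k = 1 := by decide
    refine Jtwo_case (j := 0) (l := 1) (m := 2) (by decide) (by decide) (by decide) hk he1 he2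
      (q := fun o => (e1 : ℝ) * (jacobiSym (yv Q0 (be 2) (al 2) t (o 2) : ℤ)
        (yv Q0 (be 0) (al 0) t (o 0)) : ℝ)) ?_ ?_ (hJ 0 1)
    · exact (Dc_const (Jtwo_e he1)).mul
        (Dc_jacm hk (fun k => yv Q0 (be k) (al k) t) (by decide) (Or.inl rfl))
    · intro o
      simp only [chi, tt1, tt2, yy]
      push_cast
      simp
      ring
  · -- `j = 0`, `l = 2`, `m = 1`
    have hk : ∀ k : Fin 3, k = 1 ∨ k = 0 ∨ k = 2 := by decide
    refine Jtwo_case (j := 0) (l := 2) (m := 1) (by decide) (by decide) (by decide) hk he1 he2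
      (q := fun o => ((e1 : ℝ) * (e2 : ℝ)) *
        ((jacobiSym (yv Q0 (be 1) (al 1) t (o 1) : ℤ) (yv Q0 (be 0) (al 0) t (o 0)) : ℝ) *
        ((jacobiSym (yv Q0 (be 0) (al 0) t (o 0) : ℤ) (yv Q0 (be 1) (al 1) t (o 1)) : ℝ) *
        (jacobiSym (yv Q0 (be 2) (al 2) t (o 2) : ℤ) (yv Q0 (be 1) (al 1) t (o 1)) : ℝ))))
      ?_ ?_ (hJ 0 2)
    · exact (Dc_const (Jtwo_abs_mul (Jtwo_e he1) (Jtwo_e he2))).mul
        ((Dc_jacm hk (fun k => yv Q0 (be k) (al k) t) (by decide) (Or.inl rfl)).mul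
          ((Dc_jacm hk (fun k => yv Q0 (be k) (al k) t) (by decide) (Or.inr rfl)).mul
            (Dc_jacm hk (fun k => yv Q0 (be k) (al k) t) (by decide) (Or.inr rfl))))
    · intro o
      simp only [chi, tt1, tt2, yy]
      push_cast
      ring

end RcHP
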