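import Pool.Agent.Lib.MP_e426f4_ag.P.Alg

/-!
# RC-SubC: conditions on a subsystem

Proof. A system `A` in the box is the same as its subsystem `A ∘ em` (in the box of the subsystem) together with the remaining rows, i.e. the restriction to the
`j` outside the range of `em`: `{A ∈ pbox n d H : A ∘ em ∈ S}` injects into `S' × (box of the remaining coefficients)`, where `S' = S ∩ pbox`, and the second box has
`(2H+1)^(∑_{j ∉ range em} NM n (d j))` elements.  `NP n d = ∑_j NM n (d j) = NP n (d ∘ em) + ∑_{j ∉ range em} NM n (d j)`.  (`Set.ncard_prod`, `Set.ncard_le_ncard_of_injOn`;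
`pbox_eq_pi`, `card_MBox` in `P/Alg.lean`, `M/Alg.lean`.)
-/

set_option autoImplicit false

namespace RcHP

open Finset Filter Topology GenHP CIPHP

open Classical in
theorem SubC_NP {ι : Type} [Fintype ι] [DecidableEq ι] {n : ι → ℕ} {m b : ℕ} (d : Fin m → ι → ℕ)
    (em : Fin b → Fin m) (hem : Function.Injective em) :
    NP n d = NP n (fun j => d (em j)) + ∑ j : {j : Fin m // j ∉ Set.range em}, NM n (d j) := by
  unfold NP
  rw [← Finset.sum_add_sum_compl (Finset.univ.image em) (fun j => NM n (d j)),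
    Finset.sum_image (fun x _ y _ h => hem h)]
  congr 1
  exact Finset.sum_subtype _ (fun x => by simp) _

open Classical in
theorem SubC_aux {ι : Type} [Fintype ι] [DecidableEq ι] {n : ι → ℕ} {m b : ℕ} (d : Fin m → ι → ℕ)
    (em : Fin b → Fin m) (hem : Function.Injective em)
    (S : Set (PSys n (fun j => d (em j)) ℤ)) (H : ℕ) (c : ℝ)
    (hc : (Set.ncard {A : PSys n (fun j => d (em j)) ℤ | A ∈ pbox n (fun j => d (em j)) H ∧ A ∈ S} : ℝ) ≤
      c * (2 * H + 1) ^ NP n (fun j => d (em j))) :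
    (Set.ncard {A : PSys n d ℤ | A ∈ pbox n d H ∧ (fun j => A (em j) : PSys n (fun j => d (em j)) ℤ) ∈ S} : ℝ) ≤
      c * (2 * H + 1) ^ NP n d := by
  have hfin : {A : PSys n (fun j => d (em j)) ℤ |
      A ∈ pbox n (fun j => d (em j)) H ∧ A ∈ S}.Finite := pbox_finite H fun A => A ∈ S
  set R : Finset ((j : {j : Fin m // j ∉ Set.range em}) → MIdx n (d j) → ℤ) :=
    Fintype.piFinset fun j => MBox n (d j) H with hR
  have hRcard : R.card = (2 * H + 1) ^ ∑ j : {j : Fin m // j ∉ Set.range em}, NM n (d j) := by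
    rw [hR, Fintype.card_piFinset, ← Finset.prod_pow_eq_pow_sum]
    exact Finset.prod_congr rfl fun j _ => card_MBox n (d j) H
  have hle : (Set.ncard {A : PSys n d ℤ | A ∈ pbox n d H ∧
      (fun j => A (em j) : PSys n (fun j => d (em j)) ℤ) ∈ S}) ≤ (hfin.toFinset ×ˢ R).card := by
    rw [← Set.ncard_coe_finset]
    refine Set.ncard_le_ncard_of_injOn
      (fun A => ((fun j => A (em j) : PSys n (fun j => d (em j)) ℤ), fun j => A j.1)) ?_ ?_
      (Finset.finite_toSet _)
    · rintro A ⟨hA, hS⟩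
      simp only [coe_product, Set.mem_prod, mem_coe, Set.Finite.mem_toFinset]
      refine ⟨⟨fun j t => hA (em j) t, hS⟩, ?_⟩
      rw [hR, Fintype.mem_piFinset]
      intro j
      rw [mem_MBox]
      exact fun t => hA j.1 t
    · rintro A _ A' _ h
      simp only [Prod.mk.injEq] at h
      funext j
      by_cases hj : j ∈ Set.range em
      · obtain ⟨i, rfl⟩ := hj
        exact congrFun h.1 i
      · exact congrFun h.2 ⟨j, hj⟩
  calc (Set.ncard {A : PSys n d ℤ | A ∈ pbox n d H ∧
      (fun j => A (em j) : PSys n (fun j => d (em j)) ℤ) ∈ S} : ℝ)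
      ≤ ((hfin.toFinset ×ˢ R).card : ℝ) := by exact_mod_cast hle
    _ = (Set.ncard {A : PSys n (fun j => d (em j)) ℤ |
        A ∈ pbox n (fun j => d (em j)) H ∧ A ∈ S} : ℝ) *
        (2 * H + 1) ^ ∑ j : {j : Fin m // j ∉ Set.range em}, NM n (d j) := by
        rw [Finset.card_product, hRcard, Set.ncard_eq_toFinset_card _ hfin]
        push_cast
        ring
    _ ≤ (c * (2 * H + 1) ^ NP n (fun j => d (em j))) *
        (2 * H + 1) ^ ∑ j : {j : Fin m // j ∉ Set.range em}, NM n (d j) :=
        mul_le_mul_of_nonneg_right hc (by positivity)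
    _ = c * (2 * H + 1) ^ NP n d := by
        rw [SubC_NP d em hem, pow_add]
        ring

theorem sub_count {ι : Type} [Fintype ι] [DecidableEq ι] {n : ι → ℕ} {m b : ℕ} (d : Fin m → ι → ℕ)
    (em : Fin b → Fin m) (hem : Function.Injective em)
    (S : Set (PSys n (fun j => d (em j)) ℤ)) (H : ℕ) (c : ℝ)
    (hc : (Set.ncard {A : PSys n (fun j => d (em j)) ℤ | A ∈ pbox n (fun j => d (em j)) H ∧ A ∈ S} : ℝ) ≤
      c * (2 * H + 1) ^ NP n (fun j => d (em j))) :
    (Set.ncard {A : PSys n d ℤ | A ∈ pbox n d H ∧ (fun j => A (em j) : PSys n (fun j => d (em j)) ℤ) ∈ S} : ℝ) ≤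
      c * (2 * H + 1) ^ NP n d :=
  SubC_aux d em hem S H c hc

end RcHP
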